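import Pool.Agent.Y736.HL8

set_option autoImplicit false

/-! # Logarithmic moduli of continuity of the boundary values of the exterior map -/

namespace Pool.Agent.Y736.ML

open Complex Metric Set Filter Topology Pool.Agent.H712R2 Pool.Agent.H713R2 N62a1eb23
open Pool.Agent.Y736.HL

/-- the function `x (F (1/x) - F ζ)` in the unit disc -/
theorem exists_H {ψ F : ℂ → ℂ} (hψ : IsExteriorMap (multibrotSet 2) ψ)
    (hF : ContinuousOn F {z | 1 ≤ ‖z‖}) (hE : ∀ w, 1 < ‖w‖ → F w = ψ w) {ζ : ℂ} (hζ : ‖ζ‖ = 1) :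
    ∃ H : ℂ → ℂ, ContinuousOn H (closedBall 0 1) ∧ DifferentiableOn ℂ H (ball 0 1) ∧
      (∀ x, ‖x‖ = 1 → ‖H x‖ = ‖F x⁻¹ - F ζ‖) ∧
      ∀ r : ℝ, 1 < r → ‖ψ (r * ζ) - F ζ‖ = r * ‖H (r * ζ)⁻¹‖ := by
  obtain ⟨β, hβ⟩ := exists_beta (d := 2) le_rfl
  have hζ0 : ζ ≠ 0 := by
    rintro rfl
    rw [norm_zero] at hζ
    exact one_ne_zero hζ.symm
  obtain ⟨H, hH⟩ : ∃ H : ℂ → ℂ, H = fun x => if x = 0 then 1 else x * (F x⁻¹ - F ζ) := ⟨_, rfl⟩
  have hHb : ∀ x ∈ ball (0 : ℂ) 1, H x = β x - x * F ζ := by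
    intro x hx
    rw [hH]
    simp only
    by_cases hx0 : x = 0
    · rw [if_pos hx0, hx0, hβ.zero, zero_mul, sub_zero]
    · have h1 : 1 < ‖x⁻¹‖ := one_lt_norm_inv hx hx0
      rw [if_neg hx0, hE _ h1, exteriorMap_unique hβ hψ h1, inv_inv]
      field_simp
  have hd : DifferentiableOn ℂ H (ball 0 1) := by
    have h1 : DifferentiableOn ℂ (fun x => β x - x * F ζ) (ball 0 1) :=
      hβ.diff.sub (differentiableOn_id.mul_const _)
    exact h1.congr hHb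
  have hc : ContinuousOn H (closedBall 0 1) := by
    intro x hx
    rw [mem_closedBall_zero_iff] at hx
    rcases lt_or_eq_of_le hx with h | h
    · have h1 : x ∈ ball (0 : ℂ) 1 := by rw [mem_ball_zero_iff]; exact h
      exact (hd.differentiableAt (isOpen_ball.mem_nhds h1)).continuousAt.continuousWithinAt
    · have hx0 : x ≠ 0 := by
        rintro rfl
        rw [norm_zero] at h
        exact zero_ne_one h
      have h1 : ContinuousWithinAt (fun x => x * (F x⁻¹ - F ζ)) (closedBall 0 1) x := by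
        apply continuousWithinAt_id.mul
        apply ContinuousWithinAt.sub _ continuousWithinAt_const
        have h2 : ContinuousWithinAt F {z | 1 ≤ ‖z‖} x⁻¹ := hF x⁻¹ (by
          show 1 ≤ ‖x⁻¹‖
          rw [norm_inv, h, inv_one])
        have h3 : ContinuousWithinAt (fun x : ℂ => x⁻¹) (closedBall 0 1 ∩ {0}ᶜ) x :=
          (continuousAt_inv₀ hx0).continuousWithinAt
        have h4 : ContinuousWithinAt (fun x : ℂ => F x⁻¹) (closedBall 0 1 ∩ {0}ᶜ) x := by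
          apply h2.comp h3
          intro y hy
          obtain ⟨hy1, hy2⟩ := hy
          rw [mem_closedBall_zero_iff] at hy1
          have hy3 : 0 < ‖y‖ := norm_pos_iff.2 hy2
          show 1 ≤ ‖y⁻¹‖
          rw [norm_inv]
          exact (one_le_inv₀ hy3).2 hy1
        have h5 : {0}ᶜ ∈ 𝓝 x := isOpen_compl_singleton.mem_nhds hx0
        exact (continuousWithinAt_inter h5).1 h4
      refine h1.congr_of_eventuallyEq ?_ ?_
      · have h5 : {0}ᶜ ∈ 𝓝 x := isOpen_compl_singleton.mem_nhds hx0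
        filter_upwards [mem_nhdsWithin_of_mem_nhds h5] with y hy
        have hy' : y ≠ 0 := hy
        rw [hH]
        simp only
        rw [if_neg hy']
      · rw [hH]
        simp only
        rw [if_neg hx0]
  refine ⟨H, hc, hd, ?_, ?_⟩
  · intro x hx
    have hx0 : x ≠ 0 := by
      rintro rfl
      rw [norm_zero] at hx
      exact zero_ne_one hx
    rw [hH]
    simp only
    rw [if_neg hx0, norm_mul, hx, one_mul]
  · intro r hr1
    have hr0 : (0 : ℝ) < r := by linarith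
    have hrc : (r : ℂ) ≠ 0 := by exact_mod_cast hr0.ne'
    have hx0 : ((r : ℂ) * ζ)⁻¹ ≠ 0 := inv_ne_zero (mul_ne_zero hrc hζ0)
    have hn : ‖(r : ℂ) * ζ‖ = r := by
      rw [norm_mul, hζ, mul_one, Complex.norm_real, Real.norm_of_nonneg hr0.le]
    rw [hH]
    simp only
    rw [if_neg hx0, inv_inv, norm_mul, norm_inv, hn, ← mul_assoc, mul_inv_cancel₀ hr0.ne',
      one_mul, hE ((r : ℂ) * ζ) (by rw [hn]; exact hr1)]

/-- two constants theorem for an arc -/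
theorem two_const {H : ℂ → ℂ} (hc : ContinuousOn H (closedBall 0 1))
    (hd : DifferentiableOn ℂ H (ball 0 1)) {ξ : ℂ} (hξ : ‖ξ‖ = 1) {S ω d : ℝ} (hω : 0 < ω)
    (hωS : ω ≤ S) (hd0 : 0 < d) (hS : ∀ x, ‖x‖ = 1 → ‖H x‖ ≤ S)
    (hnear : ∀ x, ‖x‖ = 1 → ‖x - ξ‖ ≤ d → ‖H x‖ ≤ ω) {x₀ : ℂ} (hx₀ : ‖x₀‖ < 1) :
    ‖H x₀‖ ≤ ω * Real.exp (Real.log (S / ω) * (2 * (1 - x₀ * ξ⁻¹).re / d ^ 2)) := by
  have hξ0 : ξ ≠ 0 := by
    rintro rfl
    rw [norm_zero] at hξ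
    exact one_ne_zero hξ.symm
  obtain ⟨L, hL⟩ : ∃ L, L = Real.log (S / ω) := ⟨_, rfl⟩
  have hL0 : 0 ≤ L := by
    rw [hL]
    exact Real.log_nonneg ((one_le_div hω).2 hωS)
  have hLexp : Real.exp (-L) * S = ω := by
    have hS0 : 0 < S := by linarith
    rw [hL, Real.exp_neg, Real.exp_log (by positivity)]
    field_simp
  obtain ⟨E, hE⟩ : ∃ E : ℂ → ℂ, E = fun x =>
      Complex.exp (-((L * (2 / d ^ 2) : ℝ) : ℂ) * (1 - x * ξ⁻¹)) := ⟨_, rfl⟩
  have hEn : ∀ x, ‖E x‖ = Real.exp (-(L * (2 * (1 - x * ξ⁻¹).re / d ^ 2))) := by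
    intro x
    rw [hE]
    simp only
    rw [Complex.norm_exp, ← Complex.ofReal_neg, Complex.re_ofReal_mul]
    congr 1
    ring
  have hEd : Differentiable ℂ E := by
    rw [hE]
    fun_prop
  have hre : ∀ x : ℂ, ‖x‖ = 1 → 2 * (1 - x * ξ⁻¹).re = ‖x - ξ‖ ^ 2 := by
    intro x hx
    obtain ⟨y, hy⟩ : ∃ y, y = x * ξ⁻¹ := ⟨_, rfl⟩
    have hy1 : ‖y‖ = 1 := by rw [hy, norm_mul, hx, norm_inv, hξ, inv_one, one_mul]
    have e : ‖x - ξ‖ = ‖1 - y‖ := by
      rw [hy]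
      exact (norm_q hξ).symm
    rw [e, ← hy, ← Complex.normSq_eq_norm_sq, Complex.normSq_apply]
    have h2 : ‖y‖ ^ 2 = 1 := by rw [hy1, one_pow]
    rw [← Complex.normSq_eq_norm_sq, Complex.normSq_apply] at h2
    simp only [sub_re, sub_im, one_re, one_im, zero_sub]
    linarith
  have hmax := Complex.norm_le_of_forall_mem_frontier_norm_le (f := fun x => H x * E x)
    (U := ball 0 1) (C := ω) isBounded_ball (by
      constructor
      · exact hd.mul hEd.differentiableOn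
      · rw [closure_ball _ one_ne_zero]
        exact hc.mul hEd.continuous.continuousOn) (fun x hx => by
      rw [frontier_ball _ one_ne_zero, mem_sphere_zero_iff_norm] at hx
      rw [norm_mul, hEn, hre x hx]
      rcases le_or_gt ‖x - ξ‖ d with h1 | h1
      · have h2 : Real.exp (-(L * (‖x - ξ‖ ^ 2 / d ^ 2))) ≤ 1 := by
          rw [Real.exp_le_one_iff]
          have : 0 ≤ L * (‖x - ξ‖ ^ 2 / d ^ 2) := by positivity
          linarith
        have h3 := hnear x hx h1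
        have h4 := mul_le_mul h3 h2 (Real.exp_pos _).le hω.le
        rwa [mul_one] at h4
      · have h2 : Real.exp (-(L * (‖x - ξ‖ ^ 2 / d ^ 2))) ≤ Real.exp (-L) := by
          apply Real.exp_le_exp.2
          have h3 : 1 ≤ ‖x - ξ‖ ^ 2 / d ^ 2 := by
            rw [one_le_div (by positivity)]
            exact pow_le_pow_left₀ hd0.le h1.le 2
          nlinarith
        have h3 := hS x hx
        have h4 := mul_le_mul h3 h2 (Real.exp_pos _).le (by linarith)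
        linarith) (subset_closure (by rw [mem_ball_zero_iff]; exact hx₀ : x₀ ∈ ball (0 : ℂ) 1))
  rw [norm_mul, hEn] at hmax
  rw [← hL]
  have h1 : 0 < Real.exp (L * (2 * (1 - x₀ * ξ⁻¹).re / d ^ 2)) := Real.exp_pos _
  have h2 := mul_le_mul_of_nonneg_right hmax h1.le
  rw [mul_assoc, ← Real.exp_add, neg_add_cancel, Real.exp_zero, mul_one] at h2
  exact h2

/-- a logarithmic modulus of continuity on the circle at one point gives a radial estimate -/
theorem radial_log {ψ F : ℂ → ℂ} (hψ : IsExteriorMap (multibrotSet 2) ψ)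
    (hF : ContinuousOn F {z | 1 ≤ ‖z‖}) (hE : ∀ w, 1 < ‖w‖ → F w = ψ w) {ζ : ℂ} (hζ : ‖ζ‖ = 1)
    {p K : ℝ} (hp : 0 < p) (hK0 : 0 < K)
    (hK : ∀ ξ : ℂ, ‖ξ‖ = 1 → 0 < ‖ξ - ζ‖ → ‖ξ - ζ‖ ≤ 1 / 2 →
      ‖F ξ - F ζ‖ ≤ K / Real.log (1 / ‖ξ - ζ‖) ^ p) :
    ∃ K' : ℝ, 0 < K' ∧ ∀ e : ℝ, 0 < e → e ≤ 1 / 8 →
      ‖ψ ((1 + e : ℝ) * ζ) - F ζ‖ ≤ K' / Real.log (1 / e) ^ p := by
  obtain ⟨H, hc, hd, hH1, hH2⟩ := exists_H hψ hF hE hζ
  obtain ⟨S₀, hS₀⟩ := (isCompact_closedBall (0 : ℂ) 1).exists_bound_of_continuousOn hc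
  have hlog2 : 0 < Real.log 2 := Real.log_pos (by norm_num)
  obtain ⟨S, hS⟩ : ∃ S, S = max S₀ (K / Real.log 2 ^ p) := ⟨_, rfl⟩
  have hS1 : ∀ x : ℂ, ‖x‖ = 1 → ‖H x‖ ≤ S := by
    intro x hx
    rw [hS]
    exact (hS₀ x (by rw [mem_closedBall_zero_iff, hx])).trans (le_max_left _ _)
  have hS2 : K / Real.log 2 ^ p ≤ S := by rw [hS]; exact le_max_right _ _
  have hS0 : 0 < S := lt_of_lt_of_le (by positivity) hS2
  have hζ0 : ζ ≠ 0 := by
    rintro rfl
    rw [norm_zero] at hζ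
    exact one_ne_zero hζ.symm
  have hξ : ‖ζ⁻¹‖ = 1 := by rw [norm_inv, hζ, inv_one]
  obtain ⟨C, hC⟩ : ∃ C, C = |Real.log (S / K)| := ⟨_, rfl⟩
  have hC0 : 0 ≤ C := by rw [hC]; exact abs_nonneg _
  refine ⟨2 * (K * 3 ^ p) * Real.exp (2 * C + 2 * p), by positivity, ?_⟩
  intro e he he8
  obtain ⟨d, hdd⟩ : ∃ d : ℝ, d = e ^ (1 / 3 : ℝ) := ⟨_, rfl⟩
  have hd0 : 0 < d := by rw [hdd]; positivity
  have hd3 : d ^ 3 = e := by
    rw [hdd, ← Real.rpow_natCast, ← Real.rpow_mul he.le]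
    norm_num
  have hd2 : d ≤ 1 / 2 := by
    by_contra hcon
    push Not at hcon
    have : (1 / 2 : ℝ) ^ 3 < d ^ 3 := pow_lt_pow_left₀ hcon (by norm_num) (by norm_num)
    rw [hd3] at this
    norm_num at this
    linarith
  have hld : Real.log (1 / e) = 3 * Real.log (1 / d) := by
    rw [← hd3, one_div, one_div, Real.log_inv, Real.log_inv, Real.log_pow]
    push_cast
    ring
  have hl2 : Real.log 2 ≤ Real.log (1 / d) := by
    apply Real.log_le_log (by norm_num)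
    rw [le_div_iff₀ hd0]
    linarith
  have hl0 : 0 < Real.log (1 / d) := by linarith
  obtain ⟨ω, hω⟩ : ∃ ω, ω = K / Real.log (1 / d) ^ p := ⟨_, rfl⟩
  have hω0 : 0 < ω := by rw [hω]; positivity
  have hωS : ω ≤ S := by
    refine le_trans ?_ hS2
    rw [hω]
    apply div_le_div_of_nonneg_left hK0.le (by positivity)
    exact Real.rpow_le_rpow hlog2.le hl2 hp.le
  have hnear : ∀ x : ℂ, ‖x‖ = 1 → ‖x - ζ⁻¹‖ ≤ d → ‖H x‖ ≤ ω := by
    intro x hx hxd
    rw [hH1 x hx]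
    have hx0 : x ≠ 0 := by
      rintro rfl
      rw [norm_zero] at hx
      exact zero_ne_one hx
    have h2 : ‖x⁻¹ - ζ‖ = ‖x - ζ⁻¹‖ := by
      have e : x⁻¹ - ζ = -(x⁻¹ * ζ * (x - ζ⁻¹)) := by
        field_simp
        ring
      rw [e, norm_neg, norm_mul, norm_mul, norm_inv, hx, hζ, inv_one, one_mul, one_mul]
    rcases eq_or_ne x⁻¹ ζ with h3 | h3
    · rw [h3, sub_self, norm_zero]
      exact hω0.le
    · have h4 : 0 < ‖x⁻¹ - ζ‖ := norm_pos_iff.2 (sub_ne_zero.2 h3)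
      have h5 := hK x⁻¹ (by rw [norm_inv, hx, inv_one]) h4 (by rw [h2]; linarith)
      refine h5.trans ?_
      rw [hω]
      apply div_le_div_of_nonneg_left hK0.le (by positivity)
      apply Real.rpow_le_rpow hl0.le _ hp.le
      apply Real.log_le_log (by positivity)
      exact one_div_le_one_div_of_le h4 (by rw [h2]; exact hxd)
  have hr1 : (1 : ℝ) < 1 + e := by linarith
  have hr0 : (0 : ℝ) < 1 + e := by linarith
  have hrc : ((1 + e : ℝ) : ℂ) ≠ 0 := by exact_mod_cast hr0.ne'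
  have hx₀ : ‖(((1 + e : ℝ) : ℂ) * ζ)⁻¹‖ < 1 := by
    rw [norm_inv, norm_mul, hζ, mul_one, Complex.norm_real, Real.norm_of_nonneg hr0.le]
    exact inv_lt_one_of_one_lt₀ hr1
  have h1 := two_const hc hd hξ hω0 hωS hd0 hS1 hnear hx₀
  rw [hH2 _ hr1]
  have h2 : (1 - (((1 + e : ℝ) : ℂ) * ζ)⁻¹ * ζ⁻¹⁻¹).re ≤ e := by
    have e1 : 1 - (((1 + e : ℝ) : ℂ) * ζ)⁻¹ * ζ⁻¹⁻¹ = ((e / (1 + e) : ℝ) : ℂ) := by
      rw [inv_inv]
      push_cast at hrc ⊢
      field_simp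
      ring
    rw [e1, Complex.ofReal_re]
    exact div_le_self he.le hr1.le
  have hL0 : 0 ≤ Real.log (S / ω) := Real.log_nonneg ((one_le_div hω0).2 hωS)
  have h3 : Real.log (S / ω) * (2 * (1 - (((1 + e : ℝ) : ℂ) * ζ)⁻¹ * ζ⁻¹⁻¹).re / d ^ 2) ≤
      2 * C + 2 * p := by
    have h4 : 2 * (1 - (((1 + e : ℝ) : ℂ) * ζ)⁻¹ * ζ⁻¹⁻¹).re / d ^ 2 ≤ 2 * d := by
      rw [div_le_iff₀ (by positivity)]
      have e1 : 2 * d * d ^ 2 = 2 * e := by rw [← hd3]; ring
      linarith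
    have h5 : Real.log (S / ω) = Real.log (S / K) + p * Real.log (Real.log (1 / d)) := by
      have e1 : S / ω = S / K * Real.log (1 / d) ^ p := by
        rw [hω]
        field_simp
      rw [e1, Real.log_mul (by positivity) (by positivity), Real.log_rpow hl0]
    have h6 : Real.log (Real.log (1 / d)) ≤ 1 / d := by
      have h7 := Real.log_le_sub_one_of_pos hl0
      have h8 := Real.log_le_sub_one_of_pos (show 0 < 1 / d by positivity)
      linarith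
    have h7 : Real.log (S / ω) ≤ C + p * (1 / d) := by
      rw [h5]
      have h8 := mul_le_mul_of_nonneg_left h6 hp.le
      have h9 := le_abs_self (Real.log (S / K))
      rw [← hC] at h9
      linarith
    have h8 : Real.log (S / ω) * (2 * (1 - (((1 + e : ℝ) : ℂ) * ζ)⁻¹ * ζ⁻¹⁻¹).re / d ^ 2) ≤
        Real.log (S / ω) * (2 * d) := mul_le_mul_of_nonneg_left h4 hL0
    have h9 : Real.log (S / ω) * (2 * d) ≤ (C + p * (1 / d)) * (2 * d) :=
      mul_le_mul_of_nonneg_right h7 (by positivity)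
    have h10 : (C + p * (1 / d)) * (2 * d) = 2 * d * C + 2 * p := by
      field_simp
    have h11 : 2 * d * C ≤ 1 * C := mul_le_mul_of_nonneg_right (by linarith) hC0
    linarith
  have h4 : Real.exp (Real.log (S / ω) *
      (2 * (1 - (((1 + e : ℝ) : ℂ) * ζ)⁻¹ * ζ⁻¹⁻¹).re / d ^ 2)) ≤ Real.exp (2 * C + 2 * p) :=
    Real.exp_le_exp.2 h3
  have h5 : ω = K * 3 ^ p / Real.log (1 / e) ^ p := by
    rw [hω, hld, Real.mul_rpow (by norm_num) hl0.le]
    field_simp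
  have h6 := h1.trans (mul_le_mul_of_nonneg_left h4 hω0.le)
  have h7 : (1 + e) * ‖H (((1 + e : ℝ) : ℂ) * ζ)⁻¹‖ ≤ 2 * (ω * Real.exp (2 * C + 2 * p)) :=
    mul_le_mul (by linarith) h6 (norm_nonneg _) (by norm_num)
  refine h7.trans (le_of_eq ?_)
  rw [h5]
  ring

/-- no logarithmic modulus of continuity at the flat points -/
theorem not_log {c : ℂ} (hflat : ∀ s δ : ℝ, s < 1 → 0 < δ →
      ∃ ρ : ℝ, 0 < ρ ∧ ρ < δ ∧ ∀ ψ : ℂ → ℂ, IsExteriorMap (multibrotSet 2) ψ → ∀ w : ℂ,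
        1 < ‖w‖ → ‖w‖ ≤ 2 → ‖ψ w - c‖ ≤ ρ → ‖w‖ - 1 < Real.exp (-(ρ ^ (-s))))
    {ψ F : ℂ → ℂ} (hψ : IsExteriorMap (multibrotSet 2) ψ)
    (hF : ContinuousOn F {z | 1 ≤ ‖z‖}) (hE : ∀ w, 1 < ‖w‖ → F w = ψ w) {ζ : ℂ} (hζ : ‖ζ‖ = 1)
    (hFζ : F ζ = c) {p : ℝ} (hp : 1 < p) (K : ℝ) :
    ¬ ∀ ξ : ℂ, ‖ξ‖ = 1 → 0 < ‖ξ - ζ‖ → ‖ξ - ζ‖ ≤ 1 / 2 →
      ‖F ξ - F ζ‖ ≤ K / Real.log (1 / ‖ξ - ζ‖) ^ p := by
  intro hK
  have hp0 : 0 < p := by linarith
  obtain ⟨K', hK', h1⟩ := radial_log hψ hF hE hζ hp0 (K := |K| + 1) (by positivity)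
    (fun ξ h1 h2 h3 => (hK ξ h1 h2 h3).trans (by
      have h4 : 0 < Real.log (1 / ‖ξ - ζ‖) := by
        apply Real.log_pos
        rw [lt_div_iff₀ h2]
        linarith
      apply div_le_div_of_nonneg_right _ (by positivity)
      linarith [le_abs_self K]))
  obtain ⟨s, hs⟩ : ∃ s, s = (1 + 1 / p) / 2 := ⟨_, rfl⟩
  have hp1 : 1 / p < 1 := by
    rw [div_lt_one hp0]
    exact hp
  have hs1 : s < 1 := by rw [hs]; linarith
  have hs2 : 1 / p < s := by rw [hs]; linarith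
  -- small scales
  have h2 : Tendsto (fun ρ : ℝ => ρ ^ (-(s - 1 / p))) (𝓝[>] 0) atTop :=
    tendsto_rpow_neg_nhdsGT_zero (by linarith)
  have h3 := h2.eventually (eventually_gt_atTop (K' ^ (1 / p)))
  rw [eventually_nhdsWithin_iff, Metric.eventually_nhds_iff] at h3
  obtain ⟨ε, hε, h4⟩ := h3
  obtain ⟨ρ, hρ0, hρ1, h5⟩ := hflat s (min ε (K' / 3 ^ p)) hs1 (by positivity)
  have h6 := h4 (y := ρ) (by
    rw [Real.dist_eq, sub_zero, abs_of_pos hρ0]
    exact hρ1.trans_le (min_le_left _ _)) hρ0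
  have h7 : ρ < K' / 3 ^ p := hρ1.trans_le (min_le_right _ _)
  obtain ⟨T, hT⟩ : ∃ T : ℝ, T = (K' / ρ) ^ (1 / p) := ⟨_, rfl⟩
  have hT3 : 3 ≤ T := by
    have h8 : (3 : ℝ) ^ p ≤ K' / ρ := by
      rw [lt_div_iff₀ (by positivity)] at h7
      rw [le_div_iff₀ hρ0]
      linarith
    have h9 := Real.rpow_le_rpow (by positivity) h8 (show 0 ≤ 1 / p by positivity)
    rw [← Real.rpow_mul (by norm_num), mul_one_div_cancel hp0.ne', Real.rpow_one] at h9
    rw [hT]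
    exact h9
  have hTp : T ^ p = K' / ρ := by
    rw [hT, ← Real.rpow_mul (by positivity), one_div_mul_cancel hp0.ne', Real.rpow_one]
  obtain ⟨e, he⟩ : ∃ e, e = Real.exp (-T) := ⟨_, rfl⟩
  have he0 : 0 < e := by rw [he]; exact Real.exp_pos _
  have he8 : e ≤ 1 / 8 := by
    have h8 : Real.exp (-T) ≤ Real.exp (-3) := Real.exp_le_exp.2 (by linarith)
    have h9 : Real.exp (-3) ≤ 1 / 8 := by
      rw [Real.exp_neg, one_div]
      apply inv_anti₀ (by norm_num)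
      have h10 : Real.exp 3 = Real.exp 1 ^ 3 := by
        rw [← Real.exp_nat_mul]
        norm_num
      rw [h10]
      have h11 : (2 : ℝ) ≤ Real.exp 1 := by
        have := Real.exp_one_gt_d9
        linarith
      have h12 := pow_le_pow_left₀ (by norm_num) h11 3
      norm_num at h12 ⊢
      exact h12
    rw [he]
    linarith
  have hle : Real.log (1 / e) = T := by
    rw [he, one_div, Real.log_inv, Real.log_exp, neg_neg]
  have h8 := h1 e he0 he8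
  have h9 : K' / Real.log (1 / e) ^ p = ρ := by
    rw [hle, hTp]
    field_simp
  rw [h9, hFζ] at h8
  have hr0 : (0 : ℝ) < 1 + e := by linarith
  have hn : ‖((1 + e : ℝ) : ℂ) * ζ‖ = 1 + e := by
    rw [norm_mul, hζ, mul_one, Complex.norm_real, Real.norm_of_nonneg hr0.le]
  have h10 := h5 ψ hψ (((1 + e : ℝ) : ℂ) * ζ) (by rw [hn]; linarith) (by rw [hn]; linarith) h8
  rw [hn, add_sub_cancel_left, he] at h10
  have h11 := Real.exp_lt_exp.1 h10
  -- `T > ρ ^ (-s)`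
  have h12 : T = K' ^ (1 / p) * ρ ^ (-(1 / p)) := by
    rw [hT, Real.div_rpow hK'.le hρ0.le, Real.rpow_neg hρ0.le]
    rfl
  have h13 : ρ ^ (-s) = ρ ^ (-(s - 1 / p)) * ρ ^ (-(1 / p)) := by
    rw [← Real.rpow_add hρ0]
    congr 1
    ring
  rw [h12, h13] at h11
  have h14 : 0 < ρ ^ (-(1 / p)) := by positivity
  have h15 := mul_lt_mul_of_pos_right h6 h14
  linarith

end Pool.Agent.Y736.ML
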