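import Pool.Agent.Y736.HL8

set_option autoImplicit false

/-! # Generic flatness from a dense set of flat points -/

namespace Pool.Agent.Y736.ML

open Complex Metric Set Filter Topology Pool.Agent.H712R2 Pool.Agent.H713R2 N62a1eb23
open Pool.Agent.Y736.HL

theorem gauge {A : ℝ} (hA : 0 < A) {s : ℝ} (hs : s < 1) {δ : ℝ} (hδ : 0 < δ) :
    ∃ ρ : ℝ, 0 < ρ ∧ ρ < δ ∧ 12 * Real.exp (-(A / (2 * ρ))) < Real.exp (-(ρ ^ (-s))) := by
  have h1 : Tendsto (fun ρ : ℝ => ρ ^ (1 - s)) (𝓝[>] 0) (𝓝 0) := by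
    have h3 : ContinuousAt (fun x : ℝ => x ^ (1 - s)) 0 :=
      Real.continuousAt_rpow_const 0 _ (Or.inr (by linarith))
    have h4 := h3.tendsto
    rw [Real.zero_rpow (by linarith)] at h4
    exact h4.mono_left nhdsWithin_le_nhds
  have hl : 0 < Real.log 12 := Real.log_pos (by norm_num)
  have h4 := h1.eventually (gt_mem_nhds (show 0 < A / 4 by positivity))
  have h0 : Tendsto (fun ρ : ℝ => ρ) (𝓝[>] 0) (𝓝 0) := tendsto_id.mono_left nhdsWithin_le_nhds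
  have h5 := h0.eventually (gt_mem_nhds (show 0 < A / 4 / Real.log 12 by positivity))
  have h6 := h0.eventually (gt_mem_nhds hδ)
  obtain ⟨ρ, h7, h8, h9, h10⟩ := (h4.and (h5.and (h6.and self_mem_nhdsWithin))).exists
  have hρ : 0 < ρ := h10
  refine ⟨ρ, hρ, h9, ?_⟩
  have e2 : ρ ^ (-s) = ρ ^ (1 - s) / ρ := by
    rw [Real.rpow_sub hρ, Real.rpow_one, Real.rpow_neg hρ.le]
    field_simp
  have h11 : Real.log 12 + ρ ^ (-s) < A / (2 * ρ) := by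
    rw [e2]
    have h12 : Real.log 12 < A / 4 / ρ := by
      rw [lt_div_iff₀ hl] at h8
      rw [lt_div_iff₀ hρ]
      linarith
    have h13 : ρ ^ (1 - s) / ρ < A / 4 / ρ := by
      apply div_lt_div_of_pos_right h7 hρ
    have h14 : A / (2 * ρ) = A / 4 / ρ + A / 4 / ρ := by
      field_simp
      norm_num
    linarith
  have h12 : (12 : ℝ) = Real.exp (Real.log 12) := (Real.exp_log (by norm_num)).symm
  rw [h12, ← Real.exp_add]
  apply Real.exp_lt_exp.2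
  linarith

/-- Baire: flatness of infinite order at a dense `G_δ` subset of a closed set -/
theorem generic {E B M : Set ℂ} (hEM : E ⊆ M)
    (hE : ∀ t ∈ E, ∃ A : ℝ, 0 < A ∧ ∀ ψ : ℂ → ℂ, IsExteriorMap M ψ → ∀ w : ℂ, 1 < ‖w‖ →
      ‖w‖ ≤ 2 → ‖w‖ - 1 ≤ 12 * Real.exp (-(A / ‖ψ w - t‖)))
    (hB : IsClosed B) (hEB : E ⊆ B) (hd : B ⊆ closure E) :
    ∃ G : Set ℂ, IsGδ G ∧ G ⊆ B ∧ B ⊆ closure G ∧ E ⊆ G ∧ ∀ c ∈ G, ∀ s δ : ℝ, s < 1 → 0 < δ →
      ∃ ρ : ℝ, 0 < ρ ∧ ρ < δ ∧ ∀ ψ : ℂ → ℂ, IsExteriorMap M ψ → ∀ w : ℂ, 1 < ‖w‖ → ‖w‖ ≤ 2 →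
        ‖ψ w - c‖ ≤ ρ → ‖w‖ - 1 < Real.exp (-(ρ ^ (-s))) := by
  choose! A hA hAb using hE
  have hex : ∀ (n : ℕ) (t : ℂ), t ∈ E → ∃ ρ : ℝ, 0 < ρ ∧ ρ < 1 / ((n : ℝ) + 1) ∧
      12 * Real.exp (-(A t / (2 * ρ))) < Real.exp (-(ρ ^ (-(1 - 1 / ((n : ℝ) + 1))))) := by
    intro n t ht
    exact gauge (hA t ht) (by
      have : (0 : ℝ) < 1 / ((n : ℝ) + 1) := by positivity
      linarith) (by positivity)
  choose! rad hr0 hr1 hr2 using hex
  obtain ⟨U, hU⟩ : ∃ U : ℕ → Set ℂ, U = fun n => ⋃ t ∈ E, ball t (rad n t) := ⟨_, rfl⟩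
  have hUo : ∀ n, IsOpen (U n) := by
    intro n
    rw [hU]
    exact isOpen_biUnion fun t _ => isOpen_ball
  have hEU : ∀ n, E ⊆ U n := by
    intro n t ht
    rw [hU]
    exact mem_biUnion ht (mem_ball_self (hr0 n t ht))
  refine ⟨B ∩ ⋂ n, U n, hB.isGδ.inter (IsGδ.iInter_of_isOpen hUo), inter_subset_left, ?_,
    fun t ht => ⟨hEB ht, mem_iInter.2 fun n => hEU n ht⟩, ?_⟩
  · have : CompleteSpace B := hB.completeSpace_coe
    have h1 : Dense (⋂ n, ((↑) : B → ℂ) ⁻¹' U n) := by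
      apply dense_iInter_of_isOpen (fun n => (hUo n).preimage continuous_subtype_val)
      intro n x
      rw [Metric.mem_closure_iff]
      intro ε hε
      obtain ⟨t, ht, htd⟩ := Metric.mem_closure_iff.1 (hd x.2) ε hε
      exact ⟨⟨t, hEB ht⟩, hEU n ht, htd⟩
    intro x hx
    rw [Metric.mem_closure_iff]
    intro ε hε
    obtain ⟨y, hy, hyd⟩ := Metric.mem_closure_iff.1 (h1 ⟨x, hx⟩) ε hε
    refine ⟨y, ⟨y.2, ?_⟩, hyd⟩
    rw [mem_iInter] at hy ⊢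
    exact fun n => hy n
  · rintro c ⟨hcB, hcU⟩ s δ hs hδ
    obtain ⟨n, hn⟩ := exists_nat_one_div_lt (show 0 < min (min δ 1) (1 - s) by
      apply lt_min (lt_min hδ one_pos); linarith)
    have hn1 : 1 / ((n : ℝ) + 1) < δ := hn.trans_le ((min_le_left _ _).trans (min_le_left _ _))
    have hn2 : 1 / ((n : ℝ) + 1) < 1 := hn.trans_le ((min_le_left _ _).trans (min_le_right _ _))
    have hn3 : 1 / ((n : ℝ) + 1) < 1 - s := hn.trans_le (min_le_right _ _)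
    have h1 := mem_iInter.1 hcU n
    rw [hU] at h1
    obtain ⟨t, ht, hct⟩ := mem_iUnion₂.1 h1
    have hρ0 := hr0 n t ht
    have hρ1 := hr1 n t ht
    have hρ2 := hr2 n t ht
    obtain ⟨ρ, hρ⟩ : ∃ ρ, ρ = rad n t := ⟨_, rfl⟩
    rw [← hρ] at hρ0 hρ1 hρ2 hct
    refine ⟨ρ, hρ0, hρ1.trans hn1, ?_⟩
    intro ψ hψ w hw hw2 hwc
    have h2 := hAb t ht ψ hψ w hw hw2
    have h3 : ‖ψ w - t‖ ≤ 2 * ρ := by
      rw [mem_ball_iff_norm] at hct
      have h4 := norm_add_le (ψ w - c) (c - t)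
      rw [sub_add_sub_cancel] at h4
      linarith
    have h4 : 0 < ‖ψ w - t‖ := by
      rw [norm_pos_iff, sub_ne_zero]
      intro h
      have h5 : ψ w ∈ Mᶜ := by
        rw [← hψ.image]
        exact ⟨w, hw, rfl⟩
      rw [h] at h5
      exact h5 (hEM ht)
    have h5 : 12 * Real.exp (-(A t / ‖ψ w - t‖)) ≤ 12 * Real.exp (-(A t / (2 * ρ))) := by
      apply mul_le_mul_of_nonneg_left _ (by norm_num)
      apply Real.exp_le_exp.2
      apply neg_le_neg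
      exact div_le_div_of_nonneg_left (hA t ht).le h4 h3
    have h6 : ρ ^ (-s) ≤ ρ ^ (-(1 - 1 / ((n : ℝ) + 1))) := by
      apply Real.rpow_le_rpow_of_exponent_ge hρ0 (hρ1.trans hn2).le
      linarith
    have h7 : Real.exp (-(ρ ^ (-(1 - 1 / ((n : ℝ) + 1))))) ≤ Real.exp (-(ρ ^ (-s))) :=
      Real.exp_le_exp.2 (neg_le_neg h6)
    linarith

end Pool.Agent.Y736.ML
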