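import Pool.Agent.Y736.ML4
import Pool.Agent.Y932.ML.Par
import Pool.Agent.H713R2.AR.HB

set_option autoImplicit false

/-! # Parabolic parameters near the boundary of the Mandelbrot set -/

namespace Pool.Agent.Y736.ML

open Complex Metric Set Filter Topology Pool.Agent.H712R2 Pool.Agent.H713R2 N62a1eb23
open Pool.Agent.Y736.HL

theorem shift {c z₀ : ℂ} {M j : ℕ} (hM : 1 ≤ M) (hfix : (fc 2 c)^[M] z₀ = z₀)
    (hder : deriv ((fc 2 c)^[M]) z₀ = 1)
    (h : Tendsto (fun k => P 2 (j + M * k) c) atTop (𝓝 z₀)) :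
    ∃ z₁, (fc 2 c)^[M] z₁ = z₁ ∧ deriv ((fc 2 c)^[M]) z₁ = 1 ∧
      Tendsto (fun k => P 2 (M * k) c) atTop (𝓝 z₁) := by
  obtain ⟨r, hr⟩ : ∃ r, j + r = M * j := ⟨M * j - j, by
    have : j ≤ M * j := Nat.le_mul_of_pos_left j hM
    omega⟩
  obtain ⟨z₁, hz₁⟩ : ∃ z₁, z₁ = (fc 2 c)^[r] z₀ := ⟨_, rfl⟩
  have hr2 : r ≤ M * j := by omega
  have hMj : (fc 2 c)^[M * j] z₀ = z₀ := by
    rw [Function.iterate_mul]
    exact (show Function.IsFixedPt ((fc 2 c)^[M]) z₀ from hfix).iterate j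
  have hdMj : deriv ((fc 2 c)^[M * j]) z₀ = 1 := by
    have h1 : HasDerivAt ((fc 2 c)^[M]) 1 z₀ := by
      rw [← hder]
      exact (differentiable_iter c M z₀).hasDerivAt
    have h2 := HasDerivAt.iterate z₀ h1 hfix j
    rw [one_pow, ← Function.iterate_mul] at h2
    exact h2.deriv
  have hdr : deriv ((fc 2 c)^[r]) z₀ ≠ 0 := by
    intro h0
    have h1 : HasDerivAt ((fc 2 c)^[r]) 0 z₀ := by
      rw [← h0]
      exact (differentiable_iter c r z₀).hasDerivAt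
    have h2 := ((differentiable_iter c j ((fc 2 c)^[r] z₀)).hasDerivAt).comp z₀ h1
    rw [mul_zero, ← Function.iterate_add, hr] at h2
    rw [h2.deriv] at hdMj
    exact zero_ne_one hdMj
  refine ⟨z₁, ?_, ?_, ?_⟩
  · rw [hz₁, ← Function.iterate_add_apply, add_comm, Function.iterate_add_apply, hfix]
  · have h1 : HasDerivAt ((fc 2 c)^[r]) (deriv ((fc 2 c)^[r]) z₀) z₀ :=
      (differentiable_iter c r z₀).hasDerivAt
    have h1' : HasDerivAt ((fc 2 c)^[r]) (deriv ((fc 2 c)^[r]) z₀) ((fc 2 c)^[M] z₀) := by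
      rw [hfix]
      exact h1
    have h2 : HasDerivAt ((fc 2 c)^[M]) 1 z₀ := by
      rw [← hder]
      exact (differentiable_iter c M z₀).hasDerivAt
    have h3 : HasDerivAt ((fc 2 c)^[M]) (deriv ((fc 2 c)^[M]) z₁) ((fc 2 c)^[r] z₀) := by
      rw [← hz₁]
      exact (differentiable_iter c M z₁).hasDerivAt
    have h4 := h1'.comp z₀ h2
    have h5 := h3.comp z₀ h1
    rw [← Function.iterate_add] at h4 h5
    rw [add_comm] at h5
    have h6 := h4.unique h5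
    rw [mul_one] at h6
    have h7 : (deriv ((fc 2 c)^[M]) z₁ - 1) * deriv ((fc 2 c)^[r]) z₀ = 0 := by
      linear_combination -h6
    rcases mul_eq_zero.1 h7 with h8 | h8
    · exact sub_eq_zero.1 h8
    · exact absurd h8 hdr
  · have h1 : Tendsto (fun k => (fc 2 c)^[r] (P 2 (j + M * k) c)) atTop (𝓝 z₁) := by
      rw [hz₁]
      exact ((differentiable_iter c r).continuous.tendsto z₀).comp h
    have h2 : Tendsto (fun k => P 2 (M * (k + j)) c) atTop (𝓝 z₁) := by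
      refine h1.congr fun k => ?_
      rw [iter_P]
      congr 1
      rw [mul_add, ← hr]
      ring
    exact (tendsto_add_atTop_iff_nat (f := fun k => P 2 (M * k) c) j).1 h2

/-- the derivatives along the critical orbit are bounded at a parabolic parameter -/
theorem parabolic_all {c z₀ : ℂ} {N q : ℕ} (hN : 1 ≤ N) (hq : 1 ≤ q)
    (hfix : (fc 2 c)^[N] z₀ = z₀) (hder : deriv ((fc 2 c)^[N]) z₀ ^ q = 1) :
    c ∈ multibrotSet 2 ∧ ∃ C : ℝ, ∀ m n, m ≤ n → LL c m n ≤ C := by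
  have hM : 1 ≤ N * q := Nat.mul_pos hN hq
  have hfix' : (fc 2 c)^[N * q] z₀ = z₀ := by
    rw [Function.iterate_mul]
    exact (show Function.IsFixedPt ((fc 2 c)^[N]) z₀ from hfix).iterate q
  have hder' : deriv ((fc 2 c)^[N * q]) z₀ = 1 := by
    have h1 : HasDerivAt ((fc 2 c)^[N]) (deriv ((fc 2 c)^[N]) z₀) z₀ :=
      (differentiable_iter c N z₀).hasDerivAt
    have h2 := HasDerivAt.iterate z₀ h1 hfix q
    rw [hder, ← Function.iterate_mul] at h2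
    exact h2.deriv
  obtain ⟨j, hj⟩ := fatou hM hfix' hder'
  have hmem := mem_of_tendsto hM hj
  refine ⟨hmem, ?_⟩
  obtain ⟨z₁, h1, h2, h3⟩ := shift hM hfix' hder' hj
  exact parabolic_LL hmem hM h1 h2 h3

/-- attracting parameters near the boundary -/
theorem exists_attr {c : ℂ} {r : ℝ} (hr : 0 < r) (hc : c ∈ multibrotSet 2)
    (hb : c ∈ closure (multibrotSet 2)ᶜ) :
    ∃ m : ℕ, 1 ≤ m ∧
      (∃ t ∈ ball c r, ∃ z, (fc 2 t)^[m] z = z ∧ ‖deriv ((fc 2 t)^[m]) z‖ < 1) ∧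
      (∃ t ∈ ball c r, ∀ z, (fc 2 t)^[m] z = z → 1 ≤ ‖deriv ((fc 2 t)^[m]) z‖) := by
  obtain ⟨t, ht, htd⟩ := Metric.mem_closure_iff.1 hb r hr
  have htb : t ∈ ball c r := by rwa [mem_ball, dist_comm]
  have h1 : ∃ c' ∈ ball c r, ∃ m z, IsAttractingCycle (fun z => z ^ 2 + c') m z := by
    by_contra hcon
    push Not at hcon
    exact ht (AR.ball_subset le_rfl hr hc (fun c' hc' ⟨m, z, h⟩ => hcon c' hc' m z h) htb)
  obtain ⟨c', hc', m, z, hm, hfix, _, hlt⟩ := h1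
  refine ⟨m, hm, ⟨c', hc', z, hfix, hlt⟩, t, htb, fun z hz => ?_⟩
  by_contra hcon
  push Not at hcon
  obtain ⟨j, hj⟩ := attracting (c := t) hm hz hcon
  exact ht (mem_of_tendsto hm hj)

/-- parabolic parameters near the boundary -/
theorem exists_par {c : ℂ} {r : ℝ} (hr : 0 < r) (hc : c ∈ multibrotSet 2)
    (hb : c ∈ closure (multibrotSet 2)ᶜ) :
    ∃ t ∈ ball c r, ∃ (m : ℕ) (z : ℂ) (q : ℕ), 1 ≤ m ∧ 2 ≤ q ∧ (fc 2 t)^[m] z = z ∧
      deriv ((fc 2 t)^[m]) z ≠ 1 ∧ (deriv ((fc 2 t)^[m]) z) ^ q = 1 := by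
  obtain ⟨m, hm, h1, h2⟩ := exists_attr hr hc hb
  obtain ⟨t, ht, z, q, hq, h3, h4, h5⟩ := Pool.Agent.Y932.ML.exists_parabolic hm h1 h2
  exact ⟨t, ht, m, z, q, hm, hq, h3, h4, h5⟩

end Pool.Agent.Y736.ML
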