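import Pool.Agent.Y736.ML8
import Pool.Agent.Y736.ML5
import Pool.Agent.Y93.ML.Bdy

set_option autoImplicit false

/-! # The rate at satellite parameters; density of these in the boundary -/

namespace Pool.Agent.Y736.ML

open Complex Metric Set Filter Topology Pool.Agent.H712R2 Pool.Agent.H713R2 N62a1eb23
open Pool.Agent.Y736.HL

/-- the rate at satellite parameters -/
theorem sat_rate {t₀ z₀ : ℂ} {m q : ℕ} (hm : 1 ≤ m) (hq : 1 ≤ q)
    (hfix : (fc 2 t₀)^[m] z₀ = z₀) (hne : deriv ((fc 2 t₀)^[m]) z₀ ≠ 1)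
    (hder : deriv ((fc 2 t₀)^[m]) z₀ ^ q = 1) :
    ∃ A : ℝ, 0 < A ∧ ∀ ψ : ℂ → ℂ, IsExteriorMap (multibrotSet 2) ψ → ∀ w : ℂ, 1 < ‖w‖ →
      ‖w‖ ≤ 2 → ‖w‖ - 1 ≤ 12 * Real.exp (-(A / ‖ψ w - t₀‖)) := by
  have ht₀ : t₀ ∈ multibrotSet 2 := (parabolic_all hm hq hfix hder).1
  have ht₀2 : ‖t₀‖ ≤ 2 := by
    have := (mem_multibrot_iff le_rfl t₀).1 ht₀ 1
    rwa [P_one le_rfl] at this
  obtain ⟨j, k₁, c, δ, hj, hc, hδ, h⟩ := sat_orbit hm hq hfix hne hder
  have hlog2 : 0 < Real.log 2 := Real.log_pos (by norm_num)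
  obtain ⟨δ', hδ'⟩ : ∃ δ', δ' = min (min δ 1) (c / (k₁ + 1)) := ⟨_, rfl⟩
  have hδ'0 : 0 < δ' := by rw [hδ']; positivity
  refine ⟨min (c * Real.log 2) δ', lt_min (by positivity) hδ'0, ?_⟩
  intro ψ hψ w hw hw2
  obtain ⟨ρ, hρ⟩ : ∃ ρ, ρ = ‖ψ w - t₀‖ := ⟨_, rfl⟩
  have hρ0 : 0 < ρ := by
    rw [hρ, norm_pos_iff, sub_ne_zero]
    intro h
    have h1 : ψ w ∈ (multibrotSet 2)ᶜ := by
      rw [← hψ.image]
      exact ⟨w, hw, rfl⟩
    rw [h] at h1
    exact h1 ht₀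
  rw [← hρ]
  rcases lt_or_ge ρ δ' with h1 | h1
  · have h2 : ρ < δ := h1.trans_le (by rw [hδ']; exact (min_le_left _ _).trans (min_le_left _ _))
    have h3 : ρ < 1 := h1.trans_le (by rw [hδ']; exact (min_le_left _ _).trans (min_le_right _ _))
    have h4 : ρ < c / (k₁ + 1) := h1.trans_le (by rw [hδ']; exact min_le_right _ _)
    obtain ⟨k, hk⟩ : ∃ k, k = ⌊c / ρ⌋₊ := ⟨_, rfl⟩
    have h5 : k * ρ ≤ c := by
      have := Nat.floor_le (show 0 ≤ c / ρ by positivity)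
      rw [← hk, le_div_iff₀ hρ0] at this
      exact this
    have h6 : c / ρ < k + 1 := by
      have := Nat.lt_floor_add_one (c / ρ)
      rwa [← hk] at this
    have h7 : k₁ ≤ k := by
      rw [hk]
      apply Nat.le_floor
      rw [le_div_iff₀ hρ0]
      rw [lt_div_iff₀ (by positivity)] at h4
      nlinarith
    have h8 := h (ψ w) (by rw [← hρ]; exact h2) k h7 (by rw [← hρ]; exact h5)
    obtain ⟨n, hn⟩ : ∃ n, j + m * q * k = n + 1 := ⟨j + m * q * k - 1, by omega⟩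
    rw [hn] at h8
    have h9 : ‖ψ w‖ ≤ 3 := by
      have := norm_add_le (ψ w - t₀) t₀
      rw [sub_add_cancel, ← hρ] at this
      linarith
    have h10 := green_lower3 hψ hw h9 h8
    have h11 : 1 + (2 ^ n : ℕ) * (‖w‖ - 1) ≤ ‖w‖ ^ (2 ^ n) :=
      one_add_mul_sub_le_pow (by linarith) (2 ^ n)
    push_cast at h11
    have h12 : (2 : ℝ) ^ k ≤ 2 ^ (n + 1) := by
      apply pow_le_pow_right₀ (by norm_num)
      rw [← hn]
      have : k ≤ m * q * k := Nat.le_mul_of_pos_left k (Nat.mul_pos hm hq)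
      omega
    have h13 : (2 : ℝ) ^ k * (‖w‖ - 1) ≤ 6 := by
      have h14 : (2 : ℝ) ^ k * (‖w‖ - 1) ≤ 2 ^ (n + 1) * (‖w‖ - 1) :=
        mul_le_mul_of_nonneg_right h12 (by linarith)
      rw [pow_succ] at h14
      linarith
    have h14 : ‖w‖ - 1 ≤ 6 / 2 ^ k := by
      rw [le_div_iff₀ (by positivity)]
      linarith
    have h15 : (6 : ℝ) / 2 ^ k ≤ 12 * Real.exp (-(c * Real.log 2 / ρ)) := by
      have e1 : Real.exp (-(c * Real.log 2 / ρ)) = 1 / 2 ^ (c / ρ) := by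
        rw [Real.rpow_def_of_pos (by norm_num : (0 : ℝ) < 2), one_div, ← Real.exp_neg]
        congr 1
        ring
      rw [e1, mul_one_div, div_le_div_iff₀ (by positivity) (by positivity)]
      have h16 : (2 : ℝ) ^ (c / ρ) ≤ 2 ^ ((k : ℝ) + 1) :=
        Real.rpow_le_rpow_of_exponent_le (by norm_num) h6.le
      rw [Real.rpow_add (by norm_num), Real.rpow_natCast, Real.rpow_one] at h16
      linarith
    refine (h14.trans h15).trans ?_
    apply mul_le_mul_of_nonneg_left _ (by norm_num)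
    apply Real.exp_le_exp.2
    apply neg_le_neg
    exact div_le_div_of_nonneg_right (min_le_left _ _) hρ0.le
  · have h2 : ‖w‖ - 1 ≤ 1 := by linarith
    have h3 : Real.exp (-1) ≤ Real.exp (-(min (c * Real.log 2) δ' / ρ)) := by
      apply Real.exp_le_exp.2
      apply neg_le_neg
      rw [div_le_one hρ0]
      exact (min_le_right _ _).trans h1
    have h4 : (1 : ℝ) / 12 ≤ Real.exp (-1) := by
      rw [Real.exp_neg, one_div]
      apply inv_anti₀ (Real.exp_pos 1)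
      have := Real.exp_one_lt_d9
      linarith
    linarith

/-- a parameter with a neutral cycle which is in the Mandelbrot set is on its boundary -/
theorem neutral_frontier {t₀ z₀ : ℂ} {m : ℕ} (hm : 1 ≤ m) (ht₀ : t₀ ∈ multibrotSet 2)
    (hfix : (fc 2 t₀)^[m] z₀ = z₀) (hn : ‖deriv ((fc 2 t₀)^[m]) z₀‖ = 1) :
    t₀ ∈ frontier (multibrotSet 2) := by
  rw [frontier_eq_closure_inter_closure]
  refine ⟨subset_closure ht₀, ?_⟩
  rw [Metric.mem_closure_iff]
  intro ε hε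
  obtain ⟨t, ht, htM⟩ := Pool.Agent.Y93.ML.near_outside' hm hfix hn
    (fun c z N hN h1 h2 => attracting hN h1 h2) hε
  exact ⟨t, htM, by rwa [dist_comm]⟩

/-- satellite parameters are dense in the boundary -/
theorem sat_dense : frontier (multibrotSet 2) ⊆
    closure {t | t ∈ frontier (multibrotSet 2) ∧ ∃ (m q : ℕ) (z : ℂ), 1 ≤ m ∧ 1 ≤ q ∧
      (fc 2 t)^[m] z = z ∧ deriv ((fc 2 t)^[m]) z ≠ 1 ∧ deriv ((fc 2 t)^[m]) z ^ q = 1} := by
  intro c hc
  rw [Metric.mem_closure_iff]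
  intro ε hε
  rw [frontier_eq_closure_inter_closure] at hc
  have hcl : IsClosed (multibrotSet 2) := (isCompact_multibrot le_rfl).isClosed
  obtain ⟨t, ht, m, z, q, hm, hq, h1, h2, h3⟩ :=
    exists_par hε (by rw [← hcl.closure_eq]; exact hc.1) hc.2
  have hn : ‖deriv ((fc 2 t)^[m]) z‖ = 1 :=
    norm_eq_one_of_pow_eq_one h3 (by omega)
  have hmem := (parabolic_all (q := q) hm (by omega) h1 h3).1
  exact ⟨t, ⟨neutral_frontier hm hmem h1 hn, m, q, z, hm, by omega, h1, h2, h3⟩,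
    by rwa [dist_comm]⟩

end Pool.Agent.Y736.ML
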