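import Pool.Agent.Y736.HG9

set_option autoImplicit false

/-! # Collet-Eckmann parameters with a large exponent -/

namespace Pool.Agent.Y736.HG

open Complex Metric Set Filter Topology MeasureTheory Pool.Agent.H713R2
open N62a1eb23 Pool.Agent.Y298.CA Pool.Agent.Y298.SH.CD
open Pool.Agent.H712R2 (P mem_multibrot_iff)

/-- the two upper exponents agree at Collet-Eckmann parameters -/
theorem ce_Big {d : ℕ} (hd2 : 2 ≤ d) {c₀ : ℂ} (hc₀ : c₀ ∈ multibrotSet d) {C lam : ℝ} (hC : 0 < C) (hlam : 1 < lam)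
    (h : ∀ n : ℕ, C * lam ^ n ≤ ‖deriv ((fun z : ℂ => z ^ d + c₀)^[n]) c₀‖) {χ : ℝ}
    (hχ : ∀ a : ℝ, a < χ → ∃ᶠ n : ℕ in atTop,
      Real.exp (a * n) ≤ ‖deriv ((fun z : ℂ => z ^ d + c₀)^[n]) c₀‖) : c₀ ∈ Big d χ := by
  refine ⟨hc₀, fun a ha => ?_⟩
  have hce : CEp d (max 1 (1 / C)) lam c₀ := by
    refine ⟨hd2, fun j => ?_, le_max_left _ _, hlam, fun n => ?_⟩
    · have h1 := (mem_multibrot_iff hd2 c₀).1 hc₀ (j + 1)
      rw [P_succ_eq hd2] at h1
      exact h1
    · have h1 := h n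
      have h2 : 0 ≤ ‖deriv ((fun z : ℂ => z ^ d + c₀)^[n]) c₀‖ := norm_nonneg _
      show lam ^ n ≤ max 1 (1 / C) * ‖deriv ((fun z : ℂ => z ^ d + c₀)^[n]) c₀‖
      calc lam ^ n = 1 / C * (C * lam ^ n) := by field_simp
        _ ≤ max 1 (1 / C) * ‖deriv ((fun z : ℂ => z ^ d + c₀)^[n]) c₀‖ := by
            gcongr
            exact le_max_right _ _
  obtain ⟨κ, ε, J, hκ, hε, hgrow⟩ := hce.grow
  obtain ⟨a', ha', ha'χ⟩ := exists_between ha
  have h1 := hχ a' ha'χ
  have h2 : ∀ᶠ n : ℕ in atTop, J ≤ n := eventually_ge_atTop J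
  have h3 : ∀ᶠ n : ℕ in atTop, Real.exp a / κ ≤ Real.exp ((a' - a) * n) := by
    have h4 : Tendsto (fun n : ℕ => Real.exp ((a' - a) * n)) atTop atTop :=
      Real.tendsto_exp_atTop.comp (Tendsto.const_mul_atTop (by linarith)
        tendsto_natCast_atTop_atTop)
    exact h4.eventually (eventually_ge_atTop _)
  have h4 : ∃ᶠ k : ℕ in atTop, Real.exp (a * (k + 1 : ℕ)) ≤ ‖deriv (P d (k + 1)) c₀‖ := by
    refine (h1.and_eventually (h2.and h3)).mono ?_
    rintro k ⟨h5, h6, h7⟩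
    have h8 := hgrow c₀ hce c₀ (by rw [sub_self, norm_zero]; exact hε.le) k h6 (fun j _ => by
      show Pd d c₀ j / 2 ≤ Pd d c₀ j
      have := (hce.Pd_pos j).le
      linarith)
    refine le_trans ?_ h8
    have h9 : Real.exp (a' * k) ≤ Pd d c₀ k := h5
    rw [div_le_iff₀ hκ] at h7
    calc Real.exp (a * (k + 1 : ℕ)) = Real.exp a * Real.exp (a * k) := by
          rw [← Real.exp_add]
          congr 1
          push_cast
          ring
      _ ≤ (Real.exp ((a' - a) * k) * κ) * Real.exp (a * k) := by gcongr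
      _ = κ * Real.exp (a' * k) := by
          have e : Real.exp (a' * k) = Real.exp ((a' - a) * k) * Real.exp (a * k) := by
            rw [← Real.exp_add]
            congr 1
            ring
          rw [e]
          ring
      _ ≤ κ * Pd d c₀ k := by gcongr
  exact (tendsto_add_atTop_nat 1).frequently h4

end Pool.Agent.Y736.HG
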