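import Pool.Agent.Y736.HL3

set_option autoImplicit false

/-! # Bounded derivatives along an orbit converging to a parabolic cycle -/

namespace Pool.Agent.Y736.HL

open Complex Metric Set Filter Topology Pool.Agent.H712R2 Pool.Agent.H713R2 N62a1eb23

theorem parabolic_germ {g : ℂ → ℂ} (hg : Differentiable ℂ g) {z₀ : ℂ} (hfix : g z₀ = z₀)
    (hder : deriv g z₀ = 1) (hne : ∃ z, g z ≠ z) :
    ∃ (ν : ℕ) (a : ℂ → ℂ), 1 ≤ ν ∧ AnalyticAt ℂ a 0 ∧ a 0 ≠ 0 ∧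
      ∀ᶠ u in 𝓝 (0 : ℂ), g (z₀ + u) = z₀ + u + u ^ (ν + 1) * a u := by
  obtain ⟨h, hh⟩ : ∃ h : ℂ → ℂ, h = fun u => g (z₀ + u) - z₀ - u := ⟨_, rfl⟩
  have hd : Differentiable ℂ h := by
    rw [hh]
    exact ((hg.comp (differentiable_id.const_add z₀)).sub_const z₀).sub differentiable_id
  have hd0 : HasDerivAt h 0 0 := by
    have h1 : HasDerivAt g (deriv g z₀) (z₀ + 0) := by
      rw [add_zero]
      exact (hg z₀).hasDerivAt
    have h2 := (((h1.comp_const_add z₀ 0).sub_const z₀).sub (hasDerivAt_id (0 : ℂ)))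
    rw [hder, sub_self] at h2
    rw [hh]
    exact h2
  have han : AnalyticAt ℂ h 0 := hd.analyticAt 0
  have hnz : ¬ ∀ᶠ z in 𝓝 (0 : ℂ), h z = 0 := by
    intro hz
    have h1 : AnalyticOnNhd ℂ h univ := fun z _ => hd.analyticAt z
    have h2 := h1.eqOn_zero_of_preconnected_of_eventuallyEq_zero isPreconnected_univ
      (mem_univ (0 : ℂ)) hz
    obtain ⟨z, hz'⟩ := hne
    have h3 := h2 (mem_univ (z - z₀))
    rw [hh] at h3
    simp only [Pi.zero_apply] at h3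
    rw [show z₀ + (z - z₀) = z by ring, sub_sub_sub_cancel_right] at h3
    · exact hz' (sub_eq_zero.1 h3)
  obtain ⟨n, a, ha, ha0, hev⟩ := han.exists_eventuallyEq_pow_smul_nonzero_iff.2 hnz
  simp only [sub_zero, smul_eq_mul] at hev
  have h0 : h 0 = 0 := by
    rw [hh]
    simp [hfix]
  have hn : 2 ≤ n := by
    by_contra hcon
    have h1 : n = 0 ∨ n = 1 := by omega
    rcases h1 with rfl | rfl
    · have h2 := hev.self_of_nhds
      rw [h0, pow_zero, one_mul] at h2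
      exact ha0 h2.symm
    · have h2 : HasDerivAt (fun z => z ^ 1 * a z) (a 0) 0 := by
        have h3 := (hasDerivAt_id (0 : ℂ)).mul ha.differentiableAt.hasDerivAt
        simp only [id, one_mul, zero_mul, add_zero] at h3
        refine h3.congr_of_eventuallyEq (Eventually.of_forall fun z => ?_)
        simp
      have h3 := (h2.congr_of_eventuallyEq hev).unique hd0
      exact ha0 h3
  obtain ⟨ν, rfl⟩ : ∃ ν, n = ν + 1 := ⟨n - 1, by omega⟩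
  refine ⟨ν, a, by omega, ha, ha0, ?_⟩
  filter_upwards [hev] with u hu
  rw [hh] at hu
  simp only at hu
  linear_combination hu

theorem parabolic_bounds {g : ℂ → ℂ} (hg : Differentiable ℂ g) {z₀ : ℂ} {ν : ℕ} {a : ℂ → ℂ}
    (hν : 1 ≤ ν) (ha : AnalyticAt ℂ a 0)
    (hev : ∀ᶠ u in 𝓝 (0 : ℂ), g (z₀ + u) = z₀ + u + u ^ (ν + 1) * a u) :
    ∃ C : ℝ, 0 ≤ C ∧ ∀ᶠ u in 𝓝 (0 : ℂ), g (z₀ + u) = z₀ + u * (1 + u ^ ν * a u) ∧
      ‖deriv g (z₀ + u)‖ ≤ ‖1 + u ^ ν * a u‖ ^ (ν + 1) * (1 + C * ‖u‖ ^ (ν + 1)) := by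
  have h1 : ∀ᶠ u in 𝓝 (0 : ℂ), ‖a u‖ ≤ ‖a 0‖ + 1 := by
    have := ha.continuousAt.norm.tendsto.eventually (gt_mem_nhds (lt_add_one ‖a 0‖))
    filter_upwards [this] with u hu using hu.le
  have h2 : ∀ᶠ u in 𝓝 (0 : ℂ), ‖deriv a u‖ ≤ ‖deriv a 0‖ + 1 := by
    have := ha.deriv.continuousAt.norm.tendsto.eventually (gt_mem_nhds (lt_add_one ‖deriv a 0‖))
    filter_upwards [this] with u hu using hu.le
  have h3 : ∀ᶠ u in 𝓝 (0 : ℂ), AnalyticAt ℂ a u := ha.eventually_analyticAt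
  have h4 := eventually_eventually_nhds.2 hev
  have h5 : ∀ᶠ u in 𝓝 (0 : ℂ), ‖u‖ ≤ 1 := by
    have : Tendsto (fun u : ℂ => ‖u‖) (𝓝 0) (𝓝 0) := by
      have := (continuous_norm (E := ℂ)).tendsto 0
      rwa [norm_zero] at this
    filter_upwards [this.eventually (gt_mem_nhds one_pos)] with u hu using hu.le
  have h6 : ∀ᶠ u in 𝓝 (0 : ℂ), ‖u ^ ν * a u‖ ≤ 1 / 2 := by
    have h7 : Tendsto (fun u : ℂ => u ^ ν * a u) (𝓝 0) (𝓝 0) := by
      have := ((continuous_pow ν).tendsto (0 : ℂ)).mul ha.continuousAt.tendsto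
      rwa [zero_pow (by omega), zero_mul] at this
    have h8 := h7.norm
    rw [norm_zero] at h8
    filter_upwards [h8.eventually (gt_mem_nhds (show (0 : ℝ) < 1 / 2 by norm_num))] with u hu
      using hu.le
  obtain ⟨A, hA⟩ : ∃ A, A = ‖a 0‖ + 1 := ⟨_, rfl⟩
  obtain ⟨A', hA'⟩ : ∃ A', A' = ‖deriv a 0‖ + 1 := ⟨_, rfl⟩
  have hA0 : 0 ≤ A := by rw [hA]; positivity
  have hA0' : 0 ≤ A' := by rw [hA']; positivity
  rw [← hA] at h1
  rw [← hA'] at h2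
  refine ⟨2 ^ (ν + 1) * (4 ^ (ν + 1) * A ^ 2 + A'), by positivity, ?_⟩
  filter_upwards [h1, h2, h3, h4, h5, h6, hev] with u h1 h2 h3 h4 h5 h6 hev
  refine ⟨by rw [hev]; ring, ?_⟩
  have hder : deriv g (z₀ + u) = 1 + (((ν : ℂ) + 1) * (u ^ ν * a u) + u ^ (ν + 1) * deriv a u) := by
    have e1 : HasDerivAt (fun v => g (z₀ + v)) (deriv g (z₀ + u)) u :=
      (hg (z₀ + u)).hasDerivAt.comp_const_add z₀ u
    have e2 : HasDerivAt (fun v => z₀ + v + v ^ (ν + 1) * a v)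
        (1 + (((ν + 1 : ℕ) : ℂ) * u ^ (ν + 1 - 1) * a u + u ^ (ν + 1) * deriv a u)) u :=
      ((hasDerivAt_id u).const_add z₀).add
        ((hasDerivAt_pow (ν + 1) u).mul h3.differentiableAt.hasDerivAt)
    have e3 := (e2.congr_of_eventuallyEq h4).unique e1
    rw [← e3]
    push_cast
    ring
  obtain ⟨s, hs⟩ : ∃ s, s = u ^ ν * a u := ⟨_, rfl⟩
  rw [← hs] at hder h6 ⊢
  have hu0 := norm_nonneg u
  have hs2 : ‖s‖ ^ 2 ≤ A ^ 2 * ‖u‖ ^ (ν + 1) := by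
    have e1 : ‖s‖ ≤ A * ‖u‖ ^ ν := by
      rw [hs, norm_mul, norm_pow, mul_comm]
      exact mul_le_mul_of_nonneg_right h1 (by positivity)
    have e2 := pow_le_pow_left₀ (norm_nonneg s) e1 2
    rw [mul_pow, ← pow_mul] at e2
    refine e2.trans ?_
    apply mul_le_mul_of_nonneg_left _ (by positivity)
    exact pow_le_pow_of_le_one hu0 h5 (by omega)
  have h7 := one_add_pow_sub (h6.trans (by norm_num)) (ν + 1)
  have h8 : ‖deriv g (z₀ + u) - (1 + s) ^ (ν + 1)‖ ≤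
      (4 ^ (ν + 1) * A ^ 2 + A') * ‖u‖ ^ (ν + 1) := by
    have e1 : deriv g (z₀ + u) - (1 + s) ^ (ν + 1) =
        u ^ (ν + 1) * deriv a u - ((1 + s) ^ (ν + 1) - 1 - ((ν + 1 : ℕ) : ℂ) * s) := by
      rw [hder]
      push_cast
      ring
    rw [e1]
    refine (norm_sub_le _ _).trans ?_
    rw [norm_mul, norm_pow]
    have e2 : ‖u‖ ^ (ν + 1) * ‖deriv a u‖ ≤ ‖u‖ ^ (ν + 1) * A' :=
      mul_le_mul_of_nonneg_left h2 (by positivity)
    have e3 : (4 : ℝ) ^ (ν + 1) * ‖s‖ ^ 2 ≤ 4 ^ (ν + 1) * (A ^ 2 * ‖u‖ ^ (ν + 1)) :=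
      mul_le_mul_of_nonneg_left hs2 (by positivity)
    linarith
  have h9 : 1 / 2 ≤ ‖1 + s‖ := by
    have := norm_sub_norm_le (1 : ℂ) (-s)
    rw [norm_one, norm_neg, sub_neg_eq_add] at this
    linarith
  have h10 : 1 ≤ 2 ^ (ν + 1) * ‖1 + s‖ ^ (ν + 1) := by
    rw [← mul_pow]
    exact one_le_pow₀ (by linarith)
  have h11 : ‖deriv g (z₀ + u)‖ ≤ ‖1 + s‖ ^ (ν + 1) +
      (4 ^ (ν + 1) * A ^ 2 + A') * ‖u‖ ^ (ν + 1) := by
    have := norm_add_le (deriv g (z₀ + u) - (1 + s) ^ (ν + 1)) ((1 + s) ^ (ν + 1))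
    rw [sub_add_cancel, norm_pow] at this
    linarith
  have h12 : 0 ≤ (4 ^ (ν + 1) * A ^ 2 + A') * ‖u‖ ^ (ν + 1) := by positivity
  nlinarith

theorem growth {ν : ℕ} (hν : 1 ≤ ν) {a0 : ℂ} (ha0 : a0 ≠ 0) {u s : ℕ → ℂ} (hu0 : ∀ j, u j ≠ 0)
    (hs : ∀ j, u (j + 1) = u j * (1 + s j))
    (hlim : Tendsto (fun j => s j / u j ^ ν) atTop (𝓝 a0)) (hu : Tendsto u atTop (𝓝 0)) :
    ∃ β : ℝ, 0 < β ∧ ∀ᶠ n : ℕ in atTop, β / 2 * n ≤ (‖u n‖ ^ ν)⁻¹ ∧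
      (‖u n‖ ^ ν)⁻¹ ≤ 2 * β * n := by
  have hν0 : ν ≠ 0 := by omega
  have hupow : ∀ j, u j ^ ν ≠ 0 := fun j => pow_ne_zero _ (hu0 j)
  have hs0 : Tendsto s atTop (𝓝 0) := by
    have h1 := hlim.mul (hu.pow ν)
    rw [zero_pow hν0, mul_zero] at h1
    refine h1.congr fun j => ?_
    rw [div_mul_cancel₀ _ (hupow j)]
  have hsne : ∀ᶠ j in atTop, s j ≠ 0 := by
    filter_upwards [hlim.eventually_ne ha0] with j hj h0
    rw [h0, zero_div] at hj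
    exact hj rfl
  have hd : HasDerivAt (fun s : ℂ => ((1 + s) ^ ν)⁻¹) (-(ν : ℂ)) 0 := by
    have h1 : HasDerivAt (fun s : ℂ => (1 + s) ^ ν) ((ν : ℂ) * (1 + 0) ^ (ν - 1) * 1) 0 :=
      ((hasDerivAt_id (0 : ℂ)).const_add 1).pow ν
    have h2 := h1.inv (by simp)
    simp only [add_zero, one_pow, mul_one, div_one] at h2
    exact h2
  have hslope := hasDerivAt_iff_tendsto_slope_zero.1 hd
  have hs1 : Tendsto s atTop (𝓝[≠] 0) := tendsto_nhdsWithin_iff.2 ⟨hs0, hsne⟩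
  have h1 := hslope.comp hs1
  obtain ⟨w, hw⟩ : ∃ w : ℕ → ℂ, w = fun j => (u j ^ ν)⁻¹ := ⟨_, rfl⟩
  have h2 : Tendsto (fun j => w (j + 1) - w j) atTop (𝓝 (a0 * -(ν : ℂ))) := by
    refine (hlim.mul h1).congr' ?_
    filter_upwards [hsne] with j hj
    simp only [Function.comp, zero_add, add_zero, one_pow, inv_one, smul_eq_mul]
    rw [hw]
    simp only
    rw [hs j, mul_pow, mul_inv]
    have h3 := hupow j
    field_simp
  have h3 := h2.cesaro_smul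
  have h4 : Tendsto (fun n : ℕ => (n : ℝ)⁻¹ • (w n - w 0)) atTop (𝓝 (a0 * -(ν : ℂ))) := by
    refine h3.congr fun n => ?_
    rw [Finset.sum_range_sub]
  have h5 : Tendsto (fun n : ℕ => (n : ℝ)⁻¹ • w 0) atTop (𝓝 0) := by
    have := (tendsto_inv_atTop_nhds_zero_nat (𝕜 := ℝ)).smul_const (w 0)
    rwa [zero_smul] at this
  have h6 : Tendsto (fun n : ℕ => (n : ℝ)⁻¹ • w n) atTop (𝓝 (a0 * -(ν : ℂ))) := by
    have := h4.add h5
    rw [add_zero] at this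
    refine this.congr fun n => ?_
    rw [← smul_add, sub_add_cancel]
  have h7 := h6.norm
  obtain ⟨β, hβ⟩ : ∃ β, β = ‖a0 * -(ν : ℂ)‖ := ⟨_, rfl⟩
  have hβ0 : 0 < β := by
    rw [hβ, norm_pos_iff]
    exact mul_ne_zero ha0 (neg_ne_zero.2 (Nat.cast_ne_zero.2 hν0))
  rw [← hβ] at h7
  refine ⟨β, hβ0, ?_⟩
  filter_upwards [h7.eventually (lt_mem_nhds (show β / 2 < β by linarith)),
    h7.eventually (gt_mem_nhds (show β < 2 * β by linarith)), eventually_gt_atTop 0]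
    with n hn1 hn2 hn
  have hn' : (0 : ℝ) < n := Nat.cast_pos.2 hn
  rw [norm_smul, norm_inv, Real.norm_of_nonneg hn'.le, hw] at hn1 hn2
  simp only [norm_inv, norm_pow] at hn1 hn2
  rw [← div_eq_inv_mul, lt_div_iff₀ hn'] at hn1
  rw [← div_eq_inv_mul, div_lt_iff₀ hn'] at hn2
  exact ⟨hn1.le, hn2.le⟩

end Pool.Agent.Y736.HL
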