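import Pool.Agent.Y736.ML2

set_option autoImplicit false

/-! # Fatou's theorem: a parabolic cycle attracts the critical point -/

namespace Pool.Agent.Y736.ML

open Complex Metric Set Filter Topology Pool.Agent.H712R2 Pool.Agent.H713R2 N62a1eb23
open Pool.Agent.Y736.HL

theorem eventually_inj {f : ℂ → ℂ} {x f' : ℂ} (h : HasStrictDerivAt f f' x) (hf : f' ≠ 0) :
    ∀ᶠ p : ℂ × ℂ in 𝓝 (x, x), f p.1 = f p.2 → p.1 = p.2 := by
  have h1 := (hasStrictFDerivAt_iff_isLittleO.1 h.hasStrictFDerivAt).def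
    (show 0 < ‖f'‖ / 2 by positivity)
  filter_upwards [h1] with p hp heq
  have e : (ContinuousLinearMap.toSpanSingleton ℂ f') (p.1 - p.2) = (p.1 - p.2) * f' := by
    rw [ContinuousLinearMap.toSpanSingleton_apply, smul_eq_mul]
  rw [heq, sub_self, zero_sub, norm_neg, e, norm_mul] at hp
  by_contra hne
  have h2 : 0 < ‖p.1 - p.2‖ := norm_pos_iff.2 (sub_ne_zero.2 hne)
  have h3 : 0 < ‖f'‖ := norm_pos_iff.2 hf
  nlinarith

variable {g : ℂ → ℂ} {z₀ : ℂ} {ν : ℕ} {a : ℂ → ℂ} {A : ℂ} {η σ R κ : ℝ}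

/-- the data for the comparison of orbits in a petal -/
structure Start (g : ℂ → ℂ) (z₀ : ℂ) (ν : ℕ) (a : ℂ → ℂ) (A : ℂ) (κ R w₀ : ℝ) (u₀ : ℂ) : Prop where
  pet : Petal g z₀ ν a A (κ / 16) (κ / 16) R
  κ0 : 0 < κ
  κ1 : κ ≤ 1 / 2
  kap : ∀ t : ℂ, ‖t‖ ≤ κ → ‖((1 + t) ^ ν)⁻¹ - 1‖ ≤ 1 / 4 ∧ ‖t‖ ≤ 2 * ‖((1 + t) ^ ν)⁻¹ - 1‖ ∧
    ‖((1 + t) ^ ν)⁻¹ - 1‖ ≤ 2 * ν * ‖t‖
  hA : A = -(ν : ℂ) * a 0
  hw : 2 * R + 20 ≤ w₀
  hw' : 8 * (16 / κ) ≤ w₀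
  hu : W A ν u₀ = (w₀ : ℂ)

theorem exists_start (hν : 1 ≤ ν) (ha : AnalyticAt ℂ a 0) (ha0 : a 0 ≠ 0)
    (hev : ∀ᶠ u in 𝓝 (0 : ℂ), g (z₀ + u) = z₀ + u + u ^ (ν + 1) * a u) :
    ∃ (A : ℂ) (κ R w₀ : ℝ) (u₀ : ℂ), Start g z₀ ν a A κ R w₀ u₀ := by
  obtain ⟨κ, hκ0, hκ1, hκ⟩ := kappa hν
  obtain ⟨A, hA⟩ : ∃ A, A = -(ν : ℂ) * a 0 := ⟨_, rfl⟩
  obtain ⟨R, p⟩ := exists_petal hν ha ha0 hev hA (η := κ / 16) (σ := κ / 16) (by positivity)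
    (by linarith) (by positivity)
  obtain ⟨w₀, hw₀⟩ : ∃ w₀, w₀ = max (2 * R + 20) (8 * (16 / κ)) := ⟨_, rfl⟩
  have h1 : 2 * R + 20 ≤ w₀ := by rw [hw₀]; exact le_max_left _ _
  have h2 : 8 * (16 / κ) ≤ w₀ := by rw [hw₀]; exact le_max_right _ _
  obtain ⟨u₀, hu₀⟩ := IsAlgClosed.exists_pow_nat_eq ((A * (w₀ : ℂ))⁻¹) (show 0 < ν by omega)
  refine ⟨A, κ, R, w₀, u₀, p, hκ0, hκ1, hκ, hA, h1, h2, ?_⟩
  unfold W
  have hw0 : (w₀ : ℂ) ≠ 0 := by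
    have := p.hR
    have hw0' : 0 < w₀ := by linarith
    exact_mod_cast hw0'.ne'
  rw [hu₀]
  have := p.hA
  field_simp

namespace Start

variable {w₀ : ℝ} {u₀ : ℂ}

theorem w0 (s : Start g z₀ ν a A κ R w₀ u₀) : 0 < w₀ := by
  have := s.hw
  have := s.pet.hR
  linarith

theorem re0 (s : Start g z₀ ν a A κ R w₀ u₀) : R < (W A ν u₀).re := by
  rw [s.hu, Complex.ofReal_re]
  have := s.hw
  have := s.pet.hR
  linarith

theorem u0_ne (s : Start g z₀ ν a A κ R w₀ u₀) : u₀ ≠ 0 := (s.pet.loc _ s.re0).1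

theorem uk_ne (s : Start g z₀ ν a A κ R w₀ u₀) (k : ℕ) : Vo g z₀ u₀ k ≠ 0 :=
  (s.pet.loc _ (s.pet.orbit s.re0 k).1).1

/-- position of the orbit of `u₀` -/
theorem Wk (s : Start g z₀ ν a A κ R w₀ u₀) (k : ℕ) :
    ‖W A ν (Vo g z₀ u₀ k) - (w₀ + k : ℝ)‖ ≤ κ / 16 * k := by
  have h1 := (s.pet.orbit s.re0 k).2
  rw [s.hu] at h1
  refine le_trans (le_of_eq ?_) h1
  congr 1
  push_cast
  ring

theorem Wk_norm (s : Start g z₀ ν a A κ R w₀ u₀) (k : ℕ) :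
    (w₀ + k) * (31 / 32) ≤ (W A ν (Vo g z₀ u₀ k)).re ∧
      ‖W A ν (Vo g z₀ u₀ k)‖ ≤ (w₀ + k) * (33 / 32) := by
  have h1 := s.Wk k
  have hk : (0 : ℝ) ≤ k := Nat.cast_nonneg k
  have hw := s.w0
  have h2 : κ / 16 * k ≤ (w₀ + k) * (1 / 32) := by
    have := s.κ1
    have h3 : κ / 16 * k ≤ 1 / 32 * k := mul_le_mul_of_nonneg_right (by linarith) hk
    nlinarith
  have h3 : |(W A ν (Vo g z₀ u₀ k) - (w₀ + k : ℝ)).re| ≤ κ / 16 * k :=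
    (Complex.abs_re_le_norm _).trans h1
  rw [sub_re, Complex.ofReal_re, abs_le] at h3
  refine ⟨by linarith, ?_⟩
  have h4 := norm_add_le (W A ν (Vo g z₀ u₀ k) - (w₀ + k : ℝ)) ((w₀ + k : ℝ) : ℂ)
  rw [sub_add_cancel, Complex.norm_real, Real.norm_of_nonneg (by positivity)] at h4
  linarith

/-- the discs about the orbit are in the petal -/
theorem disc (s : Start g z₀ ν a A κ R w₀ u₀) (k : ℕ) {v : ℂ}
    (hv : ‖v - Vo g z₀ u₀ k‖ < κ * ‖Vo g z₀ u₀ k‖) : R < (W A ν v).re := by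
  obtain ⟨u, hu⟩ : ∃ u, u = Vo g z₀ u₀ k := ⟨_, rfl⟩
  have hu0 : u ≠ 0 := by rw [hu]; exact s.uk_ne k
  have hun : 0 < ‖u‖ := norm_pos_iff.2 hu0
  rw [← hu] at hv
  obtain ⟨t, ht⟩ : ∃ t, t = (v - u) / u := ⟨_, rfl⟩
  have ht1 : ‖t‖ ≤ κ := by
    rw [ht, norm_div, div_le_iff₀ hun]
    exact hv.le
  have hvt : v = u * (1 + t) := by
    rw [ht]
    field_simp
    ring
  obtain ⟨h1, h2⟩ := s.Wk_norm k
  rw [← hu] at h1 h2
  have h3 := (s.kap t ht1).1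
  rw [hvt, W_mul]
  have e : W A ν u * ((1 + t) ^ ν)⁻¹ = W A ν u + W A ν u * (((1 + t) ^ ν)⁻¹ - 1) := by ring
  rw [e, add_re]
  have h4 : |(W A ν u * (((1 + t) ^ ν)⁻¹ - 1)).re| ≤ (w₀ + k) * (33 / 32) * (1 / 4) := by
    refine (Complex.abs_re_le_norm _).trans ?_
    rw [norm_mul]
    apply mul_le_mul h2 h3 (norm_nonneg _)
    have := s.w0
    positivity
  rw [abs_le] at h4
  have hw := s.hw
  have hR := s.pet.hR
  have hk : (0 : ℝ) ≤ k := Nat.cast_nonneg k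
  nlinarith

/-- the first step -/
theorem first (s : Start g z₀ ν a A κ R w₀ u₀) (ha0 : a 0 ≠ 0) :
    Vo g z₀ u₀ 1 = u₀ * (1 + u₀ ^ ν * a u₀) ∧ w₀ * ‖u₀ ^ ν * a u₀‖ ≤ 2 / ν ∧
      Vo g z₀ u₀ 1 ≠ u₀ := by
  have h1 := s.pet.step 0 (v := u₀) (by rw [Vo_zero]; exact s.re0)
  rw [Vo_zero, zero_add] at h1
  refine ⟨h1, ?_, ?_⟩
  · have h2 := (s.pet.loc _ s.re0).2.2.2.1
    have hνR : (0 : ℝ) < ν := Nat.cast_pos.2 (by have := s.pet.hν; omega)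
    have h3 : ‖A‖ * ‖u₀‖ ^ ν * w₀ = 1 := by
      have h4 : ‖W A ν u₀‖ = w₀ := by
        rw [s.hu, Complex.norm_real, Real.norm_of_nonneg s.w0.le]
      unfold W at h4
      rw [norm_inv, norm_mul, norm_pow] at h4
      rw [← h4]
      have hAn : 0 < ‖A‖ := norm_pos_iff.2 s.pet.hA
      have hun : 0 < ‖u₀‖ := norm_pos_iff.2 s.u0_ne
      field_simp
    have h5 : ‖A‖ = ν * ‖a 0‖ := by
      rw [s.hA, norm_mul, norm_neg, Complex.norm_natCast]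
    rw [h5] at h3
    rw [norm_mul, norm_pow, le_div_iff₀ hνR]
    have h6 : w₀ * (‖u₀‖ ^ ν * ‖a u₀‖) * ν ≤ w₀ * (‖u₀‖ ^ ν * (2 * ‖a 0‖)) * ν := by
      have := s.w0
      gcongr
    refine h6.trans (le_of_eq ?_)
    linear_combination 2 * h3
  · intro heq
    have h2 := (s.pet.orbit s.re0 1).2
    rw [heq, sub_self, zero_sub, norm_neg, Nat.cast_one, norm_one, Nat.cast_one, mul_one] at h2
    have := s.κ1
    linarith

/-- orbits which start near `u₀` stay in the discs -/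
theorem ratio (s : Start g z₀ ν a A κ R w₀ u₀) (ha0 : a 0 ≠ 0) {v : ℂ}
    (hv : ‖v - u₀‖ < 2 * ‖Vo g z₀ u₀ 1 - u₀‖) (k : ℕ) :
    R < (W A ν v).re ∧ ‖Vo g z₀ v k / Vo g z₀ u₀ k - 1‖ ≤ κ / 2 := by
  obtain ⟨h1, h2, h3⟩ := s.first ha0
  have hun : 0 < ‖u₀‖ := norm_pos_iff.2 s.u0_ne
  have hνR : (0 : ℝ) < ν := Nat.cast_pos.2 (by have := s.pet.hν; omega)
  have hκ0 := s.κ0
  have hκ1 := s.κ1
  have hw0 := s.w0
  have hσ := (s.pet.loc _ s.re0).2.2.1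
  obtain ⟨t, ht⟩ : ∃ t, t = (v - u₀) / u₀ := ⟨_, rfl⟩
  have hvt : v = u₀ * (1 + t) := by
    rw [ht]
    have := s.u0_ne
    field_simp
    ring
  have ht1 : ‖t‖ ≤ 2 * ‖u₀ ^ ν * a u₀‖ := by
    have e : Vo g z₀ u₀ 1 - u₀ = u₀ * (u₀ ^ ν * a u₀) := by rw [h1]; ring
    rw [e, norm_mul] at hv
    rw [ht, norm_div, div_le_iff₀ hun]
    linarith
  have ht2 : ‖t‖ ≤ κ / 8 := by linarith
  have hk1 := s.kap t (by linarith)
  have h4 : ‖W A ν v - w₀‖ ≤ 8 := by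
    rw [hvt, W_mul, s.hu]
    have e : (w₀ : ℂ) * ((1 + t) ^ ν)⁻¹ - w₀ = w₀ * (((1 + t) ^ ν)⁻¹ - 1) := by ring
    rw [e, norm_mul, Complex.norm_real, Real.norm_of_nonneg hw0.le]
    have h5 : w₀ * ‖((1 + t) ^ ν)⁻¹ - 1‖ ≤ w₀ * (2 * ν * (2 * ‖u₀ ^ ν * a u₀‖)) := by
      apply mul_le_mul_of_nonneg_left _ hw0.le
      exact hk1.2.2.trans (mul_le_mul_of_nonneg_left ht1 (by positivity))
    have h6 : w₀ * (2 * ν * (2 * ‖u₀ ^ ν * a u₀‖)) = 4 * ν * (w₀ * ‖u₀ ^ ν * a u₀‖) := by ring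
    have h7 : 4 * ν * (w₀ * ‖u₀ ^ ν * a u₀‖) ≤ 4 * ν * (2 / ν) :=
      mul_le_mul_of_nonneg_left h2 (by positivity)
    have h8 : 4 * (ν : ℝ) * (2 / ν) = 8 := by field_simp; norm_num
    linarith
  have hvR : R < (W A ν v).re := by
    have h5 : |(W A ν v - w₀).re| ≤ 8 := (Complex.abs_re_le_norm _).trans h4
    rw [sub_re, Complex.ofReal_re, abs_le] at h5
    have := s.hw
    have := s.pet.hR
    linarith
  refine ⟨hvR, ?_⟩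
  induction k with
  | zero =>
    rw [Vo_zero, Vo_zero]
    have e : v / u₀ - 1 = t := by
      rw [ht]
      have := s.u0_ne
      field_simp
    rw [e]
    linarith
  | succ k ih =>
    obtain ⟨vk, hvk⟩ : ∃ vk, vk = Vo g z₀ v k := ⟨_, rfl⟩
    obtain ⟨uk, huk⟩ : ∃ uk, uk = Vo g z₀ u₀ k := ⟨_, rfl⟩
    have hv1 := s.pet.orbit hvR k
    have hu1 := s.pet.orbit s.re0 k
    have hv2 := s.pet.loc _ hv1.1
    have hu2 := s.pet.loc _ hu1.1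
    have hv3 := s.pet.step k hv1.1
    have hu3 := s.pet.step k hu1.1
    rw [← hvk] at ih hv1 hv2 hv3
    rw [← huk] at ih hu1 hu2 hu3
    obtain ⟨s1, hs1⟩ : ∃ s1, s1 = vk ^ ν * a vk := ⟨_, rfl⟩
    obtain ⟨s2, hs2⟩ : ∃ s2, s2 = uk ^ ν * a uk := ⟨_, rfl⟩
    rw [← hs1] at hv2 hv3
    rw [← hs2] at hu2 hu3
    have hs1' := hv2.2.2.1
    have hs2' := hu2.2.2.1
    have huk0 : uk ≠ 0 := hu2.1
    have h12 : 1 / 2 ≤ ‖1 + s2‖ := by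
      have := norm_sub_norm_le (1 : ℂ) (-s2)
      rw [norm_one, norm_neg, sub_neg_eq_add] at this
      linarith
    have h12' : 1 + s2 ≠ 0 := by
      intro h
      rw [h, norm_zero] at h12
      linarith
    obtain ⟨r, hr⟩ : ∃ r, r = Vo g z₀ v (k + 1) / Vo g z₀ u₀ (k + 1) := ⟨_, rfl⟩
    rw [← hr]
    have hr1 : r = vk / uk * (1 + (s1 - s2) / (1 + s2)) := by
      rw [hr, hv3, hu3]
      field_simp
      ring
    have hr2 : ‖r - 1‖ ≤ κ := by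
      have e : r - 1 = (vk / uk - 1) + vk / uk * ((s1 - s2) / (1 + s2)) := by
        rw [hr1]
        ring
      rw [e]
      have h5 : ‖vk / uk‖ ≤ 2 := by
        have := norm_add_le (vk / uk - 1) 1
        rw [sub_add_cancel, norm_one] at this
        linarith
      have h6 : ‖(s1 - s2) / (1 + s2)‖ ≤ κ / 4 := by
        rw [norm_div, div_le_iff₀ (by linarith)]
        have := norm_sub_le s1 s2
        nlinarith
      have h7 := norm_add_le (vk / uk - 1) (vk / uk * ((s1 - s2) / (1 + s2)))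
      rw [norm_mul] at h7
      have h8 : ‖vk / uk‖ * ‖(s1 - s2) / (1 + s2)‖ ≤ 2 * (κ / 4) :=
        mul_le_mul h5 h6 (norm_nonneg _) (by norm_num)
      linarith
    have h9 := (s.kap (r - 1) hr2).2.1
    rw [add_sub_cancel] at h9
    -- the coordinates
    have hv4 := s.pet.orbit hvR (k + 1)
    have hu4 := s.Wk (k + 1)
    have hu5 := s.Wk_norm (k + 1)
    have hne := s.uk_ne (k + 1)
    have h10 : W A ν (Vo g z₀ v (k + 1)) = W A ν (Vo g z₀ u₀ (k + 1)) * (r ^ ν)⁻¹ := by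
      rw [← W_mul, hr, mul_div_cancel₀ _ hne]
    obtain ⟨w1, hw1⟩ : ∃ w1, w1 = W A ν (Vo g z₀ v (k + 1)) := ⟨_, rfl⟩
    obtain ⟨w2, hw2⟩ : ∃ w2, w2 = W A ν (Vo g z₀ u₀ (k + 1)) := ⟨_, rfl⟩
    rw [← hw1, ← hw2] at h10
    rw [← hw1] at hv4
    rw [← hw2] at hu4 hu5
    have hkk : (0 : ℝ) ≤ ((k + 1 : ℕ) : ℝ) := Nat.cast_nonneg _
    have h11 : ‖w1 - w2‖ ≤ 8 + κ / 8 * ((k + 1 : ℕ) : ℝ) := by
      have e : w1 - w2 = (w1 - W A ν v - ((k + 1 : ℕ) : ℂ)) + (W A ν v - w₀) -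
          (w2 - ((w₀ + ((k + 1 : ℕ) : ℝ) : ℝ) : ℂ)) := by
        push_cast
        ring
      rw [e]
      have h13 := norm_sub_le ((w1 - W A ν v - ((k + 1 : ℕ) : ℂ)) + (W A ν v - w₀))
        (w2 - ((w₀ + ((k + 1 : ℕ) : ℝ) : ℝ) : ℂ))
      have h14 := norm_add_le (w1 - W A ν v - ((k + 1 : ℕ) : ℂ)) (W A ν v - w₀)
      have h15 := hv4.2
      linarith
    have h16 : (w₀ + ((k + 1 : ℕ) : ℝ)) * (31 / 32) ≤ ‖w2‖ := hu5.1.trans (Complex.re_le_norm _)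
    have hw2n : 0 < ‖w2‖ := by
      have : 0 < (w₀ + ((k + 1 : ℕ) : ℝ)) * (31 / 32) := by positivity
      linarith
    have h17 : ‖(r ^ ν)⁻¹ - 1‖ = ‖w1 - w2‖ / ‖w2‖ := by
      rw [h10, eq_div_iff hw2n.ne', ← norm_mul]
      congr 1
      ring
    have h18 : ‖w1 - w2‖ / ‖w2‖ ≤ κ / 4 := by
      rw [div_le_iff₀ hw2n]
      have h19 : 8 ≤ κ / 16 * w₀ := by
        have := s.hw'
        have h20 : κ / 16 * (8 * (16 / κ)) ≤ κ / 16 * w₀ :=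
          mul_le_mul_of_nonneg_left this (by positivity)
        have h21 : κ / 16 * (8 * (16 / κ)) = 8 := by field_simp
        linarith
      have h22 : κ / 4 * ((w₀ + ((k + 1 : ℕ) : ℝ)) * (31 / 32)) ≤ κ / 4 * ‖w2‖ :=
        mul_le_mul_of_nonneg_left h16 (by positivity)
      have h23 : 0 ≤ κ * ((k + 1 : ℕ) : ℝ) := by positivity
      have h24 : 0 ≤ κ * w₀ := by positivity
      linarith
    rw [h17] at h9
    linarith

end Start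

end Pool.Agent.Y736.ML
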