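import Pool.Agent.H713R2.Ext3

set_option autoImplicit false

/-! # Jensen's formula for the exterior map -/

namespace Pool.Agent.Y736.HD

open Complex Metric Set Filter Topology MeasureTheory Pool.Agent.H712R2 Pool.Agent.H713R2
open N62a1eb23
open Real (posLog circleAverage)

/-- the circle mean of the logarithm of a product with a linear factor -/
theorem avg_mul {g : ℂ → ℂ} {c a : ℂ} {R : ℝ} (hR : R ≠ 0)
    (hg : AnalyticOnNhd ℂ g (closedBall c |R|)) (hgc : g c ≠ 0) :
    circleAverage (fun x => Real.log ‖(x - a) * g x‖) c R =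
      circleAverage (fun x => Real.log ‖x - a‖) c R + circleAverage (fun x => Real.log ‖g x‖) c R := by
  have hR' : 0 < |R| := abs_pos.2 hR
  have h1 : CircleIntegrable (fun x => Real.log ‖x - a‖) c R :=
    circleIntegrable_log_norm_sub_const R
  have h2 : CircleIntegrable (fun x => Real.log ‖g x‖) c R :=
    (hg.mono sphere_subset_closedBall).meromorphicOn.circleIntegrable_log_norm
  rw [← Real.circleAverage_fun_add h1 h2]
  apply Real.circleAverage_congr_codiscreteWithin _ hR
  have h3 : g ⁻¹' {0}ᶜ ∈ codiscreteWithin (closedBall c |R|) :=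
    hg.preimage_zero_mem_codiscreteWithin hgc (mem_closedBall_self hR'.le)
      ⟨⟨c, mem_closedBall_self hR'.le⟩, (convex_closedBall c |R|).isPreconnected⟩
  have h4 : ({a}ᶜ : Set ℂ) ∈ codiscreteWithin (sphere c |R|) :=
    compl_singleton_mem_codiscreteWithin a
  have h5 := codiscreteWithin_mono (sphere_subset_closedBall (x := c) (ε := |R|)) h3
  filter_upwards [h5, h4] with x hx1 hx2
  have hx1' : g x ≠ 0 := hx1
  have hx2' : x - a ≠ 0 := sub_ne_zero.2 hx2
  rw [norm_mul, Real.log_mul (norm_ne_zero_iff.2 hx2') (norm_ne_zero_iff.2 hx1')]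

/-- **Jensen's inequality** at a simple zero -/
theorem jensen_zero {h : ℂ → ℂ} (hh : Differentiable ℂ h) {c : ℂ} (h0 : h c = 0)
    (h1 : deriv h c ≠ 0) {R : ℝ} (hR : 0 < R) :
    Real.log (R * ‖deriv h c‖) ≤ circleAverage (fun x => Real.log ‖h x‖) c R := by
  obtain ⟨g, hg⟩ : ∃ g, g = dslope h c := ⟨_, rfl⟩
  have hgd : Differentiable ℂ g := by
    rw [hg, ← differentiableOn_univ, Complex.differentiableOn_dslope univ_mem]
    exact hh.differentiableOn
  have hgc : g c = deriv h c := by rw [hg, dslope_same]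
  have hfac : (fun x => Real.log ‖h x‖) = fun x => Real.log ‖(x - c) * g x‖ := by
    funext x
    have : (x - c) * g x = h x := by
      have := sub_smul_dslope h c x
      rw [h0, sub_zero, smul_eq_mul] at this
      rw [hg]
      exact this
    rw [this]
  have hga : AnalyticOnNhd ℂ g (closedBall c |R|) := fun x _ => hgd.analyticAt x
  have hgc0 : g c ≠ 0 := by rw [hgc]; exact h1
  rw [hfac, avg_mul hR.ne' hga hgc0]
  have e1 : circleAverage (fun x => Real.log ‖x - c‖) c R = Real.log R := by
    apply circleAverage_log_norm_sub_const_of_mem_closedBall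
    exact mem_closedBall_self (abs_nonneg _)
  have e2 := hga.circleAverage_log_norm hR.ne' hgc0
  have e3 : 0 ≤ ∑ᶠ u, MeromorphicOn.divisor g (closedBall c |R|) u *
      Real.log (R * ‖c - u‖⁻¹) := by
    apply finsum_nonneg
    intro u
    by_cases hu : u ∈ closedBall c |R|
    · apply mul_nonneg
      · exact_mod_cast MeromorphicOn.AnalyticOnNhd.divisor_nonneg hga u
      · rcases eq_or_ne c u with rfl | hcu
        · simp
        · apply Real.log_nonneg
          have h3 : 0 < ‖c - u‖ := norm_pos_iff.2 (sub_ne_zero.2 hcu)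
          rw [← div_eq_mul_inv, le_div_iff₀ h3, one_mul]
          rw [mem_closedBall, dist_comm, dist_eq_norm, abs_of_pos hR] at hu
          exact hu
    · rw [Function.locallyFinsuppWithin.apply_eq_zero_of_notMem _ hu]
      simp
  rw [e1, e2, Real.log_mul hR.ne' (norm_ne_zero_iff.2 h1), ← hgc]
  linarith

variable {d : ℕ} {β : ℂ → ℂ}

theorem ana (hβ : IsBeta d β) (z : ℂ) {s : ℝ} (hs0 : 0 < s) (hs1 : s < 1) :
    AnalyticOnNhd ℂ (fun x => β x - z * x) (closedBall 0 |s|) := by
  have h1 : AnalyticOnNhd ℂ β (ball 0 1) := hβ.diff.analyticOnNhd isOpen_ball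
  have h2 : AnalyticOnNhd ℂ β (closedBall 0 |s|) := h1.mono (by
    rw [abs_of_pos hs0]
    exact closedBall_subset_ball hs1)
  exact h2.sub (analyticOnNhd_const.mul analyticOnNhd_id)

/-- Jensen's formula for a point of the connectedness locus. -/
theorem avg_mem (hβ : IsBeta d β) {z : ℂ} (hz : z ∈ multibrotSet d) {s : ℝ} (hs0 : 0 < s)
    (hs1 : s < 1) : circleAverage (fun x => Real.log ‖β x - z * x‖) 0 s = 0 := by
  have h := (ana hβ z hs0 hs1).circleAverage_log_norm_of_ne_zero ?_
  · rw [h, mul_zero, sub_zero, hβ.zero, norm_one, Real.log_one]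
  · intro x hx
    rw [abs_of_pos hs0] at hx
    have hx1 : x ∈ ball (0 : ℂ) 1 := closedBall_subset_ball hs1 hx
    rcases eq_or_ne x 0 with rfl | hx0
    · rw [mul_zero, sub_zero, hβ.zero]
      exact one_ne_zero
    · intro h1
      apply hβ.notMem x hx1 hx0
      have : x⁻¹ * β x = z := by
        rw [sub_eq_zero.1 h1]
        field_simp
      rw [this]
      exact hz

/-- Jensen's formula for a point outside the connectedness locus. -/
theorem avg_ext (hβ : IsBeta d β) {w : ℂ} (hw : 1 < ‖w‖) {s : ℝ} (hs0 : 0 < s) (hs1 : s < 1) :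
    circleAverage (fun x => Real.log ‖β x - w * β w⁻¹ * x‖) 0 s = posLog (s * ‖w‖) := by
  obtain ⟨ha, ha0⟩ := inv_mem_ball hw
  have hw0 : w ≠ 0 := by
    rintro rfl
    rw [norm_zero] at hw
    linarith
  obtain ⟨a, hae⟩ : ∃ a, a = w⁻¹ := ⟨_, rfl⟩
  have hwa : w = a⁻¹ := by rw [hae, inv_inv]
  rw [← hae] at ha ha0 ⊢
  obtain ⟨H, hH⟩ : ∃ H : ℂ → ℂ, H = fun x => β x - w * β a * x := ⟨_, rfl⟩
  have hHd : DifferentiableOn ℂ H (ball 0 1) := by
    rw [hH]
    exact hβ.diff.sub (differentiableOn_id.const_mul _)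
  have hHa : H a = 0 := by
    rw [hH]
    show β a - w * β a * a = 0
    rw [hwa]
    field_simp
    ring
  obtain ⟨g, hg⟩ : ∃ g, g = dslope H a := ⟨_, rfl⟩
  have hgd : DifferentiableOn ℂ g (ball 0 1) := by
    rw [hg, Complex.differentiableOn_dslope (isOpen_ball.mem_nhds ha)]
    exact hHd
  have hfac : ∀ x, (x - a) * g x = H x := by
    intro x
    have := sub_smul_dslope H a x
    rw [hHa, sub_zero, smul_eq_mul] at this
    rw [hg]
    exact this
  have hgne : ∀ x ∈ ball (0 : ℂ) 1, g x ≠ 0 := by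
    intro x hx
    rcases eq_or_ne x a with rfl | hxa
    · rw [hg, dslope_same]
      -- the derivative of the univalent function `y⁻¹ * β y`
      have hU : IsOpen (ball (0 : ℂ) 1 \ {0}) := isOpen_ball.sdiff isClosed_singleton
      have hφ : DifferentiableOn ℂ (fun y => y⁻¹ * β y) (ball (0 : ℂ) 1 \ {0}) := by
        apply DifferentiableOn.mul
        · exact differentiableOn_inv.mono fun y hy => hy.2
        · exact hβ.diff.mono sdiff_subset
      have hinj : InjOn (fun y => y⁻¹ * β y) (ball (0 : ℂ) 1 \ {0}) := by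
        intro y hy y' hy' h
        exact hβ.inj y hy.1 y' hy'.1 hy.2 hy'.2 h
      have h1 := Pool.Agent.Helper202.Univ.deriv_ne_zero hU hφ hinj ⟨ha, ha0⟩
      have hβx : HasDerivAt β (deriv β x) x :=
        (hβ.diff.differentiableAt (isOpen_ball.mem_nhds ha)).hasDerivAt
      have h2 := ((hasDerivAt_inv ha0).mul hβx).deriv
      have h2' : deriv (fun y => y⁻¹ * β y) x = -(x ^ 2)⁻¹ * β x + x⁻¹ * deriv β x := h2
      have h3 : deriv H x = deriv β x - w * β x := by
        rw [hH]
        have := (hβx.sub ((hasDerivAt_id x).const_mul (w * β x))).deriv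
        rw [mul_one] at this
        exact this
      intro h4
      apply h1
      rw [h2']
      rw [h3, hwa, sub_eq_zero] at h4
      rw [h4]
      field_simp
      ring
    · intro h1
      have h2 := hfac x
      rw [h1, mul_zero] at h2
      rcases eq_or_ne x 0 with rfl | hx0
      · rw [hH] at h2
        simp only [mul_zero, sub_zero, hβ.zero] at h2
        exact one_ne_zero h2.symm
      · apply hxa
        apply hβ.inj x hx a ha hx0 ha0
        have h3 : β x = w * β a * x := by
          rw [hH] at h2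
          exact sub_eq_zero.1 h2.symm
        rw [h3, hwa]
        field_simp
  have hsub : closedBall (0 : ℂ) |s| ⊆ ball 0 1 := by
    rw [abs_of_pos hs0]
    exact closedBall_subset_ball hs1
  have hga : AnalyticOnNhd ℂ g (closedBall 0 |s|) :=
    (hgd.analyticOnNhd isOpen_ball).mono hsub
  have h0 : (0 : ℂ) ∈ ball (0 : ℂ) 1 := mem_ball_self one_pos
  have hg0 : ‖g 0‖ = ‖w‖ := by
    have h1 := hfac 0
    rw [hH] at h1
    simp only [mul_zero, sub_zero, hβ.zero, zero_sub] at h1
    have h2 : g 0 = -w := by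
      rw [hwa]
      field_simp
      linear_combination -h1
    rw [h2, norm_neg]
  have e0 : (fun x => Real.log ‖β x - w * β a * x‖) = fun x => Real.log ‖(x - a) * g x‖ := by
    funext x
    rw [hfac x, hH]
  rw [e0, avg_mul hs0.ne' hga (hgne 0 h0)]
  have e1 := circleAverage_log_norm_sub_const_eq_log_radius_add_posLog (a := a) (c := 0) hs0.ne'
  have e2 := hga.circleAverage_log_norm_of_ne_zero (fun x hx => hgne x (hsub hx))
  rw [e1, e2, hg0, zero_sub, norm_neg, hae, norm_inv]
  have hws : 0 < s * ‖w‖ := by positivity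
  have hwn : 0 < ‖w‖ := by linarith
  have e3 : s⁻¹ * ‖w‖⁻¹ = (s * ‖w‖)⁻¹ := by rw [mul_inv]
  rw [e3]
  have e4 := Real.posLog_sub_posLog_inv (x := s * ‖w‖)
  have e5 := Real.log_mul hs0.ne' hwn.ne'
  linarith

end Pool.Agent.Y736.HD
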