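import Pool.Agent.Y736.HD9
import Pool.Agent.Y736.ML6
import Pool.Agent.Y736.ML9

set_option autoImplicit false

/-! # The harmonic measure near generic points of the boundary -/

namespace Pool.Agent.Y736.HD

open Complex Metric Set Filter Topology MeasureTheory Pool.Agent.H713R2
open N62a1eb23 Pool.Agent.Y298.CA
open Pool.Agent.H712R2 (P mem_multibrot_iff fc isCompact_multibrot)
open Real (posLog circleAverage)

variable {ψ : ℂ → ℂ}

/-- lower bound of the mean of the truncated potential by the iterates -/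
theorem le_mean' {β : ℂ → ℂ} (hβ : IsBeta 2 β) (hψ : IsExteriorMap (multibrotSet 2) ψ) {c₀ : ℂ}
    (hc₀ : c₀ ∈ multibrotSet 2) {ρ s : ℝ} (hρ : 0 < ρ) (hs0 : 0 < s) (hs1 : s < 1) (m : ℕ) :
    circleAverage (fun z => posLog (‖P 2 (m + 1) z‖ / 2)) c₀ ρ / 2 ^ m + Real.log s ≤
      circleAverage (UU β c₀ ρ) 0 s := by
  have hlogs : Real.log s < 0 := Real.log_neg hs0 hs1
  have hcont : Continuous (fun z => posLog (‖P 2 (m + 1) z‖ / 2)) := by
    apply Real.continuous_posLog.comp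
    exact (Pool.Agent.H713R2.differentiable_P 2 (m + 1)).continuous.norm.div_const 2
  have hci : CircleIntegrable (fun z => posLog (‖P 2 (m + 1) z‖ / 2)) c₀ ρ :=
    hcont.continuousOn.circleIntegrable hρ.le
  have h2m : (0 : ℝ) < 2 ^ m := by positivity
  have hli : CircleIntegrable (fun z => posLog (‖P 2 (m + 1) z‖ / 2) / 2 ^ m + Real.log s)
      c₀ ρ := by
    have h2 : CircleIntegrable (fun z => posLog (‖P 2 (m + 1) z‖ / 2) / 2 ^ m) c₀ ρ :=
      IntervalIntegrable.div_const hci _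
    exact h2.add (circleIntegrable_const _ _ _)
  have hkey := lower_II hβ hc₀ hρ hs0 hs1 hli (fun z hz => by
    by_cases hzM : z ∈ multibrotSet 2
    · rw [avg_mem hβ hzM hs0 hs1]
      have h1 := (mem_multibrot_iff le_rfl z).1 hzM (m + 1)
      have h3 : posLog (‖P 2 (m + 1) z‖ / 2) = 0 := by
        rw [Real.posLog_eq_zero_iff, abs_of_nonneg (by positivity), div_le_one (by norm_num)]
        exact h1
      rw [h3, zero_div, zero_add]
      exact hlogs.le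
    · have h1 : z ∈ (multibrotSet 2)ᶜ := hzM
      rw [← hψ.image] at h1
      obtain ⟨w, hw, rfl⟩ := h1
      have hw' : 1 < ‖w‖ := hw
      have h3 := Pool.Agent.W677.MB.P_le_two hψ hw m
      have h8 : posLog (‖P 2 (m + 1) (ψ w)‖ / 2) / 2 ^ m ≤ Real.log ‖w‖ := by
        rw [div_le_iff₀ h2m]
        have h4 : posLog (‖P 2 (m + 1) (ψ w)‖ / 2) ≤ posLog (‖w‖ ^ (2 ^ m)) := by
          apply Real.posLog_le_posLog (by positivity)
          linarith
        refine h4.trans (le_of_eq ?_)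
        rw [Real.posLog_pow, Real.posLog_eq_log (by rw [abs_of_pos (by linarith)]; exact hw'.le)]
        push_cast
        ring
      have e1 := avg_ext hβ hw hs0 hs1
      rw [← exteriorMap_unique hβ hψ hw] at e1
      rw [e1]
      have h9 : Real.log (s * ‖w‖) ≤ posLog (s * ‖w‖) := le_max_right _ _
      rw [Real.log_mul hs0.ne' (by linarith)] at h9
      linarith)
  refine le_trans (le_of_eq ?_) hkey
  rw [avg_eq, avg_eq]
  have hi := integrable_of hci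
  rw [integral_add (hi.div_const _) (integrable_const _), integral_div]
  simp

/-- every disc around a boundary point has positive harmonic measure -/
theorem pos_vol (hψ : IsExteriorMap (multibrotSet 2) ψ) {c₀ : ℂ}
    (hc₀ : c₀ ∈ frontier (multibrotSet 2)) {r : ℝ} (hr : 0 < r) :
    0 < (volume (Ang ψ c₀ r)).toReal := by
  have hpi := Real.pi_pos
  obtain ⟨β, hβ⟩ := exists_beta (d := 2) le_rfl
  have hcl : IsClosed (multibrotSet 2) := (isCompact_multibrot le_rfl).isClosed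
  have hM : c₀ ∈ multibrotSet 2 := hcl.frontier_subset hc₀
  -- an exterior point
  obtain ⟨z₁, hz₁, hz₁r⟩ : ∃ z₁, z₁ ∉ multibrotSet 2 ∧ ‖z₁ - c₀‖ < r := by
    rw [frontier_eq_closure_inter_closure] at hc₀
    obtain ⟨z, hz, hd⟩ := Metric.mem_closure_iff.1 hc₀.2 r hr
    rw [dist_comm, dist_eq_norm] at hd
    exact ⟨z, hz, hd⟩
  obtain ⟨ρ, hρ⟩ : ∃ ρ, ρ = ‖z₁ - c₀‖ := ⟨_, rfl⟩
  have hρ0 : 0 < ρ := by
    rw [hρ]
    apply norm_pos_iff.2
    intro h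
    apply hz₁
    rw [sub_eq_zero.1 h]
    exact hM
  have hρr : ρ < r := by rw [hρ]; exact hz₁r
  obtain ⟨m, hm⟩ : ∃ m, 2 < ‖P 2 (m + 1) z₁‖ := by
    by_contra hcon
    push Not at hcon
    apply hz₁
    rw [mem_multibrot_iff le_rfl]
    intro k
    rcases k with _ | k
    · simp [Pool.Agent.H712R2.P_zero]
    · exact hcon k
  -- the mean is positive
  obtain ⟨T, hT⟩ : ∃ T, T = circleAverage (fun z => posLog (‖P 2 (m + 1) z‖ / 2)) c₀ ρ / 2 ^ m :=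
    ⟨_, rfl⟩
  have hT0 : 0 < T := by
    rw [hT]
    apply div_pos _ (by positivity)
    rw [Real.circleAverage_def, smul_eq_mul]
    apply mul_pos (by positivity)
    have hcont : Continuous (fun θ : ℝ => posLog (‖P 2 (m + 1) (circleMap c₀ ρ θ)‖ / 2)) := by
      apply Real.continuous_posLog.comp
      exact ((Pool.Agent.H713R2.differentiable_P 2 (m + 1)).continuous.comp
        (continuous_circleMap c₀ ρ)).norm.div_const 2
    apply intervalIntegral.integral_pos (by positivity) hcont.continuousOn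
      (fun θ _ => Real.posLog_nonneg)
    have h1 : z₁ ∈ sphere c₀ |ρ| := by
      rw [mem_sphere, dist_eq_norm, abs_of_pos hρ0, hρ]
    rw [← image_circleMap_Ioc] at h1
    obtain ⟨θ, hθ, hθz⟩ := h1
    refine ⟨θ, Ioc_subset_Icc_self hθ, ?_⟩
    rw [hθz]
    have h2 : 1 < ‖P 2 (m + 1) z₁‖ / 2 := by linarith
    calc 0 < Real.log (‖P 2 (m + 1) z₁‖ / 2) := Real.log_pos h2
      _ ≤ _ := le_max_right _ _
  -- small scales
  obtain ⟨δ, hδ, hgc⟩ := green_cont hM (half_pos hT0)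
  obtain ⟨ρ', hρ'⟩ : ∃ ρ', ρ' = min δ (ρ / 2) := ⟨_, rfl⟩
  have hρ'0 : 0 < ρ' := by rw [hρ']; exact lt_min hδ (half_pos hρ0)
  have hρ'δ : ρ' ≤ δ := by rw [hρ']; exact min_le_left _ _
  have hρ'ρ : ρ' < ρ := by
    have : ρ' ≤ ρ / 2 := by rw [hρ']; exact min_le_right _ _
    linarith
  have hlog : 0 < Real.log (ρ / ρ') := by
    apply Real.log_pos
    rwa [lt_div_iff₀ hρ'0, one_mul]
  have hkey : ∀ ε : ℝ, 0 < ε → T / 2 ≤
      Real.log (ρ / ρ') * ((volume (Ang ψ c₀ r)).toReal / (2 * Real.pi) + ε) := by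
    intro ε hε
    have h1 : ∀ᶠ n in atTop, T + Real.log (sn n) ≤
        Real.log (ρ / ρ') * ((volume (Ang ψ c₀ r)).toReal / (2 * Real.pi) + ε) + T / 2 := by
      filter_upwards [DD_limsup hψ (ae_land hψ) c₀ hρr hε] with n hn
      have h2 := le_mean' hβ hψ hM hρ0 (sn_pos n) (sn_lt n) m
      rw [← hT, avg_psi hβ hψ c₀ _ (sn_pos n) (sn_lt n)] at h2
      have h3 := mean_le hβ hψ hM hρ'0 (sn_pos n) (sn_lt n) (half_pos hT0).le
        (fun w hw hwr => hgc ψ hψ w hw (hwr.trans hρ'δ))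
      rw [avg_psi hβ hψ c₀ _ (sn_pos n) (sn_lt n)] at h3
      have h4 := TT_step hψ hM hρ'0 hρ'ρ n
      unfold TT at h4
      have h5 := mul_le_mul_of_nonneg_left hn hlog.le
      linarith
    have h3 : Tendsto (fun n => T + Real.log (sn n)) atTop (𝓝 (T + Real.log 1)) :=
      ((Real.continuousAt_log one_ne_zero).tendsto.comp sn_lim).const_add T
    rw [Real.log_one, add_zero] at h3
    have h4 := le_of_tendsto h3 h1
    linarith
  by_contra hcon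
  have h0 : (volume (Ang ψ c₀ r)).toReal = 0 :=
    le_antisymm (not_lt.1 hcon) ENNReal.toReal_nonneg
  have h1 := hkey (T / 4 / Real.log (ρ / ρ')) (by positivity)
  rw [h0, zero_div, zero_add, mul_div_cancel₀ _ hlog.ne'] at h1
  linarith

/-- the typical parameters are dense in the boundary -/
theorem typ_dense (hψ : IsExteriorMap (multibrotSet 2) ψ) : frontier (multibrotSet 2) ⊆
    closure {t | t ∈ frontier (multibrotSet 2) ∧ Lyap 2 (Real.log 2) t} := by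
  intro c hc
  rw [Metric.mem_closure_iff]
  intro ε hε
  obtain ⟨β, hβ⟩ := exists_beta (d := 2) le_rfl
  have h1 := pos_vol hψ hc hε
  have h2 : volume (Ang ψ c ε) ≠ 0 := by
    intro h
    rw [h] at h1
    simp at h1
  have h3 : ∀ᵐ θ : ℝ, ∃ c₀ : ℂ, c₀ ∈ frontier (multibrotSet 2) ∧ Lyap 2 (Real.log 2) c₀ ∧
      Tendsto (fun ρ : ℝ => ψ (ρ * exp (θ * I))) (𝓝[>] 1) (𝓝 c₀) := by
    filter_upwards [Pool.Agent.Y272.TY.ae_neg' (Pool.Agent.Y272.TY.typical_all le_rfl hβ)]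
      with θ hθ
    obtain ⟨c₀, A, R, h⟩ := hθ
    have h4 := lyap_of_typ le_rfl hβ h
    rw [Nat.cast_ofNat] at h4
    exact ⟨c₀, h.frontier le_rfl hβ, h4, h.tendsto_psi hβ hψ⟩
  have h4 : ∃ᵐ θ : ℝ, θ ∈ Ang ψ c ε := by
    rw [frequently_ae_mem_iff]
    exact h2
  obtain ⟨θ, h5, c₀, h6, h7, h8⟩ := (h4.and_eventually h3).exists
  obtain ⟨-, ζ, hζ, hlim⟩ := h5
  have h9 : ζ = c₀ := tendsto_nhds_unique hlim h8
  refine ⟨c₀, ⟨h6, h7⟩, ?_⟩
  rw [mem_ball, dist_comm, h9] at hζ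
  exact hζ

/-- Baire category argument -/
theorem baire_scale {ι : Type*} [Countable ι] {B : Set ℂ} (hB : IsClosed B) {E : ι → Set ℂ}
    (hEB : ∀ i, E i ⊆ B) (hd : ∀ i, B ⊆ closure (E i)) {Q : ι → ℂ → ℝ → Prop}
    (hE : ∀ i, ∀ t ∈ E i, ∀ δ : ℝ, 0 < δ → ∃ ρ η : ℝ, 0 < ρ ∧ ρ < δ ∧ 0 < η ∧
      ∀ c ∈ ball t η, Q i c ρ) :
    ∃ G : Set ℂ, IsGδ G ∧ G ⊆ B ∧ B ⊆ closure G ∧ ∀ c ∈ G, ∀ i, ∀ δ : ℝ, 0 < δ →
      ∃ ρ : ℝ, 0 < ρ ∧ ρ < δ ∧ Q i c ρ := by
  have hex : ∀ (p : ℕ × ι) (t : ℂ), t ∈ E p.2 → ∃ ρ η : ℝ, 0 < ρ ∧ ρ < 1 / ((p.1 : ℝ) + 1) ∧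
      0 < η ∧ ∀ c ∈ ball t η, Q p.2 c ρ := fun p t ht => hE p.2 t ht _ (by positivity)
  choose! rad rad' hr0 hr1 hr2 hr3 using hex
  obtain ⟨U, hU⟩ : ∃ U : ℕ × ι → Set ℂ, U = fun p => ⋃ t ∈ E p.2, ball t (rad' p t) := ⟨_, rfl⟩
  have hUo : ∀ p, IsOpen (U p) := by
    intro p
    rw [hU]
    exact isOpen_biUnion fun t _ => isOpen_ball
  have hEU : ∀ p, E p.2 ⊆ U p := by
    intro p t ht
    rw [hU]
    exact mem_biUnion ht (mem_ball_self (hr2 p t ht))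
  refine ⟨B ∩ ⋂ p, U p, hB.isGδ.inter (IsGδ.iInter_of_isOpen hUo), inter_subset_left, ?_, ?_⟩
  · have : CompleteSpace B := hB.completeSpace_coe
    have h1 : Dense (⋂ p, ((↑) : B → ℂ) ⁻¹' U p) := by
      apply dense_iInter_of_isOpen (fun p => (hUo p).preimage continuous_subtype_val)
      intro p x
      rw [Metric.mem_closure_iff]
      intro ε hε
      obtain ⟨t, ht, htd⟩ := Metric.mem_closure_iff.1 (hd p.2 x.2) ε hε
      exact ⟨⟨t, hEB p.2 ht⟩, hEU p ht, htd⟩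
    intro x hx
    rw [Metric.mem_closure_iff]
    intro ε hε
    obtain ⟨y, hy, hyd⟩ := Metric.mem_closure_iff.1 (h1 ⟨x, hx⟩) ε hε
    refine ⟨y, ⟨y.2, ?_⟩, hyd⟩
    rw [mem_iInter] at hy ⊢
    exact fun n => hy n
  · rintro c ⟨hcB, hcU⟩ i δ hδ
    obtain ⟨n, hn⟩ := exists_nat_one_div_lt hδ
    have h1 := mem_iInter.1 hcU (n, i)
    rw [hU] at h1
    obtain ⟨t, ht, hct⟩ := mem_iUnion₂.1 h1
    exact ⟨rad (n, i) t, hr0 (n, i) t ht, (hr1 (n, i) t ht).trans hn, hr3 (n, i) t ht c hct⟩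

theorem Ang_mono {c t : ℂ} {r r' : ℝ} (h : dist t c + r ≤ r') : Ang ψ t r ⊆ Ang ψ c r' := by
  rintro θ ⟨h1, ζ, h2, h3⟩
  refine ⟨h1, ζ, ?_, h3⟩
  rw [mem_ball] at h2 ⊢
  have := dist_triangle ζ t c
  linarith

theorem vol_mono {c t : ℂ} {r r' : ℝ} (h : dist t c + r ≤ r') :
    (volume (Ang ψ t r)).toReal ≤ (volume (Ang ψ c r')).toReal :=
  ENNReal.toReal_mono (vol_Ang_ne _ _ _) (measure_mono (Ang_mono h))

/-- satellite parameters: very small harmonic measure -/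
theorem sat_vol (hψ : IsExteriorMap (multibrotSet 2) ψ) {t : ℂ} (ht : t ∈ multibrotSet 2) {A : ℝ}
    (hA : 0 < A) (h : ∀ w : ℂ, 1 < ‖w‖ → ‖w‖ ≤ 2 → ‖w‖ - 1 ≤ 12 * Real.exp (-(A / ‖ψ w - t‖)))
    {s δ : ℝ} (hs : s < 1) (hδ : 0 < δ) : ∃ ρ η : ℝ, 0 < ρ ∧ ρ < δ ∧ 0 < η ∧
      ∀ c ∈ ball t η, (volume (Ang ψ c ρ)).toReal < Real.exp (-(ρ ^ (-s))) := by
  have hpi := Real.pi_pos
  have hpi4 := Real.pi_lt_four
  have hlog2 : 1 / 2 < Real.log 2 := by
    have := Real.log_two_gt_d9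
    linarith
  obtain ⟨δ₁, hδ₁, hg⟩ := green_cont ht (show 0 < Real.log 2 by linarith)
  have hexp : ∀ᶠ ρ : ℝ in 𝓝[>] 0, 16 * Real.exp (-(A / 8 / ρ)) ≤ 1 := by
    have h0 : Tendsto (fun ρ : ℝ => A / 8 / ρ) (𝓝[>] 0) atTop := by
      have h2 : Tendsto (fun ρ : ℝ => A / 8 * ρ⁻¹) (𝓝[>] 0) atTop :=
        Tendsto.const_mul_atTop (by positivity) tendsto_inv_nhdsGT_zero
      exact h2.congr fun ρ => (div_eq_mul_inv _ _).symm
    have h1 : Tendsto (fun ρ : ℝ => 16 * Real.exp (-(A / 8 / ρ))) (𝓝[>] 0) (𝓝 (16 * 0)) :=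
      (Real.tendsto_exp_neg_atTop_nhds_zero.comp h0).const_mul 16
    rw [mul_zero] at h1
    exact h1.eventually (ge_mem_nhds one_pos)
  obtain ⟨δ₂, hδ₂, hexp'⟩ := mem_nhdsGT_iff_exists_Ioo_subset.1 hexp
  have hδ₂' : 0 < δ₂ := hδ₂
  obtain ⟨ρ, hρ0, hρ1, hρ2⟩ := Pool.Agent.Y736.ML.gauge (A := A / 4) (by positivity) hs
    (show 0 < min δ (min (δ₁ / 4) δ₂) by positivity)
  have hρδ : ρ < δ := hρ1.trans_le (min_le_left _ _)
  have hρδ₁ : ρ < δ₁ / 4 := hρ1.trans_le ((min_le_right _ _).trans (min_le_left _ _))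
  have hρδ₂ : ρ < δ₂ := hρ1.trans_le ((min_le_right _ _).trans (min_le_right _ _))
  refine ⟨ρ, ρ, hρ0, hρδ, hρ0, fun c hc => ?_⟩
  rw [mem_ball] at hc
  have h1 : (volume (Ang ψ c ρ)).toReal ≤ (volume (Ang ψ t (2 * ρ))).toReal :=
    vol_mono (by linarith)
  have h2 := vol_le hψ ht (r := 2 * ρ) (by positivity) (S := 12 * Real.exp (-(A / (4 * ρ))))
    (by positivity) (fun w hw hwr => by
      have h3 : Real.log ‖w‖ ≤ Real.log 2 := hg ψ hψ w hw (by linarith)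
      have h4 : ‖w‖ ≤ 2 := (Real.log_le_log_iff (by linarith) (by norm_num)).1 h3
      have h5 := h w hw h4
      have h6 : Real.log ‖w‖ ≤ ‖w‖ - 1 := Real.log_le_sub_one_of_pos (by linarith)
      have hne : 0 < ‖ψ w - t‖ := norm_pos_iff.2 (sub_ne_zero.2 (psi_ne hψ ht hw))
      have h7 : Real.exp (-(A / ‖ψ w - t‖)) ≤ Real.exp (-(A / (4 * ρ))) := by
        apply Real.exp_le_exp.2
        apply neg_le_neg
        apply div_le_div_of_nonneg_left hA.le hne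
        linarith
      linarith)
  have h3 := hexp' ⟨hρ0, hρδ₂⟩
  have h3' : 16 * Real.exp (-(A / 8 / ρ)) ≤ 1 := h3
  have h4 : Real.exp (-(A / (4 * ρ))) = Real.exp (-(A / 8 / ρ)) * Real.exp (-(A / 4 / (2 * ρ))) := by
    rw [← Real.exp_add]
    congr 1
    field_simp
    ring
  have h5 : 2 * Real.pi * (12 * Real.exp (-(A / (4 * ρ)))) / Real.log 2 ≤
      12 * Real.exp (-(A / 4 / (2 * ρ))) := by
    rw [div_le_iff₀ (by linarith), h4]
    have e1 : 0 < Real.exp (-(A / 4 / (2 * ρ))) := Real.exp_pos _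
    have e2 : 0 < Real.exp (-(A / 8 / ρ)) := Real.exp_pos _
    calc 2 * Real.pi * (12 * (Real.exp (-(A / 8 / ρ)) * Real.exp (-(A / 4 / (2 * ρ))))) =
          (2 * Real.pi * Real.exp (-(A / 8 / ρ))) * (12 * Real.exp (-(A / 4 / (2 * ρ)))) := by ring
      _ ≤ (1 / 2) * (12 * Real.exp (-(A / 4 / (2 * ρ)))) := by
          gcongr
          nlinarith
      _ ≤ Real.log 2 * (12 * Real.exp (-(A / 4 / (2 * ρ)))) := by gcongr
      _ = _ := by ring
  linarith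

/-- **Generic oscillation of the harmonic measure.** -/
theorem generic_osc (hψ : IsExteriorMap (multibrotSet 2) ψ) :
    ∃ G : Set ℂ, IsGδ G ∧ G ⊆ frontier (multibrotSet 2) ∧ frontier (multibrotSet 2) ⊆ closure G ∧
      ∀ c ∈ G,
        (∀ s : ℝ, s < 1 → ∃ᶠ r : ℝ in 𝓝[>] 0,
          (volume (Ang ψ c r)).toReal < Real.exp (-(r ^ (-s)))) ∧
        ∀ κ : ℝ, 1 < κ → ∃ᶠ r : ℝ in 𝓝[>] 0, r ^ κ < (volume (Ang ψ c r)).toReal := by
  have hcl : IsClosed (multibrotSet 2) := (isCompact_multibrot le_rfl).isClosed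
  have hlog2 : Real.log 2 / Real.log 2 = 1 := div_self (Real.log_pos (by norm_num)).ne'
  obtain ⟨G, h1, h2, h3, h4⟩ := baire_scale (ι := Bool × ℕ) (B := frontier (multibrotSet 2))
    isClosed_frontier
    (E := fun i => if i.1 then {t | t ∈ frontier (multibrotSet 2) ∧ Lyap 2 (Real.log 2) t} else
      {t | t ∈ frontier (multibrotSet 2) ∧ ∃ (m q : ℕ) (z : ℂ), 1 ≤ m ∧ 1 ≤ q ∧
      (fc 2 t)^[m] z = z ∧ deriv ((fc 2 t)^[m]) z ≠ 1 ∧ deriv ((fc 2 t)^[m]) z ^ q = 1})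
    (Q := fun i c r => if i.1 then r ^ (1 + 2 / ((i.2 : ℝ) + 1)) < (volume (Ang ψ c r)).toReal else
      (volume (Ang ψ c r)).toReal < Real.exp (-(r ^ (-(1 - 1 / ((i.2 : ℝ) + 1))))))
    (by
      rintro ⟨b, n⟩
      cases b
      · exact fun t ht => ht.1
      · exact fun t ht => ht.1)
    (by
      rintro ⟨b, n⟩
      cases b
      · exact Pool.Agent.Y736.ML.sat_dense
      · exact typ_dense hψ)
    (by
      rintro ⟨b, n⟩ t ht δ hδ
      have hn : (0 : ℝ) < 1 / ((n : ℝ) + 1) := by positivity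
      cases b
      · obtain ⟨h5, m, q, z, hm, hq, hfix, hne, hder⟩ := ht
        obtain ⟨A, hA, h6⟩ := Pool.Agent.Y736.ML.sat_rate hm hq hfix hne hder
        exact sat_vol hψ (hcl.frontier_subset h5) hA (h6 ψ hψ) (by linarith) hδ
      · obtain ⟨h5, h6⟩ := ht
        have h7 := vol_lower h6 hψ hn
        rw [hlog2] at h7
        obtain ⟨r, hr1, hr2, hr3, hr4⟩ := (h7.and ((ev_pos).and ((ev_lt (half_pos hδ)).and
          (ev_small (C := 2 ^ (2 + 2 / ((n : ℝ) + 1))) hn)))).exists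
        refine ⟨2 * r, r, by linarith, by linarith, hr2, fun c hc => ?_⟩
        rw [mem_ball, dist_comm] at hc
        have h8 : (volume (Ang ψ t r)).toReal ≤ (volume (Ang ψ c (2 * r))).toReal :=
          vol_mono (by linarith)
        show (2 * r) ^ (1 + 2 / ((n : ℝ) + 1)) < (volume (Ang ψ c (2 * r))).toReal
        refine lt_of_lt_of_le ?_ (hr1.trans h8)
        have h9 : (2 * r) ^ (1 + 2 / ((n : ℝ) + 1)) =
            (2 ^ (1 + 2 / ((n : ℝ) + 1)) * r ^ (1 / ((n : ℝ) + 1))) *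
              r ^ (1 + 1 / ((n : ℝ) + 1)) := by
          rw [Real.mul_rpow (by norm_num) hr2.le, mul_assoc, ← Real.rpow_add hr2]
          congr 2
          ring
        have h10 : (2 : ℝ) ^ (2 + 2 / ((n : ℝ) + 1)) = 2 * 2 ^ (1 + 2 / ((n : ℝ) + 1)) := by
          rw [show (2 : ℝ) + 2 / ((n : ℝ) + 1) = 1 + (1 + 2 / ((n : ℝ) + 1)) by ring,
            Real.rpow_add (by norm_num), Real.rpow_one]
        rw [h10] at hr4
        have h11 : 0 < 2 ^ (1 + 2 / ((n : ℝ) + 1)) * r ^ (1 / ((n : ℝ) + 1)) := by positivity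
        have h12 : 2 ^ (1 + 2 / ((n : ℝ) + 1)) * r ^ (1 / ((n : ℝ) + 1)) < 1 := by
          have e : 2 * 2 ^ (1 + 2 / ((n : ℝ) + 1)) * r ^ (1 / ((n : ℝ) + 1)) =
            2 * (2 ^ (1 + 2 / ((n : ℝ) + 1)) * r ^ (1 / ((n : ℝ) + 1))) := by ring
          rw [e] at hr4
          linarith
        rw [h9]
        have h13 : 0 < r ^ (1 + 1 / ((n : ℝ) + 1)) := by positivity
        nlinarith)
  have hfreq : ∀ {p : ℝ → Prop}, (∀ δ : ℝ, 0 < δ → ∃ ρ, 0 < ρ ∧ ρ < δ ∧ p ρ) →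
      ∃ᶠ r : ℝ in 𝓝[>] 0, p r := by
    intro p hp hcon
    obtain ⟨u, hu, hsub⟩ := mem_nhdsGT_iff_exists_Ioo_subset.1 hcon
    obtain ⟨ρ, hρ0, hρu, hpρ⟩ := hp u hu
    exact hsub ⟨hρ0, hρu⟩ hpρ
  refine ⟨G, h1, h2, h3, fun c hc => ⟨?_, ?_⟩⟩
  · intro s hs
    obtain ⟨n, hn⟩ := exists_nat_one_div_lt (show 0 < 1 - s by linarith)
    have h5 : ∃ᶠ r : ℝ in 𝓝[>] 0, (volume (Ang ψ c r)).toReal <
        Real.exp (-(r ^ (-(1 - 1 / ((n : ℝ) + 1))))) := hfreq fun δ hδ => h4 c hc (false, n) δ hδ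
    refine (h5.and_eventually (ev_pos.and (ev_lt one_pos))).mono ?_
    rintro r ⟨h6, h7, h8⟩
    refine h6.trans_le ?_
    apply Real.exp_le_exp.2
    apply neg_le_neg
    apply Real.rpow_le_rpow_of_exponent_ge h7 h8.le
    linarith
  · intro κ hκ
    obtain ⟨n, hn⟩ := exists_nat_one_div_lt (show 0 < (κ - 1) / 2 by linarith)
    have h5 : ∃ᶠ r : ℝ in 𝓝[>] 0, r ^ (1 + 2 / ((n : ℝ) + 1)) < (volume (Ang ψ c r)).toReal :=
      hfreq fun δ hδ => h4 c hc (true, n) δ hδ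
    refine (h5.and_eventually (ev_pos.and (ev_lt one_pos))).mono ?_
    rintro r ⟨h6, h7, h8⟩
    refine lt_of_le_of_lt ?_ h6
    apply Real.rpow_le_rpow_of_exponent_ge h7 h8.le
    have : 2 / ((n : ℝ) + 1) = 2 * (1 / ((n : ℝ) + 1)) := by ring
    linarith

end Pool.Agent.Y736.HD
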