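import Pool.Agent.Y736.HD1

set_option autoImplicit false

/-! # The circle means of the escape rate (Riesz formula for the harmonic measure) -/

namespace Pool.Agent.Y736.HD

open Complex Metric Set Filter Topology MeasureTheory Pool.Agent.H712R2 Pool.Agent.H713R2
open N62a1eb23
open Real (posLog circleAverage)

/-- normalized Lebesgue measure on the circle of angles -/
noncomputable def cm : Measure ℝ :=
  ENNReal.ofReal (2 * Real.pi)⁻¹ • volume.restrict (Ioc 0 (2 * Real.pi))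

theorem cm_apply {S : Set ℝ} :
    cm S = ENNReal.ofReal (2 * Real.pi)⁻¹ * volume.restrict (Ioc 0 (2 * Real.pi)) S := by
  unfold cm
  rw [Measure.smul_apply, smul_eq_mul]

instance : IsProbabilityMeasure cm := ⟨by
  have := Real.pi_pos
  rw [cm_apply, Measure.restrict_apply MeasurableSet.univ, univ_inter, Real.volume_Ioc, sub_zero,
    ← ENNReal.ofReal_mul (by positivity), inv_mul_cancel₀ (by positivity), ENNReal.ofReal_one]⟩

theorem avg_eq (f : ℂ → ℝ) (c : ℂ) (R : ℝ) :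
    circleAverage f c R = ∫ θ, f (circleMap c R θ) ∂cm := by
  have := Real.pi_pos
  unfold cm
  rw [integral_smul_measure, Real.circleAverage_def, intervalIntegral.integral_of_le (by positivity),
    ENNReal.toReal_ofReal (by positivity)]

theorem integrable_of {f : ℂ → ℝ} {c : ℂ} {R : ℝ} (h : CircleIntegrable f c R) :
    Integrable (fun θ => f (circleMap c R θ)) cm := by
  have := Real.pi_pos
  unfold cm
  refine Integrable.smul_measure ?_ ENNReal.ofReal_ne_top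
  exact (intervalIntegrable_iff_integrableOn_Ioc_of_le (by positivity)).1 h

theorem lint {f : ℝ → ℝ} {C : ℝ} (hf : Integrable f cm) (hC : ∀ θ, f θ ≤ C) :
    ∫⁻ θ, ENNReal.ofReal (C - f θ) ∂cm = ENNReal.ofReal (C - ∫ θ, f θ ∂cm) := by
  have h1 : Integrable (fun θ => C - f θ) cm := (integrable_const C).sub hf
  rw [← ofReal_integral_eq_lintegral_ofReal h1 (Eventually.of_forall fun θ => sub_nonneg.2 (hC θ)),
    integral_sub (integrable_const C) hf, integral_const]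
  simp

theorem integral_le {f : ℝ → ℝ} {C : ℝ} (hf : Integrable f cm) (hC : ∀ θ, f θ ≤ C) :
    ∫ θ, f θ ∂cm ≤ C := by
  have h := integral_mono hf (integrable_const C) hC
  rw [integral_const] at h
  simpa using h

variable {d : ℕ} {β : ℂ → ℂ}

/-- the bound for the kernel -/
noncomputable def CC (c₀ : ℂ) (ρ : ℝ) : ℝ := Real.log (2 + (‖c₀‖ + ρ))

theorem CC_nonneg {c₀ : ℂ} {ρ : ℝ} (hρ : 0 < ρ) : 0 ≤ CC c₀ ρ := by
  apply Real.log_nonneg
  have := norm_nonneg c₀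
  linarith

theorem kernel_le (hβ : IsBeta d β) {x z c₀ : ℂ} {ρ : ℝ} (hρ : 0 < ρ) (hx : ‖x‖ < 1)
    (hz : ‖z - c₀‖ ≤ ρ) : Real.log ‖β x - z * x‖ ≤ CC c₀ ρ := by
  have h1 : ‖β x‖ ≤ 2 := hβ.bound x (by rwa [mem_ball_zero_iff])
  have h2 : ‖z‖ ≤ ‖c₀‖ + ρ := by
    have := norm_add_le (z - c₀) c₀
    rw [sub_add_cancel] at this
    linarith
  have h3 : ‖β x - z * x‖ ≤ 2 + (‖c₀‖ + ρ) := by
    refine (norm_sub_le _ _).trans (add_le_add h1 ?_)
    rw [norm_mul]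
    calc ‖z‖ * ‖x‖ ≤ ‖z‖ * 1 := by gcongr
      _ ≤ _ := by rw [mul_one]; exact h2
  rcases eq_or_lt_of_le (norm_nonneg (β x - z * x)) with h4 | h4
  · rw [← h4, Real.log_zero]
    exact CC_nonneg hρ
  · exact Real.log_le_log h4 h3

theorem mean_z (x c₀ : ℂ) (hx : x ≠ 0) {ρ : ℝ} (hρ : 0 < ρ) :
    circleAverage (fun z => Real.log ‖β x - z * x‖) c₀ ρ =
      Real.log ‖x‖ + (Real.log ρ + posLog (ρ⁻¹ * ‖c₀ - x⁻¹ * β x‖)) := by
  have e : (fun z => Real.log ‖β x - z * x‖) = fun z => Real.log ‖(z - x⁻¹ * β x) * (-x)‖ := by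
    funext z
    congr 2
    field_simp
    ring
  rw [e, avg_mul (g := fun _ => -x) hρ.ne' analyticOnNhd_const (neg_ne_zero.2 hx),
    circleAverage_log_norm_sub_const_eq_log_radius_add_posLog hρ.ne', Real.circleAverage_const,
    norm_neg]
  ring

/-- the truncated logarithmic potential along the exterior map -/
noncomputable def UU (β : ℂ → ℂ) (c₀ : ℂ) (ρ : ℝ) (x : ℂ) : ℝ := posLog (ρ / ‖x⁻¹ * β x - c₀‖)

theorem UU_nonneg (c₀ : ℂ) (ρ : ℝ) (x : ℂ) : 0 ≤ UU β c₀ ρ x := Real.posLog_nonneg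

theorem mean_z' {x c₀ : ℂ} (hx : x ≠ 0) (hne : x⁻¹ * β x ≠ c₀) {ρ : ℝ} (hρ : 0 < ρ) :
    circleAverage (fun z => Real.log ‖β x - z * x‖) c₀ ρ =
      Real.log ‖β x - c₀ * x‖ + UU β c₀ ρ x := by
  rw [mean_z x c₀ hx hρ]
  unfold UU
  have ht : 0 < ‖x⁻¹ * β x - c₀‖ := norm_pos_iff.2 (sub_ne_zero.2 hne)
  have hx' : 0 < ‖x‖ := norm_pos_iff.2 hx
  have e1 : ‖β x - c₀ * x‖ = ‖x‖ * ‖x⁻¹ * β x - c₀‖ := by
    rw [← norm_mul]
    congr 1
    field_simp
  have e2 := Real.posLog_sub_posLog_inv (x := ρ⁻¹ * ‖x⁻¹ * β x - c₀‖)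
  have e3 : (ρ⁻¹ * ‖x⁻¹ * β x - c₀‖)⁻¹ = ρ / ‖x⁻¹ * β x - c₀‖ := by
    rw [mul_inv, inv_inv, div_eq_mul_inv]
  rw [e3, Real.log_mul (by positivity) ht.ne', Real.log_inv] at e2
  rw [e1, Real.log_mul hx'.ne' ht.ne', norm_sub_rev c₀]
  linarith

theorem circ_ne {s : ℝ} (hs0 : 0 < s) {x : ℂ} (hx : x ∈ sphere (0 : ℂ) |s|) : x ≠ 0 := by
  rintro rfl
  rw [mem_sphere, dist_self, abs_of_pos hs0] at hx
  linarith

theorem circ_lt {s : ℝ} (hs0 : 0 < s) (hs1 : s < 1) {x : ℂ} (hx : x ∈ sphere (0 : ℂ) |s|) :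
    ‖x‖ < 1 := by
  rw [mem_sphere, dist_zero_right, abs_of_pos hs0] at hx
  linarith

/-- points of the connectedness locus are not values of the exterior map -/
theorem ne_val (hβ : IsBeta d β) {c₀ : ℂ} (hc₀ : c₀ ∈ multibrotSet d) {x : ℂ} (hx0 : x ≠ 0)
    (hx : ‖x‖ < 1) : x⁻¹ * β x ≠ c₀ := by
  intro h
  exact hβ.notMem x (by rwa [mem_ball_zero_iff]) hx0 (by rw [h]; exact hc₀)

theorem UU_cont (hβ : IsBeta d β) {c₀ : ℂ} (hc₀ : c₀ ∈ multibrotSet d) (ρ : ℝ) {s : ℝ}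
    (hs0 : 0 < s) (hs1 : s < 1) : ContinuousOn (UU β c₀ ρ) (sphere 0 |s|) := by
  unfold UU
  apply Real.continuous_posLog.comp_continuousOn
  apply ContinuousOn.div continuousOn_const
  · apply ContinuousOn.norm
    apply ContinuousOn.sub _ continuousOn_const
    apply ContinuousOn.mul
    · exact continuousOn_id.inv₀ fun x hx => circ_ne hs0 hx
    · exact hβ.diff.continuousOn.mono fun x hx => by
        rw [mem_ball_zero_iff]
        exact circ_lt hs0 hs1 hx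
  · intro x hx
    exact (norm_pos_iff.2 (sub_ne_zero.2 (ne_val hβ hc₀ (circ_ne hs0 hx)
      (circ_lt hs0 hs1 hx)))).ne'

theorem UU_int (hβ : IsBeta d β) {c₀ : ℂ} (hc₀ : c₀ ∈ multibrotSet d) (ρ : ℝ) {s : ℝ}
    (hs0 : 0 < s) (hs1 : s < 1) : CircleIntegrable (UU β c₀ ρ) 0 s :=
  (UU_cont hβ hc₀ ρ hs0 hs1).circleIntegrable'

theorem K_int (hβ : IsBeta d β) (z : ℂ) {s : ℝ} (hs0 : 0 < s) (hs1 : s < 1) :
    CircleIntegrable (fun x => Real.log ‖β x - z * x‖) 0 s :=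
  ((ana hβ z hs0 hs1).mono sphere_subset_closedBall).meromorphicOn.circleIntegrable_log_norm

theorem Kz_int (x c₀ : ℂ) (ρ : ℝ) :
    CircleIntegrable (fun z => Real.log ‖β x - z * x‖) c₀ ρ := by
  apply MeromorphicOn.circleIntegrable_log_norm
  intro z _
  fun_prop

/-- the mean over the circle in the parameter plane, in terms of the truncated potential -/
theorem fub (hβ : IsBeta d β) {c₀ : ℂ} (hc₀ : c₀ ∈ multibrotSet d) {ρ s : ℝ} (hρ : 0 < ρ)
    (hs0 : 0 < s) (hs1 : s < 1) : circleAverage (UU β c₀ ρ) 0 s ≤ CC c₀ ρ ∧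
    ∫⁻ φ, ENNReal.ofReal (CC c₀ ρ -
      circleAverage (fun x => Real.log ‖β x - circleMap c₀ ρ φ * x‖) 0 s) ∂cm =
      ENNReal.ofReal (CC c₀ ρ - circleAverage (UU β c₀ ρ) 0 s) := by
  obtain ⟨C, hC⟩ : ∃ C, C = CC c₀ ρ := ⟨_, rfl⟩
  rw [← hC]
  have hmem : ∀ θ, circleMap (0 : ℂ) s θ ∈ sphere (0 : ℂ) |s| := fun θ =>
    circleMap_mem_sphere' 0 s θ
  have hx0 : ∀ θ, circleMap (0 : ℂ) s θ ≠ 0 := fun θ => circ_ne hs0 (hmem θ)
  have hx1 : ∀ θ, ‖circleMap (0 : ℂ) s θ‖ < 1 := fun θ => circ_lt hs0 hs1 (hmem θ)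
  have hz : ∀ φ, ‖circleMap c₀ ρ φ - c₀‖ ≤ ρ := by
    intro φ
    have := circleMap_mem_sphere c₀ hρ.le φ
    rw [mem_sphere, dist_eq_norm] at this
    exact this.le
  have hK : ∀ θ φ, Real.log ‖β (circleMap 0 s θ) - circleMap c₀ ρ φ * circleMap 0 s θ‖ ≤ C := by
    intro θ φ
    rw [hC]
    exact kernel_le hβ hρ (hx1 θ) (hz φ)
  -- the mean of the first variable
  have hg : ∀ θ, circleAverage (fun z => Real.log ‖β (circleMap 0 s θ) - z * circleMap 0 s θ‖)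
      c₀ ρ = Real.log ‖β (circleMap 0 s θ) - c₀ * circleMap 0 s θ‖ + UU β c₀ ρ (circleMap 0 s θ) :=
    fun θ => mean_z' (hx0 θ) (ne_val hβ hc₀ (hx0 θ) (hx1 θ)) hρ
  have hgC : ∀ θ, Real.log ‖β (circleMap 0 s θ) - c₀ * circleMap 0 s θ‖ +
      UU β c₀ ρ (circleMap 0 s θ) ≤ C := by
    intro θ
    rw [← hg θ, avg_eq]
    exact integral_le (integrable_of (Kz_int _ _ _)) (hK θ)
  have hgi : Integrable (fun θ => Real.log ‖β (circleMap 0 s θ) - c₀ * circleMap 0 s θ‖ +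
      UU β c₀ ρ (circleMap 0 s θ)) cm :=
    (integrable_of (K_int hβ c₀ hs0 hs1)).add (integrable_of (UU_int hβ hc₀ ρ hs0 hs1))
  have hgint : ∫ θ, (Real.log ‖β (circleMap 0 s θ) - c₀ * circleMap 0 s θ‖ +
      UU β c₀ ρ (circleMap 0 s θ)) ∂cm = circleAverage (UU β c₀ ρ) 0 s := by
    rw [integral_add (integrable_of (K_int hβ c₀ hs0 hs1))
      (integrable_of (UU_int hβ hc₀ ρ hs0 hs1)),
      ← avg_eq (fun x => Real.log ‖β x - c₀ * x‖) 0 s, ← avg_eq (UU β c₀ ρ) 0 s,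
      avg_mem hβ hc₀ hs0 hs1, zero_add]
  refine ⟨?_, ?_⟩
  · rw [← hgint]
    exact integral_le hgi hgC
  -- measurability of the kernel
  have hmeas : Measurable (fun p : ℝ × ℝ => ENNReal.ofReal (C -
      Real.log ‖β (circleMap 0 s p.1) - circleMap c₀ ρ p.2 * circleMap 0 s p.1‖)) := by
    have hb : Continuous fun θ => β (circleMap 0 s θ) := by
      apply hβ.diff.continuousOn.comp_continuous (continuous_circleMap 0 s)
      intro θ
      rw [mem_ball_zero_iff]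
      exact hx1 θ
    have h1 : Continuous fun p : ℝ × ℝ =>
        ‖β (circleMap 0 s p.1) - circleMap c₀ ρ p.2 * circleMap 0 s p.1‖ := by
      apply Continuous.norm
      apply Continuous.sub (hb.comp continuous_fst)
      exact ((continuous_circleMap c₀ ρ).comp continuous_snd).mul
        ((continuous_circleMap 0 s).comp continuous_fst)
    exact ENNReal.measurable_ofReal.comp (measurable_const.sub
      (Real.measurable_log.comp h1.measurable))
  have hswap := lintegral_lintegral_swap (μ := cm) (ν := cm) (f := fun θ φ => ENNReal.ofReal (C -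
      Real.log ‖β (circleMap 0 s θ) - circleMap c₀ ρ φ * circleMap 0 s θ‖)) hmeas.aemeasurable
  have hL : ∀ θ, ∫⁻ φ, ENNReal.ofReal (C -
      Real.log ‖β (circleMap 0 s θ) - circleMap c₀ ρ φ * circleMap 0 s θ‖) ∂cm =
      ENNReal.ofReal (C - (Real.log ‖β (circleMap 0 s θ) - c₀ * circleMap 0 s θ‖ +
      UU β c₀ ρ (circleMap 0 s θ))) := by
    intro θ
    rw [lint (integrable_of (f := fun z => Real.log ‖β (circleMap 0 s θ) - z * circleMap 0 s θ‖)
      (Kz_int _ _ _)) (hK θ), ← avg_eq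
      (fun z => Real.log ‖β (circleMap 0 s θ) - z * circleMap 0 s θ‖), hg θ]
  have hR : ∀ φ, ∫⁻ θ, ENNReal.ofReal (C -
      Real.log ‖β (circleMap 0 s θ) - circleMap c₀ ρ φ * circleMap 0 s θ‖) ∂cm =
      ENNReal.ofReal (C - circleAverage (fun x => Real.log ‖β x - circleMap c₀ ρ φ * x‖) 0 s) := by
    intro φ
    rw [lint (integrable_of (f := fun x => Real.log ‖β x - circleMap c₀ ρ φ * x‖)
      (K_int hβ _ hs0 hs1)) (fun θ => hK θ φ), ← avg_eq
      (fun x => Real.log ‖β x - circleMap c₀ ρ φ * x‖)]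
  simp only [hL, hR] at hswap
  rw [← hswap, lint hgi hgC, hgint]

theorem V_le (hβ : IsBeta d β) {c₀ : ℂ} {ρ s : ℝ} (hρ : 0 < ρ) (hs0 : 0 < s) (hs1 : s < 1)
    (φ : ℝ) : circleAverage (fun x => Real.log ‖β x - circleMap c₀ ρ φ * x‖) 0 s ≤ CC c₀ ρ := by
  rw [avg_eq]
  apply integral_le (integrable_of (K_int hβ _ hs0 hs1))
  intro θ
  apply kernel_le hβ hρ (circ_lt hs0 hs1 (circleMap_mem_sphere' 0 s θ))
  have := circleMap_mem_sphere c₀ hρ.le φ
  rw [mem_sphere, dist_eq_norm] at this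
  exact this.le

/-- upper bound of the mean of the truncated potential -/
theorem upper_I (hβ : IsBeta d β) {c₀ : ℂ} (hc₀ : c₀ ∈ multibrotSet d) {ρ s S : ℝ} (hρ : 0 < ρ)
    (hs0 : 0 < s) (hs1 : s < 1) (hS : ∀ z, ‖z - c₀‖ = ρ →
      circleAverage (fun x => Real.log ‖β x - z * x‖) 0 s ≤ S) :
    circleAverage (UU β c₀ ρ) 0 s ≤ S := by
  obtain ⟨h1, h2⟩ := fub hβ hc₀ hρ hs0 hs1
  have h3 : ENNReal.ofReal (CC c₀ ρ - S) ≤
      ENNReal.ofReal (CC c₀ ρ - circleAverage (UU β c₀ ρ) 0 s) := by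
    rw [← h2]
    calc ENNReal.ofReal (CC c₀ ρ - S) = ∫⁻ _, ENNReal.ofReal (CC c₀ ρ - S) ∂cm := by
          rw [lintegral_const, measure_univ, mul_one]
      _ ≤ _ := by
          apply lintegral_mono
          intro φ
          apply ENNReal.ofReal_le_ofReal
          have := hS (circleMap c₀ ρ φ) (by
            have := circleMap_mem_sphere c₀ hρ.le φ
            rwa [mem_sphere, dist_eq_norm] at this)
          linarith
  rw [ENNReal.ofReal_le_ofReal_iff (by linarith)] at h3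
  linarith

/-- lower bound of the mean of the truncated potential -/
theorem lower_II (hβ : IsBeta d β) {c₀ : ℂ} (hc₀ : c₀ ∈ multibrotSet d) {ρ s : ℝ} (hρ : 0 < ρ)
    (hs0 : 0 < s) (hs1 : s < 1) {l : ℂ → ℝ} (hl : CircleIntegrable l c₀ ρ)
    (hS : ∀ z, ‖z - c₀‖ = ρ → l z ≤ circleAverage (fun x => Real.log ‖β x - z * x‖) 0 s) :
    circleAverage l c₀ ρ ≤ circleAverage (UU β c₀ ρ) 0 s := by
  obtain ⟨h1, h2⟩ := fub hβ hc₀ hρ hs0 hs1
  have hm : ∀ φ, ‖circleMap c₀ ρ φ - c₀‖ = ρ := by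
    intro φ
    have := circleMap_mem_sphere c₀ hρ.le φ
    rwa [mem_sphere, dist_eq_norm] at this
  have hlC : ∀ φ, l (circleMap c₀ ρ φ) ≤ CC c₀ ρ := fun φ =>
    (hS _ (hm φ)).trans (V_le hβ hρ hs0 hs1 φ)
  have hli := integrable_of hl
  have h3 : ENNReal.ofReal (CC c₀ ρ - circleAverage (UU β c₀ ρ) 0 s) ≤
      ENNReal.ofReal (CC c₀ ρ - circleAverage l c₀ ρ) := by
    rw [← h2, avg_eq l c₀ ρ, ← lint hli hlC]
    apply lintegral_mono
    intro φ
    apply ENNReal.ofReal_le_ofReal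
    have := hS _ (hm φ)
    linarith
  have h4 : circleAverage l c₀ ρ ≤ CC c₀ ρ := by
    rw [avg_eq]
    exact integral_le hli hlC
  rw [ENNReal.ofReal_le_ofReal_iff (by linarith)] at h3
  linarith

end Pool.Agent.Y736.HD
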