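import Pool.Agent.Y736.HD3

set_option autoImplicit false

/-! # From circle means to the landing points of the rays -/

namespace Pool.Agent.Y736.HD

open Complex Metric Set Filter Topology MeasureTheory Pool.Agent.H712R2 Pool.Agent.H713R2
open N62a1eb23
open Real (posLog circleAverage)

/-- the angles of the rays landing at distance less than `r` from `c₀` -/
def Ang (ψ : ℂ → ℂ) (c₀ : ℂ) (r : ℝ) : Set ℝ :=
  {θ | θ ∈ Ioc 0 (2 * Real.pi) ∧ ∃ ζ ∈ ball c₀ r,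
    Tendsto (fun ρ : ℝ => ψ (ρ * exp (θ * I))) (𝓝[>] 1) (𝓝 ζ)}

theorem Ang_sub (ψ : ℂ → ℂ) (c₀ : ℂ) (r : ℝ) : Ang ψ c₀ r ⊆ Ioc 0 (2 * Real.pi) := fun _ h => h.1

theorem vol_Ang_ne (ψ : ℂ → ℂ) (c₀ : ℂ) (r : ℝ) : volume (Ang ψ c₀ r) ≠ ⊤ := by
  refine ne_top_of_le_ne_top ?_ (measure_mono (Ang_sub ψ c₀ r))
  rw [Real.volume_Ioc]
  exact ENNReal.ofReal_ne_top

theorem cm_eq (S : Set ℝ) : cm S = ENNReal.ofReal (2 * Real.pi)⁻¹ *
    volume (S ∩ Ioc 0 (2 * Real.pi)) := by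
  rw [cm_apply, Measure.restrict_apply' measurableSet_Ioc]

/-- the radii tending to one -/
noncomputable def sn (n : ℕ) : ℝ := 1 - 1 / ((n : ℝ) + 2)

theorem sn_pos (n : ℕ) : 0 < sn n := by
  unfold sn
  have : (1 : ℝ) / ((n : ℝ) + 2) < 1 := by
    rw [div_lt_one (by positivity)]
    have : (0 : ℝ) ≤ n := n.cast_nonneg
    linarith
  linarith

theorem sn_lt (n : ℕ) : sn n < 1 := by
  unfold sn
  have : (0 : ℝ) < 1 / ((n : ℝ) + 2) := by positivity
  linarith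

theorem sn_lim : Tendsto sn atTop (𝓝 1) := by
  have h1 : Tendsto (fun n : ℕ => 1 / ((n : ℝ) + 2)) atTop (𝓝 0) := by
    have := tendsto_const_div_atTop_nhds_zero_nat (1 : ℝ)
    have h2 := this.comp (tendsto_add_atTop_nat 2)
    refine h2.congr fun n => ?_
    simp
  have h2 := h1.const_sub 1
  rw [sub_zero] at h2
  exact h2

theorem sn_inv_lim : Tendsto (fun n => (sn n)⁻¹) atTop (𝓝[>] 1) := by
  rw [tendsto_nhdsWithin_iff]
  refine ⟨?_, Eventually.of_forall fun n => (one_lt_inv₀ (sn_pos n)).2 (sn_lt n)⟩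
  have := sn_lim.inv₀ one_ne_zero
  rwa [inv_one] at this

variable {β ψ : ℂ → ℂ}

theorem norm_pt {s : ℝ} (hs0 : 0 < s) (hs1 : s < 1) (θ : ℝ) :
    1 < ‖((s⁻¹ : ℝ) : ℂ) * exp (θ * I)‖ := by
  rw [norm_mul, Complex.norm_exp_ofReal_mul_I, mul_one, Complex.norm_real,
    Real.norm_of_nonneg (by positivity)]
  exact (one_lt_inv₀ hs0).2 hs1

theorem isOpen_ext : IsOpen {z : ℂ | 1 < ‖z‖} := isOpen_lt continuous_const continuous_norm

theorem cont_pt (hψ : IsExteriorMap (multibrotSet 2) ψ) {s : ℝ} (hs0 : 0 < s) (hs1 : s < 1) :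
    Continuous fun θ : ℝ => ψ ((s⁻¹ : ℝ) * exp (θ * I)) := by
  apply hψ.diff.continuousOn.comp_continuous
  · fun_prop
  · intro θ
    exact norm_pt hs0 hs1 θ

theorem psi_ne (hψ : IsExteriorMap (multibrotSet 2) ψ) {c₀ : ℂ} (hc₀ : c₀ ∈ multibrotSet 2)
    {w : ℂ} (hw : 1 < ‖w‖) : ψ w ≠ c₀ := by
  intro h
  have h1 : ψ w ∈ ψ '' {z | 1 < ‖z‖} := mem_image_of_mem ψ hw
  rw [hψ.image] at h1
  exact h1 (by rw [h]; exact hc₀)

theorem cont_U (hψ : IsExteriorMap (multibrotSet 2) ψ) {c₀ : ℂ} (hc₀ : c₀ ∈ multibrotSet 2)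
    (ρ : ℝ) {s : ℝ} (hs0 : 0 < s) (hs1 : s < 1) :
    Continuous fun θ : ℝ => posLog (ρ / ‖ψ ((s⁻¹ : ℝ) * exp (θ * I)) - c₀‖) := by
  apply Real.continuous_posLog.comp
  apply Continuous.div continuous_const
  · exact ((cont_pt hψ hs0 hs1).sub continuous_const).norm
  · intro θ
    exact (norm_pos_iff.2 (sub_ne_zero.2 (psi_ne hψ hc₀ (norm_pt hs0 hs1 θ)))).ne'

theorem integrable_cont {f : ℝ → ℝ} (hf : Continuous f) : Integrable f cm := by
  unfold cm
  exact Integrable.smul_measure (hf.integrableOn_Ioc) ENNReal.ofReal_ne_top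

/-- **Upper bound of the harmonic measure.** -/
theorem vol_le (hψ : IsExteriorMap (multibrotSet 2) ψ) {c₀ : ℂ} (hc₀ : c₀ ∈ multibrotSet 2)
    {r S : ℝ} (hr : 0 < r) (hS0 : 0 ≤ S)
    (hS : ∀ w : ℂ, 1 < ‖w‖ → ‖ψ w - c₀‖ ≤ 2 * r → Real.log ‖w‖ ≤ S) :
    (volume (Ang ψ c₀ r)).toReal ≤ 2 * Real.pi * S / Real.log 2 := by
  obtain ⟨β, hβ⟩ := exists_beta (d := 2) le_rfl
  have hpi := Real.pi_pos
  have hlog2 : 0 < Real.log 2 := Real.log_pos (by norm_num)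
  obtain ⟨F, hF⟩ : ∃ F : ℕ → ℝ → ENNReal, F = fun (n : ℕ) (θ : ℝ) => ENNReal.ofReal
      (posLog (2 * r / ‖ψ (((sn n)⁻¹ : ℝ) * exp (θ * I)) - c₀‖)) := ⟨_, rfl⟩
  have hmeas : ∀ n, Measurable (F n) := by
    intro n
    rw [hF]
    exact ENNReal.measurable_ofReal.comp (cont_U hψ hc₀ (2 * r) (sn_pos n) (sn_lt n)).measurable
  have hint : ∀ n, ∫⁻ θ, F n θ ∂cm ≤ ENNReal.ofReal S := by
    intro n
    rw [hF]
    show ∫⁻ θ, ENNReal.ofReal
      (posLog (2 * r / ‖ψ (((sn n)⁻¹ : ℝ) * exp (θ * I)) - c₀‖)) ∂cm ≤ _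
    rw [← ofReal_integral_eq_lintegral_ofReal
      (integrable_cont (cont_U hψ hc₀ (2 * r) (sn_pos n) (sn_lt n)))
      (Eventually.of_forall fun θ => Real.posLog_nonneg)]
    apply ENNReal.ofReal_le_ofReal
    rw [← avg_psi hβ hψ c₀ (2 * r) (sn_pos n) (sn_lt n)]
    exact mean_le hβ hψ hc₀ (by linarith) (sn_pos n) (sn_lt n) hS0 hS
  have h1 : ∫⁻ θ, liminf (fun n => F n θ) atTop ∂cm ≤ ENNReal.ofReal S := by
    refine (lintegral_liminf_le hmeas).trans ?_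
    apply liminf_le_of_le (by isBoundedDefault)
    intro b hb
    obtain ⟨n, hn⟩ := hb.exists
    exact hn.trans (hint n)
  have h2 := mul_meas_ge_le_lintegral₀ (μ := cm) (f := fun θ => liminf (fun n => F n θ) atTop)
    (Measurable.liminf hmeas).aemeasurable (ENNReal.ofReal (Real.log 2))
  have h3 : Ang ψ c₀ r ⊆ {θ | ENNReal.ofReal (Real.log 2) ≤ liminf (fun n => F n θ) atTop} := by
    rintro θ ⟨-, ζ, hζ, hlim⟩
    show ENNReal.ofReal (Real.log 2) ≤ liminf (fun n => F n θ) atTop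
    apply le_liminf_of_le (by isBoundedDefault)
    have h4 : Tendsto (fun n => ‖ψ (((sn n)⁻¹ : ℝ) * exp (θ * I)) - c₀‖) atTop (𝓝 ‖ζ - c₀‖) :=
      ((hlim.comp sn_inv_lim).sub_const c₀).norm
    rw [mem_ball, dist_eq_norm] at hζ
    filter_upwards [h4.eventually (gt_mem_nhds hζ)] with n hn
    rw [hF]
    apply ENNReal.ofReal_le_ofReal
    have h5 : 0 < ‖ψ (((sn n)⁻¹ : ℝ) * exp (θ * I)) - c₀‖ :=
      norm_pos_iff.2 (sub_ne_zero.2 (psi_ne hψ hc₀ (norm_pt (sn_pos n) (sn_lt n) θ)))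
    have h6 : 2 ≤ 2 * r / ‖ψ (((sn n)⁻¹ : ℝ) * exp (θ * I)) - c₀‖ := by
      rw [le_div_iff₀ h5]
      linarith
    calc Real.log 2 ≤ Real.log (2 * r / ‖ψ (((sn n)⁻¹ : ℝ) * exp (θ * I)) - c₀‖) :=
          Real.log_le_log (by norm_num) h6
      _ ≤ _ := le_max_right _ _
  have h4 : ENNReal.ofReal (Real.log 2) * cm (Ang ψ c₀ r) ≤ ENNReal.ofReal S :=
    (mul_le_mul_right (measure_mono h3) _).trans (h2.trans h1)
  rw [cm_eq, inter_eq_left.2 (Ang_sub ψ c₀ r), ← mul_assoc,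
    ← ENNReal.ofReal_mul hlog2.le, ← ENNReal.ofReal_toReal (vol_Ang_ne ψ c₀ r),
    ← ENNReal.ofReal_mul (by positivity), ENNReal.ofReal_le_ofReal_iff hS0] at h4
  rw [le_div_iff₀ hlog2]
  have h5 : 2 * Real.pi * (Real.log 2 * (2 * Real.pi)⁻¹ * (volume (Ang ψ c₀ r)).toReal) =
      (volume (Ang ψ c₀ r)).toReal * Real.log 2 := by
    field_simp
  rw [← h5]
  gcongr

/-- **Lower bound of the harmonic measure.** -/
theorem le_vol (hψ : IsExteriorMap (multibrotSet 2) ψ)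
    (hae : ∀ᵐ θ : ℝ, ∃ ζ : ℂ, Tendsto (fun ρ : ℝ => ψ (ρ * exp (θ * I))) (𝓝[>] 1) (𝓝 ζ))
    {c₀ : ℂ} (hc₀ : c₀ ∈ multibrotSet 2)
    {ρ' ρ r S : ℝ} (hρ' : 0 < ρ') (hρ : ρ' < ρ) (hr : ρ < r) (hS0 : 0 ≤ S)
    (hS : ∀ w : ℂ, 1 < ‖w‖ → ‖ψ w - c₀‖ ≤ ρ' → Real.log ‖w‖ ≤ S)
    {m : ℕ} (hd : deriv (P 2 (m + 1)) c₀ ≠ 0) :
    (Real.log (ρ * ‖deriv (P 2 (m + 1)) c₀‖) - Real.log 4) / 2 ^ m - S ≤
      Real.log (ρ / ρ') * (volume (Ang ψ c₀ r)).toReal / (2 * Real.pi) := by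
  obtain ⟨β, hβ⟩ := exists_beta (d := 2) le_rfl
  have hpi := Real.pi_pos
  have hρ0 : 0 < ρ := hρ'.trans hρ
  obtain ⟨A, hA⟩ : ∃ A, A = Real.log (ρ / ρ') := ⟨_, rfl⟩
  have hA0 : 0 < A := by
    rw [hA]
    apply Real.log_pos
    rwa [lt_div_iff₀ hρ', one_mul]
  obtain ⟨T, hT⟩ : ∃ T, T = (Real.log (ρ * ‖deriv (P 2 (m + 1)) c₀‖) - Real.log 4) / 2 ^ m :=
    ⟨_, rfl⟩
  rw [← hA, ← hT]
  obtain ⟨D, hD⟩ : ∃ D : ℕ → Set ℝ, D = fun n =>
      {θ : ℝ | ‖ψ (((sn n)⁻¹ : ℝ) * exp (θ * I)) - c₀‖ < ρ} := ⟨_, rfl⟩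
  have hDm : ∀ n, MeasurableSet (D n) := by
    intro n
    rw [hD]
    exact (isOpen_lt ((cont_pt hψ (sn_pos n) (sn_lt n)).sub continuous_const).norm
      continuous_const).measurableSet
  -- each level
  have hlev : ∀ n, T + Real.log (sn n) ≤ A * cm.real (D n) + S := by
    intro n
    have h1 := le_mean hβ hψ hc₀ hρ0 (sn_pos n) (sn_lt n) hd
    rw [← hT] at h1
    have h2 := mean_le hβ hψ hc₀ hρ' (sn_pos n) (sn_lt n) hS0 hS
    rw [avg_psi hβ hψ c₀ _ (sn_pos n) (sn_lt n)] at h1 h2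
    refine h1.trans (le_trans ?_ (add_le_add le_rfl h2))
    have h3 : Integrable ((D n).indicator fun _ => (1 : ℝ)) cm :=
      (integrable_const _).indicator (hDm n)
    have h4 : cm.real (D n) = ∫ θ, (D n).indicator (fun _ => (1 : ℝ)) θ ∂cm := by
      rw [integral_indicator (hDm n), setIntegral_const, smul_eq_mul, mul_one]
    rw [h4, ← integral_const_mul, ← integral_add (h3.const_mul A)
      (integrable_cont (cont_U hψ hc₀ ρ' (sn_pos n) (sn_lt n)))]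
    apply integral_mono (integrable_cont (cont_U hψ hc₀ ρ (sn_pos n) (sn_lt n)))
      ((h3.const_mul A).add (integrable_cont (cont_U hψ hc₀ ρ' (sn_pos n) (sn_lt n))))
    intro θ
    show posLog (ρ / ‖ψ (((sn n)⁻¹ : ℝ) * exp (θ * I)) - c₀‖) ≤
      A * (D n).indicator (fun _ => (1 : ℝ)) θ +
        posLog (ρ' / ‖ψ (((sn n)⁻¹ : ℝ) * exp (θ * I)) - c₀‖)
    obtain ⟨t, ht⟩ : ∃ t, t = ‖ψ (((sn n)⁻¹ : ℝ) * exp (θ * I)) - c₀‖ := ⟨_, rfl⟩
    have ht0 : 0 < t := by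
      rw [ht]
      exact norm_pos_iff.2 (sub_ne_zero.2 (psi_ne hψ hc₀ (norm_pt (sn_pos n) (sn_lt n) θ)))
    by_cases hθ : θ ∈ D n
    · rw [indicator_of_mem hθ, mul_one, ← ht]
      have h5 : t < ρ := by
        rw [hD] at hθ
        rw [ht]
        exact hθ
      have h6 : 1 ≤ |ρ / t| := by
        rw [abs_of_pos (by positivity), le_div_iff₀ ht0]
        linarith
      rw [Real.posLog_eq_log h6]
      have h7 : Real.log (ρ / t) = A + Real.log (ρ' / t) := by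
        rw [hA, ← Real.log_mul (by positivity) (by positivity)]
        congr 1
        field_simp
      rw [h7]
      have : Real.log (ρ' / t) ≤ posLog (ρ' / t) := le_max_right _ _
      linarith
    · rw [indicator_of_notMem hθ, mul_zero, zero_add, ← ht]
      have h5 : ρ ≤ t := by
        rw [hD] at hθ
        rw [ht]
        exact not_lt.1 hθ
      have h6 : posLog (ρ / t) = 0 := by
        rw [Real.posLog_eq_zero_iff, abs_of_pos (by positivity), div_le_one ht0]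
        exact h5
      rw [h6]
      exact Real.posLog_nonneg
  -- the upper limit of the sets
  obtain ⟨E, hE⟩ : ∃ E : ℕ → Set ℝ, E = fun N => ⋃ n, D (N + n) := ⟨_, rfl⟩
  have hEm : ∀ N, MeasurableSet (E N) := by
    intro N
    rw [hE]
    exact MeasurableSet.iUnion fun n => hDm _
  have hanti : Antitone E := by
    intro N N' h
    rw [hE]
    apply iUnion_subset
    intro n
    obtain ⟨k, rfl⟩ := Nat.exists_eq_add_of_le h
    rw [show N + k + n = N + (k + n) by ring]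
    exact subset_iUnion (fun n => D (N + n)) (k + n)
  have hElow : ∀ N, (T - S) / A ≤ cm.real (E N) := by
    intro N
    have h1 : ∀ n, (T + Real.log (sn (N + n)) - S) / A ≤ cm.real (E N) := by
      intro n
      have h2 : cm.real (D (N + n)) ≤ cm.real (E N) := by
        refine measureReal_mono ?_ (measure_ne_top _ _)
        rw [hE]
        exact subset_iUnion (fun n => D (N + n)) n
      rw [div_le_iff₀ hA0]
      have h3 := hlev (N + n)
      nlinarith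
    have h2 : Tendsto (fun n => (T + Real.log (sn (N + n)) - S) / A) atTop
        (𝓝 ((T + Real.log 1 - S) / A)) := by
      have h3 : Tendsto (fun n => sn (N + n)) atTop (𝓝 1) := by
        have := sn_lim.comp (tendsto_add_atTop_nat N)
        refine this.congr fun n => ?_
        show sn (n + N) = sn (N + n)
        rw [add_comm]
      have h4 := (Real.continuousAt_log one_ne_zero).tendsto.comp h3
      exact ((h4.const_add T).sub_const S).div_const A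
    rw [Real.log_one, add_zero] at h2
    exact le_of_tendsto' h2 h1
  have hlim : (T - S) / A ≤ cm.real (⋂ N, E N) := by
    have h1 : Tendsto (fun N => cm (E N)) atTop (𝓝 (cm (⋂ N, E N))) :=
      tendsto_measure_iInter_atTop (fun N => (hEm N).nullMeasurableSet) hanti
        ⟨0, measure_ne_top _ _⟩
    have h2 : Tendsto (fun N => cm.real (E N)) atTop (𝓝 (cm.real (⋂ N, E N))) :=
      (ENNReal.tendsto_toReal (measure_ne_top _ _)).comp h1
    exact ge_of_tendsto' h2 hElow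
  -- almost every angle of the upper limit lands in the ball
  have hsub : volume ((⋂ N, E N) ∩ Ioc 0 (2 * Real.pi)) ≤ volume (Ang ψ c₀ r) := by
    apply measure_mono_ae
    filter_upwards [hae] with θ hθ hmem
    obtain ⟨hθ1, hθ2⟩ := hmem
    obtain ⟨ζ, hζ⟩ := hθ
    refine ⟨hθ2, ζ, ?_, hζ⟩
    rw [mem_ball, dist_eq_norm]
    refine lt_of_le_of_lt ?_ hr
    have h4 : Tendsto (fun n => ‖ψ (((sn n)⁻¹ : ℝ) * exp (θ * I)) - c₀‖) atTop (𝓝 ‖ζ - c₀‖) :=
      ((hζ.comp sn_inv_lim).sub_const c₀).norm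
    apply le_of_tendsto_of_frequently h4
    rw [frequently_atTop]
    intro N
    have h5 := mem_iInter.1 hθ1 N
    rw [hE] at h5
    obtain ⟨n, hn⟩ := mem_iUnion.1 h5
    refine ⟨N + n, Nat.le_add_right _ _, ?_⟩
    rw [hD] at hn
    exact le_of_lt hn
  have h1 : cm.real (⋂ N, E N) ≤ (2 * Real.pi)⁻¹ * (volume (Ang ψ c₀ r)).toReal := by
    unfold Measure.real
    rw [cm_eq, ENNReal.toReal_mul, ENNReal.toReal_ofReal (by positivity)]
    gcongr
    exact vol_Ang_ne ψ c₀ r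
  have h2 := hlim.trans h1
  rw [div_le_iff₀ hA0] at h2
  refine h2.trans (le_of_eq ?_)
  field_simp

end Pool.Agent.Y736.HD
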