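import Mathlib

set_option autoImplicit false

/-! # Mass distribution: upper bounds of the Hausdorff dimension -/

namespace Pool.Agent.Y736.HD

open Metric Set Filter Topology MeasureTheory

theorem ediam_closedBall_le {X : Type*} [MetricSpace X] (x : X) {r : ℝ} :
    Metric.ediam (closedBall x r) ≤ ENNReal.ofReal (2 * r) := by
  rw [Metric.ediam_le_iff]
  intro y hy z hz
  rw [edist_dist]
  apply ENNReal.ofReal_le_ofReal
  rw [mem_closedBall] at hy hz
  have := dist_triangle_right y z x
  linarith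

/-- a set all of whose points are centres of arbitrarily small balls of large measure has small
Hausdorff dimension -/
theorem dimH_le_of_mass {X : Type*} [MetricSpace X] [MeasurableSpace X] [BorelSpace X]
    {ν : Measure X} [IsFiniteMeasure ν] {E : Set X} {t : ℝ} (ht : 0 < t)
    (h : ∀ x ∈ E, ∃ᶠ r : ℝ in 𝓝[>] 0, ENNReal.ofReal (r ^ t) ≤ ν (closedBall x r)) :
    dimH E ≤ ENNReal.ofReal t := by
  have hkey : μH[t] E ≤ ENNReal.ofReal (10 ^ t) * ν univ := by
    -- the families
    have hfam : ∀ n : ℕ, ∃ u : Set (X × ℝ), u.Countable ∧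
        (∀ a ∈ u, 0 < a.2 ∧ a.2 ≤ 1 / ((n : ℝ) + 1) ∧
          ENNReal.ofReal (a.2 ^ t) ≤ ν (closedBall a.1 a.2)) ∧
        u.PairwiseDisjoint (fun a => closedBall a.1 a.2) ∧
        E ⊆ ⋃ a : u, closedBall a.1.1 (5 * a.1.2) := by
      intro n
      obtain ⟨T, hT⟩ : ∃ T : Set (X × ℝ), T = {a | 0 < a.2 ∧ a.2 ≤ 1 / ((n : ℝ) + 1) ∧
          ENNReal.ofReal (a.2 ^ t) ≤ ν (closedBall a.1 a.2)} := ⟨_, rfl⟩
      obtain ⟨u, huT, hdis, hcov⟩ := Vitali.exists_disjoint_subfamily_covering_enlargement_closedBall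
        T (fun a => a.1) (fun a => a.2) (1 / ((n : ℝ) + 1)) (by
          intro a ha
          rw [hT] at ha
          exact ha.2.1) 5 (by norm_num)
      have hu : ∀ a ∈ u, 0 < a.2 ∧ a.2 ≤ 1 / ((n : ℝ) + 1) ∧
          ENNReal.ofReal (a.2 ^ t) ≤ ν (closedBall a.1 a.2) := by
        intro a ha
        have := huT ha
        rw [hT] at this
        exact this
      refine ⟨u, ?_, hu, hdis, ?_⟩
      · have h1 := Measure.countable_meas_pos_of_disjoint_iUnion (μ := ν)
          (As := fun a : u => closedBall a.1.1 a.1.2) (fun a => isClosed_closedBall.measurableSet)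
          (fun a b hab => hdis a.2 b.2 (fun h => hab (Subtype.ext h)))
        have h2 : {a : u | 0 < ν (closedBall a.1.1 a.1.2)} = univ := by
          ext a
          simp only [mem_ofPred_eq, mem_univ, iff_true]
          have h3 := hu a.1 a.2
          refine lt_of_lt_of_le ?_ h3.2.2
          rw [ENNReal.ofReal_pos]
          exact Real.rpow_pos_of_pos h3.1 _
        rw [h2] at h1
        exact countable_univ_iff.1 h1
      · intro x hx
        have h1 : ∃ᶠ r : ℝ in 𝓝[>] 0, ENNReal.ofReal (r ^ t) ≤ ν (closedBall x r) := h x hx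
        have h2 : ∀ᶠ r : ℝ in 𝓝[>] 0, 0 < r ∧ r ≤ 1 / ((n : ℝ) + 1) := by
          have h3 : ∀ᶠ r : ℝ in 𝓝[>] 0, 0 < r := self_mem_nhdsWithin
          have h4 : ∀ᶠ r : ℝ in 𝓝[>] 0, r ≤ 1 / ((n : ℝ) + 1) :=
            mem_nhdsWithin_of_mem_nhds (ge_mem_nhds (by positivity))
          exact h3.and h4
        obtain ⟨r, hr1, hr2, hr3⟩ := (h1.and_eventually h2).exists
        obtain ⟨b, hb, hb2⟩ := hcov (x, r) (by
          rw [hT]
          exact ⟨hr2, hr3, hr1⟩)
        exact mem_iUnion.2 ⟨⟨b, hb⟩, hb2 (mem_closedBall_self hr2.le)⟩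
    choose u hu1 hu2 hu3 hu4 using hfam
    have : ∀ n, Countable (u n) := fun n => (hu1 n).to_subtype
    have h0 : Tendsto (fun n : ℕ => ENNReal.ofReal (10 * (1 / ((n : ℝ) + 1)))) atTop (𝓝 0) := by
      have h1 : Tendsto (fun n : ℕ => 10 * (1 / ((n : ℝ) + 1))) atTop (𝓝 0) := by
        have := tendsto_one_div_add_atTop_nhds_zero_nat (𝕜 := ℝ)
        have h2 := this.const_mul 10
        rwa [mul_zero] at h2
      have := ENNReal.tendsto_ofReal h1
      rwa [ENNReal.ofReal_zero] at this
    have hdiam : ∀ (n : ℕ) (a : u n), Metric.ediam (closedBall a.1.1 (5 * a.1.2)) ≤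
        ENNReal.ofReal (10 * a.1.2) := by
      intro n a
      refine (ediam_closedBall_le _).trans ?_
      apply ENNReal.ofReal_le_ofReal
      linarith
    have h1 := Measure.hausdorffMeasure_le_liminf_tsum t E
      (fun n : ℕ => ENNReal.ofReal (10 * (1 / ((n : ℝ) + 1)))) h0
      (fun n (a : u n) => closedBall a.1.1 (5 * a.1.2))
      (Eventually.of_forall fun n a => (hdiam n a).trans (ENNReal.ofReal_le_ofReal (by
        have := (hu2 n a.1 a.2).2.1
        linarith)))
      (Eventually.of_forall fun n => hu4 n)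
    refine h1.trans ?_
    apply liminf_le_of_le (by isBoundedDefault)
    intro b hb
    obtain ⟨n, hn⟩ := hb.exists
    refine hn.trans ?_
    calc ∑' a : u n, Metric.ediam (closedBall a.1.1 (5 * a.1.2)) ^ t
        ≤ ∑' a : u n, ENNReal.ofReal (10 ^ t) * ν (closedBall a.1.1 a.1.2) := by
          apply ENNReal.tsum_le_tsum
          intro a
          have ha := hu2 n a.1 a.2
          calc Metric.ediam (closedBall a.1.1 (5 * a.1.2)) ^ t
              ≤ ENNReal.ofReal (10 * a.1.2) ^ t := ENNReal.rpow_le_rpow (hdiam n a) ht.le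
            _ = ENNReal.ofReal ((10 * a.1.2) ^ t) :=
                ENNReal.ofReal_rpow_of_nonneg (by linarith [ha.1]) ht.le
            _ = ENNReal.ofReal (10 ^ t) * ENNReal.ofReal (a.1.2 ^ t) := by
                rw [Real.mul_rpow (by norm_num) ha.1.le, ENNReal.ofReal_mul (by positivity)]
            _ ≤ _ := by gcongr; exact ha.2.2
      _ = ENNReal.ofReal (10 ^ t) * ∑' a : u n, ν (closedBall a.1.1 a.1.2) := ENNReal.tsum_mul_left
      _ = ENNReal.ofReal (10 ^ t) * ν (⋃ a : u n, closedBall a.1.1 a.1.2) := by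
          rw [measure_iUnion]
          · intro a b hab
            exact hu3 n a.2 b.2 (fun h => hab (Subtype.ext h))
          · intro a
            exact isClosed_closedBall.measurableSet
      _ ≤ _ := by gcongr; exact subset_univ _
  have hfin : μH[t] E ≠ ⊤ := by
    refine ne_top_of_le_ne_top ?_ hkey
    exact ENNReal.mul_ne_top ENNReal.ofReal_ne_top (measure_ne_top _ _)
  have h1 : μH[(t.toNNReal : ℝ)] E ≠ ⊤ := by rwa [Real.coe_toNNReal t ht.le]
  exact dimH_le_of_hausdorffMeasure_ne_top h1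

end Pool.Agent.Y736.HD
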