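import Pool.Agent.Y736.HD4
import Pool.Agent.Y674.CA.Lya
import Pool.Agent.Y434.CA.Pa
import Pool.Agent.Y298.CD.Grw

set_option autoImplicit false

/-! # Power laws at the parameters with a positive Lyapunov exponent -/

namespace Pool.Agent.Y736.HD

open Complex Metric Set Filter Topology MeasureTheory Pool.Agent.H713R2
open N62a1eb23 Pool.Agent.Y298.CA Pool.Agent.Y298.SH.CD
open Pool.Agent.H712R2 (P)

/-- powers of two along a geometric scale -/
theorem two_pow_eq {L s : ℝ} (hL : 1 < L) (hs : s = Real.log 2 / Real.log L) (n : ℕ) :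
    (2 : ℝ) ^ n = (L ^ n) ^ s := by
  have hlogL : 0 < Real.log L := Real.log_pos hL
  rw [← Real.rpow_natCast L n, ← Real.rpow_mul (by linarith), ← Real.rpow_natCast 2 n]
  rw [Real.rpow_def_of_pos (by norm_num : (0 : ℝ) < 2), Real.rpow_def_of_pos (by linarith), hs]
  congr 1
  field_simp

/-- **Upper bound of the escape rate.** -/
theorem lyap_up {χ : ℝ} {c₀ : ℂ} (h : Lyap 2 χ c₀) {κ : ℝ} (hκ0 : 0 < κ)
    (hκ : κ < Real.log 2 / χ) : ∃ K s₀ : ℝ, 0 < K ∧ 0 < s₀ ∧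
    ∀ ψ : ℂ → ℂ, IsExteriorMap (multibrotSet 2) ψ → ∀ s : ℝ, 0 < s → s ≤ s₀ → ∀ w : ℂ, 1 < ‖w‖ →
      ‖ψ w - c₀‖ ≤ s → Real.log ‖w‖ ≤ K * s ^ κ := by
  have hlog2 : 0 < Real.log 2 := Real.log_pos (by norm_num)
  have hχ : 0 < χ := h.1
  obtain ⟨ε, hε⟩ : ∃ ε, ε = (Real.log 2 / κ - χ) / 3 := ⟨_, rfl⟩
  have hε0 : 0 < ε := by
    rw [hε]
    have : χ < Real.log 2 / κ := by
      rw [lt_div_iff₀ hκ0]
      rw [lt_div_iff₀ hχ] at hκ
      linarith
    linarith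
  have hεχ : χ + 3 * ε = Real.log 2 / κ := by rw [hε]; ring
  obtain ⟨⟨C₁, lam, hc⟩, hlya⟩ := Pool.Agent.Y674.CA.lya 2 χ c₀ le_rfl h
  obtain ⟨C, hC, H⟩ := hlya ε hε0
  obtain ⟨B, Ca, hPC⟩ := Pool.Agent.Y434.CA.pa 2 C₁ lam (Real.exp ε) le_rfl hc.C1 hc.lam1
    (by rw [← Real.exp_zero]; exact Real.exp_lt_exp.2 hε0)
  have hCa1 := hPC.Ca1
  have hCaB := hPC.CaB
  have hB1 : 1 ≤ B := hCa1.trans hCaB
  obtain ⟨L, hL⟩ : ∃ L, L = Real.exp (χ + 3 * ε) := ⟨_, rfl⟩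
  have hL1 : 1 < L := by
    rw [hL, ← Real.exp_zero]
    exact Real.exp_lt_exp.2 (by linarith)
  have hlogL : Real.log L = χ + 3 * ε := by rw [hL, Real.log_exp]
  have hκL : κ = Real.log 2 / Real.log L := by
    rw [hlogL, hεχ]
    field_simp
  obtain ⟨D, hD⟩ : ∃ D, D = B * C ^ 2 := ⟨_, rfl⟩
  have hD1 : 1 ≤ D := by
    rw [hD]
    have : 1 ≤ C ^ 2 := one_le_pow₀ hC
    nlinarith
  refine ⟨6 * D ^ κ, 1 / D, by positivity, by positivity, ?_⟩
  intro ψ hψ s hs0 hs w hw hws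
  have hDs : D * s ≤ 1 := by
    rw [le_div_iff₀ (by positivity)] at hs
    linarith
  obtain ⟨k, hk1, hk2⟩ := exists_nat_pow_near (x := 1 / (D * s)) (y := L) (by
    rw [le_div_iff₀ (by positivity)]
    linarith) hL1
  rw [le_div_iff₀ (by positivity)] at hk1
  rw [div_lt_iff₀ (by positivity)] at hk2
  have hC0 : 0 < C := by linarith
  -- the passage
  have hpass : ∀ j < k, B * Real.exp ε ^ j * s * Pd 2 c₀ j ≤ ‖zz 2 c₀ j‖ := by
    intro j hj
    obtain ⟨-, h2, h3⟩ := H j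
    have h4 : 0 < Real.exp (ε * j) := Real.exp_pos _
    have h5 : C * Real.exp (ε * j) * (B * Real.exp ε ^ j * s * Pd 2 c₀ j) ≤ 1 := by
      calc C * Real.exp (ε * j) * (B * Real.exp ε ^ j * s * Pd 2 c₀ j)
          ≤ C * Real.exp (ε * j) * (B * Real.exp ε ^ j * s * (C * Real.exp ((χ + ε) * j))) := by
            gcongr
        _ = D * s * L ^ j := by
            rw [hD, hL, ← Real.exp_nat_mul, ← Real.exp_nat_mul]
            have e : Real.exp (j * (χ + 3 * ε)) = Real.exp (ε * j) * Real.exp (j * ε) *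
                Real.exp ((χ + ε) * j) := by
              rw [← Real.exp_add, ← Real.exp_add]
              congr 1
              ring
            rw [e]
            ring
        _ ≤ D * s * L ^ k := by
            gcongr
            · exact hL1.le
        _ ≤ 1 := by linarith
    have h6 := h5.trans h3
    exact le_of_mul_le_mul_left h6 (by positivity)
  have hk3 := (hPC.pass c₀ hc (ψ w) s k hs0 hws hpass (ψ w) (mem_ball_self hs0) k le_rfl).1
  have hk4 : Ca * s * Pd 2 c₀ k ≤ 1 := by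
    obtain ⟨-, h2, -⟩ := H k
    calc Ca * s * Pd 2 c₀ k ≤ B * s * (C * Real.exp ((χ + ε) * k)) := by
          have := (hc.Pd_pos k).le
          gcongr
      _ ≤ B * s * (C * C * Real.exp ((χ + 3 * ε) * k)) := by
          have h5 : Real.exp ((χ + ε) * k) ≤ Real.exp ((χ + 3 * ε) * k) := by
            apply Real.exp_le_exp.2
            gcongr
            linarith
          have h6 : C * Real.exp ((χ + ε) * k) ≤ C * C * Real.exp ((χ + 3 * ε) * k) := by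
            have h7 : C ≤ C * C := by nlinarith
            calc C * Real.exp ((χ + ε) * k) ≤ C * C * Real.exp ((χ + ε) * k) := by gcongr
              _ ≤ _ := by gcongr
          gcongr
      _ = L ^ k * (D * s) := by
          rw [hD, hL, ← Real.exp_nat_mul]
          have e : (k : ℝ) * (χ + 3 * ε) = (χ + 3 * ε) * k := by ring
          rw [e]
          ring
      _ ≤ 1 := hk1
  have hs1 : s ≤ 1 := by nlinarith
  have hrate := Pool.Agent.Y736.HL.rate_le h.2.1 hψ hw (hws.trans hs1) (n := k) (by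
    have e1 : P 2 (k + 1) (ψ w) = (Pool.Agent.TH279.MD.f 2 (ψ w))^[k] (ψ w) := by
      rw [P_succ_eq le_rfl]
    have e2 : P 2 (k + 1) c₀ = zz 2 c₀ k := by
      rw [P_succ_eq le_rfl]
      rfl
    rw [e1, e2]
    exact hk3.trans hk4)
  have h7 : Real.log ‖w‖ ≤ ‖w‖ - 1 := Real.log_le_sub_one_of_pos (by linarith)
  have h8 : (12 : ℝ) / 2 ^ (k + 2) = 6 / 2 ^ (k + 1) := by
    rw [pow_succ 2 (k + 1)]
    field_simp
    norm_num
  have h9 : 1 ≤ (2 : ℝ) ^ (k + 1) * (D * s) ^ κ := by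
    rw [two_pow_eq hL1 hκL, ← Real.mul_rpow (by positivity) (by positivity)]
    exact Real.one_le_rpow hk2.le hκ0.le
  have h10 : 6 / (2 : ℝ) ^ (k + 1) ≤ 6 * (D * s) ^ κ := by
    rw [div_le_iff₀ (by positivity)]
    nlinarith
  rw [Real.mul_rpow (by linarith) hs0.le] at h10
  linarith

/-- **Growth of the derivative in the parameter.** -/
theorem lyap_low {χ : ℝ} {c₀ : ℂ} (h : Lyap 2 χ c₀) {κ : ℝ} (hκ : Real.log 2 / χ < κ) :
    ∃ k ρ₀ : ℝ, 0 < k ∧ 0 < ρ₀ ∧ ∀ ρ : ℝ, 0 < ρ → ρ ≤ ρ₀ → ∃ m : ℕ,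
      deriv (P 2 (m + 1)) c₀ ≠ 0 ∧
      k * ρ ^ κ ≤ (Real.log (ρ * ‖deriv (P 2 (m + 1)) c₀‖) - Real.log 4) / 2 ^ m := by
  have hlog2 : 0 < Real.log 2 := Real.log_pos (by norm_num)
  have hχ : 0 < χ := h.1
  have hκ0 : 0 < κ := lt_trans (by positivity) hκ
  obtain ⟨ε, hε⟩ : ∃ ε, ε = χ - Real.log 2 / κ := ⟨_, rfl⟩
  have hε0 : 0 < ε := by
    rw [hε]
    have : Real.log 2 / κ < χ := by
      rw [div_lt_iff₀ hκ0]
      rw [div_lt_iff₀ hχ] at hκ
      linarith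
    linarith
  obtain ⟨⟨C₁, lam, hc⟩, hlya⟩ := Pool.Agent.Y674.CA.lya 2 χ c₀ le_rfl h
  obtain ⟨C, hC, H⟩ := hlya ε hε0
  obtain ⟨κ₀, ε', J, hκ₀, hε', hgrow⟩ := hc.grow
  obtain ⟨L, hL⟩ : ∃ L, L = Real.exp (χ - ε) := ⟨_, rfl⟩
  have hlogL : Real.log L = Real.log 2 / κ := by rw [hL, Real.log_exp, hε]; ring
  have hL1 : 1 < L := by
    rw [hL, ← Real.exp_zero]
    apply Real.exp_lt_exp.2
    rw [hε]
    have : 0 < Real.log 2 / κ := by positivity
    linarith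
  have hκL : κ = Real.log 2 / Real.log L := by
    rw [hlogL]
    field_simp
  have hC0 : 0 < C := by linarith
  obtain ⟨B, hB⟩ : ∃ B, B = 4 * Real.exp 1 * C / κ₀ := ⟨_, rfl⟩
  have hB0 : 0 < B := by rw [hB]; positivity
  refine ⟨1 / (2 ^ (J + 1) * B ^ κ), B, by positivity, hB0, ?_⟩
  intro ρ hρ0 hρ
  obtain ⟨n, hn1, hn2⟩ := exists_nat_pow_near (x := B / ρ) (y := L) (by
    rw [le_div_iff₀ hρ0]
    linarith) hL1
  refine ⟨n + 1 + J, ?_⟩
  have hg := hgrow c₀ hc c₀ (by rw [sub_self, norm_zero]; exact hε'.le) (n + 1 + J) (by omega)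
    (fun j _ => by
      show Pd 2 c₀ j / 2 ≤ Pd 2 c₀ j
      have := (hc.Pd_pos j).le
      linarith)
  have hP := hc.Pd_pos (n + 1 + J)
  have hd0 : 0 < ‖deriv (P 2 (n + 1 + J + 1)) c₀‖ := lt_of_lt_of_le (by positivity) hg
  refine ⟨norm_pos_iff.1 hd0, ?_⟩
  -- the size of the derivative
  have h1 : 4 * Real.exp 1 ≤ ρ * ‖deriv (P 2 (n + 1 + J + 1)) c₀‖ := by
    obtain ⟨h2, -, -⟩ := H (n + 1 + J)
    have h3 : L ^ (n + 1) ≤ C * Pd 2 c₀ (n + 1 + J) := by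
      refine le_trans ?_ h2
      have e : Real.exp ((χ - ε) * (n + 1 + J : ℕ)) = L ^ (n + 1 + J) := by
        rw [hL, ← Real.exp_nat_mul]
        congr 1
        ring
      rw [e]
      exact pow_le_pow_right₀ hL1.le (by omega)
    have h4 : B / ρ < C * Pd 2 c₀ (n + 1 + J) := hn2.trans_le h3
    rw [div_lt_iff₀ hρ0, hB, div_lt_iff₀ hκ₀] at h4
    have h5 : C * (4 * Real.exp 1) ≤ C * (ρ * (κ₀ * Pd 2 c₀ (n + 1 + J))) := by linarith
    have h6 := le_of_mul_le_mul_left h5 hC0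
    refine h6.trans ?_
    gcongr
  have h2 : 1 ≤ Real.log (ρ * ‖deriv (P 2 (n + 1 + J + 1)) c₀‖) - Real.log 4 := by
    have h3 := Real.log_le_log (by positivity) h1
    rw [Real.log_mul (by norm_num) (Real.exp_pos 1).ne', Real.log_exp] at h3
    linarith
  have h3 : (2 : ℝ) ^ (n + 1 + J) ≤ 2 ^ (J + 1) * (B / ρ) ^ κ := by
    rw [show n + 1 + J = (J + 1) + n by ring, pow_add, two_pow_eq hL1 hκL n]
    gcongr
  calc 1 / (2 ^ (J + 1) * B ^ κ) * ρ ^ κ = 1 / (2 ^ (J + 1) * (B / ρ) ^ κ) := by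
        rw [Real.div_rpow hB0.le hρ0.le]
        have := Real.rpow_pos_of_pos hρ0 κ
        field_simp
    _ ≤ 1 / 2 ^ (n + 1 + J) := one_div_le_one_div_of_le (by positivity) h3
    _ ≤ _ := by gcongr

end Pool.Agent.Y736.HD
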