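import Pool.Agent.Y736.HD2
import Pool.Agent.W677.MC8

set_option autoImplicit false

/-! # Upper bound of the escape rate, all degrees -/

namespace Pool.Agent.Y736.HG

open Complex Metric Set Filter Topology Pool.Agent.H712R2 Pool.Agent.H713R2 N62a1eb23

/-- upper bound of the escape rate when the orbit stays bounded for a long time -/
theorem green_lower {d : ℕ} (hd : 2 ≤ d) {ψ : ℂ → ℂ} (hψ : IsExteriorMap (multibrotSet d) ψ)
    {z : ℂ} (hz : 1 < ‖z‖)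
    {n : ℕ} (h1 : ‖ψ z‖ ≤ 3) (h2 : ‖P d (n + 1) (ψ z)‖ ≤ 3) : ‖z‖ ^ (d ^ n) ≤ 4 := by
  obtain ⟨β, hβ⟩ := exists_beta (d := d) hd
  rw [exteriorMap_unique hβ hψ hz] at h1 h2
  obtain ⟨hx, hx0⟩ := inv_mem_ball hz
  obtain ⟨c, hc⟩ : ∃ c, c = z * β z⁻¹ := ⟨_, rfl⟩
  rw [← hc] at h1 h2
  have hgrow : ∀ j, ‖P d (n + 1 + j) c‖ ≤ 4 ^ (d ^ j) - 1 := by
    intro j
    have := up_growth hd (R := 3) (by norm_num) h1 h2 j
    norm_num at this
    exact this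
  obtain ⟨κ, hκ⟩ : ∃ κ, κ = Real.exp (-(2 * Real.log 2 * ‖z⁻¹‖ / (1 - ‖z⁻¹‖))) := ⟨_, rfl⟩
  have hκ0 : 0 < κ := by rw [hκ]; exact Real.exp_pos _
  by_contra hcon
  push Not at hcon
  have hzpos : 0 < ‖z‖ := by linarith
  have key : ∀ j, κ ≤ (4 / ‖z‖ ^ (d ^ n)) ^ (d ^ j) := by
    intro j
    have h3 := Pool.Agent.W677.MB.BB_lower hd hβ (n + j) hx
    rw [← hκ, BB_eq hd β (n + j) z⁻¹ hx0, inv_inv, ← hc, norm_mul, norm_pow, norm_inv] at h3
    have h4 := hgrow j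
    rw [show n + 1 + j = n + j + 1 by ring] at h4
    have h5 : ‖z‖⁻¹ ^ d ^ (n + j) * ‖P d (n + j + 1) c‖ ≤ ‖z‖⁻¹ ^ d ^ (n + j) * 4 ^ (d ^ j) :=
      mul_le_mul_of_nonneg_left (by linarith) (by positivity)
    refine h3.trans (h5.trans (le_of_eq ?_))
    rw [div_pow, ← pow_mul, ← pow_add, inv_pow]
    field_simp
  have hlt : 4 / ‖z‖ ^ (d ^ n) < 1 := by
    rw [div_lt_one (by positivity)]
    exact hcon
  have hlim : Tendsto (fun j : ℕ => (4 / ‖z‖ ^ (d ^ n)) ^ (d ^ j)) atTop (𝓝 0) :=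
    (tendsto_pow_atTop_nhds_zero_of_lt_one (by positivity) hlt).comp
      (tendsto_pow_atTop_atTop_of_one_lt (by omega : 1 < d))
  have := ge_of_tendsto' hlim key
  linarith

/-- upper bound of the escape rate from the closeness of the orbits -/
theorem rate_log {d : ℕ} (hd : 2 ≤ d) {c₀ : ℂ} (hc₀ : c₀ ∈ multibrotSet d) {ψ : ℂ → ℂ}
    (hψ : IsExteriorMap (multibrotSet d) ψ) {w : ℂ} (hw : 1 < ‖w‖) {n : ℕ}
    (h1 : ‖ψ w - c₀‖ ≤ 1) (h2 : ‖P d (n + 1) (ψ w) - P d (n + 1) c₀‖ ≤ 1) :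
    Real.log ‖w‖ ≤ Real.log 4 / (d : ℝ) ^ n := by
  have hb := (mem_multibrot_iff hd c₀).1 hc₀
  have h3 : ‖c₀‖ ≤ 2 := by
    have := hb 1
    rwa [P_one hd] at this
  have h4 : ‖ψ w‖ ≤ 3 := by
    have := norm_add_le (ψ w - c₀) c₀
    rw [sub_add_cancel] at this
    linarith
  have h5 : ‖P d (n + 1) (ψ w)‖ ≤ 3 := by
    have := norm_add_le (P d (n + 1) (ψ w) - P d (n + 1) c₀) (P d (n + 1) c₀)
    rw [sub_add_cancel] at this
    have := hb (n + 1)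
    linarith
  have h6 := green_lower hd hψ hw h4 h5
  have hd0 : (0 : ℝ) < (d : ℝ) ^ n := by
    have : (0 : ℝ) < d := by exact_mod_cast (by omega : 0 < d)
    positivity
  rw [le_div_iff₀ hd0]
  have h7 := Real.log_le_log (by positivity) h6
  rw [Real.log_pow] at h7
  push_cast at h7
  linarith

end Pool.Agent.Y736.HG
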