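import Pool.Agent.Y736.HG1

set_option autoImplicit false

/-! # Bounds for the circle means of the escape rate of the Multibrot sets -/

namespace Pool.Agent.Y736.HG

open Complex Metric Set Filter Topology MeasureTheory Pool.Agent.H712R2 Pool.Agent.H713R2
open N62a1eb23
open Real (posLog circleAverage)
open Pool.Agent.Y736.HD

variable {d : ℕ} {β ψ : ℂ → ℂ}

/-- upper bound of the mean of the truncated potential by the escape rate -/
theorem mean_le (hβ : IsBeta d β) (hψ : IsExteriorMap (multibrotSet d) ψ) {c₀ : ℂ}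
    (hc₀ : c₀ ∈ multibrotSet d) {ρ s S : ℝ} (hρ : 0 < ρ) (hs0 : 0 < s) (hs1 : s < 1) (hS0 : 0 ≤ S)
    (hS : ∀ w : ℂ, 1 < ‖w‖ → ‖ψ w - c₀‖ ≤ ρ → Real.log ‖w‖ ≤ S) :
    circleAverage (UU β c₀ ρ) 0 s ≤ S := by
  apply upper_I hβ hc₀ hρ hs0 hs1
  intro z hz
  by_cases hzM : z ∈ multibrotSet d
  · rw [avg_mem hβ hzM hs0 hs1]
    exact hS0
  · have h1 : z ∈ (multibrotSet d)ᶜ := hzM
    rw [← hψ.image] at h1
    obtain ⟨w, hw, rfl⟩ := h1
    have hw' : 1 < ‖w‖ := hw
    have h2 := hS w hw hz.le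
    rw [exteriorMap_unique hβ hψ hw] at hz ⊢
    rw [avg_ext hβ hw hs0 hs1]
    have h3 : posLog (s * ‖w‖) ≤ posLog ‖w‖ := by
      apply Real.posLog_le_posLog (by positivity)
      nlinarith
    rw [Real.posLog_eq_log (x := ‖w‖) (by rw [abs_of_pos (by linarith)]; exact hw'.le)] at h3
    linarith

/-- lower bound of the mean of the truncated potential by the derivative at the centre -/
theorem le_mean (hd2 : 2 ≤ d) (hβ : IsBeta d β) (hψ : IsExteriorMap (multibrotSet d) ψ) {c₀ : ℂ}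
    (hc₀ : c₀ ∈ multibrotSet d) {ρ s : ℝ} (hρ : 0 < ρ) (hs0 : 0 < s) (hs1 : s < 1) {m : ℕ}
    (hd : deriv (P d (m + 1)) c₀ ≠ 0) :
    (Real.log (ρ * ‖deriv (P d (m + 1)) c₀‖) - Real.log 4) / (d : ℝ) ^ m + Real.log s ≤
      circleAverage (UU β c₀ ρ) 0 s := by
  obtain ⟨h, hh⟩ : ∃ h : ℂ → ℂ, h = fun z => P d (m + 1) z - P d (m + 1) c₀ := ⟨_, rfl⟩
  have hhd : Differentiable ℂ h := by
    rw [hh]
    exact (Pool.Agent.H713R2.differentiable_P d (m + 1)).sub_const _
  have hh0 : h c₀ = 0 := by rw [hh]; exact sub_self _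
  have hh1 : deriv h c₀ = deriv (P d (m + 1)) c₀ := by
    rw [hh]
    exact deriv_sub_const _
  have hJ := jensen_zero hhd hh0 (by rw [hh1]; exact hd) hρ
  rw [hh1] at hJ
  have hlogs : Real.log s < 0 := Real.log_neg hs0 hs1
  have hhi : CircleIntegrable (fun z => Real.log ‖h z‖) c₀ ρ := by
    apply MeromorphicOn.circleIntegrable_log_norm
    intro z _
    exact (hhd.analyticAt z).meromorphicAt
  have hli : CircleIntegrable (fun z => (Real.log ‖h z‖ - Real.log 4) / (d : ℝ) ^ m + Real.log s) c₀ ρ := by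
    have h1 : CircleIntegrable (fun z => Real.log ‖h z‖ - Real.log 4) c₀ ρ :=
      hhi.sub (circleIntegrable_const _ _ _)
    have h2 : CircleIntegrable (fun z => (Real.log ‖h z‖ - Real.log 4) / (d : ℝ) ^ m) c₀ ρ := by
      exact IntervalIntegrable.div_const h1 _
    exact h2.add (circleIntegrable_const _ _ _)
  have hdR : (0 : ℝ) < d := by exact_mod_cast (by omega : 0 < d)
  have h2m : (0 : ℝ) < (d : ℝ) ^ m := by positivity
  have hkey := lower_II hβ hc₀ hρ hs0 hs1 hli (fun z hz => by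
    by_cases hzM : z ∈ multibrotSet d
    · rw [avg_mem hβ hzM hs0 hs1]
      have h1 := (mem_multibrot_iff hd2 z).1 hzM (m + 1)
      have h2 := (mem_multibrot_iff hd2 c₀).1 hc₀ (m + 1)
      have h3 : ‖h z‖ ≤ 4 := by
        rw [hh]
        exact (norm_sub_le _ _).trans (by linarith)
      have h4 : Real.log ‖h z‖ ≤ Real.log 4 := by
        rcases eq_or_lt_of_le (norm_nonneg (h z)) with h5 | h5
        · rw [← h5, Real.log_zero]
          exact Real.log_nonneg (by norm_num)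
        · exact Real.log_le_log h5 h3
      have h5 : (Real.log ‖h z‖ - Real.log 4) / (d : ℝ) ^ m ≤ 0 :=
        div_nonpos_of_nonpos_of_nonneg (by linarith) h2m.le
      linarith
    · have h1 : z ∈ (multibrotSet d)ᶜ := hzM
      rw [← hψ.image] at h1
      obtain ⟨w, hw, rfl⟩ := h1
      have hw' : 1 < ‖w‖ := hw
      have h3 := Pool.Agent.W677.MC.P_le_two hd2 hψ hw m
      have h2 := (mem_multibrot_iff hd2 c₀).1 hc₀ (m + 1)
      have h4 : (1 : ℝ) ≤ ‖w‖ ^ (d ^ m) := one_le_pow₀ hw'.le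
      have h5 : ‖h (ψ w)‖ ≤ 4 * ‖w‖ ^ (d ^ m) := by
        rw [hh]
        exact (norm_sub_le _ _).trans (by linarith)
      have h6 : Real.log ‖h (ψ w)‖ ≤ Real.log 4 + (d : ℝ) ^ m * Real.log ‖w‖ := by
        have e : Real.log (4 * ‖w‖ ^ (d ^ m)) = Real.log 4 + (d : ℝ) ^ m * Real.log ‖w‖ := by
          rw [Real.log_mul (by norm_num) (by positivity), Real.log_pow]
          push_cast
          ring
        rw [← e]
        rcases eq_or_lt_of_le (norm_nonneg (h (ψ w))) with h7 | h7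
        · rw [← h7, Real.log_zero]
          exact Real.log_nonneg (by linarith)
        · exact Real.log_le_log h7 h5
      have h8 : (Real.log ‖h (ψ w)‖ - Real.log 4) / (d : ℝ) ^ m ≤ Real.log ‖w‖ := by
        rw [div_le_iff₀ h2m]
        linarith
      have e1 := avg_ext hβ hw hs0 hs1
      rw [← exteriorMap_unique hβ hψ hw] at e1
      rw [e1]
      have h9 : Real.log (s * ‖w‖) ≤ posLog (s * ‖w‖) := le_max_right _ _
      rw [Real.log_mul hs0.ne' (by linarith)] at h9
      linarith)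
  refine le_trans ?_ hkey
  have e2 : circleAverage (fun z => (Real.log ‖h z‖ - Real.log 4) / (d : ℝ) ^ m + Real.log s) c₀ ρ =
      (circleAverage (fun z => Real.log ‖h z‖) c₀ ρ - Real.log 4) / (d : ℝ) ^ m + Real.log s := by
    rw [avg_eq, avg_eq]
    have hi := integrable_of hhi
    have i1 : Integrable (fun θ => Real.log ‖h (circleMap c₀ ρ θ)‖ - Real.log 4) cm :=
      hi.sub (integrable_const _)
    have i2 : Integrable (fun θ => (Real.log ‖h (circleMap c₀ ρ θ)‖ - Real.log 4) / (d : ℝ) ^ m) cm :=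
      i1.div_const _
    rw [integral_add i2 (integrable_const _), integral_div, integral_sub hi (integrable_const _)]
    simp
  rw [e2]
  gcongr

/-- the mean over the circle of angles of the exterior map -/
theorem avg_psi (hβ : IsBeta d β) (hψ : IsExteriorMap (multibrotSet d) ψ) (c₀ : ℂ) (ρ : ℝ)
    {s : ℝ} (hs0 : 0 < s) (hs1 : s < 1) : circleAverage (UU β c₀ ρ) 0 s =
      ∫ θ, posLog (ρ / ‖ψ ((s⁻¹ : ℝ) * exp (θ * I)) - c₀‖) ∂cm := by
  rw [Real.circleAverage_eq_circleAverage_zero_one, ← Real.circleAverage_zero_one_congr_inv, avg_eq]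
  apply integral_congr_ae
  refine Eventually.of_forall fun θ => ?_
  have hE : circleMap 0 1 θ = exp (θ * I) := by
    rw [circleMap_zero]
    push_cast
    ring
  have hw : 1 < ‖((s⁻¹ : ℝ) : ℂ) * exp (θ * I)‖ := by
    rw [norm_mul, Complex.norm_exp_ofReal_mul_I, mul_one, Complex.norm_real,
      Real.norm_of_nonneg (by positivity)]
    exact (one_lt_inv₀ hs0).2 hs1
  show UU β c₀ ρ (s * (circleMap 0 1 θ)⁻¹ + 0) =
    posLog (ρ / ‖ψ ((s⁻¹ : ℝ) * exp (θ * I)) - c₀‖)
  rw [exteriorMap_unique hβ hψ hw, hE, add_zero]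
  unfold UU
  have e : ((s⁻¹ : ℝ) : ℂ) * exp (θ * I) = (s * (exp (θ * I))⁻¹)⁻¹ := by
    rw [mul_inv, inv_inv]
    push_cast
    rfl
  rw [e, inv_inv]

end Pool.Agent.Y736.HG
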