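import Pool.Agent.Y736.HG4
import Pool.Agent.Y736.HD5

set_option autoImplicit false

/-! # All scales: the lower local dimension of the harmonic measure at every parameter -/

namespace Pool.Agent.Y736.HG

open Complex Metric Set Filter Topology MeasureTheory Pool.Agent.H712R2 Pool.Agent.H713R2
open N62a1eb23
open Real (posLog circleAverage)
open Pool.Agent.Y736.HD (cm cm_apply cm_eq Ang Ang_sub vol_Ang_ne sn sn_pos sn_lt sn_lim sn_inv_lim norm_pt
  isOpen_ext integrable_cont DD TT)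

variable {d : ℕ} {ψ : ℂ → ℂ}

theorem DD_meas (hψ : IsExteriorMap (multibrotSet d) ψ) (c₀ : ℂ) (ρ : ℝ) (n : ℕ) :
    MeasurableSet (DD ψ c₀ ρ n) :=
  (isOpen_lt ((cont_pt hψ (sn_pos n) (sn_lt n)).sub continuous_const).norm
      continuous_const).measurableSet

theorem TT_step (hψ : IsExteriorMap (multibrotSet d) ψ) {c₀ : ℂ} (hc₀ : c₀ ∈ multibrotSet d)
    {ρ' ρ : ℝ} (hρ' : 0 < ρ') (hρ : ρ' < ρ) (n : ℕ) :
    TT ψ c₀ ρ n ≤ Real.log (ρ / ρ') * cm.real (DD ψ c₀ ρ n) + TT ψ c₀ ρ' n := by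
  have hρ0 : 0 < ρ := hρ'.trans hρ
  have hDm := DD_meas hψ c₀ ρ n
  have h3 : Integrable ((DD ψ c₀ ρ n).indicator fun _ => (1 : ℝ)) cm :=
    (integrable_const _).indicator hDm
  have h4 : cm.real (DD ψ c₀ ρ n) = ∫ θ, (DD ψ c₀ ρ n).indicator (fun _ => (1 : ℝ)) θ ∂cm := by
    rw [integral_indicator hDm, setIntegral_const, smul_eq_mul, mul_one]
  unfold TT
  rw [h4, ← integral_const_mul, ← integral_add (h3.const_mul _)
    (integrable_cont (cont_U hψ hc₀ ρ' (sn_pos n) (sn_lt n)))]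
  apply integral_mono (integrable_cont (cont_U hψ hc₀ ρ (sn_pos n) (sn_lt n)))
    ((h3.const_mul _).add (integrable_cont (cont_U hψ hc₀ ρ' (sn_pos n) (sn_lt n))))
  intro θ
  show posLog (ρ / ‖ψ (((sn n)⁻¹ : ℝ) * exp (θ * I)) - c₀‖) ≤
    Real.log (ρ / ρ') * (DD ψ c₀ ρ n).indicator (fun _ => (1 : ℝ)) θ +
      posLog (ρ' / ‖ψ (((sn n)⁻¹ : ℝ) * exp (θ * I)) - c₀‖)
  obtain ⟨t, ht⟩ : ∃ t, t = ‖ψ (((sn n)⁻¹ : ℝ) * exp (θ * I)) - c₀‖ := ⟨_, rfl⟩
  have ht0 : 0 < t := by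
    rw [ht]
    exact norm_pos_iff.2 (sub_ne_zero.2 (psi_ne hψ hc₀ (norm_pt (sn_pos n) (sn_lt n) θ)))
  by_cases hθ : θ ∈ DD ψ c₀ ρ n
  · rw [indicator_of_mem hθ, mul_one, ← ht]
    have h5 : t < ρ := by
      rw [ht]
      exact hθ
    have h6 : 1 ≤ |ρ / t| := by
      rw [abs_of_pos (by positivity), le_div_iff₀ ht0]
      linarith
    rw [Real.posLog_eq_log h6]
    have h7 : Real.log (ρ / t) = Real.log (ρ / ρ') + Real.log (ρ' / t) := by
      rw [← Real.log_mul (by positivity) (by positivity)]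
      congr 1
      field_simp
    rw [h7]
    have : Real.log (ρ' / t) ≤ posLog (ρ' / t) := le_max_right _ _
    linarith
  · rw [indicator_of_notMem hθ, mul_zero, zero_add, ← ht]
    have h5 : ρ ≤ t := by
      rw [ht]
      exact not_lt.1 hθ
    have h6 : posLog (ρ / t) = 0 := by
      rw [Real.posLog_eq_zero_iff, abs_of_pos (by positivity), div_le_one ht0]
      exact h5
    rw [h6]
    exact Real.posLog_nonneg

theorem DD_limsup (hψ : IsExteriorMap (multibrotSet d) ψ)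
    (hae : ∀ᵐ θ : ℝ, ∃ ζ : ℂ, Tendsto (fun ρ : ℝ => ψ (ρ * exp (θ * I))) (𝓝[>] 1) (𝓝 ζ))
    (c₀ : ℂ) {ρ r ε : ℝ} (hr : ρ < r) (hε : 0 < ε) :
    ∀ᶠ n in atTop, cm.real (DD ψ c₀ ρ n) ≤ (volume (Ang ψ c₀ r)).toReal / (2 * Real.pi) + ε := by
  have hpi := Real.pi_pos
  obtain ⟨E, hE⟩ : ∃ E : ℕ → Set ℝ, E = fun N => ⋃ n, DD ψ c₀ ρ (N + n) := ⟨_, rfl⟩
  have hEm : ∀ N, MeasurableSet (E N) := by
    intro N
    rw [hE]
    exact MeasurableSet.iUnion fun n => DD_meas hψ _ _ _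
  have hanti : Antitone E := by
    intro N N' h
    rw [hE]
    apply iUnion_subset
    intro n
    obtain ⟨k, rfl⟩ := Nat.exists_eq_add_of_le h
    rw [show N + k + n = N + (k + n) by ring]
    exact subset_iUnion (fun n => DD ψ c₀ ρ (N + n)) (k + n)
  have hsub : volume ((⋂ N, E N) ∩ Ioc 0 (2 * Real.pi)) ≤ volume (Ang ψ c₀ r) := by
    apply measure_mono_ae
    filter_upwards [hae] with θ hθ hmem
    obtain ⟨hθ1, hθ2⟩ := hmem
    obtain ⟨ζ, hζ⟩ := hθ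
    refine ⟨hθ2, ζ, ?_, hζ⟩
    rw [mem_ball, dist_eq_norm]
    refine lt_of_le_of_lt ?_ hr
    have h4 : Tendsto (fun n => ‖ψ (((sn n)⁻¹ : ℝ) * exp (θ * I)) - c₀‖) atTop (𝓝 ‖ζ - c₀‖) :=
      ((hζ.comp sn_inv_lim).sub_const c₀).norm
    apply le_of_tendsto_of_frequently h4
    rw [frequently_atTop]
    intro N
    have h5 := mem_iInter.1 hθ1 N
    rw [hE] at h5
    obtain ⟨n, hn⟩ := mem_iUnion.1 h5
    exact ⟨N + n, Nat.le_add_right _ _, le_of_lt hn⟩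
  have h1 : cm.real (⋂ N, E N) ≤ (volume (Ang ψ c₀ r)).toReal / (2 * Real.pi) := by
    unfold Measure.real
    rw [cm_eq, ENNReal.toReal_mul, ENNReal.toReal_ofReal (by positivity), div_eq_inv_mul]
    gcongr
    exact vol_Ang_ne ψ c₀ r
  have h2 : Tendsto (fun N => cm (E N)) atTop (𝓝 (cm (⋂ N, E N))) :=
    tendsto_measure_iInter_atTop (fun N => (hEm N).nullMeasurableSet) hanti
      ⟨0, measure_ne_top _ _⟩
  have h3 : Tendsto (fun N => cm.real (E N)) atTop (𝓝 (cm.real (⋂ N, E N))) :=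
    (ENNReal.tendsto_toReal (measure_ne_top _ _)).comp h2
  have h4 : cm.real (⋂ N, E N) < (volume (Ang ψ c₀ r)).toReal / (2 * Real.pi) + ε := by linarith
  filter_upwards [h3.eventually (gt_mem_nhds h4)] with N hN
  refine le_trans ?_ hN.le
  refine measureReal_mono ?_ (measure_ne_top _ _)
  rw [hE]
  exact subset_iUnion (fun n => DD ψ c₀ ρ (N + n)) 0

/-- the escape rate is continuous at every point of the Mandelbrot set -/
theorem green_cont (hd2 : 2 ≤ d) {c₀ : ℂ} (hc₀ : c₀ ∈ multibrotSet d) {ε : ℝ} (hε : 0 < ε) :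
    ∃ δ : ℝ, 0 < δ ∧ ∀ ψ : ℂ → ℂ, IsExteriorMap (multibrotSet d) ψ → ∀ w : ℂ, 1 < ‖w‖ →
      ‖ψ w - c₀‖ ≤ δ → Real.log ‖w‖ ≤ ε := by
  have hdR : (1 : ℝ) < d := by exact_mod_cast (by omega : 1 < d)
  obtain ⟨n, hn⟩ : ∃ n : ℕ, Real.log 4 / (d : ℝ) ^ n ≤ ε := by
    obtain ⟨n, hn⟩ := pow_unbounded_of_one_lt (Real.log 4 / ε) hdR
    refine ⟨n, ?_⟩
    rw [div_le_iff₀ (by positivity)]
    rw [div_lt_iff₀ hε] at hn
    linarith
  have hc : ContinuousAt (P d (n + 1)) c₀ :=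
    (Pool.Agent.H713R2.differentiable_P d (n + 1)).continuous.continuousAt
  obtain ⟨δ, hδ, h⟩ := Metric.continuousAt_iff.1 hc 1 one_pos
  refine ⟨min (δ / 2) 1, by positivity, ?_⟩
  intro ψ hψ w hw h1
  have h2 := h (x := ψ w) (by
    rw [dist_eq_norm]
    have := min_le_left (δ / 2) 1
    linarith)
  rw [dist_eq_norm] at h2
  exact (rate_log hd2 hc₀ hψ hw (h1.trans (min_le_right _ _)) h2.le).trans hn

/-- summation over the scales -/
theorem chain (hd2 : 2 ≤ d) (hψ : IsExteriorMap (multibrotSet d) ψ)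
    (hae : ∀ᵐ θ : ℝ, ∃ ζ : ℂ, Tendsto (fun ρ : ℝ => ψ (ρ * exp (θ * I))) (𝓝[>] 1) (𝓝 ζ))
    {c₀ : ℂ} (hc₀ : c₀ ∈ multibrotSet d) {κ t₀ : ℝ} (hκ : 0 < κ)
    (H : ∀ t : ℝ, 0 < t → t ≤ t₀ → (volume (Ang ψ c₀ t)).toReal ≤ t ^ κ) {ρ : ℝ} (hρ0 : 0 < ρ)
    (hρ : 2 * ρ ≤ t₀) {m : ℕ} (hd : deriv (P d (m + 1)) c₀ ≠ 0) :
    (Real.log (ρ * ‖deriv (P d (m + 1)) c₀‖) - Real.log 4) / (d : ℝ) ^ m ≤
      2 ^ κ / (1 - (1 / 2) ^ κ) * ρ ^ κ := by
  obtain ⟨β, hβ⟩ := exists_beta (d := d) hd2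
  have hpi := Real.pi_gt_three
  have hlog2 : 0 < Real.log 2 := Real.log_pos (by norm_num)
  have hlog2' : Real.log 2 ≤ 1 := by
    have := Real.log_le_sub_one_of_pos (show (0 : ℝ) < 2 by norm_num)
    linarith
  obtain ⟨T, hT⟩ : ∃ T, T = (Real.log (ρ * ‖deriv (P d (m + 1)) c₀‖) - Real.log 4) / (d : ℝ) ^ m :=
    ⟨_, rfl⟩
  rw [← hT]
  obtain ⟨q, hq⟩ : ∃ q : ℝ, q = (1 / 2) ^ κ := ⟨_, rfl⟩
  have hq0 : 0 < q := by rw [hq]; positivity
  have hq1 : q < 1 := by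
    rw [hq]
    exact Real.rpow_lt_one (by norm_num) (by norm_num) hκ
  rw [← hq]
  have hpj : ∀ j : ℕ, ((1 / 2 : ℝ) ^ j * ρ) ^ κ = q ^ j * ρ ^ κ := by
    intro j
    rw [Real.mul_rpow (by positivity) hρ0.le, hq, ← Real.rpow_natCast, ← Real.rpow_natCast,
      ← Real.rpow_mul (by norm_num), ← Real.rpow_mul (by norm_num), mul_comm (j : ℝ) κ]
  -- finitely many scales at the level `n`
  have hfin : ∀ (J n : ℕ), TT ψ c₀ ρ n ≤
      ∑ j ∈ Finset.range J, Real.log 2 * cm.real (DD ψ c₀ ((1 / 2) ^ j * ρ) n) +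
        TT ψ c₀ ((1 / 2) ^ J * ρ) n := by
    intro J n
    induction J with
    | zero => simp
    | succ J ih =>
      rw [Finset.sum_range_succ]
      have h1 := TT_step hψ hc₀ (ρ' := (1 / 2) ^ (J + 1) * ρ) (ρ := (1 / 2) ^ J * ρ)
        (by positivity) (by
          rw [pow_succ]
          have : 0 < (1 / 2 : ℝ) ^ J * ρ := by positivity
          nlinarith) n
      have h2 : (1 / 2 : ℝ) ^ J * ρ / ((1 / 2) ^ (J + 1) * ρ) = 2 := by
        rw [pow_succ]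
        field_simp
      rw [h2] at h1
      linarith
  -- the limit
  have hJ : ∀ (J : ℕ) (S ε : ℝ), 0 ≤ S → 0 < ε → (∀ w : ℂ, 1 < ‖w‖ →
      ‖ψ w - c₀‖ ≤ (1 / 2) ^ J * ρ → Real.log ‖w‖ ≤ S) →
      T ≤ 2 ^ κ / (1 - q) * ρ ^ κ + J * ε + S := by
    intro J S ε hS0 hε hS
    have h1 : ∀ᶠ n in atTop, ∀ j ∈ Finset.range J, cm.real (DD ψ c₀ ((1 / 2) ^ j * ρ) n) ≤
        (volume (Ang ψ c₀ (2 * ((1 / 2) ^ j * ρ)))).toReal / (2 * Real.pi) + ε := by
      rw [Finset.eventually_all]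
      intro j _
      apply DD_limsup hψ hae c₀ _ hε
      have : 0 < (1 / 2 : ℝ) ^ j * ρ := by positivity
      linarith
    have h2 : ∀ᶠ n in atTop, T + Real.log (sn n) ≤ 2 ^ κ / (1 - q) * ρ ^ κ + J * ε + S := by
      filter_upwards [h1] with n hn
      have h3 := le_mean hd2 hβ hψ hc₀ hρ0 (sn_pos n) (sn_lt n) hd
      rw [← hT, avg_psi hβ hψ c₀ _ (sn_pos n) (sn_lt n)] at h3
      have h4 := mean_le hβ hψ hc₀ (ρ := (1 / 2) ^ J * ρ) (by positivity) (sn_pos n) (sn_lt n)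
        hS0 hS
      rw [avg_psi hβ hψ c₀ _ (sn_pos n) (sn_lt n)] at h4
      have h5 := hfin J n
      unfold TT at h5
      refine h3.trans (h5.trans (add_le_add ?_ h4))
      have h6 : ∀ j ∈ Finset.range J, Real.log 2 * cm.real (DD ψ c₀ ((1 / 2) ^ j * ρ) n) ≤
          q ^ j * (2 ^ κ * ρ ^ κ) + ε := by
        intro j hj
        have h7 := hn j hj
        have h8 : (1 / 2 : ℝ) ^ j ≤ 1 := pow_le_one₀ (by norm_num) (by norm_num)
        have h9 : (volume (Ang ψ c₀ (2 * ((1 / 2) ^ j * ρ)))).toReal ≤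
            q ^ j * (2 ^ κ * ρ ^ κ) := by
          refine (H _ (by positivity) ?_).trans (le_of_eq ?_)
          · nlinarith
          · rw [Real.mul_rpow (by norm_num) (by positivity), hpj]
            ring
        have h10 : (volume (Ang ψ c₀ (2 * ((1 / 2) ^ j * ρ)))).toReal / (2 * Real.pi) ≤
            (volume (Ang ψ c₀ (2 * ((1 / 2) ^ j * ρ)))).toReal :=
          div_le_self ENNReal.toReal_nonneg (by linarith)
        have h11 : 0 ≤ cm.real (DD ψ c₀ ((1 / 2) ^ j * ρ) n) := measureReal_nonneg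
        nlinarith
      have h12 := Finset.sum_le_sum h6
      rw [Finset.sum_add_distrib, ← Finset.sum_mul, Finset.sum_const, Finset.card_range,
        nsmul_eq_mul] at h12
      have h13 : ∑ j ∈ Finset.range J, q ^ j ≤ 1 / (1 - q) := by
        rw [geom_sum_eq hq1.ne, ← neg_div_neg_eq, neg_sub, neg_sub]
        apply div_le_div_of_nonneg_right _ (by linarith)
        have := pow_pos hq0 J
        linarith
      have h14 : (∑ j ∈ Finset.range J, q ^ j) * (2 ^ κ * ρ ^ κ) ≤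
          2 ^ κ / (1 - q) * ρ ^ κ := by
        calc (∑ j ∈ Finset.range J, q ^ j) * (2 ^ κ * ρ ^ κ) ≤ 1 / (1 - q) * (2 ^ κ * ρ ^ κ) := by
              gcongr
          _ = _ := by ring
      linarith
    have h3 : Tendsto (fun n => T + Real.log (sn n)) atTop (𝓝 (T + Real.log 1)) :=
      ((Real.continuousAt_log one_ne_zero).tendsto.comp sn_lim).const_add T
    rw [Real.log_one, add_zero] at h3
    exact le_of_tendsto h3 h2
  -- conclusion
  apply le_of_forall_pos_le_add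
  intro η hη
  obtain ⟨δ, hδ, hgc⟩ := green_cont hd2 hc₀ (half_pos hη)
  obtain ⟨J, hJ1⟩ := exists_pow_lt_of_lt_one (show 0 < δ / ρ by positivity)
    (show (1 / 2 : ℝ) < 1 by norm_num)
  have hJ2 : (1 / 2 : ℝ) ^ J * ρ ≤ δ := by
    rw [lt_div_iff₀ hρ0] at hJ1
    exact hJ1.le
  have h1 := hJ J (η / 2) (η / 2 / (J + 1)) (by linarith) (by positivity)
    (fun w hw hw2 => hgc ψ hψ w hw (hw2.trans hJ2))
  have h2 : (J : ℝ) * (η / 2 / (J + 1)) ≤ η / 2 := by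
    rw [mul_div_assoc', div_le_iff₀ (by positivity)]
    nlinarith
  linarith

/-- **The lower local dimension of the harmonic measure** is at most `log d` over the upper
exponential growth rate of the derivative in the parameter, at every point. -/
theorem low_dim (hd2 : 2 ≤ d) (hψ : IsExteriorMap (multibrotSet d) ψ)
    (hae : ∀ᵐ θ : ℝ, ∃ ζ : ℂ, Tendsto (fun ρ : ℝ => ψ (ρ * exp (θ * I))) (𝓝[>] 1) (𝓝 ζ))
    {c₀ : ℂ} (hc₀ : c₀ ∈ multibrotSet d) {κ a : ℝ} (hκ : 0 < κ) (ha : Real.log d < κ * a)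
    (hfr : ∃ᶠ n : ℕ in atTop, Real.exp (a * n) ≤ ‖deriv (P d n) c₀‖) :
    ∃ᶠ r : ℝ in 𝓝[>] 0, r ^ κ < (volume (Ang ψ c₀ r)).toReal := by
  have hdR : (1 : ℝ) < d := by exact_mod_cast (by omega : 1 < d)
  have hlog2 : 0 < Real.log d := Real.log_pos hdR
  have ha0 : 0 < a := by
    by_contra h
    push Not at h
    nlinarith
  by_contra hcon
  rw [not_frequently] at hcon
  obtain ⟨t₀, ht₀, H⟩ := mem_nhdsGT_iff_exists_Ioc_subset.1 hcon
  have ht₀' : 0 < t₀ := ht₀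
  have H' : ∀ t : ℝ, 0 < t → t ≤ t₀ → (volume (Ang ψ c₀ t)).toReal ≤ t ^ κ := fun t h1 h2 =>
    not_lt.1 (H ⟨h1, h2⟩)
  obtain ⟨B, hB⟩ : ∃ B : ℝ, B = 4 * Real.exp 1 := ⟨_, rfl⟩
  have hB0 : 0 < B := by rw [hB]; positivity
  obtain ⟨C, hC⟩ : ∃ C : ℝ, C = 2 ^ κ / (1 - (1 / 2) ^ κ) * B ^ κ := ⟨_, rfl⟩
  -- eventually the bound fails
  have hev1 : ∀ᶠ n : ℕ in atTop, 2 * (B * Real.exp (-(a * n))) ≤ t₀ := by
    have h1 : Tendsto (fun n : ℕ => 2 * (B * Real.exp (-(a * n)))) atTop (𝓝 (2 * (B * 0))) := by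
      apply Tendsto.const_mul
      apply Tendsto.const_mul
      apply Real.tendsto_exp_neg_atTop_nhds_zero.comp
      exact Tendsto.const_mul_atTop ha0 tendsto_natCast_atTop_atTop
    rw [mul_zero, mul_zero] at h1
    exact h1.eventually (ge_mem_nhds ht₀')
  have hev2 : ∀ᶠ n : ℕ in atTop, C * Real.exp (-((κ * a - Real.log d) * n)) < 1 := by
    have h1 : Tendsto (fun n : ℕ => C * Real.exp (-((κ * a - Real.log d) * n))) atTop
        (𝓝 (C * 0)) := by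
      apply Tendsto.const_mul
      apply Real.tendsto_exp_neg_atTop_nhds_zero.comp
      exact Tendsto.const_mul_atTop (by linarith) tendsto_natCast_atTop_atTop
    rw [mul_zero] at h1
    exact h1.eventually (gt_mem_nhds one_pos)
  obtain ⟨n, hn, hn1, hn2, hn3⟩ := (hfr.and_eventually
    (hev1.and (hev2.and (eventually_ge_atTop 1)))).exists
  obtain ⟨m, rfl⟩ : ∃ m, n = m + 1 := ⟨n - 1, by omega⟩
  have hpos : 0 < ‖deriv (P d (m + 1)) c₀‖ := (Real.exp_pos _).trans_le hn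
  have h1 := chain hd2 hψ hae hc₀ hκ H' (ρ := B * Real.exp (-(a * (m + 1 : ℕ)))) (by positivity) hn1
    (norm_pos_iff.1 hpos)
  have h2 : B ≤ B * Real.exp (-(a * (m + 1 : ℕ))) * ‖deriv (P d (m + 1)) c₀‖ := by
    calc B = B * Real.exp (-(a * (m + 1 : ℕ))) * Real.exp (a * (m + 1 : ℕ)) := by
          rw [mul_assoc, ← Real.exp_add, neg_add_cancel, Real.exp_zero, mul_one]
      _ ≤ _ := by gcongr
  have h3 : 1 ≤ Real.log (B * Real.exp (-(a * (m + 1 : ℕ))) * ‖deriv (P d (m + 1)) c₀‖) -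
      Real.log 4 := by
    have h4 : Real.log B = Real.log 4 + 1 := by
      rw [hB, Real.log_mul (by norm_num) (Real.exp_pos 1).ne', Real.log_exp]
    have h5 := Real.log_le_log hB0 h2
    linarith
  have h4 : (1 : ℝ) / (d : ℝ) ^ m ≤ 2 ^ κ / (1 - (1 / 2) ^ κ) *
      (B * Real.exp (-(a * (m + 1 : ℕ)))) ^ κ := by
    refine le_trans ?_ h1
    gcongr
  rw [Real.mul_rpow hB0.le (Real.exp_pos _).le, ← mul_assoc, ← hC, ← Real.exp_mul] at h4
  have h5 : (1 : ℝ) / (d : ℝ) ^ (m + 1) ≤ 1 / (d : ℝ) ^ m :=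
    one_div_le_one_div_of_le (by positivity) (pow_le_pow_right₀ hdR.le (by omega))
  have h6 : (1 : ℝ) ≤ C * Real.exp (-((κ * a - Real.log d) * (m + 1 : ℕ))) := by
    have h7 := h5.trans h4
    rw [div_le_iff₀ (by positivity)] at h7
    refine h7.trans (le_of_eq ?_)
    have h8 : (d : ℝ) ^ (m + 1) = Real.exp (Real.log d * (m + 1 : ℕ)) := by
      rw [Real.exp_mul, Real.exp_log (by linarith), Real.rpow_natCast]
    rw [h8, mul_assoc, ← Real.exp_add]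
    congr 2
    ring
  linarith

end Pool.Agent.Y736.HG
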