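import Pool.Agent.Y736.HG5
import Pool.Agent.Y736.HD6
import Pool.Agent.Y298.CA.Typ

set_option autoImplicit false

/-! # The dimension of the set of parameters with a large exponent -/

namespace Pool.Agent.Y736.HG

open Complex Metric Set Filter Topology MeasureTheory Pool.Agent.H712R2 Pool.Agent.H713R2
open N62a1eb23
open Pool.Agent.Y736.HD (Ang vol_Ang_ne sn sn_pos sn_lt sn_inv_lim dimH_le_of_mass)

variable {d : ℕ} {ψ : ℂ → ℂ}

/-- almost every ray lands -/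
theorem ae_land (hd2 : 2 ≤ d) (hψ : IsExteriorMap (multibrotSet d) ψ) :
    ∀ᵐ θ : ℝ, ∃ ζ : ℂ, Tendsto (fun ρ : ℝ => ψ (ρ * exp (θ * I))) (𝓝[>] 1) (𝓝 ζ) := by
  obtain ⟨β, hβ⟩ := exists_beta (d := d) hd2
  filter_upwards [Pool.Agent.Y272.TY.ae_neg' (Pool.Agent.Y272.TY.typical_all hd2 hβ)] with θ hθ
  obtain ⟨c₀, A, R, h⟩ := hθ
  exact ⟨c₀, h.tendsto_psi hβ hψ⟩

/-- **Harmonic measure**: the distribution of the landing points -/
theorem exists_nu (hd2 : 2 ≤ d) (hψ : IsExteriorMap (multibrotSet d) ψ) :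
    ∃ ν : Measure ℂ, IsFiniteMeasure ν ∧ ∀ (c : ℂ) (r : ℝ), volume (Ang ψ c r) ≤
      ν (closedBall c r) := by
  obtain ⟨g, hg, hlim⟩ := measurable_limit_of_tendsto_metrizable_ae (μ := (volume : Measure ℝ))
    (f := fun (n : ℕ) (θ : ℝ) => ψ (((sn n)⁻¹ : ℝ) * exp (θ * I))) (L := atTop)
    (fun n => (cont_pt hψ (sn_pos n) (sn_lt n)).measurable.aemeasurable) (by
      filter_upwards [ae_land hd2 hψ] with θ hθ
      obtain ⟨ζ, hζ⟩ := hθ
      exact ⟨ζ, hζ.comp sn_inv_lim⟩)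
  refine ⟨(volume.restrict (Ioc 0 (2 * Real.pi))).map g, inferInstance, fun c r => ?_⟩
  rw [Measure.map_apply hg isClosed_closedBall.measurableSet,
    Measure.restrict_apply (hg isClosed_closedBall.measurableSet)]
  apply measure_mono_ae
  filter_upwards [hlim] with θ hθ hmem
  obtain ⟨h1, ζ, h2, h3⟩ := hmem
  refine ⟨?_, h1⟩
  have h4 : g θ = ζ := tendsto_nhds_unique hθ (h3.comp sn_inv_lim)
  show g θ ∈ closedBall c r
  rw [h4]
  exact ball_subset_closedBall h2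

/-- the parameters with upper exponent at least `χ` -/
def Big (d : ℕ) (χ : ℝ) : Set ℂ := {c₀ | c₀ ∈ multibrotSet d ∧ ∀ a : ℝ, a < χ →
  ∃ᶠ n : ℕ in atTop, Real.exp (a * n) ≤ ‖deriv (P d n) c₀‖}

theorem dim_Big (hd2 : 2 ≤ d) {χ : ℝ} (hχ : 0 < χ) : dimH (Big d χ) ≤ ENNReal.ofReal (Real.log d / χ) := by
  have hdR : (1 : ℝ) < d := by exact_mod_cast (by omega : 1 < d)
  have hlog2 : 0 < Real.log d := Real.log_pos hdR
  obtain ⟨β, hβ⟩ := exists_beta (d := d) hd2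
  have hψ := exteriorMap_of_beta hβ
  obtain ⟨ν, hν, hle⟩ := exists_nu hd2 hψ
  have hκ0 : 0 < Real.log d / χ := by positivity
  have hkey : ∀ t : ℝ, Real.log d / χ < t → dimH (Big d χ) ≤ ENNReal.ofReal t := by
    intro t ht
    have ht0 : 0 < t := hκ0.trans ht
    apply dimH_le_of_mass (ν := ν) ht0
    rintro c₀ ⟨hc₀, hfr⟩
    obtain ⟨κ, hκ1, hκ2⟩ := exists_between ht
    have hκ : 0 < κ := hκ0.trans hκ1
    obtain ⟨a, ha1, ha2⟩ := exists_between (show Real.log d / κ < χ by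
      rw [div_lt_iff₀ hκ]
      rw [div_lt_iff₀ hχ] at hκ1
      linarith)
    have h1 := low_dim hd2 hψ (ae_land hd2 hψ) hc₀ hκ (a := a) (by
      rw [div_lt_iff₀ hκ] at ha1
      linarith) (hfr a ha2)
    have h2 : ∀ᶠ r : ℝ in 𝓝[>] 0, 0 < r ∧ r < 1 := by
      have h3 : ∀ᶠ r : ℝ in 𝓝[>] 0, 0 < r := self_mem_nhdsWithin
      exact h3.and (mem_nhdsWithin_of_mem_nhds (gt_mem_nhds one_pos))
    refine (h1.and_eventually h2).mono ?_
    rintro r ⟨h3, h4, h5⟩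
    refine le_trans ?_ (hle c₀ r)
    rw [ENNReal.ofReal_le_iff_le_toReal (vol_Ang_ne _ _ _)]
    refine le_trans ?_ h3.le
    exact Real.rpow_le_rpow_of_exponent_ge h4 h5.le hκ2.le
  have hcont : Tendsto (fun t : ℝ => ENNReal.ofReal t) (𝓝[>] (Real.log d / χ))
      (𝓝 (ENNReal.ofReal (Real.log d / χ))) :=
    (ENNReal.continuous_ofReal.tendsto _).mono_left nhdsWithin_le_nhds
  exact ge_of_tendsto hcont (by
    filter_upwards [self_mem_nhdsWithin] with t ht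
    exact hkey t ht)

end Pool.Agent.Y736.HG
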