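import Pool.Agent.Y736.HG7
import Pool.Agent.Y736.HG8
import Pool.Agent.Y736.HD9

set_option autoImplicit false

/-! # The local dimension of the harmonic measure -/

namespace Pool.Agent.Y736.HG

open Complex Metric Set Filter Topology MeasureTheory Pool.Agent.H713R2
open N62a1eb23 Pool.Agent.Y298.CA
open Pool.Agent.H712R2 (P)

open Pool.Agent.Y736.HD (Ang vol_Ang_ne sn sn_pos sn_lt sn_lim sn_inv_lim ev_small ev_lt ev_pos lim_exp GS)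

variable {d : ℕ} {χ : ℝ} {c₀ : ℂ} {ψ : ℂ → ℂ}

/-- the exponent is positive -/
theorem kap_pos (hd2 : 2 ≤ d) (h : Lyap d χ c₀) : 0 < Real.log d / χ :=
  div_pos (Real.log_pos (by exact_mod_cast (by omega : 1 < d))) h.1

theorem sup_upper (hd2 : 2 ≤ d) (h : Lyap d χ c₀) (hψ : IsExteriorMap (multibrotSet d) ψ) {ε : ℝ} (hε : 0 < ε)
    (hε2 : ε < Real.log d / χ) :
    ∀ᶠ r : ℝ in 𝓝[>] 0, sSup (GS ψ c₀ r) ≤ r ^ (Real.log d / χ - ε) := by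
  obtain ⟨K, s₀, hK, hs₀, H⟩ := lyap_up hd2 h (κ := Real.log d / χ - ε / 2) (by linarith) (by linarith)
  filter_upwards [ev_pos, ev_lt hs₀, ev_small (C := K) (half_pos hε)] with r hr0 hr1 hr2
  apply Real.sSup_le _ (by positivity)
  rintro x ⟨w, hw, hwr, rfl⟩
  refine (H ψ hψ r hr0 hr1.le w hw hwr).trans ?_
  calc K * r ^ (Real.log d / χ - ε / 2) = (K * r ^ (ε / 2)) * r ^ (Real.log d / χ - ε) := by
        rw [mul_assoc, ← Real.rpow_add hr0]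
        congr 2
        ring
    _ ≤ 1 * r ^ (Real.log d / χ - ε) := by gcongr
    _ = _ := one_mul _

theorem GS_bdd (hd2 : 2 ≤ d) (h : Lyap d χ c₀) (hψ : IsExteriorMap (multibrotSet d) ψ) :
    ∀ᶠ r : ℝ in 𝓝[>] 0, BddAbove (GS ψ c₀ r) := by
  have hκ := kap_pos hd2 h
  obtain ⟨K, s₀, hK, hs₀, H⟩ := lyap_up hd2 h (κ := Real.log d / χ / 2) (by linarith) (by linarith)
  filter_upwards [ev_pos, ev_lt hs₀] with r hr0 hr1
  refine ⟨K * r ^ (Real.log d / χ / 2), ?_⟩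
  rintro x ⟨w, hw, hwr, rfl⟩
  exact H ψ hψ r hr0 hr1.le w hw hwr

theorem le_sup (hd2 : 2 ≤ d) (hc₀ : c₀ ∈ multibrotSet d) (hψ : IsExteriorMap (multibrotSet d) ψ) {r : ℝ}
    (hr : 0 < r) (hb : BddAbove (GS ψ c₀ r)) {m : ℕ} (hd : deriv (P d (m + 1)) c₀ ≠ 0) :
    (Real.log (r * ‖deriv (P d (m + 1)) c₀‖) - Real.log 4) / (d : ℝ) ^ m ≤ sSup (GS ψ c₀ r) := by
  obtain ⟨β, hβ⟩ := exists_beta (d := d) hd2
  have hS0 : 0 ≤ sSup (GS ψ c₀ r) := by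
    apply Real.sSup_nonneg
    rintro x ⟨w, hw, -, rfl⟩
    exact Real.log_nonneg hw.le
  have h1 : ∀ n, (Real.log (r * ‖deriv (P d (m + 1)) c₀‖) - Real.log 4) / (d : ℝ) ^ m +
      Real.log (sn n) ≤ sSup (GS ψ c₀ r) := by
    intro n
    refine (le_mean hd2 hβ hψ hc₀ hr (sn_pos n) (sn_lt n) hd).trans ?_
    apply mean_le hβ hψ hc₀ hr (sn_pos n) (sn_lt n) hS0
    intro w hw hwr
    exact le_csSup hb ⟨w, hw, hwr, rfl⟩
  have h2 := ((Real.continuousAt_log one_ne_zero).tendsto.comp sn_lim).const_add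
    ((Real.log (r * ‖deriv (P d (m + 1)) c₀‖) - Real.log 4) / (d : ℝ) ^ m)
  rw [Real.log_one, add_zero] at h2
  exact le_of_tendsto' h2 h1

theorem sup_lower (hd2 : 2 ≤ d) (h : Lyap d χ c₀) (hψ : IsExteriorMap (multibrotSet d) ψ) {ε : ℝ}
    (hε : 0 < ε) : ∀ᶠ r : ℝ in 𝓝[>] 0, r ^ (Real.log d / χ + ε) ≤ sSup (GS ψ c₀ r) := by
  obtain ⟨k, ρ₀, hk, hρ₀, H⟩ := lyap_low hd2 h (κ := Real.log d / χ + ε / 2) (by linarith)
  filter_upwards [ev_pos, ev_lt hρ₀, ev_small (C := 1 / k) (half_pos hε), GS_bdd hd2 h hψ]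
    with r hr0 hr1 hr2 hr3
  obtain ⟨m, hd, h1⟩ := H r hr0 hr1.le
  refine le_trans ?_ (h1.trans (le_sup hd2 h.2.1 hψ hr0 hr3 hd))
  calc r ^ (Real.log d / χ + ε) = (1 / k * r ^ (ε / 2)) * (k * r ^ (Real.log d / χ + ε / 2)) := by
        have : Real.log d / χ + ε = ε / 2 + (Real.log d / χ + ε / 2) := by ring
        rw [this, Real.rpow_add hr0]
        field_simp
    _ ≤ 1 * (k * r ^ (Real.log d / χ + ε / 2)) := by gcongr
    _ = _ := one_mul _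

/-- **The exponent of the escape rate.** -/
theorem sup_exp (hd2 : 2 ≤ d) (h : Lyap d χ c₀) (hψ : IsExteriorMap (multibrotSet d) ψ) :
    Tendsto (fun r => Real.log (sSup (GS ψ c₀ r)) / Real.log r) (𝓝[>] 0)
      (𝓝 (Real.log d / χ)) :=
  lim_exp (fun _ hε => sup_lower hd2 h hψ hε) (fun _ hε hε2 => sup_upper hd2 h hψ hε hε2) (kap_pos hd2 h)

theorem vol_upper (hd2 : 2 ≤ d) (h : Lyap d χ c₀) (hψ : IsExteriorMap (multibrotSet d) ψ) {ε : ℝ} (hε : 0 < ε)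
    (hε2 : ε < Real.log d / χ) :
    ∀ᶠ r : ℝ in 𝓝[>] 0, (volume (Ang ψ c₀ r)).toReal ≤ r ^ (Real.log d / χ - ε) := by
  have hlog22 : 0 < Real.log 2 := Real.log_pos (by norm_num)
  have hpi := Real.pi_pos
  obtain ⟨κ, hκ⟩ : ∃ κ, κ = Real.log d / χ - ε / 2 := ⟨_, rfl⟩
  obtain ⟨K, s₀, hK, hs₀, H⟩ := lyap_up hd2 h (κ := κ) (by rw [hκ]; linarith) (by rw [hκ]; linarith)
  obtain ⟨B, hB⟩ : ∃ B, B = 2 * Real.pi * (K * 2 ^ κ) / Real.log 2 := ⟨_, rfl⟩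
  filter_upwards [ev_pos, ev_lt (half_pos hs₀), ev_small (C := B) (half_pos hε)]
    with r hr0 hr1 hr2
  have h1 := vol_le hd2 hψ h.2.1 hr0 (S := K * (2 * r) ^ κ) (by positivity) (fun w hw hwr =>
    H ψ hψ (2 * r) (by positivity) (by linarith) w hw hwr)
  refine h1.trans ?_
  calc 2 * Real.pi * (K * (2 * r) ^ κ) / Real.log 2 = (B * r ^ (ε / 2)) *
        r ^ (Real.log d / χ - ε) := by
        rw [hB, Real.mul_rpow (by norm_num) hr0.le, mul_assoc _ (r ^ (ε / 2)), ← Real.rpow_add hr0,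
          show ε / 2 + (Real.log d / χ - ε) = κ by rw [hκ]; ring]
        ring
    _ ≤ 1 * r ^ (Real.log d / χ - ε) := by gcongr
    _ = _ := one_mul _

theorem vol_lower (hd2 : 2 ≤ d) (h : Lyap d χ c₀) (hψ : IsExteriorMap (multibrotSet d) ψ) {ε : ℝ}
    (hε : 0 < ε) :
    ∀ᶠ r : ℝ in 𝓝[>] 0, r ^ (Real.log d / χ + ε) ≤ (volume (Ang ψ c₀ r)).toReal := by
  have hpi := Real.pi_pos
  have hκ0 := kap_pos hd2 h
  obtain ⟨κ₁, hκ₁⟩ : ∃ κ₁, κ₁ = Real.log d / χ + ε / 2 := ⟨_, rfl⟩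
  obtain ⟨κ₂, hκ₂⟩ : ∃ κ₂, κ₂ = Real.log d / χ / 2 := ⟨_, rfl⟩
  have hκ₁0 : 0 < κ₁ := by rw [hκ₁]; linarith
  have hκ₂0 : 0 < κ₂ := by rw [hκ₂]; linarith
  obtain ⟨k, ρ₀, hk, hρ₀, HL⟩ := lyap_low hd2 h (κ := κ₁) (by rw [hκ₁]; linarith)
  obtain ⟨K, s₀, hK, hs₀, HU⟩ := lyap_up hd2 h (κ := κ₂) hκ₂0 (by rw [hκ₂]; linarith)
  obtain ⟨η, hη⟩ : ∃ η, η = (κ₁ + 1) / κ₂ := ⟨_, rfl⟩
  have hη0 : 0 < η := by rw [hη]; positivity
  have hηκ : (1 + η) * κ₂ = κ₂ + κ₁ + 1 := by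
    rw [hη]
    field_simp
    ring
  obtain ⟨B, hB⟩ : ∃ B, B = (η * (4 / ε)) / (k / 2 * (2 * Real.pi)) * 2 ^ (κ₁ + ε / 4) := ⟨_, rfl⟩
  filter_upwards [ev_pos, ev_lt one_pos, ev_lt hρ₀, ev_lt hs₀,
    ev_small (C := 2 * K / k) (show 0 < κ₂ + 1 by linarith),
    ev_small (C := B) (show 0 < ε / 4 by linarith)] with r hr0 hr1 hr2 hr3 hr4 hr5
  obtain ⟨ρ, hρ⟩ : ∃ ρ, ρ = r / 2 := ⟨_, rfl⟩
  have hρ0 : 0 < ρ := by rw [hρ]; linarith
  have hρr : ρ < r := by rw [hρ]; linarith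
  have hρ1 : ρ < 1 := by linarith
  obtain ⟨m, hd, hT⟩ := HL ρ hρ0 (by linarith)
  have hρ'0 : 0 < ρ ^ (1 + η) := by positivity
  have hρ'ρ : ρ ^ (1 + η) < ρ := by
    calc ρ ^ (1 + η) < ρ ^ (1 : ℝ) := Real.rpow_lt_rpow_of_exponent_gt hρ0 hρ1 (by linarith)
      _ = ρ := Real.rpow_one ρ
  have h1 := le_vol hd2 hψ (ae_land hd2 hψ) h.2.1 hρ'0 hρ'ρ hρr (S := K * (ρ ^ (1 + η)) ^ κ₂)
    (by positivity) (fun w hw hwr => HU ψ hψ _ hρ'0 (by linarith) w hw hwr) hd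
  have h2 : K * (ρ ^ (1 + η)) ^ κ₂ ≤ k / 2 * ρ ^ κ₁ := by
    rw [← Real.rpow_mul hρ0.le, hηκ]
    have h3 : ρ ^ (κ₂ + κ₁ + 1) = ρ ^ (κ₂ + 1) * ρ ^ κ₁ := by
      rw [← Real.rpow_add hρ0]
      congr 1
      ring
    have h4 : ρ ^ (κ₂ + 1) ≤ r ^ (κ₂ + 1) := Real.rpow_le_rpow hρ0.le hρr.le (by linarith)
    have h5 : K * r ^ (κ₂ + 1) ≤ k / 2 := by
      have e : 2 * K / k * r ^ (κ₂ + 1) = (K * r ^ (κ₂ + 1)) / (k / 2) := by
        field_simp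
      rw [e, div_le_one (by positivity)] at hr4
      exact hr4
    rw [h3]
    calc K * (ρ ^ (κ₂ + 1) * ρ ^ κ₁) ≤ (K * r ^ (κ₂ + 1)) * ρ ^ κ₁ := by
          rw [← mul_assoc]
          gcongr
      _ ≤ k / 2 * ρ ^ κ₁ := by gcongr
  have h3 : Real.log (ρ / ρ ^ (1 + η)) = η * Real.log (1 / ρ) := by
    rw [Real.log_div hρ0.ne' hρ'0.ne', Real.log_rpow hρ0, one_div, Real.log_inv]
    ring
  have h4 : Real.log (1 / ρ) ≤ 4 / ε * (1 / ρ) ^ (ε / 4) := by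
    have := Real.log_le_rpow_div (x := 1 / ρ) (by positivity) (show 0 < ε / 4 by linarith)
    refine this.trans (le_of_eq ?_)
    field_simp
  obtain ⟨V, hV⟩ : ∃ V, V = (volume (Ang ψ c₀ r)).toReal := ⟨_, rfl⟩
  have hV0 : 0 ≤ V := by rw [hV]; exact ENNReal.toReal_nonneg
  rw [← hV, h3] at h1
  rw [← hV]
  have h5 : k / 2 * ρ ^ κ₁ ≤ η * (4 / ε * (1 / ρ) ^ (ε / 4)) * V / (2 * Real.pi) := by
    have h6 : k / 2 * ρ ^ κ₁ ≤ η * Real.log (1 / ρ) * V / (2 * Real.pi) := by linarith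
    refine h6.trans ?_
    gcongr
  rw [le_div_iff₀ (by positivity)] at h5
  -- rewriting
  have h7 : (1 / ρ) ^ (ε / 4) = (ρ ^ (ε / 4))⁻¹ := by
    rw [one_div, Real.inv_rpow hρ0.le]
  have hρe : 0 < ρ ^ (ε / 4) := Real.rpow_pos_of_pos hρ0 _
  rw [h7] at h5
  have h8 : k / 2 * (2 * Real.pi) * ρ ^ (κ₁ + ε / 4) ≤ η * (4 / ε) * V := by
    rw [Real.rpow_add hρ0]
    calc k / 2 * (2 * Real.pi) * (ρ ^ κ₁ * ρ ^ (ε / 4)) =
          (k / 2 * ρ ^ κ₁ * (2 * Real.pi)) * ρ ^ (ε / 4) := by ring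
      _ ≤ (η * (4 / ε * (ρ ^ (ε / 4))⁻¹) * V) * ρ ^ (ε / 4) := by gcongr
      _ = η * (4 / ε) * V := by
          field_simp
  have h9 : r ^ (κ₁ + ε / 4) = 2 ^ (κ₁ + ε / 4) * ρ ^ (κ₁ + ε / 4) := by
    rw [← Real.mul_rpow (by norm_num) hρ0.le, hρ]
    congr 1
    ring
  have h10 : r ^ (κ₁ + ε / 4) ≤ B * V := by
    rw [h9, hB]
    have h11 : ρ ^ (κ₁ + ε / 4) ≤ (η * (4 / ε)) / (k / 2 * (2 * Real.pi)) * V := by
      rw [div_mul_eq_mul_div, le_div_iff₀ (by positivity)]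
      linarith
    calc 2 ^ (κ₁ + ε / 4) * ρ ^ (κ₁ + ε / 4) ≤
          2 ^ (κ₁ + ε / 4) * ((η * (4 / ε)) / (k / 2 * (2 * Real.pi)) * V) := by gcongr
      _ = _ := by ring
  calc r ^ (Real.log d / χ + ε) = r ^ (ε / 4) * r ^ (κ₁ + ε / 4) := by
        rw [← Real.rpow_add hr0]
        congr 1
        rw [hκ₁]
        ring
    _ ≤ r ^ (ε / 4) * (B * V) := by gcongr
    _ = (B * r ^ (ε / 4)) * V := by ring
    _ ≤ 1 * V := by gcongr
    _ = V := one_mul V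

/-- **The local dimension of the harmonic measure.** -/
theorem vol_exp (hd2 : 2 ≤ d) (h : Lyap d χ c₀) (hψ : IsExteriorMap (multibrotSet d) ψ) :
    Tendsto (fun r => Real.log (volume (Ang ψ c₀ r)).toReal / Real.log r) (𝓝[>] 0)
      (𝓝 (Real.log d / χ)) :=
  lim_exp (fun _ hε => vol_lower hd2 h hψ hε) (fun _ hε hε2 => vol_upper hd2 h hψ hε hε2) (kap_pos hd2 h)

/-- **The loop moves fast over parameters with a small exponent.** -/
theorem loop (hd2 : 2 ≤ d) (h : Lyap d χ c₀) (hψ : IsExteriorMap (multibrotSet d) ψ) {F : ℂ → ℂ}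
    (hF : ContinuousOn F {w | 1 ≤ ‖w‖}) (hE : ∀ w, 1 < ‖w‖ → F w = ψ w) {ζ : ℂ} (hζ : ‖ζ‖ = 1)
    (hFζ : F ζ = c₀) {ε : ℝ} (hε : 0 < ε) : ∀ᶠ δ : ℝ in 𝓝[>] 0, ∃ ξ : ℂ, ‖ξ‖ = 1 ∧ ‖ξ - ζ‖ ≤ δ ∧
      δ ^ (χ / Real.log d + ε) ≤ ‖F ξ - F ζ‖ := by
  have hlog2 : 0 < Real.log d := Real.log_pos (by exact_mod_cast (by omega : 1 < d))
  have hχ : 0 < χ := h.1
  have hpi := Real.pi_pos
  have hκ0 := kap_pos hd2 h
  -- the angle of `ζ`
  obtain ⟨θ₀, hθ₀, hθζ⟩ : ∃ θ₀ : ℝ, θ₀ ∈ Ioc 0 (2 * Real.pi) ∧ exp (θ₀ * I) = ζ := by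
    have h1 : exp ((arg ζ : ℝ) * I) = ζ := by
      have := Complex.norm_mul_exp_arg_mul_I ζ
      rwa [hζ, ofReal_one, one_mul] at this
    rcases le_or_gt (arg ζ) 0 with h2 | h2
    · refine ⟨arg ζ + 2 * Real.pi, ⟨?_, by linarith⟩, ?_⟩
      · have := Complex.neg_pi_lt_arg ζ
        linarith
      · push_cast
        rw [add_mul, Complex.exp_add, Complex.exp_two_pi_mul_I, mul_one]
        exact h1
    · exact ⟨arg ζ, ⟨h2, by linarith [Complex.arg_le_pi ζ]⟩, h1⟩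
  obtain ⟨ε', hε', hε'κ, hexp⟩ : ∃ ε' : ℝ, 0 < ε' ∧ ε' < Real.log d / χ ∧
      1 < (χ / Real.log d + ε) * (Real.log d / χ - ε') := by
    have h1 : 1 < (χ / Real.log d + ε) * (Real.log d / χ) := by
      have : (χ / Real.log d + ε) * (Real.log d / χ) = 1 + ε * (Real.log d / χ) := by
        field_simp
      rw [this]
      have : 0 < ε * (Real.log d / χ) := by positivity
      linarith
    have h2 : Tendsto (fun e : ℝ => (χ / Real.log d + ε) * (Real.log d / χ - e)) (𝓝[>] 0)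
        (𝓝 ((χ / Real.log d + ε) * (Real.log d / χ - 0))) := by
      apply Tendsto.mono_left _ nhdsWithin_le_nhds
      exact (by fun_prop : Continuous fun e : ℝ =>
        (χ / Real.log d + ε) * (Real.log d / χ - e)).tendsto 0
    rw [sub_zero] at h2
    obtain ⟨e, h3, h4, h5⟩ := ((h2.eventually (lt_mem_nhds h1)).and
      (ev_pos.and (ev_lt hκ0))).exists
    exact ⟨e, h4, h5, h3⟩
  obtain ⟨p, hp⟩ : ∃ p, p = χ / Real.log d + ε := ⟨_, rfl⟩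
  have hp0 : 0 < p := by rw [hp]; positivity
  rw [← hp] at hexp ⊢
  have hlim : Tendsto (fun δ : ℝ => δ ^ p) (𝓝[>] 0) (𝓝[>] 0) := by
    rw [tendsto_nhdsWithin_iff]
    refine ⟨?_, ?_⟩
    · have h1 := (Real.continuousAt_rpow_const 0 p (Or.inr hp0.le)).tendsto.mono_left
        (nhdsWithin_le_nhds (s := Ioi (0 : ℝ)))
      rwa [Real.zero_rpow hp0.ne'] at h1
    · filter_upwards [ev_pos] with δ hδ
      exact Real.rpow_pos_of_pos hδ _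
  filter_upwards [ev_pos, ev_lt one_pos, ev_lt hθ₀.1,
    hlim.eventually (vol_upper hd2 h hψ hε' hε'κ)] with δ hδ0 hδ1 hδ2 hδ3
  by_contra hcon
  push Not at hcon
  -- an interval of angles
  have hsub : Ioc (θ₀ - δ) θ₀ ⊆ Ang ψ c₀ (δ ^ p) := by
    intro θ hθ
    refine ⟨⟨by linarith [hθ.1], hθ.2.trans hθ₀.2⟩, F (exp (θ * I)), ?_, ?_⟩
    · rw [mem_ball, dist_eq_norm, ← hFζ]
      apply hcon
      · exact Complex.norm_exp_ofReal_mul_I θ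
      · rw [← hθζ]
        have h1 : exp (θ * I) - exp (θ₀ * I) = exp (θ₀ * I) * (exp (I * ((θ - θ₀ : ℝ) : ℂ)) - 1) := by
          rw [mul_sub, ← Complex.exp_add, mul_one]
          congr 2
          push_cast
          ring
        rw [h1, norm_mul, Complex.norm_exp_ofReal_mul_I, one_mul]
        refine (Real.norm_exp_I_mul_ofReal_sub_one_le).trans ?_
        rw [Real.norm_eq_abs, abs_le]
        constructor <;> linarith [hθ.1, hθ.2]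
    · have h1 : ContinuousWithinAt F {w | 1 ≤ ‖w‖} (exp (θ * I)) :=
        hF _ (by
          show 1 ≤ ‖exp (θ * I)‖
          rw [Complex.norm_exp_ofReal_mul_I])
      have h2 : Tendsto (fun ρ : ℝ => (ρ : ℂ) * exp (θ * I)) (𝓝[>] 1)
          (𝓝[{w | 1 ≤ ‖w‖}] (exp (θ * I))) := by
        rw [tendsto_nhdsWithin_iff]
        refine ⟨?_, ?_⟩
        · have h3 : Continuous fun ρ : ℝ => (ρ : ℂ) * exp (θ * I) := by fun_prop
          have h4 := (h3.tendsto 1).mono_left (nhdsWithin_le_nhds (s := Ioi (1 : ℝ)))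
          simpa using h4
        · filter_upwards [self_mem_nhdsWithin] with ρ hρ
          have hρ' : 1 < ρ := hρ
          show 1 ≤ ‖(ρ : ℂ) * exp (θ * I)‖
          rw [norm_mul, Complex.norm_exp_ofReal_mul_I, mul_one, Complex.norm_real,
            Real.norm_of_nonneg (by linarith)]
          exact hρ'.le
      refine (h1.tendsto.comp h2).congr' ?_
      filter_upwards [self_mem_nhdsWithin] with ρ hρ
      have hρ' : 1 < ρ := hρ
      apply hE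
      rw [norm_mul, Complex.norm_exp_ofReal_mul_I, mul_one, Complex.norm_real,
        Real.norm_of_nonneg (by linarith)]
      exact hρ'
  have h1 : δ ≤ (volume (Ang ψ c₀ (δ ^ p))).toReal := by
    have h2 := ENNReal.toReal_mono (vol_Ang_ne ψ c₀ (δ ^ p)) (measure_mono hsub)
    rw [Real.volume_Ioc, ENNReal.toReal_ofReal (by linarith)] at h2
    linarith
  have h2 := h1.trans hδ3
  rw [← Real.rpow_mul hδ0.le] at h2
  have h3 : δ ^ (p * (Real.log d / χ - ε')) < δ ^ (1 : ℝ) :=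
    Real.rpow_lt_rpow_of_exponent_gt hδ0 hδ1 hexp
  rw [Real.rpow_one] at h3
  linarith

end Pool.Agent.Y736.HG
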