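import Pool.Agent.W677.MB5

set_option autoImplicit false

/-! # Comparison of the critical orbits of two nearby parameters -/

namespace Pool.Agent.Y736.HL

open Complex Metric Set Filter Topology Pool.Agent.H712R2 Pool.Agent.H713R2 N62a1eb23

/-- the modulus of the derivative of `f_c^(n-m)` at the `m`-th point of the critical orbit -/
noncomputable def LL (c : ℂ) (m n : ℕ) : ℝ := ∏ i ∈ Finset.Ico m n, ‖2 * P 2 i c‖

theorem LL_nonneg (c : ℂ) (m n : ℕ) : 0 ≤ LL c m n :=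
  Finset.prod_nonneg fun _ _ => norm_nonneg _

theorem LL_self (c : ℂ) (m : ℕ) : LL c m m = 1 := by simp [LL]

theorem LL_succ (c : ℂ) {m n : ℕ} (h : m ≤ n) : LL c m (n + 1) = LL c m n * ‖2 * P 2 n c‖ :=
  Finset.prod_Ico_succ_top h _

theorem LL_mul (c : ℂ) {m k n : ℕ} (h1 : m ≤ k) (h2 : k ≤ n) : LL c m k * LL c k n = LL c m n :=
  Finset.prod_Ico_consecutive _ h1 h2

theorem LL_le (c : ℂ) (hc : c ∈ multibrotSet 2) {m n : ℕ} : LL c m n ≤ 4 ^ (n - m) := by
  unfold LL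
  have h := Finset.prod_le_prod (s := Finset.Ico m n) (f := fun i => ‖2 * P 2 i c‖)
    (g := fun _ => (4 : ℝ)) (fun i _ => norm_nonneg _) (by
      intro i _
      rw [norm_mul]
      have := (mem_multibrot_iff le_rfl c).1 hc i
      norm_num
      linarith)
  rwa [Finset.prod_const, Nat.card_Ico] at h

/-- the variation of constants bound -/
theorem duhamel (c₀ c : ℂ) (k : ℕ) :
    ‖P 2 k c - P 2 k c₀‖ ≤
      ∑ j ∈ Finset.range k, LL c₀ (j + 1) k * (‖c - c₀‖ + ‖P 2 j c - P 2 j c₀‖ ^ 2) := by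
  induction k with
  | zero => simp [P_zero]
  | succ k ih =>
    rw [Finset.sum_range_succ, LL_self, one_mul]
    have e : P 2 (k + 1) c - P 2 (k + 1) c₀ =
        2 * P 2 k c₀ * (P 2 k c - P 2 k c₀) + (P 2 k c - P 2 k c₀) ^ 2 + (c - c₀) := by
      rw [P_succ, P_succ]
      ring
    have h1 : ‖P 2 (k + 1) c - P 2 (k + 1) c₀‖ ≤
        ‖2 * P 2 k c₀‖ * ‖P 2 k c - P 2 k c₀‖ + ‖P 2 k c - P 2 k c₀‖ ^ 2 + ‖c - c₀‖ := by
      rw [e]
      refine (norm_add_le _ _).trans (add_le_add_left ?_ _)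
      refine (norm_add_le _ _).trans ?_
      rw [norm_mul, norm_pow]
    have h2 : ∑ j ∈ Finset.range k, LL c₀ (j + 1) (k + 1) *
        (‖c - c₀‖ + ‖P 2 j c - P 2 j c₀‖ ^ 2) =
        ‖2 * P 2 k c₀‖ * ∑ j ∈ Finset.range k, LL c₀ (j + 1) k *
          (‖c - c₀‖ + ‖P 2 j c - P 2 j c₀‖ ^ 2) := by
      rw [Finset.mul_sum]
      apply Finset.sum_congr rfl
      intro j hj
      rw [LL_succ c₀ (Finset.mem_range.1 hj)]
      ring
    rw [h2]
    have h3 := mul_le_mul_of_nonneg_left ih (norm_nonneg (2 * P 2 k c₀))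
    linarith

/-- geometric sums `1 + L + ... + L^(k-1)` -/
noncomputable def SS (L : ℝ) (k : ℕ) : ℝ := ∑ j ∈ Finset.range k, L ^ j

/-- sums of geometric sums -/
noncomputable def TT (L : ℝ) (k : ℕ) : ℝ := ∑ j ∈ Finset.range k, SS L j

theorem SS_nonneg {L : ℝ} (hL : 1 ≤ L) (k : ℕ) : 0 ≤ SS L k :=
  Finset.sum_nonneg fun _ _ => by positivity

theorem TT_nonneg {L : ℝ} (hL : 1 ≤ L) (k : ℕ) : 0 ≤ TT L k :=
  Finset.sum_nonneg fun _ _ => SS_nonneg hL _

theorem TT_mono {L : ℝ} (hL : 1 ≤ L) {k n : ℕ} (h : k ≤ n) : TT L k ≤ TT L n :=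
  Finset.sum_le_sum_of_subset_of_nonneg (Finset.range_mono h) fun _ _ _ => SS_nonneg hL _

theorem SS_mono {L : ℝ} (hL : 1 ≤ L) {k n : ℕ} (h : k ≤ n) : SS L k ≤ SS L n :=
  Finset.sum_le_sum_of_subset_of_nonneg (Finset.range_mono h) fun _ _ _ => by positivity

theorem SS_shift {L : ℝ} (hL : 1 ≤ L) {j k : ℕ} (h : j ≤ k) : L ^ (k - j) * SS L j ≤ SS L k := by
  obtain ⟨m, rfl⟩ := Nat.exists_eq_add_of_le h
  rw [Nat.add_sub_cancel_left]
  unfold SS
  rw [add_comm j m, Finset.sum_range_add, Finset.mul_sum]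
  have h1 : ∑ i ∈ Finset.range j, L ^ m * L ^ i = ∑ x ∈ Finset.range j, L ^ (m + x) := by
    apply Finset.sum_congr rfl
    intro i _
    rw [pow_add]
  rw [h1]
  have h2 : 0 ≤ ∑ x ∈ Finset.range m, L ^ x := Finset.sum_nonneg fun _ _ => by positivity
  linarith

theorem SS_reflect {L : ℝ} (k : ℕ) : ∑ j ∈ Finset.range k, L ^ (k - 1 - j) = SS L k := by
  unfold SS
  exact Finset.sum_range_reflect (fun j => L ^ j) k

/-- the two orbits stay together as long as `4 C² ‖c - c₀‖ TT L n ≤ 1` -/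
theorem close {c₀ c : ℂ} {C L : ℝ} (hL : 1 ≤ L) (hC : 0 < C)
    (hD : ∀ m n, m ≤ n → LL c₀ m n ≤ C * L ^ (n - m)) {n : ℕ}
    (hn : 4 * C ^ 2 * ‖c - c₀‖ * TT L n ≤ 1) :
    ∀ k, k ≤ n → ‖P 2 k c - P 2 k c₀‖ ≤ 2 * C * ‖c - c₀‖ * SS L k := by
  set ε := ‖c - c₀‖ with hε
  have hε0 : 0 ≤ ε := norm_nonneg _
  intro k
  induction k using Nat.strong_induction_on with
  | _ k ih =>
    intro hk
    have h1 := duhamel c₀ c k
    rw [← hε] at h1
    have h2 : ∀ j ∈ Finset.range k, LL c₀ (j + 1) k * (ε + ‖P 2 j c - P 2 j c₀‖ ^ 2) ≤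
        C * ε * L ^ (k - 1 - j) + C * ε * (4 * C ^ 2 * ε * SS L j) * SS L k := by
      intro j hj
      have hjk := Finset.mem_range.1 hj
      have h3 := ih j hjk (hjk.le.trans hk)
      have h4 : ‖P 2 j c - P 2 j c₀‖ ^ 2 ≤ (2 * C * ε * SS L j) ^ 2 :=
        pow_le_pow_left₀ (norm_nonneg _) h3 2
      have h5 : LL c₀ (j + 1) k ≤ C * L ^ (k - 1 - j) := by
        have := hD (j + 1) k hjk
        rwa [show k - (j + 1) = k - 1 - j by omega] at this
      have hLp : 0 ≤ L ^ (k - 1 - j) := by positivity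
      have hS := SS_nonneg hL j
      have h6 : L ^ (k - 1 - j) * SS L j ≤ SS L k := by
        refine le_trans ?_ (SS_shift hL hjk.le)
        apply mul_le_mul_of_nonneg_right _ hS
        exact pow_le_pow_right₀ hL (by omega)
      calc LL c₀ (j + 1) k * (ε + ‖P 2 j c - P 2 j c₀‖ ^ 2)
          ≤ C * L ^ (k - 1 - j) * (ε + (2 * C * ε * SS L j) ^ 2) := by
            apply mul_le_mul h5 (by linarith) (by positivity) (by positivity)
        _ = C * ε * L ^ (k - 1 - j) + C * ε * (4 * C ^ 2 * ε * SS L j) *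
            (L ^ (k - 1 - j) * SS L j) := by ring
        _ ≤ _ := by
            apply add_le_add_right
            apply mul_le_mul_of_nonneg_left h6
            positivity
    have h3 := Finset.sum_le_sum h2
    rw [Finset.sum_add_distrib, ← Finset.mul_sum, SS_reflect, ← Finset.sum_mul, ← Finset.mul_sum,
      ← Finset.mul_sum] at h3
    have h4 : 4 * C ^ 2 * ε * ∑ j ∈ Finset.range k, SS L j ≤ 1 := by
      refine le_trans ?_ hn
      apply mul_le_mul_of_nonneg_left (TT_mono hL hk)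
      positivity
    have hS := SS_nonneg hL k
    have h5 : C * ε * (4 * C ^ 2 * ε * ∑ j ∈ Finset.range k, SS L j) * SS L k ≤
        C * ε * 1 * SS L k := by
      apply mul_le_mul_of_nonneg_right _ hS
      exact mul_le_mul_of_nonneg_left h4 (by positivity)
    linarith

theorem SS_le {L : ℝ} (hL : 1 < L) (k : ℕ) : SS L k ≤ L ^ k / (L - 1) := by
  unfold SS
  rw [geom_sum_eq hL.ne', div_le_div_iff_of_pos_right (by linarith)]
  linarith

theorem TT_le {L : ℝ} (hL : 1 < L) (k : ℕ) : TT L k ≤ L ^ k / (L - 1) ^ 2 := by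
  have h0 : 0 < L - 1 := by linarith
  have h1 : TT L k ≤ ∑ j ∈ Finset.range k, L ^ j / (L - 1) :=
    Finset.sum_le_sum fun j _ => SS_le hL j
  rw [← Finset.sum_div] at h1
  have h2 := SS_le hL k
  unfold SS at h2
  have h3 := div_le_div_of_nonneg_right h2 h0.le
  rw [div_div, ← sq] at h3
  exact h1.trans h3

theorem SS_one (k : ℕ) : SS 1 k = k := by simp [SS]

theorem TT_one (k : ℕ) : TT 1 k ≤ (k : ℝ) ^ 2 := by
  unfold TT
  have : ∀ j ∈ Finset.range k, SS 1 j ≤ (k : ℝ) := by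
    intro j hj
    rw [SS_one]
    exact_mod_cast (Finset.mem_range.1 hj).le
  have h := Finset.sum_le_sum this
  rw [Finset.sum_const, Finset.card_range, nsmul_eq_mul] at h
  rw [sq]
  exact h

end Pool.Agent.Y736.HL
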