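import Pool.Agent.Y736.HL2

set_option autoImplicit false

/-! # Bounds for the derivatives along the critical orbit -/

namespace Pool.Agent.Y736.HL

open Complex Metric Set Filter Topology Pool.Agent.H712R2 Pool.Agent.H713R2 N62a1eb23

theorem iter_P (c : ℂ) (N m : ℕ) : (fc 2 c)^[N] (P 2 m c) = P 2 (m + N) c := by
  unfold P
  rw [← Function.iterate_add_apply, add_comm]

theorem hasDerivAt_fc (c z : ℂ) : HasDerivAt (fc 2 c) (2 * z) z := by
  have h := (hasDerivAt_pow 2 z).add_const c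
  have e : ((2 : ℕ) : ℂ) * z ^ (2 - 1) = 2 * z := by norm_num
  rw [e] at h
  exact h

theorem differentiable_iter (c : ℂ) (N : ℕ) : Differentiable ℂ ((fc 2 c)^[N]) :=
  Differentiable.iterate (fun z => (hasDerivAt_fc c z).differentiableAt) N

theorem norm_deriv_iter (c : ℂ) (m N : ℕ) :
    ‖deriv ((fc 2 c)^[N]) (P 2 m c)‖ = LL c m (m + N) := by
  induction N with
  | zero => simp [LL]
  | succ N ih =>
    rw [Function.iterate_succ', ← add_assoc, LL_succ c (Nat.le_add_right m N)]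
    have h := (hasDerivAt_fc c ((fc 2 c)^[N] (P 2 m c))).comp (P 2 m c)
      ((differentiable_iter c N) (P 2 m c)).hasDerivAt
    rw [h.deriv, norm_mul, ih, iter_P, mul_comm]

theorem LL_of_eventually {c : ℂ} (hc : c ∈ multibrotSet 2) {N : ℕ} (hN : 1 ≤ N) {L : ℝ}
    (hL : 1 ≤ L) (h : ∀ᶠ m in atTop, LL c m (m + N) ≤ L ^ N) :
    ∃ C : ℝ, 0 < C ∧ ∀ m n, m ≤ n → LL c m n ≤ C * L ^ (n - m) := by
  obtain ⟨m₀, hm₀⟩ := eventually_atTop.1 h
  have h1 : ∀ k m, m₀ ≤ m → LL c m (m + k) ≤ 4 ^ N * L ^ k := by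
    intro k
    induction k using Nat.strong_induction_on with
    | _ k ih =>
      intro m hm
      rcases lt_or_ge k N with hk | hk
      · have h2 := LL_le c hc (m := m) (n := m + k)
        rw [Nat.add_sub_cancel_left] at h2
        have h3 : (4 : ℝ) ^ k ≤ 4 ^ N := pow_le_pow_right₀ (by norm_num) hk.le
        have h4 : (1 : ℝ) ≤ L ^ k := one_le_pow₀ hL
        have h5 : (0 : ℝ) < 4 ^ N := by positivity
        nlinarith
      · obtain ⟨j, rfl⟩ := Nat.exists_eq_add_of_le hk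
        have h2 := ih j (by omega) (m + N) (by omega)
        have h3 := hm₀ m hm
        rw [← LL_mul c (k := m + N) (by omega) (by omega), ← add_assoc, pow_add]
        have h4 := mul_le_mul h3 h2 (LL_nonneg _ _ _) (by positivity)
        refine h4.trans (le_of_eq ?_)
        ring
  refine ⟨4 ^ m₀ * 4 ^ N, by positivity, ?_⟩
  intro m n hmn
  have hL' : ∀ k, (1 : ℝ) ≤ L ^ k := fun k => one_le_pow₀ hL
  have e4 : (1 : ℝ) ≤ 4 ^ m₀ := one_le_pow₀ (by norm_num)
  have e4' : (1 : ℝ) ≤ 4 ^ N := one_le_pow₀ (by norm_num)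
  rcases le_or_gt m₀ m with hm | hm
  · have h2 := h1 (n - m) m hm
    rw [Nat.add_sub_cancel' hmn] at h2
    have h3 : 0 ≤ 4 ^ N * L ^ (n - m) := by positivity
    nlinarith
  · rcases le_or_gt n m₀ with hn | hn
    · have h2 := LL_le c hc (m := m) (n := n)
      have h3 : (4 : ℝ) ^ (n - m) ≤ 4 ^ m₀ := pow_le_pow_right₀ (by norm_num) (by omega)
      have h4 := hL' (n - m)
      have h5 : (4 : ℝ) ^ m₀ * 1 * 1 ≤ 4 ^ m₀ * 4 ^ N * L ^ (n - m) := by
        apply mul_le_mul _ h4 (by norm_num) (by positivity)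
        exact mul_le_mul_of_nonneg_left e4' (by positivity)
      linarith
    · rw [← LL_mul c hm.le hn.le]
      have h2 := LL_le c hc (m := m) (n := m₀)
      have h3 : (4 : ℝ) ^ (m₀ - m) ≤ 4 ^ m₀ := pow_le_pow_right₀ (by norm_num) (by omega)
      have h4 := h1 (n - m₀) m₀ le_rfl
      rw [Nat.add_sub_cancel' hn.le] at h4
      have h5 : L ^ (n - m₀) ≤ L ^ (n - m) := pow_le_pow_right₀ hL (by omega)
      have h6 : LL c m m₀ * LL c m₀ n ≤ 4 ^ m₀ * (4 ^ N * L ^ (n - m₀)) :=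
        mul_le_mul (h2.trans h3) h4 (LL_nonneg _ _ _) (by positivity)
      have h7 : (4 : ℝ) ^ m₀ * 4 ^ N * L ^ (n - m₀) ≤ 4 ^ m₀ * 4 ^ N * L ^ (n - m) :=
        mul_le_mul_of_nonneg_left h5 (by positivity)
      linarith

theorem LL_of_blocks {c : ℂ} (hc : c ∈ multibrotSet 2) {N : ℕ} (hN : 1 ≤ N) {K : ℕ} {D : ℝ}
    (h : ∀ m k, K ≤ m → m ≤ k → LL c (N * m) (N * k) ≤ D) :
    ∃ C : ℝ, ∀ m n, m ≤ n → LL c m n ≤ C := by
  have hD : 1 ≤ D := by
    have := h K K le_rfl le_rfl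
    rwa [LL_self] at this
  refine ⟨4 ^ (N * (K + 2)) * D, ?_⟩
  intro m n hmn
  have e4 : (1 : ℝ) ≤ 4 ^ (N * (K + 2)) := one_le_pow₀ (by norm_num)
  rcases le_or_gt (n - m) (N * (K + 2)) with h1 | h1
  · have h2 := LL_le c hc (m := m) (n := n)
    have h3 : (4 : ℝ) ^ (n - m) ≤ 4 ^ (N * (K + 2)) := pow_le_pow_right₀ (by norm_num) h1
    nlinarith
  · obtain ⟨a, ha⟩ : ∃ a, a = m / N := ⟨_, rfl⟩
    obtain ⟨b, hb⟩ : ∃ b, b = n / N := ⟨_, rfl⟩
    have ha1 : N * a ≤ m := by rw [ha]; exact Nat.mul_div_le m N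
    have ha2 : m < N * (a + 1) := by
      rw [ha]; exact Nat.lt_mul_div_succ m (by omega)
    have hb1 : N * b ≤ n := by rw [hb]; exact Nat.mul_div_le n N
    have hb2 : n < N * (b + 1) := by
      rw [hb]; exact Nat.lt_mul_div_succ n (by omega)
    obtain ⟨p, hp⟩ : ∃ p, p = max K (a + 1) := ⟨_, rfl⟩
    have hpK : K ≤ p := by rw [hp]; exact le_max_left _ _
    have hpa : a + 1 ≤ p := by rw [hp]; exact le_max_right _ _
    have hple : p ≤ a + K + 1 := by rw [hp]; exact max_le (by omega) (by omega)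
    have hpb : p ≤ b := by
      have h2 : N * (a + K + 2) < N * (b + 1) := by
        have : N * (a + K + 2) = N * a + N * (K + 2) := by ring
        omega
      have h3 : a + K + 2 < b + 1 := lt_of_mul_lt_mul_left h2 (Nat.zero_le _)
      omega
    have h2 : m ≤ N * p := ha2.le.trans (Nat.mul_le_mul_left N hpa)
    have h3 : N * p ≤ N * b := Nat.mul_le_mul_left N hpb
    rw [← LL_mul c h2 (h3.trans hb1), ← LL_mul c h3 hb1]
    have h4 := LL_le c hc (m := m) (n := N * p)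
    have h5 : N * p - m ≤ N * (K + 1) := by
      have : N * p ≤ N * (a + K + 1) := Nat.mul_le_mul_left N hple
      have e : N * (a + K + 1) = N * a + N * (K + 1) := by ring
      omega
    have h6 : (4 : ℝ) ^ (N * p - m) ≤ 4 ^ (N * (K + 1)) := pow_le_pow_right₀ (by norm_num) h5
    have h7 := LL_le c hc (m := N * b) (n := n)
    have h8 : (4 : ℝ) ^ (n - N * b) ≤ 4 ^ N := by
      apply pow_le_pow_right₀ (by norm_num)
      have e : N * (b + 1) = N * b + N := by ring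
      omega
    have h9 := h p b hpK hpb
    have e : (4 : ℝ) ^ (N * (K + 2)) * D = 4 ^ (N * (K + 1)) * (D * 4 ^ N) := by
      have : N * (K + 2) = N * (K + 1) + N := by ring
      rw [this, pow_add]
      ring
    rw [e]
    apply mul_le_mul (h4.trans h6) _ (mul_nonneg (LL_nonneg _ _ _) (LL_nonneg _ _ _))
      (by positivity)
    exact mul_le_mul h9 (h7.trans h8) (LL_nonneg _ _ _) (by linarith)

theorem one_add_pow_sub {s : ℂ} (hs : ‖s‖ ≤ 1) (k : ℕ) :
    ‖(1 + s) ^ k - 1 - k * s‖ ≤ 4 ^ k * ‖s‖ ^ 2 := by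
  induction k with
  | zero => simp
  | succ k ih =>
    have e : (1 + s) ^ (k + 1) - 1 - ((k + 1 : ℕ) : ℂ) * s =
        (1 + s) * ((1 + s) ^ k - 1 - k * s) + k * s ^ 2 := by
      push_cast
      ring
    rw [e]
    have h1 : ‖1 + s‖ ≤ 2 := by
      have := norm_add_le (1 : ℂ) s
      rw [norm_one] at this
      linarith
    have h2 := norm_add_le ((1 + s) * ((1 + s) ^ k - 1 - k * s)) (k * s ^ 2)
    rw [norm_mul, norm_mul, norm_pow, Complex.norm_natCast] at h2
    have h3 : ‖1 + s‖ * ‖(1 + s) ^ k - 1 - k * s‖ ≤ 2 * (4 ^ k * ‖s‖ ^ 2) :=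
      mul_le_mul h1 ih (norm_nonneg _) (by norm_num)
    have h4 : (k : ℝ) ≤ 2 * 4 ^ k := by
      have h5 : (k : ℝ) < 2 ^ k := by exact_mod_cast Nat.lt_two_pow_self
      have h6 : (2 : ℝ) ^ k ≤ 4 ^ k := pow_le_pow_left₀ (by norm_num) (by norm_num) k
      have h7 : (0 : ℝ) < 4 ^ k := by positivity
      linarith
    have h5 := mul_le_mul_of_nonneg_right h4 (sq_nonneg ‖s‖)
    rw [show (4 : ℝ) ^ (k + 1) = 4 ^ k * 4 from pow_succ _ _]
    linarith

end Pool.Agent.Y736.HL
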