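import Pool.Agent.Y736.HL4

set_option autoImplicit false

/-! # Bounded derivatives along an orbit converging to a parabolic cycle, end -/

namespace Pool.Agent.Y736.HL

open Complex Metric Set Filter Topology Pool.Agent.H712R2 Pool.Agent.H713R2 N62a1eb23

theorem LL_blocks_eq (c : ℂ) (N : ℕ) {m k : ℕ} (h : m ≤ k) :
    LL c (N * m) (N * k) = ∏ j ∈ Finset.Ico m k, LL c (N * j) (N * j + N) := by
  induction k, h using Nat.le_induction with
  | base => simp [LL]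
  | succ k hk ih =>
    rw [Finset.prod_Ico_succ_top hk, ← ih, mul_add, mul_one,
      LL_mul c (Nat.mul_le_mul_left N hk) (Nat.le_add_right _ _)]

/-- the abstract product bound -/
theorem prod_bound {ν : ℕ} (hν : 1 ≤ ν) {a0 : ℂ} (ha0 : a0 ≠ 0) {u s : ℕ → ℂ}
    (hu0 : ∀ j, u j ≠ 0) (hs : ∀ j, u (j + 1) = u j * (1 + s j))
    (hlim : Tendsto (fun j => s j / u j ^ ν) atTop (𝓝 a0)) (hu : Tendsto u atTop (𝓝 0))
    {C : ℝ} (hC : 0 ≤ C) {d : ℕ → ℝ} (hd0 : ∀ j, 0 ≤ d j)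
    (hd : ∀ j, d j ≤ ‖1 + s j‖ ^ (ν + 1) * (1 + C * ‖u j‖ ^ (ν + 1))) :
    ∃ (K : ℕ) (D : ℝ), ∀ m k, K ≤ m → m ≤ k → ∏ j ∈ Finset.Ico m k, d j ≤ D := by
  obtain ⟨β, hβ, hev⟩ := growth hν ha0 hu0 hs hlim hu
  obtain ⟨K, hK⟩ := eventually_atTop.1 (hev.and (eventually_gt_atTop 0))
  have hν0 : ν ≠ 0 := by omega
  have hνR : (0 : ℝ) < ν := Nat.cast_pos.2 (by omega)
  have hpos : ∀ j, 0 < ‖u j‖ := fun j => norm_pos_iff.2 (hu0 j)
  -- summability
  have hsum : Summable (fun j => C * ‖u j‖ ^ (ν + 1)) := by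
    apply Summable.mul_left
    have h1 : Summable (fun j : ℕ => (2 / β) ^ (1 + 1 / (ν : ℝ)) * (1 / (j : ℝ) ^ (1 + 1 / (ν : ℝ)))) := by
      apply Summable.mul_left
      rw [Real.summable_one_div_nat_rpow]
      have : 0 < 1 / (ν : ℝ) := by positivity
      linarith
    apply Summable.of_norm_bounded_eventually_nat h1
    filter_upwards [eventually_ge_atTop K] with j hj
    obtain ⟨⟨h2, h3⟩, h4⟩ := hK j hj
    have hj0 : (0 : ℝ) < j := Nat.cast_pos.2 h4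
    rw [Real.norm_of_nonneg (by positivity)]
    have h5 : ‖u j‖ ^ ν ≤ 2 / β * (1 / j) := by
      have h6 : 0 < β / 2 * j := by positivity
      have h7 := inv_anti₀ h6 h2
      rw [inv_inv] at h7
      refine h7.trans (le_of_eq ?_)
      field_simp
    have h6 : ‖u j‖ ^ (ν + 1) = (‖u j‖ ^ ν) ^ (1 + 1 / (ν : ℝ)) := by
      rw [← Real.rpow_natCast, ← Real.rpow_natCast, ← Real.rpow_mul (hpos j).le]
      congr 1
      push_cast
      field_simp
    rw [h6]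
    have h7 := Real.rpow_le_rpow (by positivity) h5 (show 0 ≤ 1 + 1 / (ν : ℝ) by positivity)
    refine h7.trans (le_of_eq ?_)
    rw [Real.mul_rpow (by positivity) (by positivity), Real.div_rpow zero_le_one hj0.le,
      Real.one_rpow]
  refine ⟨K, 4 ^ (ν + 1) * Real.exp (∑' j, C * ‖u j‖ ^ (ν + 1)), ?_⟩
  intro m k hm hmk
  have h1 : ∏ j ∈ Finset.Ico m k, d j ≤
      (∏ j ∈ Finset.Ico m k, ‖1 + s j‖ ^ (ν + 1)) *
        ∏ j ∈ Finset.Ico m k, (1 + C * ‖u j‖ ^ (ν + 1)) := by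
    rw [← Finset.prod_mul_distrib]
    exact Finset.prod_le_prod (fun j _ => hd0 j) (fun j _ => hd j)
  have h2 : ∏ j ∈ Finset.Ico m k, (1 + C * ‖u j‖ ^ (ν + 1)) ≤
      Real.exp (∑' j, C * ‖u j‖ ^ (ν + 1)) := by
    have h3 : ∏ j ∈ Finset.Ico m k, (1 + C * ‖u j‖ ^ (ν + 1)) ≤
        ∏ j ∈ Finset.Ico m k, Real.exp (C * ‖u j‖ ^ (ν + 1)) := by
      apply Finset.prod_le_prod (fun j _ => by positivity)
      intro j _
      rw [add_comm]
      exact Real.add_one_le_exp _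
    rw [← Real.exp_sum] at h3
    refine h3.trans (Real.exp_le_exp.2 ?_)
    exact hsum.sum_le_tsum _ (fun j _ => by positivity)
  have h3 : ∏ j ∈ Finset.Ico m k, ‖1 + s j‖ = ‖u k‖ / ‖u m‖ := by
    have h4 : ∀ k, m ≤ k → (∏ j ∈ Finset.Ico m k, ‖1 + s j‖) * ‖u m‖ = ‖u k‖ := by
      intro k hk
      induction k, hk using Nat.le_induction with
      | base => simp
      | succ k hk ih =>
        rw [Finset.prod_Ico_succ_top hk, hs k, norm_mul, ← ih]
        ring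
    rw [eq_div_iff (hpos m).ne']
    exact h4 k hmk
  have h4 : ‖u k‖ / ‖u m‖ ≤ 4 := by
    obtain ⟨⟨h5, h6⟩, h7⟩ := hK m hm
    obtain ⟨⟨h8, h9⟩, h10⟩ := hK k (hm.trans hmk)
    have hm0 : (0 : ℝ) < m := Nat.cast_pos.2 h7
    have hk0 : (0 : ℝ) < k := Nat.cast_pos.2 h10
    have hmk' : (m : ℝ) ≤ k := by exact_mod_cast hmk
    have h11 : (‖u k‖ / ‖u m‖) ^ ν ≤ 4 := by
      rw [div_pow, div_le_iff₀ (pow_pos (hpos m) _)]
      have hA : 0 < ‖u k‖ ^ ν := pow_pos (hpos k) _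
      have hB : 0 < ‖u m‖ ^ ν := pow_pos (hpos m) _
      have h12 : (‖u m‖ ^ ν)⁻¹ ≤ 4 * (‖u k‖ ^ ν)⁻¹ := by
        have : 2 * β * m ≤ 2 * β * k := mul_le_mul_of_nonneg_left hmk' (by positivity)
        linarith
      have h13 : (‖u m‖ ^ ν)⁻¹ * (‖u m‖ ^ ν * ‖u k‖ ^ ν) ≤
          4 * (‖u k‖ ^ ν)⁻¹ * (‖u m‖ ^ ν * ‖u k‖ ^ ν) :=
        mul_le_mul_of_nonneg_right h12 (by positivity)
      have e1 : (‖u m‖ ^ ν)⁻¹ * (‖u m‖ ^ ν * ‖u k‖ ^ ν) = ‖u k‖ ^ ν := by field_simp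
      have e2 : 4 * (‖u k‖ ^ ν)⁻¹ * (‖u m‖ ^ ν * ‖u k‖ ^ ν) = 4 * ‖u m‖ ^ ν := by field_simp
      rw [e1, e2] at h13
      exact h13
    by_contra hcon
    push Not at hcon
    have h12 : (4 : ℝ) ^ 1 ≤ 4 ^ ν := pow_le_pow_right₀ (by norm_num) hν
    have h13 : (4 : ℝ) ^ ν < (‖u k‖ / ‖u m‖) ^ ν := pow_lt_pow_left₀ hcon (by norm_num) hν0
    rw [pow_one] at h12
    linarith
  refine h1.trans ?_
  rw [Finset.prod_pow, h3]
  apply mul_le_mul _ h2 (Finset.prod_nonneg fun j _ => by positivity) (by positivity)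
  exact pow_le_pow_left₀ (by positivity) h4 _

theorem iter_ne_id (c : ℂ) {N : ℕ} (hN : 1 ≤ N) : ∃ z, (fc 2 c)^[N] z ≠ z := by
  by_contra hcon
  push Not at hcon
  have h1 : ∀ z, (fc 2 c)^[N] (-z) = (fc 2 c)^[N] z := by
    intro z
    obtain ⟨k, rfl⟩ : ∃ k, N = k + 1 := ⟨N - 1, by omega⟩
    rw [Function.iterate_succ_apply, Function.iterate_succ_apply]
    have : fc 2 c (-z) = fc 2 c z := by
      unfold fc
      ring
    rw [this]
  have h2 := h1 1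
  rw [hcon, hcon] at h2
  norm_num at h2

/-- **bounded derivatives along the critical orbit of a parabolic parameter** -/
theorem parabolic_LL {c₀ : ℂ} (hc₀ : c₀ ∈ multibrotSet 2) {N : ℕ} (hN : 1 ≤ N) {z₀ : ℂ}
    (hfix : (fc 2 c₀)^[N] z₀ = z₀) (hder : deriv ((fc 2 c₀)^[N]) z₀ = 1)
    (hlim : Tendsto (fun k => P 2 (N * k) c₀) atTop (𝓝 z₀)) :
    ∃ C : ℝ, ∀ m n, m ≤ n → LL c₀ m n ≤ C := by
  obtain ⟨g, hgdef⟩ : ∃ g, g = (fc 2 c₀)^[N] := ⟨_, rfl⟩
  have hg : Differentiable ℂ g := by rw [hgdef]; exact differentiable_iter c₀ N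
  have hstep : ∀ k, g (P 2 (N * k) c₀) = P 2 (N * (k + 1)) c₀ := by
    intro k
    rw [hgdef, iter_P, mul_add, mul_one]
  have hLLd : ∀ k, LL c₀ (N * k) (N * k + N) = ‖deriv g (P 2 (N * k) c₀)‖ := by
    intro k
    rw [hgdef, norm_deriv_iter]
  rw [← hgdef] at hfix hder
  by_cases hex : ∃ K, P 2 (N * K) c₀ = z₀
  · obtain ⟨K, hK⟩ := hex
    have h1 : ∀ j, K ≤ j → P 2 (N * j) c₀ = z₀ := by
      intro j hj
      induction j, hj using Nat.le_induction with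
      | base => exact hK
      | succ j hj ih => rw [← hstep, ih, hfix]
    apply LL_of_blocks hc₀ hN (K := K) (D := 1)
    intro m k hm hmk
    rw [LL_blocks_eq c₀ N hmk]
    apply le_of_eq
    apply Finset.prod_eq_one
    intro j hj
    rw [hLLd, h1 j (hm.trans (Finset.mem_Ico.1 hj).1), hder, norm_one]
  · push Not at hex
    obtain ⟨ν, a, hν, ha, ha0, hev⟩ := parabolic_germ hg hfix hder (by
      rw [hgdef]
      exact iter_ne_id c₀ hN)
    obtain ⟨C, hC, hev2⟩ := parabolic_bounds hg hν ha hev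
    have hu : Tendsto (fun k => P 2 (N * k) c₀ - z₀) atTop (𝓝 0) := by
      have := hlim.sub_const z₀
      rwa [sub_self] at this
    obtain ⟨K₀, hK₀⟩ := eventually_atTop.1 (hu.eventually hev2)
    obtain ⟨u, hudef⟩ : ∃ u : ℕ → ℂ, u = fun k => P 2 (N * (K₀ + k)) c₀ - z₀ := ⟨_, rfl⟩
    have hu' : Tendsto u atTop (𝓝 0) := by
      rw [hudef]
      have h1 := (tendsto_add_atTop_iff_nat K₀).2 hu
      refine h1.congr fun k => ?_
      rw [add_comm k K₀]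
    have hu0 : ∀ j, u j ≠ 0 := by
      intro j
      rw [hudef]
      exact sub_ne_zero.2 (hex _)
    have hs : ∀ j, u (j + 1) = u j * (1 + u j ^ ν * a (u j)) := by
      intro j
      have h1 := (hK₀ (K₀ + j) (Nat.le_add_right _ _)).1
      rw [show z₀ + (P 2 (N * (K₀ + j)) c₀ - z₀) = P 2 (N * (K₀ + j)) c₀ by ring, hstep] at h1
      rw [hudef]
      simp only
      rw [← add_assoc, h1]
      ring
    have hlim' : Tendsto (fun j => u j ^ ν * a (u j) / u j ^ ν) atTop (𝓝 (a 0)) := by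
      have h1 : Tendsto (fun j => a (u j)) atTop (𝓝 (a 0)) := ha.continuousAt.tendsto.comp hu'
      refine h1.congr fun j => ?_
      rw [mul_div_cancel_left₀ _ (pow_ne_zero _ (hu0 j))]
    obtain ⟨K, D, hKD⟩ := prod_bound hν ha0 hu0 hs hlim' hu' hC
      (d := fun j => ‖deriv g (P 2 (N * (K₀ + j)) c₀)‖) (fun j => norm_nonneg _) (by
        intro j
        have h1 := (hK₀ (K₀ + j) (Nat.le_add_right _ _)).2
        rw [show z₀ + (P 2 (N * (K₀ + j)) c₀ - z₀) = P 2 (N * (K₀ + j)) c₀ by ring] at h1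
        rw [hudef]
        exact h1)
    apply LL_of_blocks hc₀ hN (K := K₀ + K) (D := D)
    intro m k hm hmk
    rw [LL_blocks_eq c₀ N hmk]
    have h1 := hKD (m - K₀) (k - K₀) (by omega) (by omega)
    refine le_trans (le_of_eq ?_) h1
    have e1 : m = (m - K₀) + K₀ := by omega
    have e2 : k = (k - K₀) + K₀ := by omega
    have h3 := Finset.prod_Ico_add' (fun j => LL c₀ (N * j) (N * j + N)) (m - K₀) (k - K₀) K₀
    rw [← e1, ← e2] at h3
    rw [← h3]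
    apply Finset.prod_congr rfl
    intro j _
    rw [hLLd, add_comm K₀ j]

end Pool.Agent.Y736.HL
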