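import Pool.Agent.Y736.HL6

set_option autoImplicit false

/-! # From Hölder estimates on the circle to radial estimates -/

namespace Pool.Agent.Y736.HL

open Complex Metric Set Filter Topology Pool.Agent.H712R2 Pool.Agent.H713R2 N62a1eb23

theorem re_q_pos {x ξ : ℂ} (hξ : ‖ξ‖ = 1) (hx : ‖x‖ ≤ 1) (hne : x ≠ ξ) :
    0 < (1 - x * ξ⁻¹).re := by
  have hξ0 : ξ ≠ 0 := by
    rintro rfl
    rw [norm_zero] at hξ
    exact one_ne_zero hξ.symm
  obtain ⟨y, hy⟩ : ∃ y, y = x * ξ⁻¹ := ⟨_, rfl⟩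
  have hy1 : ‖y‖ ≤ 1 := by
    rw [hy, norm_mul, norm_inv, hξ, inv_one, mul_one]
    exact hx
  have hy2 : y ≠ 1 := by
    intro h
    rw [hy, ← div_eq_mul_inv, div_eq_one_iff_eq hξ0] at h
    exact hne h
  rw [← hy, sub_re, one_re]
  have h1 : y.re ≤ ‖y‖ := Complex.re_le_norm y
  rcases lt_or_eq_of_le (h1.trans hy1) with h2 | h2
  · linarith
  · exfalso
    apply hy2
    have h3 : ‖y‖ = 1 := le_antisymm hy1 (by rw [← h2]; exact h1)
    have h4 : y.re ^ 2 + y.im ^ 2 = 1 := by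
      have := Complex.sq_norm y
      rw [h3, Complex.normSq_apply] at this
      nlinarith
    have h5 : y.im = 0 := by
      rw [h2] at h4
      nlinarith
    apply Complex.ext
    · rw [h2, one_re]
    · rw [h5, one_im]

theorem norm_q {x ξ : ℂ} (hξ : ‖ξ‖ = 1) : ‖1 - x * ξ⁻¹‖ = ‖x - ξ‖ := by
  have hξ0 : ξ ≠ 0 := by
    rintro rfl
    rw [norm_zero] at hξ
    exact one_ne_zero hξ.symm
  have e : 1 - x * ξ⁻¹ = -(x - ξ) * ξ⁻¹ := by
    field_simp
    ring
  rw [e, norm_mul, norm_neg, norm_inv, hξ, inv_one, mul_one]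

theorem norm_exp_log {q : ℂ} (hq : q ≠ 0) (α : ℝ) :
    ‖Complex.exp (-(α : ℂ) * Complex.log q)‖ = (‖q‖ ^ α)⁻¹ := by
  rw [Complex.norm_exp, ← Real.rpow_neg (norm_nonneg q), Real.rpow_def_of_pos (norm_pos_iff.2 hq)]
  congr 1
  rw [← Complex.ofReal_neg, Complex.re_ofReal_mul, Complex.log_re]
  ring

theorem re_exp_log {q : ℂ} (hq : 0 < q.re) :
    1 / 2 * (√‖q‖)⁻¹ ≤ (Complex.exp (-(1 / 2 : ℂ) * Complex.log q)).re := by
  have hq0 : q ≠ 0 := by
    rintro rfl
    rw [zero_re] at hq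
    exact lt_irrefl _ hq
  have hn : 0 < ‖q‖ := norm_pos_iff.2 hq0
  have e1 : (-(1 / 2 : ℂ) * Complex.log q).re = -(1 / 2) * Real.log ‖q‖ := by
    have : (-(1 / 2 : ℂ)) = ((-(1 / 2) : ℝ) : ℂ) := by push_cast; ring
    rw [this, Complex.re_ofReal_mul, Complex.log_re]
  have e2 : (-(1 / 2 : ℂ) * Complex.log q).im = -(1 / 2) * q.arg := by
    have : (-(1 / 2 : ℂ)) = ((-(1 / 2) : ℝ) : ℂ) := by push_cast; ring
    rw [this, Complex.im_ofReal_mul, Complex.log_im]
  rw [Complex.exp_re, e1, e2]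
  have e3 : Real.exp (-(1 / 2) * Real.log ‖q‖) = (√‖q‖)⁻¹ := by
    rw [Real.sqrt_eq_rpow, ← Real.rpow_neg hn.le, Real.rpow_def_of_pos hn]
    congr 1
    ring
  rw [e3, mul_comm (1 / 2 : ℝ)]
  apply mul_le_mul_of_nonneg_left _ (by positivity)
  have h1 : |q.arg| < Real.pi / 2 := Complex.abs_arg_lt_pi_div_two_iff.2 (Or.inl hq)
  rw [abs_lt] at h1
  have h2 : Real.cos (Real.pi / 4) ≤ Real.cos (-(1 / 2) * q.arg) := by
    rw [← Real.cos_abs (-(1 / 2) * q.arg)]
    apply Real.cos_le_cos_of_nonneg_of_le_pi (abs_nonneg _)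
    · linarith [Real.pi_pos]
    · rw [abs_le]
      constructor <;> linarith
  rw [Real.cos_pi_div_four] at h2
  have h3 : (1 : ℝ) ≤ √2 := Real.one_le_sqrt.2 (by norm_num)
  linarith

/-- a Phragmén–Lindelöf argument: Hölder estimates at a boundary point propagate inside -/
theorem PL {H : ℂ → ℂ} (hc : ContinuousOn H (closedBall 0 1))
    (hd : DifferentiableOn ℂ H (ball 0 1)) {ξ : ℂ} (hξ : ‖ξ‖ = 1) {K α : ℝ} (hK0 : 0 < K)
    (hK : ∀ x, ‖x‖ = 1 → ‖H x‖ ≤ K * ‖x - ξ‖ ^ α) {x₀ : ℂ} (hx₀ : ‖x₀‖ < 1) :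
    ‖H x₀‖ ≤ K * ‖x₀ - ξ‖ ^ α := by
  obtain ⟨S, hS⟩ := (isCompact_closedBall (0 : ℂ) 1).exists_bound_of_continuousOn hc
  have hx₀ξ : x₀ ≠ ξ := by
    rintro rfl
    linarith
  have hdist : 0 < ‖x₀ - ξ‖ := norm_pos_iff.2 (sub_ne_zero.2 hx₀ξ)
  obtain ⟨q, hq⟩ : ∃ q : ℂ → ℂ, q = fun x => 1 - x * ξ⁻¹ := ⟨_, rfl⟩
  obtain ⟨E, hE⟩ : ∃ E : ℂ → ℂ, E = fun x => Complex.exp (-(1 / 2 : ℂ) * Complex.log (q x)) :=
    ⟨_, rfl⟩
  -- the estimate for a fixed parameter
  have key : ∀ η : ℝ, 0 < η →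
      ‖H x₀‖ * (‖x₀ - ξ‖ ^ α)⁻¹ * Real.exp (-η * (E x₀).re) ≤ K := by
    intro η hη
    obtain ⟨f, hf⟩ : ∃ f : ℂ → ℂ, f = fun x => H x * Complex.exp (-(α : ℂ) * Complex.log (q x)) *
        Complex.exp (-(η : ℂ) * E x) := ⟨_, rfl⟩
    have hqne : ∀ x, x ≠ ξ → q x ≠ 0 := by
      intro x hx h
      have h1 : ‖q x‖ = ‖x - ξ‖ := by rw [hq]; exact norm_q hξ
      rw [h, norm_zero] at h1
      exact hx (sub_eq_zero.1 (norm_eq_zero.1 h1.symm))
    have hnorm : ∀ x, x ≠ ξ → ‖f x‖ = ‖H x‖ * (‖x - ξ‖ ^ α)⁻¹ * Real.exp (-η * (E x).re) := by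
      intro x hx
      rw [hf]
      simp only
      rw [norm_mul, norm_mul, norm_exp_log (hqne x hx), Complex.norm_exp (-(η : ℂ) * E x)]
      have e1 : ‖q x‖ = ‖x - ξ‖ := by rw [hq]; exact norm_q hξ
      have e2 : (-(η : ℂ) * E x).re = -η * (E x).re := by
        rw [← Complex.ofReal_neg, Complex.re_ofReal_mul]
      rw [e1, e2]
    have hEre : ∀ x, ‖x‖ ≤ 1 → x ≠ ξ → 1 / 2 * (√‖x - ξ‖)⁻¹ ≤ (E x).re := by
      intro x hx hne
      have h1 : 0 < (q x).re := by rw [hq]; exact re_q_pos hξ hx hne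
      have h2 := re_exp_log h1
      have e1 : ‖q x‖ = ‖x - ξ‖ := by rw [hq]; exact norm_q hξ
      rw [e1] at h2
      rw [hE]
      exact h2
    -- choice of the small radius
    have hlim : Tendsto (fun δ : ℝ => S * ((δ ^ α)⁻¹ * Real.exp (-η * (1 / 2 * (√δ)⁻¹))))
        (𝓝[>] 0) (𝓝 0) := by
      have h1 : Tendsto (fun t : ℝ => t ^ (2 * α) * Real.exp (-(η / 2) * t)) atTop (𝓝 0) :=
        tendsto_rpow_mul_exp_neg_mul_atTop_nhds_zero (2 * α) (η / 2) (by positivity)
      have h2 : Tendsto (fun δ : ℝ => (√δ)⁻¹) (𝓝[>] 0) atTop := by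
        apply Tendsto.inv_tendsto_nhdsGT_zero
        rw [tendsto_nhdsWithin_iff]
        constructor
        · have := (Real.continuous_sqrt.tendsto 0)
          rw [Real.sqrt_zero] at this
          exact this.mono_left nhdsWithin_le_nhds
        · filter_upwards [self_mem_nhdsWithin] with δ hδ using Real.sqrt_pos.2 hδ
      have h3 := (h1.comp h2).const_mul S
      rw [mul_zero] at h3
      refine h3.congr' ?_
      filter_upwards [self_mem_nhdsWithin] with δ hδ
      have hδ' : 0 < δ := hδ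
      simp only [Function.comp]
      congr 2
      · rw [Real.sqrt_eq_rpow, ← Real.rpow_neg hδ'.le, ← Real.rpow_mul hδ'.le,
          ← Real.rpow_neg hδ'.le]
        congr 1
        ring
      · congr 1
        ring
    obtain ⟨δ, hδ1, hδ3, hδ2⟩ := ((hlim.eventually (gt_mem_nhds hK0)).and
      (Ioo_mem_nhdsGT hdist)).exists
    -- the domain
    obtain ⟨U, hU⟩ : ∃ U : Set ℂ, U = ball (0 : ℂ) 1 ∩ (closedBall ξ δ)ᶜ := ⟨_, rfl⟩
    have hUo : IsOpen U := by
      rw [hU]
      exact isOpen_ball.inter isClosed_closedBall.isOpen_compl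
    have hUb : Bornology.IsBounded U := by
      rw [hU]
      exact isBounded_ball.subset inter_subset_left
    have hcl : closure U ⊆ {x | ‖x‖ ≤ 1 ∧ δ ≤ ‖x - ξ‖} := by
      apply closure_minimal
      · intro x hx
        rw [hU] at hx
        obtain ⟨h1, h2⟩ := hx
        rw [mem_ball_zero_iff] at h1
        rw [mem_compl_iff, mem_closedBall, dist_eq_norm, not_le] at h2
        exact ⟨h1.le, h2.le⟩
      · exact (isClosed_le continuous_norm continuous_const).inter
          (isClosed_le continuous_const (continuous_id.sub continuous_const).norm)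
    have hne : ∀ x ∈ closure U, x ≠ ξ := by
      intro x hx h
      have := (hcl hx).2
      rw [h, sub_self, norm_zero] at this
      linarith
    have hqc : Continuous q := by
      rw [hq]
      fun_prop
    have hqd : Differentiable ℂ q := by
      rw [hq]
      fun_prop
    have hslit : ∀ x ∈ closure U, q x ∈ slitPlane := by
      intro x hx
      left
      rw [hq]
      exact re_q_pos hξ (hcl hx).1 (hne x hx)
    have hfc : ContinuousOn f (closure U) := by
      rw [hf, hE]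
      have h1 : ContinuousOn (fun x => Complex.log (q x)) (closure U) :=
        hqc.continuousOn.clog hslit
      have h2 : ContinuousOn H (closure U) := hc.mono fun x hx => by
        rw [mem_closedBall_zero_iff]
        exact (hcl hx).1
      have h3 : ContinuousOn (fun x => Complex.exp (-(α : ℂ) * Complex.log (q x))) (closure U) :=
        (continuousOn_const.mul h1).cexp
      have h4 : ContinuousOn (fun x => Complex.exp (-(1 / 2 : ℂ) * Complex.log (q x)))
        (closure U) := (continuousOn_const.mul h1).cexp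
      exact (h2.mul h3).mul (continuousOn_const.mul h4).cexp
    have hfd : DifferentiableOn ℂ f U := by
      rw [hf, hE]
      have h1 : DifferentiableOn ℂ (fun x => Complex.log (q x)) U :=
        hqd.differentiableOn.clog fun x hx => hslit x (subset_closure hx)
      have h2 : DifferentiableOn ℂ H U := hd.mono fun x hx => by
        rw [hU] at hx
        exact hx.1
      have h3 : DifferentiableOn ℂ (fun x => Complex.exp (-(α : ℂ) * Complex.log (q x))) U :=
        ((differentiableOn_const _).mul h1).cexp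
      have h4 : DifferentiableOn ℂ (fun x => Complex.exp (-(1 / 2 : ℂ) * Complex.log (q x))) U :=
        ((differentiableOn_const _).mul h1).cexp
      exact (h2.mul h3).mul ((differentiableOn_const _).mul h4).cexp
    have hfr : ∀ x ∈ frontier U, ‖f x‖ ≤ K := by
      intro x hx
      rw [hUo.frontier_eq] at hx
      obtain ⟨hx1, hx2⟩ := hx
      have hxne := hne x hx1
      obtain ⟨h1, h2⟩ := hcl hx1
      rw [hnorm x hxne]
      have hpos : 0 < ‖x - ξ‖ := by linarith
      have hE0 := hEre x h1 hxne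
      have hE1 : Real.exp (-η * (E x).re) ≤ Real.exp (-η * (1 / 2 * (√‖x - ξ‖)⁻¹)) := by
        apply Real.exp_le_exp.2
        nlinarith
      have hE2 : Real.exp (-η * (E x).re) ≤ 1 := by
        rw [Real.exp_le_one_iff]
        have : 0 ≤ 1 / 2 * (√‖x - ξ‖)⁻¹ := by positivity
        nlinarith
      rcases lt_or_eq_of_le h1 with h3 | h3
      · have h4 : ‖x - ξ‖ = δ := by
          apply le_antisymm _ h2
          by_contra hcon
          push Not at hcon
          apply hx2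
          rw [hU]
          refine ⟨by rw [mem_ball_zero_iff]; exact h3, ?_⟩
          rw [mem_compl_iff, mem_closedBall, dist_eq_norm, not_le]
          exact hcon
        rw [h4] at hE1 ⊢
        refine le_trans ?_ hδ1.le
        rw [mul_assoc]
        have h5 := hS x (by rw [mem_closedBall_zero_iff]; exact h1)
        apply mul_le_mul h5 _ (by positivity) ((norm_nonneg _).trans h5)
        exact mul_le_mul_of_nonneg_left hE1 (by positivity)
      · have h4 := hK x h3
        have h5 : ‖H x‖ * (‖x - ξ‖ ^ α)⁻¹ ≤ K := by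
          rw [← div_eq_mul_inv, div_le_iff₀ (by positivity)]
          exact h4
        have h6 : ‖H x‖ * (‖x - ξ‖ ^ α)⁻¹ * Real.exp (-η * (E x).re) ≤ K * 1 :=
          mul_le_mul h5 hE2 (Real.exp_nonneg _) hK0.le
        rwa [mul_one] at h6
    have hx₀U : x₀ ∈ closure U := by
      apply subset_closure
      rw [hU]
      refine ⟨by rw [mem_ball_zero_iff]; exact hx₀, ?_⟩
      rw [mem_compl_iff, mem_closedBall, dist_eq_norm, not_le]
      exact hδ2
    have h1 := Complex.norm_le_of_forall_mem_frontier_norm_le hUb ⟨hfd, hfc⟩ hfr hx₀U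
    rwa [hnorm x₀ hx₀ξ] at h1
  -- let the parameter tend to zero
  have h1 : Tendsto (fun η : ℝ => ‖H x₀‖ * (‖x₀ - ξ‖ ^ α)⁻¹ * Real.exp (-η * (E x₀).re))
      (𝓝[>] 0) (𝓝 (‖H x₀‖ * (‖x₀ - ξ‖ ^ α)⁻¹ * Real.exp (-0 * (E x₀).re))) := by
    apply Tendsto.mono_left _ nhdsWithin_le_nhds
    apply Continuous.tendsto
    fun_prop
  rw [neg_zero, zero_mul, Real.exp_zero, mul_one] at h1
  have h2 : ‖H x₀‖ * (‖x₀ - ξ‖ ^ α)⁻¹ ≤ K := by
    apply le_of_tendsto h1
    filter_upwards [self_mem_nhdsWithin] with η hη using key η hη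
  rwa [← div_eq_mul_inv, div_le_iff₀ (by positivity)] at h2

end Pool.Agent.Y736.HL
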