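import Pool.Agent.Y736.HL7

set_option autoImplicit false

/-! # Hölder exponents of the boundary values of the exterior map -/

namespace Pool.Agent.Y736.HL

open Complex Metric Set Filter Topology Pool.Agent.H712R2 Pool.Agent.H713R2 N62a1eb23

/-- a Hölder estimate on the circle at one point gives a radial estimate -/
theorem radial {ψ F : ℂ → ℂ} (hψ : IsExteriorMap (multibrotSet 2) ψ)
    (hF : ContinuousOn F {z | 1 ≤ ‖z‖}) (hE : ∀ w, 1 < ‖w‖ → F w = ψ w) {ζ : ℂ} (hζ : ‖ζ‖ = 1)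
    {α K : ℝ} (hα : 0 < α) (hK : ∀ ξ : ℂ, ‖ξ‖ = 1 → ‖F ξ - F ζ‖ ≤ K * ‖ξ - ζ‖ ^ α) :
    ∃ K' : ℝ, 0 < K' ∧ ∀ r : ℝ, 1 < r → r ≤ 2 → ‖ψ (r * ζ) - F ζ‖ ≤ K' * (r - 1) ^ α := by
  obtain ⟨β, hβ⟩ := exists_beta (d := 2) le_rfl
  have hζ0 : ζ ≠ 0 := by
    rintro rfl
    rw [norm_zero] at hζ
    exact one_ne_zero hζ.symm
  obtain ⟨H, hH⟩ : ∃ H : ℂ → ℂ, H = fun x => if x = 0 then 1 else x * (F x⁻¹ - F ζ) := ⟨_, rfl⟩
  have hHb : ∀ x ∈ ball (0 : ℂ) 1, H x = β x - x * F ζ := by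
    intro x hx
    rw [hH]
    simp only
    by_cases hx0 : x = 0
    · rw [if_pos hx0, hx0, hβ.zero, zero_mul, sub_zero]
    · have h1 : 1 < ‖x⁻¹‖ := one_lt_norm_inv hx hx0
      rw [if_neg hx0, hE _ h1, exteriorMap_unique hβ hψ h1, inv_inv]
      field_simp
  have hd : DifferentiableOn ℂ H (ball 0 1) := by
    have h1 : DifferentiableOn ℂ (fun x => β x - x * F ζ) (ball 0 1) :=
      hβ.diff.sub (differentiableOn_id.mul_const _)
    exact h1.congr hHb
  have hc : ContinuousOn H (closedBall 0 1) := by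
    intro x hx
    rw [mem_closedBall_zero_iff] at hx
    rcases lt_or_eq_of_le hx with h | h
    · have h1 : x ∈ ball (0 : ℂ) 1 := by rw [mem_ball_zero_iff]; exact h
      exact (hd.differentiableAt (isOpen_ball.mem_nhds h1)).continuousAt.continuousWithinAt
    · have hx0 : x ≠ 0 := by
        rintro rfl
        rw [norm_zero] at h
        exact zero_ne_one h
      have h1 : ContinuousWithinAt (fun x => x * (F x⁻¹ - F ζ)) (closedBall 0 1) x := by
        apply continuousWithinAt_id.mul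
        apply ContinuousWithinAt.sub _ continuousWithinAt_const
        have h2 : ContinuousWithinAt F {z | 1 ≤ ‖z‖} x⁻¹ := hF x⁻¹ (by
          show 1 ≤ ‖x⁻¹‖
          rw [norm_inv, h, inv_one])
        have h3 : ContinuousWithinAt (fun x : ℂ => x⁻¹) (closedBall 0 1 ∩ {0}ᶜ) x :=
          (continuousAt_inv₀ hx0).continuousWithinAt
        have h4 : ContinuousWithinAt (fun x : ℂ => F x⁻¹) (closedBall 0 1 ∩ {0}ᶜ) x := by
          apply h2.comp h3
          intro y hy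
          obtain ⟨hy1, hy2⟩ := hy
          rw [mem_closedBall_zero_iff] at hy1
          have hy3 : 0 < ‖y‖ := norm_pos_iff.2 hy2
          show 1 ≤ ‖y⁻¹‖
          rw [norm_inv]
          exact (one_le_inv₀ hy3).2 hy1
        have h5 : {0}ᶜ ∈ 𝓝 x := isOpen_compl_singleton.mem_nhds hx0
        exact (continuousWithinAt_inter h5).1 h4
      refine h1.congr_of_eventuallyEq ?_ ?_
      · have h5 : {0}ᶜ ∈ 𝓝 x := isOpen_compl_singleton.mem_nhds hx0
        filter_upwards [mem_nhdsWithin_of_mem_nhds h5] with y hy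
        have hy' : y ≠ 0 := hy
        rw [hH]
        simp only
        rw [if_neg hy']
      · rw [hH]
        simp only
        rw [if_neg hx0]
  have hξ : ‖ζ⁻¹‖ = 1 := by rw [norm_inv, hζ, inv_one]
  have hcirc : ∀ x, ‖x‖ = 1 → ‖H x‖ ≤ (|K| + 1) * ‖x - ζ⁻¹‖ ^ α := by
    intro x hx
    have hx0 : x ≠ 0 := by
      rintro rfl
      rw [norm_zero] at hx
      exact zero_ne_one hx
    rw [hH]
    simp only
    rw [if_neg hx0, norm_mul, hx, one_mul]
    have h1 := hK x⁻¹ (by rw [norm_inv, hx, inv_one])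
    have h2 : ‖x⁻¹ - ζ‖ = ‖x - ζ⁻¹‖ := by
      have e : x⁻¹ - ζ = -(x⁻¹ * ζ * (x - ζ⁻¹)) := by
        field_simp
        ring
      rw [e, norm_neg, norm_mul, norm_mul, norm_inv, hx, hζ, inv_one, one_mul, one_mul]
    rw [h2] at h1
    refine h1.trans ?_
    apply mul_le_mul_of_nonneg_right _ (by positivity)
    linarith [le_abs_self K]
  refine ⟨2 * (|K| + 1), by positivity, ?_⟩
  intro r hr1 hr2
  have hr0 : (0 : ℝ) < r := by linarith
  have hrc : (r : ℂ) ≠ 0 := by exact_mod_cast hr0.ne'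
  obtain ⟨x, hx⟩ : ∃ x : ℂ, x = (r * ζ)⁻¹ := ⟨_, rfl⟩
  have hxn : ‖x‖ = r⁻¹ := by
    rw [hx, norm_inv, norm_mul, hζ, mul_one, Complex.norm_real, Real.norm_of_nonneg hr0.le]
  have hx1 : ‖x‖ < 1 := by
    rw [hxn]
    exact inv_lt_one_of_one_lt₀ hr1
  have hx0 : x ≠ 0 := by
    rw [hx]
    exact inv_ne_zero (mul_ne_zero hrc hζ0)
  have h1 := PL hc hd hξ (by positivity) hcirc hx1
  have h2 : H x = x * (ψ (r * ζ) - F ζ) := by
    rw [hH]
    simp only
    rw [if_neg hx0]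
    have e : x⁻¹ = r * ζ := by rw [hx, inv_inv]
    rw [e, hE]
    rw [norm_mul, hζ, mul_one, Complex.norm_real, Real.norm_of_nonneg hr0.le]
    exact hr1
  have h3 : ‖x - ζ⁻¹‖ = (r - 1) / r := by
    have e : x - ζ⁻¹ = -(((r - 1) / r : ℝ) : ℂ) * ζ⁻¹ := by
      rw [hx]
      push_cast
      field_simp
      ring
    rw [e, norm_mul, norm_neg, hξ, mul_one, Complex.norm_real, Real.norm_of_nonneg]
    exact div_nonneg (by linarith) hr0.le
  rw [h2, h3, norm_mul, hxn] at h1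
  have h4 : ((r - 1) / r) ^ α ≤ (r - 1) ^ α := by
    apply Real.rpow_le_rpow (div_nonneg (by linarith) hr0.le) _ hα.le
    exact div_le_self (by linarith) hr1.le
  have h5 : ‖ψ (r * ζ) - F ζ‖ ≤ r * ((|K| + 1) * ((r - 1) / r) ^ α) := by
    have := mul_le_mul_of_nonneg_left h1 hr0.le
    rw [← mul_assoc, mul_inv_cancel₀ hr0.ne', one_mul] at this
    exact this
  have h6 : 0 ≤ (r - 1) ^ α := Real.rpow_nonneg (by linarith) _
  have h7 : 0 ≤ |K| := abs_nonneg K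
  have h8 : r * ((|K| + 1) * ((r - 1) / r) ^ α) ≤ 2 * ((|K| + 1) * (r - 1) ^ α) := by
    apply mul_le_mul hr2 _ (by positivity) (by norm_num)
    exact mul_le_mul_of_nonneg_left h4 (by positivity)
  linarith

/-- comparison of two power laws -/
theorem exponent_le {C K s α : ℝ} (hC : 0 < C) (hK : 0 < K) (hs : 0 < s)
    {x : ℝ → ℝ} (hx0 : ∀ r, 1 < r → r ≤ 2 → 0 ≤ x r)
    (h1 : ∀ r, 1 < r → r ≤ 2 → r - 1 ≤ C * x r ^ s)
    (h2 : ∀ r, 1 < r → r ≤ 2 → x r ≤ K * (r - 1) ^ α) : α ≤ s⁻¹ := by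
  by_contra hcon
  push Not at hcon
  have h3 : 1 < α * s := by
    rw [inv_lt_iff_one_lt_mul₀ hs] at hcon
    linarith
  have h4 : ∀ t : ℝ, 0 < t → t ≤ 1 → 1 ≤ C * K ^ s * t ^ (α * s - 1) := by
    intro t ht ht1
    have h5 := h1 (1 + t) (by linarith) (by linarith)
    have h6 := h2 (1 + t) (by linarith) (by linarith)
    rw [add_sub_cancel_left] at h5 h6
    have h7 : x (1 + t) ^ s ≤ (K * t ^ α) ^ s :=
      Real.rpow_le_rpow (hx0 _ (by linarith) (by linarith)) h6 hs.le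
    rw [Real.mul_rpow hK.le (by positivity), ← Real.rpow_mul ht.le] at h7
    have h8 : t ≤ C * (K ^ s * t ^ (α * s)) := h5.trans (mul_le_mul_of_nonneg_left h7 hC.le)
    have h9 : t ^ (α * s) = t ^ (α * s - 1) * t := by
      rw [Real.rpow_sub_one ht.ne']
      field_simp
    rw [h9] at h8
    have h10 : 1 * t ≤ C * K ^ s * t ^ (α * s - 1) * t := by linarith
    exact le_of_mul_le_mul_right h10 ht
  have h5 : Tendsto (fun t : ℝ => C * K ^ s * t ^ (α * s - 1)) (𝓝[>] 0) (𝓝 (C * K ^ s * 0)) := by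
    apply Tendsto.const_mul
    have h6 : ContinuousAt (fun t : ℝ => t ^ (α * s - 1)) 0 :=
      Real.continuousAt_rpow_const 0 _ (Or.inr (by linarith))
    have h7 := h6.tendsto
    rw [Real.zero_rpow (by linarith)] at h7
    exact h7.mono_left nhdsWithin_le_nhds
  rw [mul_zero] at h5
  have h6 : (1 : ℝ) ≤ 0 := by
    apply ge_of_tendsto h5
    filter_upwards [Ioc_mem_nhdsGT (show (0 : ℝ) < 1 by norm_num)] with t ht using h4 t ht.1 ht.2
  linarith

/-- the Hölder exponent of the boundary values is at most `log L / log 2` -/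
theorem holder_le {c₀ : ℂ} (hc₀ : c₀ ∈ multibrotSet 2) {C L : ℝ} (hL : 1 < L) (hC : 0 < C)
    (hD : ∀ m n, m ≤ n → LL c₀ m n ≤ C * L ^ (n - m)) {ψ F : ℂ → ℂ}
    (hψ : IsExteriorMap (multibrotSet 2) ψ) (hF : ContinuousOn F {z | 1 ≤ ‖z‖})
    (hE : ∀ w, 1 < ‖w‖ → F w = ψ w) {ζ : ℂ} (hζ : ‖ζ‖ = 1) (hFζ : F ζ = c₀)
    {α K : ℝ} (hα : 0 < α) (hK : ∀ ξ : ℂ, ‖ξ‖ = 1 → ‖F ξ - F ζ‖ ≤ K * ‖ξ - ζ‖ ^ α) :
    α ≤ Real.log L / Real.log 2 := by
  obtain ⟨C', hC', h1⟩ := upper_pow hc₀ hL hC hD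
  obtain ⟨K', hK', h2⟩ := radial hψ hF hE hζ hα hK
  have hlogL : 0 < Real.log L := Real.log_pos hL
  have hlog2 : 0 < Real.log 2 := Real.log_pos (by norm_num)
  have h3 := exponent_le (x := fun r => ‖ψ (r * ζ) - c₀‖) hC' hK'
    (s := Real.log 2 / Real.log L) (α := α) (by positivity) (fun r _ _ => norm_nonneg _)
    (by
      intro r hr1 hr2
      have hr : ‖(r : ℂ) * ζ‖ = r := by
        rw [norm_mul, hζ, mul_one, Complex.norm_real, Real.norm_of_nonneg (by linarith)]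
      have h4 := h1 ψ hψ (r * ζ) (by rw [hr]; exact hr1) (by rw [hr]; exact hr2)
      rwa [hr] at h4)
    (by
      intro r hr1 hr2
      rw [← hFζ]
      exact h2 r hr1 hr2)
  rwa [inv_div] at h3

end Pool.Agent.Y736.HL
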