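import Pool.Agent.Y736.HL5

set_option autoImplicit false

/-! # Inverse branches of the iterates; attracting cycles attract the critical point -/

namespace Pool.Agent.Y736.ML

open Complex Metric Set Filter Topology Pool.Agent.H712R2 Pool.Agent.H713R2 N62a1eb23
open Pool.Agent.Y736.HL

theorem exists_sqrt {h : ℂ → ℂ} {u : ℂ} {δ : ℝ} (hδ : 0 < δ)
    (hh : DifferentiableOn ℂ h (ball u δ)) (h0 : ∀ z ∈ ball u δ, h z ≠ 0) :
    ∃ s : ℂ → ℂ, DifferentiableOn ℂ s (ball u δ) ∧ ∀ z ∈ ball u δ, s z ^ 2 = h z := by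
  have hδc : (δ : ℂ) ≠ 0 := by exact_mod_cast hδ.ne'
  have hmap : ∀ w ∈ ball (0 : ℂ) 1, u + δ * w ∈ ball u δ := by
    intro w hw
    rw [mem_ball_zero_iff] at hw
    rw [mem_ball_iff_norm, add_sub_cancel_left, norm_mul, Complex.norm_real, Real.norm_eq_abs,
      abs_of_pos hδ]
    nlinarith
  have hmap' : ∀ z ∈ ball u δ, (z - u) / δ ∈ ball (0 : ℂ) 1 := by
    intro z hz
    rw [mem_ball_iff_norm] at hz
    rw [mem_ball_zero_iff, norm_div, Complex.norm_real, Real.norm_eq_abs, abs_of_pos hδ,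
      div_lt_one hδ]
    exact hz
  have hg : DifferentiableOn ℂ (fun w => h (u + δ * w)) (ball 0 1) := by
    apply hh.comp _ hmap
    exact (differentiableOn_id.const_mul _).const_add _
  obtain ⟨g, hgd, hge⟩ := H113G.J_schottky.exists_log hg (fun w hw => h0 _ (hmap w hw))
  refine ⟨fun z => Complex.exp (g ((z - u) / δ) / 2), ?_, ?_⟩
  · apply DifferentiableOn.cexp
    apply DifferentiableOn.div_const
    apply hgd.comp _ hmap'
    exact (differentiableOn_id.sub_const _).div_const _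
  · intro z hz
    rw [← Complex.exp_nat_mul]
    have h1 := hge _ (hmap' z hz)
    have e : u + δ * ((z - u) / δ) = z := by field_simp; ring
    rw [e] at h1
    rw [← h1]
    congr 1
    push_cast
    ring

/-- inverse branches on balls which do not meet the critical orbit -/
theorem branch {c u₀ : ℂ} {δ : ℝ} (hδ : 0 < δ) (n : ℕ) :
    ∀ v₀ : ℂ, (fc 2 c)^[n] v₀ = u₀ → (∀ j, 1 ≤ j → j ≤ n → P 2 j c ∉ ball u₀ δ) →
    ∃ φ : ℂ → ℂ, DifferentiableOn ℂ φ (ball u₀ δ) ∧ φ u₀ = v₀ ∧
      ∀ u ∈ ball u₀ δ, (fc 2 c)^[n] (φ u) = u := by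
  induction n with
  | zero =>
    intro v₀ hv _
    exact ⟨fun z => z, differentiableOn_id, hv.symm, fun u _ => rfl⟩
  | succ n ih =>
    intro v₀ hv hcrit
    rw [Function.iterate_succ_apply] at hv
    obtain ⟨φ, hφ, hφ0, hφe⟩ := ih _ hv (fun j hj hjn => hcrit j hj (by omega))
    have hne : ∀ z ∈ ball u₀ δ, φ z - c ≠ 0 := by
      intro z hz h
      have h1 := hφe z hz
      rw [sub_eq_zero.1 h] at h1
      rw [iter_c le_rfl] at h1
      apply hcrit (n + 1) (by omega) le_rfl
      rw [h1]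
      exact hz
    obtain ⟨s, hs, hse⟩ := exists_sqrt hδ (hφ.sub_const c) hne
    have h0 : u₀ ∈ ball u₀ δ := mem_ball_self hδ
    have h1 : s u₀ ^ 2 = v₀ ^ 2 := by
      rw [hse u₀ h0, hφ0]
      show v₀ ^ 2 + c - c = v₀ ^ 2
      ring
    rcases sq_eq_sq_iff_eq_or_eq_neg.1 h1 with h2 | h2
    · refine ⟨s, hs, h2, ?_⟩
      intro u hu
      rw [Function.iterate_succ_apply]
      have e : fc 2 c (s u) = φ u := by
        show s u ^ 2 + c = φ u
        rw [hse u hu]
        ring
      rw [e]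
      exact hφe u hu
    · refine ⟨fun z => -s z, hs.neg, by show -s u₀ = v₀; rw [h2, neg_neg], ?_⟩
      intro u hu
      rw [Function.iterate_succ_apply]
      have e : fc 2 c (-s u) = φ u := by
        show (-s u) ^ 2 + c = φ u
        rw [neg_sq, hse u hu]
        ring
      rw [e]
      exact hφe u hu

/-- preimages of a large ball are in this ball -/
theorem norm_le_of_iter {c : ℂ} {R : ℝ} (hR : ‖c‖ + 2 ≤ R) (n : ℕ) :
    ∀ v : ℂ, ‖(fc 2 c)^[n] v‖ ≤ R → ‖v‖ ≤ R := by
  induction n with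
  | zero => intro v hv; exact hv
  | succ n ih =>
    intro v hv
    rw [Function.iterate_succ_apply] at hv
    have h1 := ih _ hv
    by_contra hcon
    push Not at hcon
    have h2 : ‖v ^ 2‖ ≤ ‖fc 2 c v‖ + ‖c‖ := by
      have h3 := norm_sub_le (fc 2 c v) c
      have e : fc 2 c v - c = v ^ 2 := by
        show v ^ 2 + c - c = v ^ 2
        ring
      rwa [e] at h3
    rw [norm_pow] at h2
    have hc := norm_nonneg c
    nlinarith

/-- **an attracting cycle attracts the critical point** -/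
theorem attracting {c z : ℂ} {N : ℕ} (hN : 1 ≤ N) (hfix : (fc 2 c)^[N] z = z)
    (hlt : ‖deriv ((fc 2 c)^[N]) z‖ < 1) :
    ∃ j, Tendsto (fun k => P 2 (j + N * k) c) atTop (𝓝 z) := by
  obtain ⟨g, hgdef⟩ : ∃ g, g = (fc 2 c)^[N] := ⟨_, rfl⟩
  have hg : Differentiable ℂ g := by rw [hgdef]; exact differentiable_iter c N
  rw [← hgdef] at hfix hlt
  obtain ⟨L, hL⟩ : ∃ L, L = ‖deriv g z‖ := ⟨_, rfl⟩
  have hL0 : 0 ≤ L := by rw [hL]; exact norm_nonneg _
  rw [← hL] at hlt
  -- contraction near `z`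
  obtain ⟨ε, hε, hcontr⟩ : ∃ ε > 0, ∀ w ∈ ball z ε, ‖g w - z‖ ≤ (L + 1) / 2 * ‖w - z‖ := by
    have h1 := (hg z).hasDerivAt
    rw [hasDerivAt_iff_isLittleO] at h1
    have h2 := h1.def (show 0 < (1 - L) / 2 by linarith)
    obtain ⟨ε, hε, h3⟩ := Metric.eventually_nhds_iff_ball.1 h2
    refine ⟨ε, hε, fun w hw => ?_⟩
    have h4 := h3 w hw
    rw [hfix] at h4
    have h5 := norm_add_le (g w - z - (w - z) • deriv g z) ((w - z) • deriv g z)
    rw [sub_add_cancel, norm_smul, ← hL] at h5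
    nlinarith [norm_nonneg (w - z)]
  have hiter : ∀ w ∈ ball z ε, ∀ k, ‖g^[k] w - z‖ ≤ ((L + 1) / 2) ^ k * ‖w - z‖ ∧
      g^[k] w ∈ ball z ε := by
    intro w hw k
    induction k with
    | zero => simpa using hw
    | succ k ih =>
      rw [Function.iterate_succ_apply']
      have h1 := hcontr _ ih.2
      have h2 : 0 ≤ (L + 1) / 2 := by linarith
      have h3 : (L + 1) / 2 * ‖g^[k] w - z‖ ≤ (L + 1) / 2 * (((L + 1) / 2) ^ k * ‖w - z‖) :=
        mul_le_mul_of_nonneg_left ih.1 h2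
      refine ⟨by rw [pow_succ]; linarith, ?_⟩
      have h4 := ih.2
      rw [mem_ball_iff_norm] at h4 ⊢
      nlinarith [norm_nonneg (g^[k] w - z)]
  -- the critical orbit enters the ball
  obtain ⟨j, hj⟩ : ∃ j, P 2 j c ∈ ball z ε := by
    by_contra hcon
    push Not at hcon
    obtain ⟨R, hR⟩ : ∃ R, R = max (‖c‖ + 2) (‖z‖ + ε) := ⟨_, rfl⟩
    have hR1 : ‖c‖ + 2 ≤ R := by rw [hR]; exact le_max_left _ _
    have hR2 : ‖z‖ + ε ≤ R := by rw [hR]; exact le_max_right _ _
    have hR0 : 0 < R := by linarith [norm_nonneg c]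
    have key : ∀ k : ℕ, 1 ≤ L ^ k * (2 * R / ε) := by
      intro k
      have hfk : (fc 2 c)^[N * k] z = z := by
        rw [Function.iterate_mul, ← hgdef]
        exact Function.iterate_fixed hfix k
      obtain ⟨φ, hφ, hφ0, hφe⟩ := branch hε (N * k) z hfk (fun j _ _ => hcon j)
      have hz : z ∈ ball z ε := mem_ball_self hε
      have hb : MapsTo φ (ball z ε) (closedBall (φ z) (2 * R)) := by
        intro w hw
        have h1 : ‖φ w‖ ≤ R := by
          apply norm_le_of_iter hR1 (N * k)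
          rw [hφe w hw]
          rw [mem_ball_iff_norm] at hw
          have := norm_add_le (w - z) z
          rw [sub_add_cancel] at this
          linarith
        have h2 : ‖φ z‖ ≤ R := by
          rw [hφ0]
          linarith
        rw [mem_closedBall, dist_eq_norm]
        have := norm_sub_le (φ w) (φ z)
        linarith
      have h1 : ‖deriv φ z‖ ≤ 2 * R / ε :=
        Complex.norm_deriv_le_div_of_mapsTo_ball hφ hb hε
      have h2 : HasDerivAt φ (deriv φ z) z := (hφ.differentiableAt (isOpen_ball.mem_nhds hz)).hasDerivAt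
      have h3 : HasDerivAt ((fc 2 c)^[N * k]) (deriv g z ^ k) z := by
        rw [Function.iterate_mul, ← hgdef]
        exact HasDerivAt.iterate z (hg z).hasDerivAt hfix k
      have h4 : HasDerivAt (fun w => (fc 2 c)^[N * k] (φ w)) (deriv g z ^ k * deriv φ z) z := by
        have h5 : HasDerivAt ((fc 2 c)^[N * k]) (deriv g z ^ k) (φ z) := by rw [hφ0]; exact h3
        exact h5.comp z h2
      have h5 : HasDerivAt (fun w => (fc 2 c)^[N * k] (φ w)) 1 z := by
        refine (hasDerivAt_id z).congr_of_eventuallyEq ?_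
        filter_upwards [isOpen_ball.mem_nhds hz] with w hw using hφe w hw
      have h6 := h4.unique h5
      have h7 : ‖deriv g z ^ k * deriv φ z‖ = 1 := by rw [h6, norm_one]
      rw [norm_mul, norm_pow, ← hL] at h7
      rw [← h7]
      exact mul_le_mul_of_nonneg_left h1 (by positivity)
    have h1 : Tendsto (fun k : ℕ => L ^ k * (2 * R / ε)) atTop (𝓝 (0 * (2 * R / ε))) :=
      (tendsto_pow_atTop_nhds_zero_of_lt_one hL0 hlt).mul_const _
    rw [zero_mul] at h1
    have h2 := ge_of_tendsto' h1 key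
    linarith
  refine ⟨j, ?_⟩
  rw [tendsto_iff_norm_sub_tendsto_zero]
  have h1 : Tendsto (fun k : ℕ => ((L + 1) / 2) ^ k * ‖P 2 j c - z‖) atTop
      (𝓝 (0 * ‖P 2 j c - z‖)) :=
    (tendsto_pow_atTop_nhds_zero_of_lt_one (by linarith) (by linarith)).mul_const _
  rw [zero_mul] at h1
  refine squeeze_zero (fun k => norm_nonneg _) (fun k => ?_) h1
  have h2 := (hiter _ hj k).1
  have e : g^[k] (P 2 j c) = P 2 (j + N * k) c := by
    rw [hgdef, ← Function.iterate_mul, iter_P]
  rwa [e] at h2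

/-- a parameter with an attracting cycle is in the Mandelbrot set -/
theorem mem_of_tendsto {c z : ℂ} {N j : ℕ} (hN : 1 ≤ N)
    (h : Tendsto (fun k => P 2 (j + N * k) c) atTop (𝓝 z)) : c ∈ multibrotSet 2 := by
  intro ht
  have ht' : Tendsto (fun k => P 2 k c) atTop (Bornology.cobounded ℂ) := ht
  have h1 : Tendsto (fun k => j + N * k) atTop atTop := by
    apply tendsto_atTop_mono (f := fun k => k) _ tendsto_id
    intro k
    nlinarith
  have h2 := ht'.comp h1
  have h3 := h.norm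
  rw [← tendsto_norm_atTop_iff_cobounded] at h2
  exact not_tendsto_nhds_of_tendsto_atTop h2 _ h3

end Pool.Agent.Y736.ML
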