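import Pool.Agent.Y736.ML1

set_option autoImplicit false

/-! # Attracting petals of a parabolic fixed point -/

namespace Pool.Agent.Y736.ML

open Complex Metric Set Filter Topology Pool.Agent.H712R2 Pool.Agent.H713R2 N62a1eb23
open Pool.Agent.Y736.HL

/-- the coordinate in which the map is close to the translation by `1` -/
noncomputable def W (A : ℂ) (ν : ℕ) (u : ℂ) : ℂ := (A * u ^ ν)⁻¹

theorem W_mul (A : ℂ) (ν : ℕ) (u r : ℂ) : W A ν (u * r) = W A ν u * (r ^ ν)⁻¹ := by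
  unfold W
  rw [mul_pow, ← mul_assoc, mul_inv]

theorem hasDerivAt_phi (ν : ℕ) : HasDerivAt (fun s : ℂ => ((1 + s) ^ ν)⁻¹) (-(ν : ℂ)) 0 := by
  have h1 : HasDerivAt (fun s : ℂ => (1 + s) ^ ν) ((ν : ℂ) * (1 + 0) ^ (ν - 1) * 1) 0 :=
    ((hasDerivAt_id (0 : ℂ)).const_add 1).pow ν
  have h2 := h1.inv (by simp)
  simp only [add_zero, one_pow, mul_one, div_one] at h2
  exact h2

theorem kappa {ν : ℕ} (hν : 1 ≤ ν) : ∃ κ : ℝ, 0 < κ ∧ κ ≤ 1 / 2 ∧ ∀ t : ℂ, ‖t‖ ≤ κ →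
    ‖((1 + t) ^ ν)⁻¹ - 1‖ ≤ 1 / 4 ∧ ‖t‖ ≤ 2 * ‖((1 + t) ^ ν)⁻¹ - 1‖ ∧
    ‖((1 + t) ^ ν)⁻¹ - 1‖ ≤ 2 * ν * ‖t‖ := by
  have h1 := hasDerivAt_phi ν
  rw [hasDerivAt_iff_isLittleO] at h1
  have h2 := h1.def (show (0 : ℝ) < 1 / 2 by norm_num)
  obtain ⟨ε, hε, h3⟩ := Metric.eventually_nhds_iff_ball.1 h2
  have hνR : (1 : ℝ) ≤ ν := by exact_mod_cast hν
  refine ⟨min (ε / 2) (1 / (8 * ν)), by positivity, ?_, ?_⟩
  · refine (min_le_right _ _).trans ?_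
    rw [div_le_div_iff₀ (by positivity) (by norm_num)]
    linarith
  · intro t ht
    have ht1 : ‖t‖ < ε := by
      have := ht.trans (min_le_left _ _)
      linarith
    have ht2 : ‖t‖ ≤ 1 / (8 * ν) := ht.trans (min_le_right _ _)
    have h4 := h3 t (by rw [mem_ball_zero_iff]; exact ht1)
    simp only [sub_zero, add_zero, one_pow, inv_one, smul_eq_mul] at h4
    have e : ((1 + t) ^ ν)⁻¹ - 1 = (((1 + t) ^ ν)⁻¹ - 1 - t * -(ν : ℂ)) + t * -(ν : ℂ) := by ring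
    have h5 : ‖t * -(ν : ℂ)‖ = ν * ‖t‖ := by
      rw [norm_mul, norm_neg, Complex.norm_natCast, mul_comm]
    have h6 : ‖((1 + t) ^ ν)⁻¹ - 1‖ ≤ 1 / 2 * ‖t‖ + ν * ‖t‖ := by
      rw [e, ← h5]
      exact (norm_add_le _ _).trans (add_le_add_left h4 _)
    have h7 : ν * ‖t‖ - 1 / 2 * ‖t‖ ≤ ‖((1 + t) ^ ν)⁻¹ - 1‖ := by
      have h8 := norm_sub_norm_le (t * -(ν : ℂ)) (-(((1 + t) ^ ν)⁻¹ - 1 - t * -(ν : ℂ)))
      rw [norm_neg, h5] at h8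
      have e2 : t * -(ν : ℂ) - -(((1 + t) ^ ν)⁻¹ - 1 - t * -(ν : ℂ)) = ((1 + t) ^ ν)⁻¹ - 1 := by ring
      rw [e2] at h8
      linarith
    have h0 := norm_nonneg t
    have h8 : ‖t‖ ≤ ν * ‖t‖ := by nlinarith
    refine ⟨?_, by linarith, by nlinarith⟩
    rw [le_div_iff₀ (by positivity)] at ht2
    nlinarith

theorem local_facts {g : ℂ → ℂ} {z₀ : ℂ} {ν : ℕ} {a : ℂ → ℂ} (hν : 1 ≤ ν)
    (ha : AnalyticAt ℂ a 0) (ha0 : a 0 ≠ 0)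
    (hev : ∀ᶠ u in 𝓝 (0 : ℂ), g (z₀ + u) = z₀ + u + u ^ (ν + 1) * a u)
    {A : ℂ} (hA : A = -(ν : ℂ) * a 0) {η σ : ℝ} (hη : 0 < η) (hσ : 0 < σ) :
    ∃ δ : ℝ, 0 < δ ∧ ∀ u : ℂ, u ≠ 0 → ‖u‖ < δ → g (z₀ + u) = z₀ + u * (1 + u ^ ν * a u) ∧
      ‖u ^ ν * a u‖ ≤ σ ∧ ‖a u‖ ≤ 2 * ‖a 0‖ ∧
      ‖W A ν (u * (1 + u ^ ν * a u)) - W A ν u - 1‖ ≤ η := by
  have hν0 : ν ≠ 0 := by omega
  have hνC : (ν : ℂ) ≠ 0 := Nat.cast_ne_zero.2 hν0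
  have hA0 : A ≠ 0 := by rw [hA]; exact mul_ne_zero (neg_ne_zero.2 hνC) ha0
  have hpos : 0 < ‖a 0‖ := norm_pos_iff.2 ha0
  have hac : Tendsto a (𝓝 0) (𝓝 (a 0)) := ha.continuousAt.tendsto
  have h1 : ∀ᶠ u in 𝓝 (0 : ℂ), ‖a u‖ ≤ 2 * ‖a 0‖ := by
    filter_upwards [hac.norm.eventually (gt_mem_nhds (show ‖a 0‖ < 2 * ‖a 0‖ by linarith))] with u hu
      using hu.le
  have hs : Tendsto (fun u : ℂ => u ^ ν * a u) (𝓝 0) (𝓝 0) := by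
    have := ((continuous_pow ν).tendsto (0 : ℂ)).mul hac
    rwa [zero_pow hν0, zero_mul] at this
  have h2 : ∀ᶠ u in 𝓝 (0 : ℂ), ‖u ^ ν * a u‖ ≤ σ := by
    have h8 := hs.norm
    rw [norm_zero] at h8
    filter_upwards [h8.eventually (gt_mem_nhds hσ)] with u hu using hu.le
  have hane : ∀ᶠ u in 𝓝[≠] (0 : ℂ), a u ≠ 0 := (hac.eventually_ne ha0).filter_mono nhdsWithin_le_nhds
  have hs1 : Tendsto (fun u : ℂ => u ^ ν * a u) (𝓝[≠] 0) (𝓝[≠] 0) := by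
    rw [tendsto_nhdsWithin_iff]
    refine ⟨hs.mono_left nhdsWithin_le_nhds, ?_⟩
    filter_upwards [hane, self_mem_nhdsWithin] with u hu1 hu2
    exact mul_ne_zero (pow_ne_zero _ hu2) hu1
  have hslope := hasDerivAt_iff_tendsto_slope_zero.1 (hasDerivAt_phi ν)
  have h3 := hslope.comp hs1
  have h4 : Tendsto (fun u => a u / A * (((u ^ ν * a u)⁻¹ *
      (((1 + u ^ ν * a u) ^ ν)⁻¹ - 1))) - 1) (𝓝[≠] 0) (𝓝 0) := by
    have h5 := (((hac.mono_left nhdsWithin_le_nhds).div_const A).mul h3).sub_const 1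
    have e : a 0 / A * -(ν : ℂ) - 1 = 0 := by
      rw [hA]
      field_simp
      ring
    rw [e] at h5
    refine h5.congr fun u => ?_
    simp only [Function.comp, zero_add, add_zero, one_pow, inv_one, smul_eq_mul]
  have h5 : ∀ᶠ u in 𝓝[≠] (0 : ℂ), ‖W A ν (u * (1 + u ^ ν * a u)) - W A ν u - 1‖ ≤ η := by
    have h6 := h4.norm
    rw [norm_zero] at h6
    filter_upwards [h6.eventually (gt_mem_nhds hη), hane, self_mem_nhdsWithin] with u hu hu1 hu2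
    refine le_trans (le_of_eq ?_) hu.le
    congr 2
    rw [W_mul]
    unfold W
    have hu3 : u ^ ν ≠ 0 := pow_ne_zero _ hu2
    field_simp
  rw [eventually_nhdsWithin_iff] at h5
  obtain ⟨δ, hδ, h6⟩ := Metric.eventually_nhds_iff_ball.1 (((hev.and h1).and h2).and h5)
  refine ⟨δ, hδ, fun u hu0 hu => ?_⟩
  obtain ⟨⟨⟨h7, h8⟩, h9⟩, h10⟩ := h6 u (by rw [mem_ball_zero_iff]; exact hu)
  refine ⟨?_, h9, h8, h10 hu0⟩
  rw [h7]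
  ring

/-- the shifted orbit -/
def Vo (g : ℂ → ℂ) (z₀ v : ℂ) (k : ℕ) : ℂ := g^[k] (z₀ + v) - z₀

theorem Vo_zero (g : ℂ → ℂ) (z₀ v : ℂ) : Vo g z₀ v 0 = v := by simp [Vo]

theorem Vo_add (g : ℂ → ℂ) (z₀ v : ℂ) (k : ℕ) : z₀ + Vo g z₀ v k = g^[k] (z₀ + v) := by
  unfold Vo
  ring

theorem Vo_succ (g : ℂ → ℂ) (z₀ v : ℂ) (k : ℕ) :
    Vo g z₀ v (k + 1) = g (z₀ + Vo g z₀ v k) - z₀ := by
  rw [Vo_add]
  unfold Vo
  rw [Function.iterate_succ_apply']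

/-- the data of a petal -/
structure Petal (g : ℂ → ℂ) (z₀ : ℂ) (ν : ℕ) (a : ℂ → ℂ) (A : ℂ) (η σ R : ℝ) : Prop where
  hν : 1 ≤ ν
  hA : A ≠ 0
  hη : 0 < η
  hη4 : η ≤ 1 / 4
  hR : 0 < R
  loc : ∀ u : ℂ, R < (W A ν u).re → u ≠ 0 ∧ g (z₀ + u) = z₀ + u * (1 + u ^ ν * a u) ∧
      ‖u ^ ν * a u‖ ≤ σ ∧ ‖a u‖ ≤ 2 * ‖a 0‖ ∧
      ‖W A ν (u * (1 + u ^ ν * a u)) - W A ν u - 1‖ ≤ η

theorem exists_petal {g : ℂ → ℂ} {z₀ : ℂ} {ν : ℕ} {a : ℂ → ℂ} (hν : 1 ≤ ν)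
    (ha : AnalyticAt ℂ a 0) (ha0 : a 0 ≠ 0)
    (hev : ∀ᶠ u in 𝓝 (0 : ℂ), g (z₀ + u) = z₀ + u + u ^ (ν + 1) * a u)
    {A : ℂ} (hA : A = -(ν : ℂ) * a 0) {η σ : ℝ} (hη : 0 < η) (hη4 : η ≤ 1 / 4) (hσ : 0 < σ) :
    ∃ R : ℝ, Petal g z₀ ν a A η σ R := by
  have hν0 : ν ≠ 0 := by omega
  have hνC : (ν : ℂ) ≠ 0 := Nat.cast_ne_zero.2 hν0
  have hA0 : A ≠ 0 := by rw [hA]; exact mul_ne_zero (neg_ne_zero.2 hνC) ha0
  have hAn : 0 < ‖A‖ := norm_pos_iff.2 hA0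
  obtain ⟨δ, hδ, hloc⟩ := local_facts hν ha ha0 hev hA hη hσ
  refine ⟨1 / (‖A‖ * δ ^ ν), hν, hA0, hη, hη4, by positivity, ?_⟩
  intro u hu
  have h1 : 1 / (‖A‖ * δ ^ ν) < ‖W A ν u‖ := hu.trans_le (Complex.re_le_norm _)
  have hu0 : u ≠ 0 := by
    rintro rfl
    unfold W at h1
    rw [zero_pow hν0, mul_zero, inv_zero, norm_zero] at h1
    have : 0 < 1 / (‖A‖ * δ ^ ν) := by positivity
    linarith
  have hun : 0 < ‖u‖ := norm_pos_iff.2 hu0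
  have h2 : ‖u‖ < δ := by
    unfold W at h1
    rw [norm_inv, norm_mul, norm_pow, one_div] at h1
    have h3 := (inv_lt_inv₀ (by positivity) (by positivity)).1 h1
    have h4 : ‖u‖ ^ ν < δ ^ ν := lt_of_mul_lt_mul_left h3 hAn.le
    exact lt_of_pow_lt_pow_left₀ ν hδ.le h4
  exact ⟨hu0, hloc u hu0 h2⟩

namespace Petal

variable {g : ℂ → ℂ} {z₀ : ℂ} {ν : ℕ} {a : ℂ → ℂ} {A : ℂ} {η σ R : ℝ}

theorem step (p : Petal g z₀ ν a A η σ R) {v : ℂ} (k : ℕ)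
    (hv : R < (W A ν (Vo g z₀ v k)).re) :
    Vo g z₀ v (k + 1) = Vo g z₀ v k * (1 + Vo g z₀ v k ^ ν * a (Vo g z₀ v k)) := by
  rw [Vo_succ, (p.loc _ hv).2.1]
  ring

theorem orbit (p : Petal g z₀ ν a A η σ R) {v : ℂ} (hv : R < (W A ν v).re) (k : ℕ) :
    R < (W A ν (Vo g z₀ v k)).re ∧ ‖W A ν (Vo g z₀ v k) - W A ν v - k‖ ≤ η * k := by
  induction k with
  | zero =>
    rw [Vo_zero]
    refine ⟨hv, ?_⟩
    simp
  | succ k ih =>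
    obtain ⟨h1, h2⟩ := ih
    have h3 := (p.loc _ h1).2.2.2.2
    rw [← p.step k h1] at h3
    have h4 : |(W A ν (Vo g z₀ v (k + 1)) - W A ν (Vo g z₀ v k) - 1).re| ≤ η :=
      (Complex.abs_re_le_norm _).trans h3
    rw [abs_le, sub_re, sub_re, one_re] at h4
    refine ⟨by linarith [p.hη4], ?_⟩
    have e : W A ν (Vo g z₀ v (k + 1)) - W A ν v - ((k + 1 : ℕ) : ℂ) =
        (W A ν (Vo g z₀ v (k + 1)) - W A ν (Vo g z₀ v k) - 1) +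
        (W A ν (Vo g z₀ v k) - W A ν v - k) := by
      push_cast
      ring
    rw [e]
    have h5 := norm_add_le (W A ν (Vo g z₀ v (k + 1)) - W A ν (Vo g z₀ v k) - 1)
      (W A ν (Vo g z₀ v k) - W A ν v - k)
    push_cast
    linarith

theorem norm_pow_Vo (p : Petal g z₀ ν a A η σ R) {v : ℂ} (hv : R < (W A ν v).re) :
    Tendsto (fun k => ‖Vo g z₀ v k‖ ^ ν) atTop (𝓝 0) := by
  have hAn : 0 < ‖A‖ := norm_pos_iff.2 p.hA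
  have h1 : ∀ k : ℕ, 3 / 4 * (k : ℝ) - ‖W A ν v‖ ≤ ‖W A ν (Vo g z₀ v k)‖ := by
    intro k
    have h2 := (p.orbit hv k).2
    have h3 := norm_sub_norm_le (k : ℂ) (-(W A ν (Vo g z₀ v k) - W A ν v - k) )
    have e : (k : ℂ) - -(W A ν (Vo g z₀ v k) - W A ν v - k) = W A ν (Vo g z₀ v k) - W A ν v := by
      ring
    rw [e, norm_neg, Complex.norm_natCast] at h3
    have h4 := norm_sub_le (W A ν (Vo g z₀ v k)) (W A ν v)
    have h5 : η * k ≤ 1 / 4 * k := mul_le_mul_of_nonneg_right p.hη4 (Nat.cast_nonneg k)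
    linarith
  have h2 : Tendsto (fun k : ℕ => ‖W A ν (Vo g z₀ v k)‖) atTop atTop := by
    apply tendsto_atTop_mono h1
    apply tendsto_atTop_add_const_right
    exact Tendsto.const_mul_atTop (by norm_num) tendsto_natCast_atTop_atTop
  have h3 := (h2.inv_tendsto_atTop).const_mul (‖A‖⁻¹)
  rw [mul_zero] at h3
  refine h3.congr fun k => ?_
  simp only [Pi.inv_apply]
  unfold W
  rw [norm_inv, inv_inv, norm_mul, norm_pow, ← mul_assoc, inv_mul_cancel₀ hAn.ne', one_mul]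

theorem tendsto_Vo (p : Petal g z₀ ν a A η σ R) {v : ℂ} (hv : R < (W A ν v).re) :
    Tendsto (fun k => Vo g z₀ v k) atTop (𝓝 0) := by
  rw [tendsto_zero_iff_norm_tendsto_zero]
  have hν0 : ν ≠ 0 := by have := p.hν; omega
  have hνR : (0 : ℝ) < ν := Nat.cast_pos.2 (by omega)
  have h1 : ContinuousAt (fun x : ℝ => x ^ (1 / (ν : ℝ))) 0 :=
    Real.continuousAt_rpow_const 0 _ (Or.inr (by positivity))
  have h2 := h1.tendsto.comp (p.norm_pow_Vo hv)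
  rw [Real.zero_rpow (by positivity)] at h2
  refine h2.congr fun k => ?_
  simp only [Function.comp]
  rw [one_div, Real.pow_rpow_inv_natCast (norm_nonneg _) hν0]

theorem tendsto_iter (p : Petal g z₀ ν a A η σ R) {v : ℂ} (hv : R < (W A ν v).re) :
    Tendsto (fun k => g^[k] (z₀ + v)) atTop (𝓝 z₀) := by
  have h1 := (p.tendsto_Vo hv).const_add z₀
  rw [add_zero] at h1
  exact h1.congr fun k => Vo_add g z₀ v k

end Petal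

end Pool.Agent.Y736.ML
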