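import Pool.Agent.Y736.ML3
import Pool.Agent.Y736.ML1
import Pool.Agent.Y736.HL5

set_option autoImplicit false

/-! # Fatou's theorem: a parabolic cycle attracts the critical point (the final argument) -/

namespace Pool.Agent.Y736.ML

open Complex Metric Set Filter Topology Pool.Agent.H712R2 Pool.Agent.H713R2 N62a1eb23
open Pool.Agent.Y736.HL

/-- the inverse branch along the orbit of `u₀` maps the next point to the first iterate -/
theorem branch_next {c z₀ : ℂ} {N : ℕ} {g : ℂ → ℂ} (hgdef : g = (fc 2 c)^[N])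
    {ν : ℕ} {a : ℂ → ℂ} {A : ℂ} {κ R w₀ : ℝ} {u₀ : ℂ} (ha0 : a 0 ≠ 0)
    (s : Start g z₀ ν a A κ R w₀ u₀) (k : ℕ)
    (hcrit : ∀ j, 1 ≤ j → P 2 j c ∉ ball (z₀ + Vo g z₀ u₀ k) (κ * ‖Vo g z₀ u₀ k‖)) :
    ∃ φ : ℂ → ℂ, DifferentiableOn ℂ φ (ball (z₀ + Vo g z₀ u₀ k) (κ * ‖Vo g z₀ u₀ k‖)) ∧
      φ (z₀ + Vo g z₀ u₀ k) = z₀ + u₀ ∧
      φ (z₀ + Vo g z₀ u₀ (k + 1)) = z₀ + Vo g z₀ u₀ 1 ∧
      z₀ + Vo g z₀ u₀ (k + 1) ∈ ball (z₀ + Vo g z₀ u₀ k) (κ * ‖Vo g z₀ u₀ k‖) ∧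
      ∀ u ∈ ball (z₀ + Vo g z₀ u₀ k) (κ * ‖Vo g z₀ u₀ k‖), (fc 2 c)^[N * k] (φ u) = u := by
  have hg : Differentiable ℂ g := by rw [hgdef]; exact differentiable_iter c N
  have hgk : g^[k] = (fc 2 c)^[N * k] := by
    rw [hgdef, Function.iterate_mul]
  have hgkd : Differentiable ℂ (g^[k]) := Differentiable.iterate hg k
  obtain ⟨U, hU⟩ : ∃ U : ℕ → ℂ, U = fun k => Vo g z₀ u₀ k := ⟨_, rfl⟩
  have hUk : ∀ k, Vo g z₀ u₀ k = U k := fun k => by rw [hU]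
  obtain ⟨hst, hsn, hne⟩ := s.first ha0
  rw [hUk] at hcrit hne ⊢
  rw [hUk, hUk]
  have hUpos : 0 < ‖U k‖ := by
    rw [← hUk]
    exact norm_pos_iff.2 (s.uk_ne k)
  have hδ : 0 < κ * ‖U k‖ := mul_pos s.κ0 hUpos
  have hstart : (fc 2 c)^[N * k] (z₀ + u₀) = z₀ + U k := by
    rw [← hgk, ← hUk, Vo_add]
  obtain ⟨φ, hφd, hφ0, hφe⟩ := branch hδ (N * k) (z₀ + u₀) hstart (fun j hj _ => hcrit j hj)
  obtain ⟨r, hr⟩ : ∃ r, r = 2 * ‖U 1 - u₀‖ := ⟨_, rfl⟩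
  have hd1 : 0 < ‖U 1 - u₀‖ := norm_pos_iff.2 (sub_ne_zero.2 hne)
  have hr0 : 0 < r := by rw [hr]; linarith
  -- the map into the disc
  have hmaps : ∀ v ∈ ball u₀ r, g^[k] (z₀ + v) ∈ ball (z₀ + U k) (κ * ‖U k‖) := by
    intro v hv
    rw [mem_ball_iff_norm, hr, ← hUk] at hv
    have h1 := (s.ratio ha0 hv k).2
    rw [hUk] at h1
    rw [← Vo_add, mem_ball_iff_norm, add_sub_add_left_eq_sub]
    have hUk0 : U k ≠ 0 := norm_pos_iff.1 hUpos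
    have e : Vo g z₀ v k - U k = (Vo g z₀ v k / U k - 1) * U k := by
      field_simp
    rw [e, norm_mul]
    have := s.κ0
    nlinarith
  have hu0mem : u₀ ∈ ball u₀ r := mem_ball_self hr0
  have hcenter : z₀ + U k ∈ ball (z₀ + U k) (κ * ‖U k‖) := mem_ball_self hδ
  -- the derivative is not zero
  have hderne : deriv (g^[k]) (z₀ + u₀) ≠ 0 := by
    intro h0
    have h1 : HasDerivAt φ (deriv φ (z₀ + U k)) (z₀ + U k) :=
      ((hφd _ hcenter).differentiableAt (isOpen_ball.mem_nhds hcenter)).hasDerivAt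
    have h2 : HasDerivAt (g^[k]) (deriv (g^[k]) (z₀ + u₀)) (φ (z₀ + U k)) := by
      rw [hφ0]
      exact (hgkd _).hasDerivAt
    have h3 := h2.comp (z₀ + U k) h1
    rw [h0, zero_mul] at h3
    have h4 : HasDerivAt (g^[k] ∘ φ) 1 (z₀ + U k) := by
      refine (hasDerivAt_id (z₀ + U k)).congr_of_eventuallyEq ?_
      filter_upwards [isOpen_ball.mem_nhds hcenter] with u hu
      rw [Function.comp_apply, hgk, hφe u hu]
      rfl
    exact one_ne_zero (h4.unique h3)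
  -- the composition
  obtain ⟨Ψ, hΨ⟩ : ∃ Ψ : ℂ → ℂ, Ψ = fun v => φ (g^[k] (z₀ + v)) := ⟨_, rfl⟩
  have hinner : Differentiable ℂ (fun v => g^[k] (z₀ + v)) :=
    hgkd.comp (differentiable_id.const_add z₀)
  have hΨd : DifferentiableOn ℂ Ψ (ball u₀ r) := by
    rw [hΨ]
    exact hφd.comp hinner.differentiableOn hmaps
  have hgu0 : g^[k] (z₀ + u₀) = z₀ + U k := by rw [hgk]; exact hstart
  have hΨ0 : Ψ u₀ = z₀ + u₀ := by
    rw [hΨ]
    simp only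
    rw [hgu0, hφ0]
  have hev1 : ∀ᶠ v in 𝓝 u₀, Ψ v = z₀ + v := by
    have hstrict : HasStrictDerivAt (g^[k]) (deriv (g^[k]) (z₀ + u₀)) (z₀ + u₀) :=
      (hgkd.analyticAt _).hasStrictDerivAt
    have h1 := eventually_inj hstrict hderne
    have h2 : Tendsto (fun v => (Ψ v, z₀ + v)) (𝓝 u₀) (𝓝 (z₀ + u₀, z₀ + u₀)) := by
      rw [nhds_prod_eq]
      apply Tendsto.prodMk
      · have := (hΨd.continuousOn.continuousAt (isOpen_ball.mem_nhds hu0mem)).tendsto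
        rwa [hΨ0] at this
      · exact (continuous_const.add continuous_id).tendsto u₀
    filter_upwards [h2.eventually h1, isOpen_ball.mem_nhds hu0mem] with v hv hvm
    apply hv
    rw [hΨ]
    have := hφe _ (hmaps v hvm)
    rw [← hgk] at this
    exact this
  have heq : EqOn Ψ (fun v => z₀ + v) (ball u₀ r) := by
    apply AnalyticOnNhd.eqOn_of_preconnected_of_eventuallyEq (hΨd.analyticOnNhd isOpen_ball) _
      (convex_ball u₀ r).isPreconnected hu0mem hev1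
    exact ((differentiable_id.const_add z₀).differentiableOn).analyticOnNhd isOpen_ball
  have hU1mem : U 1 ∈ ball u₀ r := by
    rw [mem_ball_iff_norm, hr]
    linarith
  have hnext : g^[k] (z₀ + U 1) = z₀ + U (k + 1) := by
    rw [← hUk, ← hUk, Vo_add, Vo_add, ← Function.iterate_add_apply]
  refine ⟨φ, hφd, hφ0, ?_, ?_, hφe⟩
  · have h1 := heq hU1mem
    rw [hΨ] at h1
    simp only at h1
    rw [hnext] at h1
    exact h1
  · have h1 := hmaps _ hU1mem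
    rwa [hnext] at h1

/-- Fatou: a cycle of multiplier one has the critical point in a petal -/
theorem fatou_petal {c z₀ : ℂ} {N : ℕ} (hN : 1 ≤ N) (hfix : (fc 2 c)^[N] z₀ = z₀)
    (hder : deriv ((fc 2 c)^[N]) z₀ = 1) :
    ∃ (ν : ℕ) (a : ℂ → ℂ) (A : ℂ) (κ R w₀ : ℝ) (u₀ v : ℂ) (j : ℕ),
      Start ((fc 2 c)^[N]) z₀ ν a A κ R w₀ u₀ ∧ 1 ≤ j ∧ R < (W A ν v).re ∧ P 2 j c = z₀ + v := by
  obtain ⟨g, hgdef⟩ : ∃ g, g = (fc 2 c)^[N] := ⟨_, rfl⟩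
  have hg : Differentiable ℂ g := by rw [hgdef]; exact differentiable_iter c N
  have hne : ∃ z, g z ≠ z := by rw [hgdef]; exact iter_ne_id c hN
  rw [← hgdef] at hfix hder
  obtain ⟨ν, a, hν, ha, ha0, hev⟩ := parabolic_germ hg hfix hder hne
  obtain ⟨A, κ, R, w₀, u₀, s⟩ := exists_start hν ha ha0 hev
  have hgk : ∀ k, g^[k] = (fc 2 c)^[N * k] := by
    intro k
    rw [hgdef, Function.iterate_mul]
  by_cases hcase : ∃ k j, 1 ≤ j ∧ P 2 j c ∈ ball (z₀ + Vo g z₀ u₀ k) (κ * ‖Vo g z₀ u₀ k‖)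
  · obtain ⟨k, j, hj, hmem⟩ := hcase
    rw [mem_ball_iff_norm] at hmem
    obtain ⟨v, hv⟩ : ∃ v, v = P 2 j c - z₀ := ⟨_, rfl⟩
    have h1 : ‖v - Vo g z₀ u₀ k‖ < κ * ‖Vo g z₀ u₀ k‖ := by
      rw [hv]
      refine lt_of_eq_of_lt ?_ hmem
      congr 1
      ring
    rw [hgdef] at s
    refine ⟨ν, a, A, κ, R, w₀, u₀, v, j, s, hj, ?_, by rw [hv]; ring⟩
    rw [hgdef] at h1
    exact s.disc k h1
  · push Not at hcase
    exfalso
    obtain ⟨hst, hsn, hne1⟩ := s.first ha0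
    have hd1 : 0 < ‖Vo g z₀ u₀ 1 - u₀‖ := norm_pos_iff.2 (sub_ne_zero.2 hne1)
    have hlim := s.pet.tendsto_Vo s.re0
    have hslim : Tendsto (fun k => Vo g z₀ u₀ k ^ ν * a (Vo g z₀ u₀ k)) atTop (𝓝 0) := by
      have h1 : Tendsto (fun u : ℂ => u ^ ν * a u) (𝓝 0) (𝓝 0) := by
        have := ((continuous_pow ν).tendsto (0 : ℂ)).mul ha.continuousAt.tendsto
        rwa [zero_pow (by omega), zero_mul] at this
      exact h1.comp hlim
    obtain ⟨R', hR'⟩ : ∃ R', R' = ‖c‖ + ‖z₀‖ + 4 := ⟨_, rfl⟩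
    have hκ0 := s.κ0
    have hκ1 := s.κ1
    obtain ⟨ε, hε⟩ : ∃ ε, ε = ‖Vo g z₀ u₀ 1 - u₀‖ * κ / (2 * (2 * R' + 1)) := ⟨_, rfl⟩
    have hR'0 : 0 < R' := by rw [hR']; positivity
    have hε0 : 0 < ε := by rw [hε]; positivity
    have h1 := hslim.norm
    rw [norm_zero] at h1
    have h2 := hlim.norm
    rw [norm_zero] at h2
    obtain ⟨k, hk1, hk2⟩ := ((h1.eventually (gt_mem_nhds hε0)).and
      (h2.eventually (gt_mem_nhds one_pos))).exists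
    obtain ⟨φ, hφd, hφ0, hφ1, hmem, hφe⟩ := branch_next hgdef ha0 s k (hcase k)
    have hUpos : 0 < ‖Vo g z₀ u₀ k‖ := norm_pos_iff.2 (s.uk_ne k)
    have hbd : ∀ u ∈ ball (z₀ + Vo g z₀ u₀ k) (κ * ‖Vo g z₀ u₀ k‖), ‖φ u‖ ≤ R' := by
      intro u hu
      apply norm_le_of_iter (c := c) (R := R') (by rw [hR']; linarith [norm_nonneg z₀]) (N * k)
      rw [hφe u hu]
      rw [mem_ball_iff_norm] at hu
      have h3 := norm_add_le (u - (z₀ + Vo g z₀ u₀ k)) (z₀ + Vo g z₀ u₀ k)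
      rw [sub_add_cancel] at h3
      have h4 := norm_add_le z₀ (Vo g z₀ u₀ k)
      have h5 : κ * ‖Vo g z₀ u₀ k‖ ≤ 1 / 2 * 1 :=
        mul_le_mul hκ1 hk2.le (norm_nonneg _) (by norm_num)
      rw [hR']
      linarith [norm_nonneg c]
    have hδ : 0 < κ * ‖Vo g z₀ u₀ k‖ := mul_pos hκ0 hUpos
    have hmaps : MapsTo φ (ball (z₀ + Vo g z₀ u₀ k) (κ * ‖Vo g z₀ u₀ k‖))
        (closedBall (φ (z₀ + Vo g z₀ u₀ k)) (2 * R' + 1)) := by
      intro u hu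
      rw [mem_closedBall_iff_norm]
      have h3 := norm_sub_le (φ u) (φ (z₀ + Vo g z₀ u₀ k))
      have h4 := hbd u hu
      have h5 := hbd _ (mem_ball_self hδ)
      linarith
    have h3 := Complex.dist_le_div_mul_dist_of_mapsTo_ball hφd hmaps hmem
    rw [hφ0, hφ1, dist_eq_norm, dist_eq_norm, add_sub_add_left_eq_sub,
      add_sub_add_left_eq_sub, s.pet.step k (s.pet.orbit s.re0 k).1] at h3
    have e : Vo g z₀ u₀ k * (1 + Vo g z₀ u₀ k ^ ν * a (Vo g z₀ u₀ k)) - Vo g z₀ u₀ k =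
        Vo g z₀ u₀ k * (Vo g z₀ u₀ k ^ ν * a (Vo g z₀ u₀ k)) := by ring
    rw [e, norm_mul (Vo g z₀ u₀ k)] at h3
    have h4 : (2 * R' + 1) / (κ * ‖Vo g z₀ u₀ k‖) *
        (‖Vo g z₀ u₀ k‖ * ‖Vo g z₀ u₀ k ^ ν * a (Vo g z₀ u₀ k)‖) =
        (2 * R' + 1) / κ * ‖Vo g z₀ u₀ k ^ ν * a (Vo g z₀ u₀ k)‖ := by
      field_simp
    rw [h4] at h3
    have h5 : (2 * R' + 1) / κ * ‖Vo g z₀ u₀ k ^ ν * a (Vo g z₀ u₀ k)‖ ≤
        (2 * R' + 1) / κ * ε := mul_le_mul_of_nonneg_left hk1.le (by positivity)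
    have h6 : (2 * R' + 1) / κ * ε = ‖Vo g z₀ u₀ 1 - u₀‖ / 2 := by
      rw [hε]
      field_simp
    linarith

/-- Fatou: a cycle of multiplier one attracts the critical point -/
theorem fatou {c z₀ : ℂ} {N : ℕ} (hN : 1 ≤ N) (hfix : (fc 2 c)^[N] z₀ = z₀)
    (hder : deriv ((fc 2 c)^[N]) z₀ = 1) :
    ∃ j, Tendsto (fun k => P 2 (j + N * k) c) atTop (𝓝 z₀) := by
  obtain ⟨ν, a, A, κ, R, w₀, u₀, v, j, s, hj, hv, hP⟩ := fatou_petal hN hfix hder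
  have h2 := s.pet.tendsto_iter hv
  refine ⟨j, h2.congr fun m => ?_⟩
  rw [← hP, ← Function.iterate_mul, iter_P]

end Pool.Agent.Y736.ML
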