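import Pool.Agent.Y736.ML4

set_option autoImplicit false

/-! # The rate at satellite parameters: continuation of the fixed point, Lipschitz bounds -/

namespace Pool.Agent.Y736.ML

open Complex Metric Set Filter Topology Pool.Agent.H712R2 Pool.Agent.H713R2 N62a1eb23
open Pool.Agent.Y736.HL

/-- Lipschitz bounds for the iterates -/
theorem lip {B : ℝ} (hB : 0 ≤ B) (n : ℕ) : ∃ C : ℝ, 0 < C ∧ ∀ t t' z z' : ℂ, ‖t‖ ≤ B → ‖t'‖ ≤ B →
    ‖z‖ ≤ B → ‖z'‖ ≤ B → ‖(fc 2 t)^[n] z‖ ≤ C ∧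
      ‖(fc 2 t)^[n] z - (fc 2 t')^[n] z'‖ ≤ C * (‖t - t'‖ + ‖z - z'‖) := by
  induction n with
  | zero =>
    refine ⟨B + 1, by positivity, fun t t' z z' ht ht' hz hz' => ⟨?_, ?_⟩⟩
    · simp only [Function.iterate_zero, id]
      linarith
    · simp only [Function.iterate_zero, id]
      have h1 := norm_nonneg (t - t')
      have h2 := norm_nonneg (z - z')
      nlinarith
  | succ n ih =>
    obtain ⟨C, hC, h⟩ := ih
    refine ⟨2 * C ^ 2 + B + 1, by positivity, fun t t' z z' ht ht' hz hz' => ?_⟩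
    obtain ⟨h1, h2⟩ := h t t' z z' ht ht' hz hz'
    have h3 := (h t' t' z' z' ht' ht' hz' hz').1
    rw [Function.iterate_succ_apply', Function.iterate_succ_apply']
    obtain ⟨x, hx⟩ : ∃ x, x = (fc 2 t)^[n] z := ⟨_, rfl⟩
    obtain ⟨y, hy⟩ : ∃ y, y = (fc 2 t')^[n] z' := ⟨_, rfl⟩
    rw [← hx] at h1 h2 ⊢
    rw [← hy] at h2 h3 ⊢
    have hx2 : fc 2 t x = x ^ 2 + t := rfl
    have hy2 : fc 2 t' y = y ^ 2 + t' := rfl
    rw [hx2, hy2]
    constructor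
    · have h4 := norm_add_le (x ^ 2) t
      rw [norm_pow] at h4
      have h5 : ‖x‖ ^ 2 ≤ C ^ 2 := pow_le_pow_left₀ (norm_nonneg _) h1 2
      nlinarith
    · have e : x ^ 2 + t - (y ^ 2 + t') = (x - y) * (x + y) + (t - t') := by ring
      rw [e]
      have h4 := norm_add_le ((x - y) * (x + y)) (t - t')
      rw [norm_mul] at h4
      have h5 : ‖x + y‖ ≤ 2 * C := (norm_add_le _ _).trans (by linarith)
      have h6 : ‖x - y‖ * ‖x + y‖ ≤ C * (‖t - t'‖ + ‖z - z'‖) * (2 * C) :=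
        mul_le_mul h2 h5 (norm_nonneg _) (by positivity)
      have h7 := norm_nonneg (t - t')
      have h8 := norm_nonneg (z - z')
      have h9 : 0 ≤ B * (‖t - t'‖ + ‖z - z'‖) := by positivity
      linarith

theorem deriv_succ (t z : ℂ) (n : ℕ) :
    deriv ((fc 2 t)^[n + 1]) z = 2 * (fc 2 t)^[n] z * deriv ((fc 2 t)^[n]) z := by
  rw [Function.iterate_succ']
  exact ((hasDerivAt_fc t ((fc 2 t)^[n] z)).comp z
    ((differentiable_iter t n) z).hasDerivAt).deriv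

/-- Lipschitz bounds for the derivatives of the iterates -/
theorem lipD {B : ℝ} (hB : 0 ≤ B) (n : ℕ) : ∃ C : ℝ, 0 < C ∧ ∀ t t' z z' : ℂ, ‖t‖ ≤ B →
    ‖t'‖ ≤ B → ‖z‖ ≤ B → ‖z'‖ ≤ B → ‖deriv ((fc 2 t)^[n]) z‖ ≤ C ∧
      ‖deriv ((fc 2 t)^[n]) z - deriv ((fc 2 t')^[n]) z'‖ ≤ C * (‖t - t'‖ + ‖z - z'‖) := by
  induction n with
  | zero =>
    refine ⟨1, one_pos, fun t t' z z' ht ht' hz hz' => ?_⟩
    simp only [Function.iterate_zero]
    have e : ∀ z : ℂ, deriv (id : ℂ → ℂ) z = 1 := fun z => deriv_id z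
    rw [e, e, sub_self, norm_zero, norm_one]
    exact ⟨le_rfl, by positivity⟩
  | succ n ih =>
    obtain ⟨D, hD, h⟩ := ih
    obtain ⟨C, hC, h'⟩ := lip hB n
    refine ⟨4 * C * D, by positivity, fun t t' z z' ht ht' hz hz' => ?_⟩
    obtain ⟨h1, h2⟩ := h t t' z z' ht ht' hz hz'
    obtain ⟨h3, h4⟩ := h' t t' z z' ht ht' hz hz'
    have h5 := (h t' t' z' z' ht' ht' hz' hz').1
    have h6 := (h' t' t' z' z' ht' ht' hz' hz').1
    rw [deriv_succ, deriv_succ]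
    obtain ⟨x, hx⟩ : ∃ x, x = (fc 2 t)^[n] z := ⟨_, rfl⟩
    obtain ⟨y, hy⟩ : ∃ y, y = (fc 2 t')^[n] z' := ⟨_, rfl⟩
    obtain ⟨dx, hdx⟩ : ∃ dx, dx = deriv ((fc 2 t)^[n]) z := ⟨_, rfl⟩
    obtain ⟨dy, hdy⟩ : ∃ dy, dy = deriv ((fc 2 t')^[n]) z' := ⟨_, rfl⟩
    rw [← hx] at h3 h4 ⊢
    rw [← hy] at h4 h6 ⊢
    rw [← hdx] at h1 h2 ⊢
    rw [← hdy] at h2 h5 ⊢
    have n2 : ‖(2 : ℂ)‖ = 2 := by norm_num
    constructor
    · rw [norm_mul, norm_mul, n2]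
      have h7 : ‖x‖ * ‖dx‖ ≤ C * D := mul_le_mul h3 h1 (norm_nonneg _) hC.le
      have h8 : 0 ≤ C * D := by positivity
      linarith
    · have e : 2 * x * dx - 2 * y * dy = 2 * ((x - y) * dx + y * (dx - dy)) := by ring
      rw [e, norm_mul, n2]
      have h7 := norm_add_le ((x - y) * dx) (y * (dx - dy))
      rw [norm_mul, norm_mul] at h7
      have h8 : ‖x - y‖ * ‖dx‖ ≤ C * (‖t - t'‖ + ‖z - z'‖) * D :=
        mul_le_mul h4 h1 (norm_nonneg _) (by positivity)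
      have h9 : ‖y‖ * ‖dx - dy‖ ≤ C * (D * (‖t - t'‖ + ‖z - z'‖)) :=
        mul_le_mul h6 h2 (norm_nonneg _) hC.le
      linarith

/-- the fixed point moves in a Lipschitz way -/
theorem exists_fix {t₀ z₀ : ℂ} {m : ℕ} (hfix : (fc 2 t₀)^[m] z₀ = z₀)
    (hne : deriv ((fc 2 t₀)^[m]) z₀ ≠ 1) : ∃ C δ : ℝ, 0 < C ∧ 0 < δ ∧ ∀ t : ℂ, ‖t - t₀‖ < δ →
      ∃ z : ℂ, (fc 2 t)^[m] z = z ∧ ‖z - z₀‖ ≤ C * ‖t - t₀‖ := by
  obtain ⟨B, hB⟩ : ∃ B, B = ‖t₀‖ + ‖z₀‖ + 1 := ⟨_, rfl⟩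
  have hB0 : 0 ≤ B := by rw [hB]; positivity
  obtain ⟨C₀, hC₀, hl⟩ := lip hB0 m
  obtain ⟨D, hD, hlD⟩ := lipD hB0 m
  obtain ⟨l, hl0⟩ : ∃ l, l = deriv ((fc 2 t₀)^[m]) z₀ := ⟨_, rfl⟩
  obtain ⟨μ, hμ⟩ : ∃ μ, μ = ‖l - 1‖ := ⟨_, rfl⟩
  have hμ0 : 0 < μ := by
    rw [hμ, norm_pos_iff, sub_ne_zero, hl0]
    exact hne
  obtain ⟨r, hr⟩ : ∃ r, r = min 1 (μ / (4 * D)) := ⟨_, rfl⟩
  have hr0 : 0 < r := by rw [hr]; positivity
  have hr1 : r ≤ 1 := by rw [hr]; exact min_le_left _ _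
  have hr2 : D * (2 * r) ≤ μ / 2 := by
    have : r ≤ μ / (4 * D) := by rw [hr]; exact min_le_right _ _
    rw [le_div_iff₀ (by positivity)] at this
    linarith
  have ht₀B : ‖t₀‖ ≤ B := by rw [hB]; linarith [norm_nonneg z₀]
  have hz₀B : ‖z₀‖ ≤ B := by rw [hB]; linarith [norm_nonneg t₀]
  refine ⟨8 * C₀ / μ, min r (r * μ / (8 * C₀)), by positivity, by positivity, ?_⟩
  intro t ht
  have ht1 : ‖t - t₀‖ < r := ht.trans_le (min_le_left _ _)
  have ht2 : ‖t - t₀‖ < r * μ / (8 * C₀) := ht.trans_le (min_le_right _ _)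
  rcases eq_or_ne t t₀ with rfl | htt
  · exact ⟨z₀, hfix, by simp⟩
  have hρ : 0 < ‖t - t₀‖ := norm_pos_iff.2 (sub_ne_zero.2 htt)
  obtain ⟨ρ, hρ'⟩ : ∃ ρ, ρ = ‖t - t₀‖ := ⟨_, rfl⟩
  rw [← hρ'] at hρ ht1 ht2 ⊢
  obtain ⟨ε, hε⟩ : ∃ ε, ε = 8 * C₀ / μ * ρ := ⟨_, rfl⟩
  have hε0 : 0 < ε := by rw [hε]; positivity
  have hεr : ε ≤ r := by
    rw [hε]
    rw [lt_div_iff₀ (by positivity)] at ht2
    rw [div_mul_eq_mul_div, div_le_iff₀ hμ0]
    linarith
  have hεμ : μ * ε = 8 * C₀ * ρ := by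
    rw [hε]
    field_simp
  have htB : ‖t‖ ≤ B := by
    have := norm_add_le (t - t₀) t₀
    rw [sub_add_cancel, ← hρ'] at this
    rw [hB]
    linarith [norm_nonneg z₀]
  obtain ⟨h, hh⟩ : ∃ h : ℂ → ℂ, h = fun x => (fc 2 t)^[m] x - x := ⟨_, rfl⟩
  have hhd : Differentiable ℂ h := by
    rw [hh]
    exact (differentiable_iter t m).sub differentiable_id
  have hh0 : ‖h z₀‖ ≤ C₀ * ρ := by
    have h1 := (hl t t₀ z₀ z₀ htB ht₀B hz₀B hz₀B).2
    rw [hfix, sub_self, norm_zero, add_zero, ← hρ'] at h1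
    rw [hh]
    exact h1
  have hlow : ∀ x ∈ sphere z₀ ε, 3 * C₀ * ρ ≤ ‖h x‖ := by
    intro x hx
    rw [mem_sphere_iff_norm] at hx
    -- mean value inequality
    have h1 : ‖((fc 2 t)^[m] x - l * x) - ((fc 2 t)^[m] z₀ - l * z₀)‖ ≤ μ / 2 * ‖x - z₀‖ := by
      have h2 := Convex.norm_image_sub_le_of_norm_deriv_le (𝕜 := ℂ)
        (f := fun x => (fc 2 t)^[m] x - l * x) (C := μ / 2) (s := closedBall z₀ r) (x := z₀)
        (y := x)
        (fun y _ => ((differentiable_iter t m).sub (differentiable_id.const_mul l)) y) ?_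
        (convex_closedBall z₀ r) (mem_closedBall_self hr0.le)
        (by rw [mem_closedBall_iff_norm, hx]; exact hεr)
      · exact h2
      · intro y hy
        rw [mem_closedBall_iff_norm] at hy
        have h3 : HasDerivAt (fun x => (fc 2 t)^[m] x - l * x)
            (deriv ((fc 2 t)^[m]) y - l * 1) y :=
          ((differentiable_iter t m) y).hasDerivAt.sub ((hasDerivAt_id y).const_mul l)
        rw [h3.deriv, mul_one, hl0]
        have hyB : ‖y‖ ≤ B := by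
          have := norm_add_le (y - z₀) z₀
          rw [sub_add_cancel] at this
          rw [hB]
          linarith [norm_nonneg t₀]
        have h4 := (hlD t t₀ y z₀ htB ht₀B hyB hz₀B).2
        rw [← hρ'] at h4
        refine h4.trans (le_trans ?_ hr2)
        apply mul_le_mul_of_nonneg_left _ hD.le
        linarith
    rw [hx] at h1
    have e : (l - 1) * (x - z₀) = h x - h z₀ -
        (((fc 2 t)^[m] x - l * x) - ((fc 2 t)^[m] z₀ - l * z₀)) := by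
      rw [hh]
      ring
    have h2 : μ * ε = ‖h x - h z₀ - (((fc 2 t)^[m] x - l * x) - ((fc 2 t)^[m] z₀ - l * z₀))‖ := by
      rw [← e, norm_mul, hx, hμ]
    have h3 := norm_sub_le (h x - h z₀) (((fc 2 t)^[m] x - l * x) - ((fc 2 t)^[m] z₀ - l * z₀))
    have h4 := norm_sub_le (h x) (h z₀)
    linarith
  by_contra hcon
  push Not at hcon
  have hnz : ∀ x ∈ closedBall z₀ ε, h x ≠ 0 := by
    intro x hx h0
    rw [mem_closedBall_iff_norm] at hx
    have h1 := hcon x (by rw [hh] at h0; exact sub_eq_zero.1 h0)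
    rw [← hε] at h1
    linarith
  have hinv : DiffContOnCl ℂ (fun x => (h x)⁻¹) (ball z₀ ε) := by
    constructor
    · intro x hx
      exact ((hhd x).inv (hnz x (ball_subset_closedBall hx))).differentiableWithinAt
    · rw [closure_ball _ hε0.ne']
      intro x hx
      exact ((hhd x).inv (hnz x hx)).continuousAt.continuousWithinAt
  have h1 := Complex.norm_le_of_forall_mem_frontier_norm_le isBounded_ball hinv
    (C := (3 * C₀ * ρ)⁻¹) (fun x hx => by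
      rw [frontier_ball _ hε0.ne'] at hx
      rw [norm_inv]
      exact inv_anti₀ (by positivity) (hlow x hx)) (subset_closure (mem_ball_self hε0))
  rw [norm_inv] at h1
  have h2 : 0 < ‖h z₀‖ := norm_pos_iff.2 (hnz z₀ (mem_closedBall_self hε0.le))
  have h3 := (inv_le_inv₀ h2 (by positivity)).1 h1
  have h4 : 0 < C₀ * ρ := by positivity
  linarith

end Pool.Agent.Y736.ML
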