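import Pool.Agent.Y736.ML7
import Pool.Agent.Y736.HL2

set_option autoImplicit false

/-! # The rate at satellite parameters: the perturbed orbit -/

namespace Pool.Agent.Y736.ML

open Complex Metric Set Filter Topology Pool.Agent.H712R2 Pool.Agent.H713R2 N62a1eb23
open Pool.Agent.Y736.HL

namespace Start

variable {g : ℂ → ℂ} {z₀ : ℂ} {ν : ℕ} {a : ℂ → ℂ} {A : ℂ} {κ R w₀ : ℝ} {u₀ : ℂ}

/-- one step of the perturbed map -/
theorem pert_step (s : Start g z₀ ν a A κ R w₀ u₀) {V G : ℂ} {ε : ℝ} (hε0 : 0 ≤ ε)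
    (hε : ε ≤ κ / 2) (hV : R < (W A ν V).re) (hG : ‖G - (g (z₀ + V) - z₀)‖ ≤ ε * ‖V‖) :
    ‖W A ν G - W A ν V - 1‖ ≤ 1 / 32 + 4 * ν * ε * (‖W A ν V‖ + 2) := by
  have hκ0 := s.κ0
  have hκ1 := s.κ1
  obtain ⟨hV0, h1, h2, _, h4⟩ := s.pet.loc V hV
  obtain ⟨s₁, hs₁⟩ : ∃ s₁, s₁ = V ^ ν * a V := ⟨_, rfl⟩
  rw [← hs₁] at h1 h2 h4
  have hVn : 0 < ‖V‖ := norm_pos_iff.2 hV0
  have h5 : 1 / 2 ≤ ‖1 + s₁‖ := by
    have := norm_sub_norm_le (1 : ℂ) (-s₁)
    rw [norm_one, norm_neg, sub_neg_eq_add] at this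
    linarith
  have h6 : 1 + s₁ ≠ 0 := by
    intro h
    rw [h, norm_zero] at h5
    linarith
  have h7 : V * (1 + s₁) ≠ 0 := mul_ne_zero hV0 h6
  obtain ⟨e, he⟩ : ∃ e, e = (G - V * (1 + s₁)) / (V * (1 + s₁)) := ⟨_, rfl⟩
  have hGe : G = V * (1 + s₁) * (1 + e) := by
    rw [he]
    field_simp
    ring
  have hen : ‖e‖ ≤ 2 * ε := by
    rw [he, norm_div, norm_mul V, div_le_iff₀ (by positivity)]
    rw [h1, add_sub_cancel_left] at hG
    refine hG.trans ?_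
    have h8 : ‖V‖ * (1 / 2) ≤ ‖V‖ * ‖1 + s₁‖ := mul_le_mul_of_nonneg_left h5 hVn.le
    have h9 : 2 * ε * (‖V‖ * (1 / 2)) ≤ 2 * ε * (‖V‖ * ‖1 + s₁‖) :=
      mul_le_mul_of_nonneg_left h8 (by positivity)
    linarith
  have h8 := (s.kap e (by linarith)).2.2
  have h9 : ‖((1 + e) ^ ν)⁻¹ - 1‖ ≤ 4 * ν * ε := by
    refine h8.trans ?_
    have : (0 : ℝ) ≤ 2 * ν := by positivity
    have := mul_le_mul_of_nonneg_left hen this
    linarith
  obtain ⟨w, hw⟩ : ∃ w, w = W A ν (V * (1 + s₁)) := ⟨_, rfl⟩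
  have h10 : W A ν G = w * ((1 + e) ^ ν)⁻¹ := by
    rw [hGe, W_mul, hw]
  rw [← hw] at h4
  have h11 : ‖w‖ ≤ ‖W A ν V‖ + 2 := by
    have e1 : w = (w - W A ν V - 1) + (W A ν V + 1) := by ring
    rw [e1]
    have h12 := norm_add_le (w - W A ν V - 1) (W A ν V + 1)
    have h13 := norm_add_le (W A ν V) 1
    rw [norm_one] at h13
    linarith
  have e2 : W A ν G - W A ν V - 1 = (w - W A ν V - 1) + w * (((1 + e) ^ ν)⁻¹ - 1) := by
    rw [h10]
    ring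
  rw [e2]
  have h12 := norm_add_le (w - W A ν V - 1) (w * (((1 + e) ^ ν)⁻¹ - 1))
  rw [norm_mul] at h12
  have h13 : ‖w‖ * ‖((1 + e) ^ ν)⁻¹ - 1‖ ≤ (‖W A ν V‖ + 2) * (4 * ν * ε) :=
    mul_le_mul h11 h9 (norm_nonneg _) (by positivity)
  linarith

/-- the orbit of the perturbed map -/
theorem pert_orbit (s : Start g z₀ ν a A κ R w₀ u₀) {V : ℕ → ℂ} {ε Bw : ℝ} (hε0 : 0 ≤ ε)
    (hε : ε ≤ κ / 2) (h0 : R < (W A ν (V 0)).re) (hB : ‖W A ν (V 0)‖ ≤ Bw) (K : ℕ)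
    (hstep : ∀ k < K, R < (W A ν (V k)).re →
      ‖V (k + 1) - (g (z₀ + V k) - z₀)‖ ≤ ε * ‖V k‖)
    (h1 : 4 * ν * ε * (Bw + 2) ≤ 1 / 32) (h2 : 4 * ν * ε * (2 * K) ≤ 1 / 16) :
    ∀ k ≤ K, R < (W A ν (V k)).re ∧ ‖W A ν (V k) - W A ν (V 0) - k‖ ≤ (k : ℝ) / 8 := by
  intro k
  induction k with
  | zero =>
    intro _
    exact ⟨h0, by simp⟩
  | succ k ih =>
    intro hk
    obtain ⟨h3, h4⟩ := ih (by omega)
    have h5 := s.pert_step hε0 hε h3 (hstep k (by omega) h3)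
    have hkK : (k : ℝ) ≤ K := by exact_mod_cast (by omega : k ≤ K)
    have hk0 : (0 : ℝ) ≤ k := Nat.cast_nonneg k
    have h6 : ‖W A ν (V k)‖ ≤ Bw + 2 * k := by
      have e : W A ν (V k) = (W A ν (V k) - W A ν (V 0) - k) + (W A ν (V 0) + k) := by ring
      rw [e]
      have h7 := norm_add_le (W A ν (V k) - W A ν (V 0) - k) (W A ν (V 0) + k)
      have h8 := norm_add_le (W A ν (V 0)) (k : ℂ)
      rw [Complex.norm_natCast] at h8
      linarith
    have hνε : 0 ≤ 4 * ν * ε := by positivity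
    have h7 : 4 * ν * ε * (‖W A ν (V k)‖ + 2) ≤ 3 / 32 := by
      have h8 : 4 * ν * ε * (‖W A ν (V k)‖ + 2) ≤ 4 * ν * ε * ((Bw + 2) + 2 * K) :=
        mul_le_mul_of_nonneg_left (by linarith) hνε
      have h9 : 4 * ν * ε * ((Bw + 2) + 2 * K) = 4 * ν * ε * (Bw + 2) + 4 * ν * ε * (2 * K) := by
        ring
      linarith
    have h8 : ‖W A ν (V (k + 1)) - W A ν (V k) - 1‖ ≤ 1 / 8 := by linarith
    constructor
    · have h9 : |(W A ν (V (k + 1)) - W A ν (V k) - 1).re| ≤ 1 / 8 :=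
        (Complex.abs_re_le_norm _).trans h8
      rw [abs_le, sub_re, sub_re, one_re] at h9
      linarith
    · have e : W A ν (V (k + 1)) - W A ν (V 0) - ((k + 1 : ℕ) : ℂ) =
          (W A ν (V (k + 1)) - W A ν (V k) - 1) + (W A ν (V k) - W A ν (V 0) - k) := by
        push_cast
        ring
      rw [e]
      have h9 := norm_add_le (W A ν (V (k + 1)) - W A ν (V k) - 1)
        (W A ν (V k) - W A ν (V 0) - k)
      push_cast
      linarith

/-- the size of the petal -/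
theorem size (s : Start g z₀ ν a A κ R w₀ u₀) {V : ℂ} {y : ℝ} (hy : 0 < y)
    (h : y ≤ ‖W A ν V‖) : ‖V‖ ^ ν ≤ 1 / (‖A‖ * y) := by
  have hAn : 0 < ‖A‖ := norm_pos_iff.2 s.pet.hA
  unfold W at h
  rw [norm_inv, norm_mul, norm_pow] at h
  have h1 : 0 < ‖A‖ * ‖V‖ ^ ν := by
    by_contra hcon
    push Not at hcon
    have h2 : (‖A‖ * ‖V‖ ^ ν)⁻¹ ≤ 0 := inv_nonpos.2 hcon
    linarith
  rw [le_div_iff₀ (by positivity)]
  rw [le_inv_comm₀ hy h1] at h
  have h2 := mul_le_mul_of_nonneg_right h hy.le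
  rw [inv_mul_cancel₀ hy.ne'] at h2
  linarith

end Start

/-- the critical orbit of a parameter near a satellite parameter stays bounded for a long time -/
theorem sat_orbit {t₀ z₀ : ℂ} {m q : ℕ} (hm : 1 ≤ m) (hq : 1 ≤ q)
    (hfix : (fc 2 t₀)^[m] z₀ = z₀) (hne : deriv ((fc 2 t₀)^[m]) z₀ ≠ 1)
    (hder : deriv ((fc 2 t₀)^[m]) z₀ ^ q = 1) :
    ∃ (j k₁ : ℕ) (c δ : ℝ), 1 ≤ j ∧ 0 < c ∧ 0 < δ ∧ ∀ t : ℂ, ‖t - t₀‖ < δ → ∀ k : ℕ, k₁ ≤ k →
      k * ‖t - t₀‖ ≤ c → ‖P 2 (j + m * q * k) t‖ ≤ 3 := by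
  obtain ⟨M, hM⟩ : ∃ M, M = m * q := ⟨_, rfl⟩
  have hM1 : 1 ≤ M := by rw [hM]; exact Nat.mul_pos hm hq
  rw [← hM]
  have hfix' : (fc 2 t₀)^[M] z₀ = z₀ := by
    rw [hM, Function.iterate_mul]
    exact (show Function.IsFixedPt ((fc 2 t₀)^[m]) z₀ from hfix).iterate q
  have hder' : deriv ((fc 2 t₀)^[M]) z₀ = 1 := by
    have h1 : HasDerivAt ((fc 2 t₀)^[m]) (deriv ((fc 2 t₀)^[m]) z₀) z₀ :=
      (differentiable_iter t₀ m z₀).hasDerivAt
    have h2 := HasDerivAt.iterate z₀ h1 hfix q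
    rw [hder, ← Function.iterate_mul, ← hM] at h2
    exact h2.deriv
  obtain ⟨ν, a, A, κ, R, w₀, u₀, v, j, s, hj, hv, hPj⟩ := fatou_petal hM1 hfix' hder'
  obtain ⟨C, δ₁, hC, hδ₁, hz⟩ := exists_fix hfix hne
  have hAn : 0 < ‖A‖ := norm_pos_iff.2 s.pet.hA
  have hR := s.pet.hR
  have hκ0 := s.κ0
  have hκ1 := s.κ1
  have hν := s.pet.hν
  have hνR : (1 : ℝ) ≤ ν := by exact_mod_cast hν
  -- `z₀` is in the disc of radius two
  have hmem : t₀ ∈ multibrotSet 2 := by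
    have h2 := s.pet.tendsto_iter hv
    apply mem_of_tendsto hM1 (j := j) (z := z₀)
    refine h2.congr fun k => ?_
    rw [← hPj, ← Function.iterate_mul, iter_P]
  have hz₀2 : ‖z₀‖ ≤ 2 := by
    have h2 := (s.pet.tendsto_iter hv).norm
    refine le_of_tendsto h2 (Eventually.of_forall fun k => ?_)
    rw [← hPj, ← Function.iterate_mul, iter_P]
    exact (mem_multibrot_iff le_rfl t₀).1 hmem _
  -- continuity of the coordinate at `v`
  have hv0 : v ≠ 0 := (s.pet.loc v hv).1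
  have hWc : ContinuousAt (W A ν) v := by
    have h1 : W A ν = fun u => (A * u ^ ν)⁻¹ := rfl
    rw [h1]
    apply ContinuousAt.inv₀ (by fun_prop)
    exact mul_ne_zero s.pet.hA (pow_ne_zero _ hv0)
  obtain ⟨Bw, hBw⟩ : ∃ Bw, Bw = ‖W A ν v‖ + 1 := ⟨_, rfl⟩
  have hev : ∀ᶠ u in 𝓝 v, R < (W A ν u).re ∧ ‖W A ν u‖ ≤ Bw := by
    have h1 : ∀ᶠ u in 𝓝 v, R < (W A ν u).re :=
      (Complex.continuous_re.continuousAt.comp hWc).eventually (lt_mem_nhds hv)
    have h2 : ∀ᶠ u in 𝓝 v, ‖W A ν u‖ < Bw :=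
      hWc.norm.eventually (gt_mem_nhds (by rw [hBw]; linarith))
    filter_upwards [h1, h2] with u h3 h4 using ⟨h3, h4.le⟩
  obtain ⟨ε₁, hε₁, hball⟩ := Metric.eventually_nhds_iff_ball.1 hev
  -- the constants
  obtain ⟨BV, hBV⟩ : ∃ BV, BV = 1 + 1 / (‖A‖ * R) := ⟨_, rfl⟩
  have hBV0 : 0 < BV := by rw [hBV]; positivity
  have hsizeV : ∀ V : ℂ, R < (W A ν V).re → ‖V‖ ≤ BV := by
    intro V hV
    have h1 := s.size hR ((hV.trans_le (Complex.re_le_norm _)).le)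
    rcases le_or_gt ‖V‖ 1 with h2 | h2
    · rw [hBV]
      have : 0 < 1 / (‖A‖ * R) := by positivity
      linarith
    · have h3 : ‖V‖ ≤ ‖V‖ ^ ν := le_self_pow₀ h2.le (by omega)
      rw [hBV]
      linarith
  obtain ⟨B, hB⟩ : ∃ B, B = ‖t₀‖ + ‖z₀‖ + BV + 2 := ⟨_, rfl⟩
  have hB0 : 0 ≤ B := by rw [hB]; positivity
  obtain ⟨D, hD, hlD⟩ := lipD hB0 M
  obtain ⟨D₂, hD₂, hl₂⟩ := lip hB0 j
  obtain ⟨C₂, hC₂⟩ : ∃ C₂, C₂ = D * (1 + C) := ⟨_, rfl⟩
  have hC₂0 : 0 < C₂ := by rw [hC₂]; positivity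
  have hBw0 : 0 < Bw := by rw [hBw]; positivity
  obtain ⟨k₁, hk₁⟩ := exists_nat_gt (2 / ‖A‖ * 2 ^ ν + 1)
  refine ⟨j, k₁, 1 / (128 * ν * C₂), min (min (min δ₁ (1 / (4 * C))) (min 1 (ε₁ / (D₂ + C))))
    (min (κ / (2 * C₂)) (1 / (128 * ν * C₂ * (Bw + 2)))), hj, by positivity, by positivity, ?_⟩
  intro t ht k hk hkc
  obtain ⟨ρ, hρ⟩ : ∃ ρ, ρ = ‖t - t₀‖ := ⟨_, rfl⟩
  rw [← hρ] at ht hkc
  have hρ0 : 0 ≤ ρ := by rw [hρ]; exact norm_nonneg _
  have ht1 : ρ < δ₁ := ht.trans_le ((min_le_left _ _).trans ((min_le_left _ _).trans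
    (min_le_left _ _)))
  have ht2 : ρ < 1 / (4 * C) := ht.trans_le ((min_le_left _ _).trans ((min_le_left _ _).trans
    (min_le_right _ _)))
  have ht3 : ρ < 1 := ht.trans_le ((min_le_left _ _).trans ((min_le_right _ _).trans
    (min_le_left _ _)))
  have ht4 : ρ < ε₁ / (D₂ + C) := ht.trans_le ((min_le_left _ _).trans ((min_le_right _ _).trans
    (min_le_right _ _)))
  have ht5 : ρ < κ / (2 * C₂) := ht.trans_le ((min_le_right _ _).trans (min_le_left _ _))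
  have ht6 : ρ < 1 / (128 * ν * C₂ * (Bw + 2)) :=
    ht.trans_le ((min_le_right _ _).trans (min_le_right _ _))
  rw [lt_div_iff₀ (by positivity)] at ht2 ht4 ht5 ht6
  obtain ⟨z, hzf, hzn⟩ := hz t (by rw [← hρ]; exact ht1)
  rw [← hρ] at hzn
  have hzf' : (fc 2 t)^[M] z = z := by
    rw [hM, Function.iterate_mul]
    exact (show Function.IsFixedPt ((fc 2 t)^[m]) z from hzf).iterate q
  have hzn' : ‖z - z₀‖ ≤ 1 / 4 := by linarith
  have hzB : ‖z‖ ≤ ‖z₀‖ + 1 / 4 := by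
    have := norm_add_le (z - z₀) z₀
    rw [sub_add_cancel] at this
    linarith
  have htB : ‖t‖ ≤ ‖t₀‖ + 1 := by
    have := norm_add_le (t - t₀) t₀
    rw [sub_add_cancel, ← hρ] at this
    linarith
  obtain ⟨V, hV⟩ : ∃ V : ℕ → ℂ, V = fun k => P 2 (j + M * k) t - z := ⟨_, rfl⟩
  -- the first point
  have hV0 : V 0 ∈ ball v ε₁ := by
    rw [mem_ball_iff_norm, hV]
    simp only [mul_zero, add_zero]
    have h1 : ‖P 2 j t - P 2 j t₀‖ ≤ D₂ * ρ := by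
      have h2 := (hl₂ t t₀ 0 0 (by rw [hB]; linarith [norm_nonneg z₀])
        (by rw [hB]; linarith [norm_nonneg z₀]) (by rw [norm_zero]; exact hB0)
        (by rw [norm_zero]; exact hB0)).2
      rw [sub_self, norm_zero, add_zero, ← hρ] at h2
      exact h2
    have e : P 2 j t - z - v = (P 2 j t - P 2 j t₀) - (z - z₀) := by
      rw [hPj]
      ring
    rw [e]
    have h2 := norm_sub_le (P 2 j t - P 2 j t₀) (z - z₀)
    linarith
  obtain ⟨h3, h4⟩ := hball _ hV0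
  -- the steps
  have hstep : ∀ i < k, R < (W A ν (V i)).re →
      ‖V (i + 1) - ((fc 2 t₀)^[M] (z₀ + V i) - z₀)‖ ≤ C₂ * ρ * ‖V i‖ := by
    intro i _ hi
    have hVi := hsizeV _ hi
    have e1 : V (i + 1) = (fc 2 t)^[M] (z + V i) - z := by
      rw [hV]
      simp only
      rw [add_sub_cancel, iter_P]
      congr 2
      ring
    have h5 := Convex.norm_image_sub_le_of_norm_deriv_le (𝕜 := ℂ)
        (f := fun y => (fc 2 t)^[M] (z + y) - (fc 2 t₀)^[M] (z₀ + y)) (C := C₂ * ρ)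
        (s := closedBall 0 BV) (x := 0) (y := V i)
        (fun y _ => (((differentiable_iter t M).comp (differentiable_id.const_add z)).sub
          ((differentiable_iter t₀ M).comp (differentiable_id.const_add z₀))) y) ?_
        (convex_closedBall 0 BV) (mem_closedBall_self hBV0.le)
        (by rw [mem_closedBall_zero_iff]; exact hVi)
    · simp only [add_zero, sub_zero] at h5
      rw [hzf', hfix'] at h5
      refine le_trans (le_of_eq ?_) h5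
      rw [e1]
      congr 1
      ring
    · intro y hy
      rw [mem_closedBall_zero_iff] at hy
      have h6 : HasDerivAt (fun y => (fc 2 t)^[M] (z + y) - (fc 2 t₀)^[M] (z₀ + y))
          (deriv ((fc 2 t)^[M]) (z + y) - deriv ((fc 2 t₀)^[M]) (z₀ + y)) y :=
        (((differentiable_iter t M) (z + y)).hasDerivAt.comp_const_add z y).sub
          (((differentiable_iter t₀ M) (z₀ + y)).hasDerivAt.comp_const_add z₀ y)
      rw [h6.deriv]
      have h7 := norm_add_le z y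
      have h8 := norm_add_le z₀ y
      have h9 := (hlD t t₀ (z + y) (z₀ + y) (by rw [hB]; linarith [norm_nonneg z₀])
        (by rw [hB]; linarith [norm_nonneg z₀]) (by rw [hB]; linarith [norm_nonneg t₀])
        (by rw [hB]; linarith [norm_nonneg t₀])).2
      rw [add_sub_add_right_eq_sub, ← hρ] at h9
      refine h9.trans ?_
      rw [hC₂, mul_assoc]
      apply mul_le_mul_of_nonneg_left _ hD.le
      linarith
  have h5 := s.pert_orbit (V := V) (ε := C₂ * ρ) (Bw := Bw) (by positivity) (by linarith) h3 h4 k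
    hstep (by nlinarith) (by
      have h6 : k * ρ * (128 * ν * C₂) ≤ 1 := by
        rwa [le_div_iff₀ (by positivity)] at hkc
      linarith) k le_rfl
  -- the conclusion
  have hk1 : 2 / ‖A‖ * 2 ^ ν + 1 < (k : ℝ) := by
    have : (k₁ : ℝ) ≤ k := by exact_mod_cast hk
    linarith
  have hAp : 0 < 2 / ‖A‖ * 2 ^ ν := by positivity
  have hkpos : (0 : ℝ) < k := by linarith
  have h6 : (k : ℝ) / 2 ≤ ‖W A ν (V k)‖ := by
    have h7 := norm_sub_norm_le (k : ℂ) (-(W A ν (V k) - W A ν (V 0) - k))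
    have h7 : |(W A ν (V k) - W A ν (V 0) - k).re| ≤ (k : ℝ) / 8 :=
      (Complex.abs_re_le_norm _).trans h5.2
    rw [abs_le, sub_re, sub_re, natCast_re] at h7
    have h8 := Complex.re_le_norm (W A ν (V k))
    linarith
  have h7 := s.size (y := (k : ℝ) / 2) (by positivity) h6
  have h8 : ‖V k‖ ≤ 1 / 2 := by
    by_contra hcon
    push Not at hcon
    have h9 : (1 / 2 : ℝ) ^ ν < ‖V k‖ ^ ν := pow_lt_pow_left₀ hcon (by norm_num) (by omega)
    have h10 : 1 / (‖A‖ * ((k : ℝ) / 2)) < (1 / 2) ^ ν := by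
      rw [div_lt_iff₀ (by positivity), one_div, inv_pow, inv_mul_eq_div, lt_div_iff₀ (by positivity)]
      have h11 : 2 / ‖A‖ * 2 ^ ν < k := by linarith
      rw [div_mul_eq_mul_div, div_lt_iff₀ hAn] at h11
      linarith
    linarith
  have h9 : P 2 (j + M * k) t = V k + z := by
    rw [hV]
    ring
  rw [h9]
  have h10 := norm_add_le (V k) z
  linarith

end Pool.Agent.Y736.ML
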