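import Pool.Agent.Y736.ML9

set_option autoImplicit false

/-! # Misiurewicz parameters near every point of the boundary of the Mandelbrot set -/

namespace Pool.Agent.Y736.PD

open Complex Metric Set Filter Topology Pool.Agent.H712R2 Pool.Agent.H713R2 N62a1eb23
open Pool.Agent.Y736.HL Pool.Agent.Y736.ML

/-- the square root of `1 - 4 t` with positive real part -/
noncomputable def sq (t : ℂ) : ℂ := Complex.exp (1 / 2 * Complex.log (1 - 4 * t))

/-- the fixed point `(1 + √(1 - 4 t)) / 2` -/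
noncomputable def bt (t : ℂ) : ℂ := (1 + sq t) / 2

theorem sq_sq {t : ℂ} (ht : 1 - 4 * t ≠ 0) : sq t ^ 2 = 1 - 4 * t := by
  unfold sq
  rw [← Complex.exp_nat_mul]
  have e : ((2 : ℕ) : ℂ) * (1 / 2 * Complex.log (1 - 4 * t)) = Complex.log (1 - 4 * t) := by
    push_cast
    ring
  rw [e, Complex.exp_log ht]

theorem sq_re {t : ℂ} (ht : 1 - 4 * t ∈ slitPlane) : 0 < (sq t).re := by
  unfold sq
  rw [Complex.exp_re]
  apply mul_pos (Real.exp_pos _)
  have e : (1 / 2 * Complex.log (1 - 4 * t)).im = (1 / 2) * (1 - 4 * t).arg := by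
    have : (1 / 2 : ℂ) = ((1 / 2 : ℝ) : ℂ) := by push_cast; ring
    rw [this, Complex.im_ofReal_mul, Complex.log_im]
  rw [e]
  have h1 := Complex.neg_pi_lt_arg (1 - 4 * t)
  have h2 := (Complex.mem_slitPlane_iff_arg.1 ht).1
  have h3 := Complex.arg_le_pi (1 - 4 * t)
  have h4 : (1 - 4 * t).arg < Real.pi := lt_of_le_of_ne h3 h2
  apply Real.cos_pos_of_mem_Ioo
  constructor <;> linarith

theorem bt_fix {t : ℂ} (ht : 1 - 4 * t ≠ 0) : bt t ^ 2 + t = bt t := by
  have h := sq_sq ht
  unfold bt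
  linear_combination h / 4

theorem bt_re {t : ℂ} (ht : 1 - 4 * t ∈ slitPlane) : 1 / 2 < (bt t).re := by
  have h := sq_re ht
  have e : (bt t).re = (1 + (sq t).re) / 2 := by
    unfold bt
    have : (1 + sq t) / 2 = ((1 / 2 : ℝ) : ℂ) * (1 + sq t) := by push_cast; ring
    rw [this, Complex.re_ofReal_mul, add_re, one_re]
    ring
  rw [e]
  linarith

theorem bt_norm {t : ℂ} (ht : 1 - 4 * t ∈ slitPlane) : 1 < ‖2 * bt t‖ := by
  have h := bt_re ht
  have h1 := Complex.re_le_norm (bt t)
  rw [norm_mul]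
  norm_num
  linarith

theorem bt_diff {t : ℂ} (ht : 1 - 4 * t ∈ slitPlane) : DifferentiableAt ℂ bt t := by
  have h0 : DifferentiableAt ℂ (fun t : ℂ => 1 - 4 * t) t := by fun_prop
  have h1 : DifferentiableAt ℂ (fun t : ℂ => Complex.log (1 - 4 * t)) t := h0.clog ht
  have h2 : DifferentiableAt ℂ sq t := (h1.const_mul (1 / 2)).cexp
  exact (h2.const_add 1).div_const 2

/-- parameters at which the critical orbit lands on the fixed point `bt t` -/
theorem ce_of_land {t : ℂ} (ht : 1 - 4 * t ∈ slitPlane) {n : ℕ} (hn : P 2 n t = bt t) :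
    t ∈ multibrotSet 2 ∧ ∃ C₁ lam : ℝ, 1 ≤ C₁ ∧ 1 < lam ∧
      ∀ k : ℕ, lam ^ k ≤ C₁ * ‖deriv ((fc 2 t)^[k]) t‖ := by
  have ht0 : 1 - 4 * t ≠ 0 := slitPlane_ne_zero ht
  have hland : ∀ k, n ≤ k → P 2 k t = bt t := by
    intro k hk
    induction k, hk using Nat.le_induction with
    | base => exact hn
    | succ k hk ih =>
      rw [P_succ, ih]
      exact bt_fix ht0
  have hb0 : bt t ≠ 0 := by
    intro h
    have := bt_re ht
    rw [h, zero_re] at this
    linarith
  have hP0 : ∀ i, 1 ≤ i → P 2 i t ≠ 0 := by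
    intro i hi h0
    have h1 : ∀ k, P 2 (i * k) t = 0 := by
      intro k
      induction k with
      | zero => simp [P_zero]
      | succ k ih =>
        rw [mul_add, mul_one, ← iter_P, ih]
        exact h0
    have h2 := hland (i * n) (by nlinarith)
    rw [h1] at h2
    exact hb0 h2.symm
  have hder : ∀ k, ‖deriv ((fc 2 t)^[k]) t‖ = HL.LL t 1 (1 + k) := by
    intro k
    have h := norm_deriv_iter t 1 k
    rw [P_one le_rfl] at h
    exact h
  have hLpos : ∀ m k, 1 ≤ m → 0 < HL.LL t m k := by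
    intro m k hm
    unfold HL.LL
    apply Finset.prod_pos
    intro i hi
    rw [norm_pos_iff]
    exact mul_ne_zero two_ne_zero (hP0 i (hm.trans (Finset.mem_Ico.1 hi).1))
  obtain ⟨lam, hlam⟩ : ∃ lam, lam = ‖2 * bt t‖ := ⟨_, rfl⟩
  have hlam1 : 1 < lam := by rw [hlam]; exact bt_norm ht
  have hgrow : ∀ k, HL.LL t (n + 1) (n + 1 + k) = lam ^ k := by
    intro k
    induction k with
    | zero => simp [HL.LL]
    | succ k ih =>
      rw [← add_assoc, LL_succ t (by omega), ih, hland (n + 1 + k) (by omega), ← hlam, pow_succ]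
  refine ⟨?_, ?_⟩
  · rw [mem_multibrot_iff le_rfl]
    by_contra hcon
    push Not at hcon
    obtain ⟨k, hk⟩ := hcon
    have h1 : t ∉ multibrotSet 2 := by
      intro hmem
      exact absurd ((mem_multibrot_iff le_rfl t).1 hmem k) (not_le.2 hk)
    apply h1
    intro htend
    have ht' : Tendsto (fun k => P 2 k t) atTop (Bornology.cobounded ℂ) := htend
    rw [← tendsto_norm_atTop_iff_cobounded] at ht'
    have h2 : Tendsto (fun k => ‖P 2 k t‖) atTop (𝓝 ‖bt t‖) := by
      apply tendsto_const_nhds.congr'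
      filter_upwards [eventually_ge_atTop n] with k hk
      rw [hland k hk]
    exact not_tendsto_nhds_of_tendsto_atTop ht' _ h2
  · obtain ⟨D, hD⟩ : ∃ D, D = HL.LL t 1 (n + 1) := ⟨_, rfl⟩
    have hD0 : 0 < D := by rw [hD]; exact hLpos 1 (n + 1) le_rfl
    -- the first terms
    obtain ⟨m, hm0, hm⟩ : ∃ m : ℝ, 0 < m ∧ ∀ k ≤ n, m ≤ HL.LL t 1 (1 + k) := by
      have hne : (Finset.range (n + 1)).Nonempty := ⟨0, by simp⟩
      obtain ⟨i, _, hi⟩ := Finset.exists_min_image (Finset.range (n + 1))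
        (fun k => HL.LL t 1 (1 + k)) hne
      exact ⟨HL.LL t 1 (1 + i), hLpos 1 _ le_rfl, fun k hk => hi k (by simp; omega)⟩
    refine ⟨max 1 (max (lam ^ n / m) (lam ^ n / D)), lam, le_max_left _ _, hlam1, ?_⟩
    intro k
    rw [hder]
    rcases le_or_gt k n with hk | hk
    · have h1 : lam ^ k ≤ lam ^ n := pow_le_pow_right₀ hlam1.le hk
      have h2 := hm k hk
      have h3 : lam ^ n / m ≤ max 1 (max (lam ^ n / m) (lam ^ n / D)) :=
        (le_max_left _ _).trans (le_max_right _ _)
      have h4 : lam ^ n = lam ^ n / m * m := by field_simp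
      have h5 : lam ^ n / m * m ≤ max 1 (max (lam ^ n / m) (lam ^ n / D)) * HL.LL t 1 (1 + k) :=
        mul_le_mul h3 h2 hm0.le (by positivity)
      linarith
    · obtain ⟨j, rfl⟩ : ∃ j, k = n + j := ⟨k - n, by omega⟩
      have h1 : HL.LL t 1 (1 + (n + j)) = D * lam ^ j := by
        rw [hD, ← hgrow j, show 1 + (n + j) = n + 1 + j by ring,
          LL_mul t (by omega) (by omega)]
      have h3 : lam ^ n / D ≤ max 1 (max (lam ^ n / m) (lam ^ n / D)) :=
        (le_max_right _ _).trans (le_max_right _ _)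
      rw [h1, pow_add]
      have h4 : lam ^ n * lam ^ j = lam ^ n / D * (D * lam ^ j) := by field_simp
      rw [h4]
      apply mul_le_mul_of_nonneg_right h3
      positivity

/-- near a boundary point with `1 - 4 c` in the slit plane the critical orbit of some parameter
lands on `bt` -/
theorem exists_land {c : ℂ} (hc : c ∈ frontier (multibrotSet 2)) (hsl : 1 - 4 * c ∈ slitPlane)
    {ε : ℝ} (hε : 0 < ε) : ∃ t ∈ ball c ε, 1 - 4 * t ∈ slitPlane ∧ ∃ n, P 2 n t = bt t := by
  by_contra hcon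
  push Not at hcon
  have hopen : IsOpen {t : ℂ | 1 - 4 * t ∈ slitPlane} :=
    isOpen_slitPlane.preimage (by fun_prop)
  obtain ⟨δ, hδ, hsub⟩ := Metric.isOpen_iff.1 hopen c hsl
  obtain ⟨s, hs⟩ : ∃ s, s = min δ ε := ⟨_, rfl⟩
  have hs0 : 0 < s := by rw [hs]; exact lt_min hδ hε
  have hsl' : ∀ t ∈ ball c s, 1 - 4 * t ∈ slitPlane := by
    intro t ht
    exact hsub (ball_subset_ball (by rw [hs]; exact min_le_left _ _) ht)
  have hcon' : ∀ t ∈ ball c s, ∀ n, P 2 n t ≠ bt t := by
    intro t ht n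
    exact hcon t (ball_subset_ball (by rw [hs]; exact min_le_right _ _) ht) (hsl' t ht) n
  have hcl : IsClosed (multibrotSet 2) := (isCompact_multibrot le_rfl).isClosed
  have hcM : c ∈ multibrotSet 2 := hcl.frontier_subset hc
  have hcb := (mem_multibrot_iff le_rfl c).mp hcM
  obtain ⟨C, hC⟩ : ∃ C : ℝ, C = Real.exp (Real.pi * Real.exp (Real.pi * (4 + 386))) := ⟨_, rfl⟩
  have hmap : ∀ w ∈ ball (0 : ℂ) 1, c + s * w ∈ ball c s := by
    intro w hw
    rw [mem_ball_zero_iff] at hw
    rw [mem_ball_iff_norm, add_sub_cancel_left, norm_mul, Complex.norm_real, Real.norm_eq_abs,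
      abs_of_pos hs0]
    nlinarith
  have hb0 : ∀ t ∈ ball c s, bt t ≠ 0 := by
    intro t ht h
    have := bt_re (hsl' t ht)
    rw [h, zero_re] at this
    linarith
  have hsubM : ball c (s / 2) ⊆ multibrotSet 2 := by
    intro c' hc'
    obtain ⟨w, hw⟩ : ∃ w : ℂ, w = (c' - c) / s := ⟨_, rfl⟩
    have hsC : (s : ℂ) ≠ 0 := by exact_mod_cast hs0.ne'
    have hcw : c + s * w = c' := by rw [hw]; field_simp; ring
    have hwn : w ∈ ball (0 : ℂ) (1 / 2) := by
      rw [mem_ball_zero_iff, hw, norm_div, Complex.norm_real, Real.norm_eq_abs, abs_of_pos hs0,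
        div_lt_iff₀ hs0]
      rw [mem_ball_iff_norm] at hc'
      linarith
    have hc's : c' ∈ ball c s := ball_subset_ball (by linarith) hc'
    have hbound : ∀ n, ‖P 2 n c'‖ ≤ C * ‖bt c'‖ := by
      intro n
      obtain ⟨f, hf⟩ : ∃ f : ℂ → ℂ, f = fun w => P 2 n (c + s * w) / bt (c + s * w) := ⟨_, rfl⟩
      have hfd : DifferentiableOn ℂ f (ball 0 1) := by
        intro x hx
        apply DifferentiableAt.differentiableWithinAt
        have h1 : DifferentiableAt ℂ (fun w : ℂ => c + s * w) x := by fun_prop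
        have h2 : DifferentiableAt ℂ (fun w : ℂ => P 2 n (c + s * w)) x :=
          DifferentiableAt.comp x (differentiable_P 2 n _) h1
        have h3 : DifferentiableAt ℂ (fun w : ℂ => bt (c + s * w)) x :=
          DifferentiableAt.comp x (bt_diff (hsl' _ (hmap x hx))) h1
        rw [hf]
        exact h2.div h3 (hb0 _ (hmap x hx))
      have h1 : ∀ x ∈ ball (0 : ℂ) 1, f x ≠ 1 := by
        intro x hx h
        rw [hf] at h
        simp only at h
        rw [div_eq_one_iff_eq (hb0 _ (hmap x hx))] at h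
        exact hcon' _ (hmap x hx) n h
      have h2 : ∀ x ∈ ball (0 : ℂ) 1, f x ≠ -1 := by
        intro x hx h
        rw [hf] at h
        simp only at h
        rw [div_eq_iff (hb0 _ (hmap x hx)), neg_one_mul] at h
        apply hcon' _ (hmap x hx) (n + 1)
        rw [P_succ, h, neg_sq]
        exact bt_fix (slitPlane_ne_zero (hsl' _ (hmap x hx)))
      have h3 : ‖f 0‖ ≤ 4 := by
        rw [hf]
        simp only [mul_zero, add_zero]
        rw [norm_div, div_le_iff₀ (norm_pos_iff.2 (hb0 c (mem_ball_self hs0)))]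
        have h4 := bt_re hsl
        have h5 := Complex.re_le_norm (bt c)
        have h6 := hcb n
        linarith
      have h4 := H113G.schottky_all f 4 hfd h1 h2 h3 w hwn
      rw [← hC, hf] at h4
      simp only [hcw] at h4
      rw [norm_div, div_le_iff₀ (norm_pos_iff.2 (hb0 c' hc's))] at h4
      exact h4
    intro htend
    have ht' : Tendsto (fun k => P 2 k c') atTop (Bornology.cobounded ℂ) := htend
    rw [← tendsto_norm_atTop_iff_cobounded] at ht'
    obtain ⟨k, hk⟩ := (ht'.eventually (eventually_gt_atTop (C * ‖bt c'‖))).exists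
    exact absurd (hbound k) (not_le.2 hk)
  rw [frontier_eq_closure_inter_closure] at hc
  obtain ⟨t, htM, htd⟩ := Metric.mem_closure_iff.1 hc.2 (s / 2) (by linarith)
  exact htM (hsubM (by rwa [mem_ball, dist_comm]))

end Pool.Agent.Y736.PD
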