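import Pool.Agent.Y736.ML9

set_option autoImplicit false

/-! # Holomorphic continuation of a fixed point and of its multiplier -/

namespace Pool.Agent.Y736.PD

open Complex Metric Set Filter Topology Pool.Agent.H712R2 Pool.Agent.H713R2 N62a1eb23
open Pool.Agent.Y736.HL Pool.Agent.Y736.ML

theorem contDiff_iter (m : ℕ) : ContDiff ℂ 1 (fun p : ℂ × ℂ => (fc 2 p.1)^[m] p.2) := by
  induction m with
  | zero => exact contDiff_snd
  | succ m ih =>
    have e : (fun p : ℂ × ℂ => (fc 2 p.1)^[m + 1] p.2) =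
        fun p : ℂ × ℂ => ((fc 2 p.1)^[m] p.2) ^ 2 + p.1 := by
      funext p
      rw [Function.iterate_succ_apply']
      rfl
    rw [e]
    exact (ih.pow 2).add contDiff_fst

/-- holomorphic continuation of a fixed point -/
theorem exists_hol {t₀ z₀ : ℂ} {m : ℕ} (hfix : (fc 2 t₀)^[m] z₀ = z₀)
    (hne : deriv ((fc 2 t₀)^[m]) z₀ ≠ 1) : ∃ (δ : ℝ) (z : ℂ → ℂ), 0 < δ ∧
      DifferentiableOn ℂ z (ball t₀ δ) ∧ z t₀ = z₀ ∧
      (∀ t ∈ ball t₀ δ, (fc 2 t)^[m] (z t) = z t) ∧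
      DifferentiableOn ℂ (fun t => deriv ((fc 2 t)^[m]) (z t)) (ball t₀ δ) := by
  obtain ⟨F, hF⟩ : ∃ F : ℂ × ℂ → ℂ, F = fun p => (fc 2 p.1)^[m] p.2 - p.2 := ⟨_, rfl⟩
  have hFc : ContDiff ℂ 1 F := by
    rw [hF]
    exact (contDiff_iter m).sub contDiff_snd
  have hFd : HasFDerivAt F (fderiv ℂ F (t₀, z₀)) (t₀, z₀) :=
    (hFc.differentiable (by norm_num) _).hasFDerivAt
  obtain ⟨L, hL⟩ : ∃ L, L = fderiv ℂ F (t₀, z₀) := ⟨_, rfl⟩
  rw [← hL] at hFd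
  obtain ⟨μ, hμ⟩ : ∃ μ, μ = deriv ((fc 2 t₀)^[m]) z₀ - 1 := ⟨_, rfl⟩
  have hμ0 : μ ≠ 0 := by
    rw [hμ]
    exact sub_ne_zero.2 hne
  have hL1 : L (0, 1) = μ := by
    have h1 : HasDerivAt (fun z : ℂ => ((t₀, z) : ℂ × ℂ)) (0, 1) z₀ :=
      (hasDerivAt_const z₀ t₀).prodMk (hasDerivAt_id z₀)
    have h2 := hFd.comp_hasDerivAt z₀ h1
    have h3 : HasDerivAt (F ∘ fun z : ℂ => ((t₀, z) : ℂ × ℂ)) μ z₀ := by
      rw [hμ, hF]
      exact ((differentiable_iter t₀ m z₀).hasDerivAt).sub (hasDerivAt_id z₀)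
    exact h2.unique h3
  have hL2 : ∀ τ ζ : ℂ, L (τ, ζ) = τ * L (1, 0) + ζ * μ := by
    intro τ ζ
    have e : ((τ, ζ) : ℂ × ℂ) = τ • ((1, 0) : ℂ × ℂ) + ζ • ((0, 1) : ℂ × ℂ) := by
      ext <;> simp
    rw [e, map_add, map_smul, map_smul, hL1, smul_eq_mul, smul_eq_mul]
  obtain ⟨Φ, hΦ⟩ : ∃ Φ : ℂ × ℂ → ℂ × ℂ, Φ = fun p => (p.1, F p) := ⟨_, rfl⟩
  have hΦc : ContDiff ℂ 1 Φ := by
    rw [hΦ]
    exact contDiff_fst.prodMk hFc
  obtain ⟨A, hA⟩ : ∃ A : ℂ × ℂ →L[ℂ] ℂ × ℂ, A = (ContinuousLinearMap.fst ℂ ℂ ℂ).prod L := ⟨_, rfl⟩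
  obtain ⟨B, hB⟩ : ∃ B : ℂ × ℂ →L[ℂ] ℂ × ℂ, B = (ContinuousLinearMap.fst ℂ ℂ ℂ).prod
    (μ⁻¹ • (ContinuousLinearMap.snd ℂ ℂ ℂ - L (1, 0) • ContinuousLinearMap.fst ℂ ℂ ℂ)) :=
    ⟨_, rfl⟩
  have hAB1 : Function.LeftInverse B A := by
    rintro ⟨τ, ζ⟩
    rw [hA, hB]
    simp only [ContinuousLinearMap.prod_apply, ContinuousLinearMap.coe_fst',
      ContinuousLinearMap.smul_apply, ContinuousLinearMap.sub_apply,
      ContinuousLinearMap.coe_snd', smul_eq_mul]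
    rw [hL2]
    ext
    · rfl
    · simp only
      field_simp
      ring
  have hAB2 : Function.RightInverse B A := by
    rintro ⟨τ, ζ⟩
    rw [hA, hB]
    simp only [ContinuousLinearMap.prod_apply, ContinuousLinearMap.coe_fst',
      ContinuousLinearMap.smul_apply, ContinuousLinearMap.sub_apply,
      ContinuousLinearMap.coe_snd', smul_eq_mul]
    rw [hL2]
    ext
    · rfl
    · simp only
      field_simp
      ring
  obtain ⟨E, hE⟩ : ∃ E : (ℂ × ℂ) ≃L[ℂ] (ℂ × ℂ), (E : ℂ × ℂ →L[ℂ] ℂ × ℂ) = A :=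
    ⟨ContinuousLinearEquiv.equivOfInverse A B hAB1 hAB2, rfl⟩
  have hΦd : HasFDerivAt Φ (E : ℂ × ℂ →L[ℂ] ℂ × ℂ) (t₀, z₀) := by
    rw [hE, hA, hΦ]
    exact hasFDerivAt_fst.prodMk hFd
  have hcd : ContDiffAt ℂ 1 Φ (t₀, z₀) := hΦc.contDiffAt
  obtain ⟨Q, hQ⟩ : ∃ Q, Q = hcd.toOpenPartialHomeomorph Φ hΦd one_ne_zero := ⟨_, rfl⟩
  have hQc : (Q : ℂ × ℂ → ℂ × ℂ) = Φ := by
    rw [hQ]
    exact hcd.toOpenPartialHomeomorph_coe hΦd one_ne_zero
  have hQs : ((t₀, z₀) : ℂ × ℂ) ∈ Q.source := by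
    rw [hQ]
    exact hcd.mem_toOpenPartialHomeomorph_source hΦd one_ne_zero
  have hQt : Φ (t₀, z₀) ∈ Q.target := by
    rw [hQ]
    exact hcd.image_mem_toOpenPartialHomeomorph_target hΦd one_ne_zero
  have hQi : ContDiffAt ℂ 1 Q.symm (Φ (t₀, z₀)) := by
    rw [hQ]
    exact hcd.to_localInverse hΦd one_ne_zero
  have hΦ0 : Φ (t₀, z₀) = (t₀, 0) := by
    rw [hΦ, hF]
    simp only
    rw [hfix, sub_self]
  have hQ0 : Q.symm (t₀, 0) = (t₀, z₀) := by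
    rw [← hΦ0, ← hQc]
    exact Q.left_inv hQs
  rw [hΦ0] at hQt hQi
  obtain ⟨z, hz⟩ : ∃ z : ℂ → ℂ, z = fun t => (Q.symm (t, 0)).2 := ⟨_, rfl⟩
  have hz0 : z t₀ = z₀ := by
    rw [hz]
    simp only
    rw [hQ0]
  have hzc : ContDiffAt ℂ 1 z t₀ := by
    rw [hz]
    have h1 : ContDiffAt ℂ 1 (fun t : ℂ => ((t, 0) : ℂ × ℂ)) t₀ :=
      contDiffAt_id.prodMk contDiffAt_const
    have h2 : ContDiffAt ℂ 1 (fun t : ℂ => Q.symm (t, 0)) t₀ := ContDiffAt.comp t₀ hQi h1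
    exact h2.snd
  have hev1 : ∀ᶠ t in 𝓝 t₀, DifferentiableAt ℂ z t := by
    filter_upwards [hzc.eventually (by norm_num)] with t ht
    exact ht.differentiableAt (by norm_num)
  have hev2 : ∀ᶠ t in 𝓝 t₀, (fc 2 t)^[m] (z t) = z t := by
    have h1 : Tendsto (fun t : ℂ => ((t, 0) : ℂ × ℂ)) (𝓝 t₀) (𝓝 (t₀, 0)) :=
      (continuous_id.prodMk continuous_const).tendsto t₀
    filter_upwards [h1.eventually (Q.open_target.mem_nhds hQt)] with t ht
    have h2 := Q.right_inv ht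
    rw [hQc, hΦ, hF] at h2
    simp only [Prod.mk.injEq] at h2
    obtain ⟨h3, h4⟩ := h2
    rw [h3] at h4
    rw [hz]
    exact sub_eq_zero.1 h4
  obtain ⟨δ, hδ, hball⟩ := Metric.eventually_nhds_iff_ball.1 (hev1.and hev2)
  have hdz : DifferentiableOn ℂ z (ball t₀ δ) :=
    fun t ht => (hball t ht).1.differentiableWithinAt
  refine ⟨δ, z, hδ, hdz, hz0, fun t ht => (hball t ht).2, ?_⟩
  refine (Pool.Agent.Y93.ML.diff_P (n := 2) hdz m).congr fun t _ => ?_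
  exact Pool.Agent.Y93.ML.deriv_fc t (z t) m

/-- simple satellite parameters: the multiplier has a nonzero derivative -/
theorem exists_simple {t₀ z₀ : ℂ} {m q : ℕ} (hm : 1 ≤ m) (hq : 1 ≤ q)
    (hfix : (fc 2 t₀)^[m] z₀ = z₀) (hne : deriv ((fc 2 t₀)^[m]) z₀ ≠ 1)
    (hder : deriv ((fc 2 t₀)^[m]) z₀ ^ q = 1) {ε : ℝ} (hε : 0 < ε) :
    ∃ t₁ ∈ ball t₀ ε, ∃ (q₁ : ℕ) (δ : ℝ) (z : ℂ → ℂ), 1 ≤ q₁ ∧ 0 < δ ∧
      DifferentiableOn ℂ z (ball t₁ δ) ∧ (∀ t ∈ ball t₁ δ, (fc 2 t)^[m] (z t) = z t) ∧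
      DifferentiableOn ℂ (fun t => deriv ((fc 2 t)^[m]) (z t)) (ball t₁ δ) ∧
      deriv ((fc 2 t₁)^[m]) (z t₁) ≠ 1 ∧ deriv ((fc 2 t₁)^[m]) (z t₁) ^ q₁ = 1 ∧
      deriv (fun t => deriv ((fc 2 t)^[m]) (z t)) t₁ ≠ 0 := by
  obtain ⟨δ, z, hδ, hzd, hz0, hzf, hld⟩ := exists_hol hfix hne
  obtain ⟨l, hl⟩ : ∃ l : ℂ → ℂ, l = fun t => deriv ((fc 2 t)^[m]) (z t) := ⟨_, rfl⟩
  rw [← hl] at hld
  have hl0 : l t₀ = deriv ((fc 2 t₀)^[m]) z₀ := by
    rw [hl]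
    simp only
    rw [hz0]
  have han : AnalyticAt ℂ l t₀ := hld.analyticAt (isOpen_ball.mem_nhds (mem_ball_self hδ))
  have hn1 : ‖l t₀‖ = 1 := by
    rw [hl0]
    exact norm_eq_one_of_pow_eq_one hder (by omega)
  -- the multiplier is not constant
  have hnc : ¬ ∀ᶠ t in 𝓝 t₀, l t = l t₀ := by
    intro hcon
    obtain ⟨r, hr, hball⟩ := Metric.eventually_nhds_iff_ball.1
      (hcon.and (Metric.ball_mem_nhds t₀ hδ))
    obtain ⟨t, ht, htM⟩ := Pool.Agent.Y93.ML.near_outside' hm hfix (by rw [← hl0]; exact hn1)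
      (fun c z N hN h1 h2 => attracting hN h1 h2) hr
    obtain ⟨h1, h2⟩ := hball t ht
    have h3 := parabolic_all (c := t) (z₀ := z t) (q := q) hm hq (hzf t h2) (by
      have h4 : deriv ((fc 2 t)^[m]) (z t) = l t := by rw [hl]
      rw [h4, h1, hl0]
      exact hder)
    exact htM h3.1
  -- isolated critical points of the multiplier
  have hder0 : ∀ᶠ t in 𝓝[≠] t₀, deriv l t ≠ 0 := by
    rcases han.deriv.eventually_eq_zero_or_eventually_ne_zero with h | h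
    · exfalso
      apply hnc
      obtain ⟨r, hr, hball⟩ := Metric.eventually_nhds_iff_ball.1
        (h.and (Metric.ball_mem_nhds t₀ hδ))
      filter_upwards [Metric.ball_mem_nhds t₀ hr] with t ht
      have h1 : DifferentiableOn ℂ l (ball t₀ r) := fun x hx =>
        (hld x (hball x hx).2).mono_of_mem_nhdsWithin (by
          apply mem_nhdsWithin_of_mem_nhds
          exact isOpen_ball.mem_nhds (hball x hx).2)
      exact (convex_ball t₀ r).is_const_of_fderivWithin_eq_zero (𝕜 := ℂ) h1 (fun x hx => by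
        rw [fderivWithin_of_isOpen isOpen_ball hx]
        ext
        simp only [ContinuousLinearMap.zero_apply]
        have := (hball x hx).1
        rw [← fderiv_apply_one_eq_deriv] at this
        exact this) ht (mem_ball_self hr)
    · exact h
  -- the image of a small ball is a neighbourhood of `l t₀`
  obtain ⟨r, hr, hball⟩ := Metric.eventually_nhds_iff_ball.1
    (((eventually_nhdsWithin_iff.1 hder0).and (Metric.ball_mem_nhds t₀ hδ)).and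
      (Metric.ball_mem_nhds t₀ hε))
  have hopen : l '' ball t₀ r ∈ 𝓝 (l t₀) := by
    rcases han.eventually_constant_or_nhds_le_map_nhds with h | h
    · exact absurd h hnc
    · exact h (image_mem_map (Metric.ball_mem_nhds t₀ hr))
  -- roots of unity near `l t₀`
  obtain ⟨s, hs1, hs2⟩ := Pool.Agent.Y932.ML.exists_roots (l t₀) hn1
  have hne' : ∀ᶠ j in atTop, s j ∈ l '' ball t₀ r := hs1.eventually hopen
  -- two different roots: use products with small powers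
  obtain ⟨w, hw1, hw2, hw3, qw, hqw, hw4⟩ : ∃ w ∈ l '' ball t₀ r, w ≠ l t₀ ∧ w ≠ 1 ∧
      ∃ qw : ℕ, 1 ≤ qw ∧ w ^ qw = 1 := by
    obtain ⟨ρ, hρ, hρball⟩ := Metric.mem_nhds_iff.1 hopen
    have h1 : Tendsto (fun j : ℕ => l t₀ * Complex.exp ((2 * Real.pi / ((j : ℝ) + 1) : ℝ) * I))
        atTop (𝓝 (l t₀ * Complex.exp ((0 : ℝ) * I))) := by
      apply Tendsto.const_mul
      have h2 : Tendsto (fun j : ℕ => 2 * Real.pi / ((j : ℝ) + 1)) atTop (𝓝 0) := by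
        have := (tendsto_one_div_add_atTop_nhds_zero_nat (𝕜 := ℝ)).const_mul (2 * Real.pi)
        rw [mul_zero] at this
        refine this.congr fun j => ?_
        ring
      have h3 : Continuous fun x : ℝ => Complex.exp ((x : ℂ) * I) := by fun_prop
      exact (h3.tendsto 0).comp h2
    rw [Complex.ofReal_zero, zero_mul, Complex.exp_zero, mul_one] at h1
    have h4 : ∀ᶠ j : ℕ in atTop, l t₀ * Complex.exp ((2 * Real.pi / ((j : ℝ) + 1) : ℝ) * I) ≠ 1 :=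
      h1.eventually_ne (by rw [hl0]; exact hne)
    obtain ⟨j, hj1, hj2, hj3⟩ := ((h1.eventually hopen).and (h4.and (eventually_ge_atTop 1))).exists
    have hlt0 : l t₀ ≠ 0 := by
      intro h
      rw [h, norm_zero] at hn1
      exact zero_ne_one hn1
    refine ⟨_, hj1, ?_, hj2, q * (j + 1), Nat.mul_pos hq (by omega), ?_⟩
    · intro h
      have h5 : Complex.exp ((2 * Real.pi / ((j : ℝ) + 1) : ℝ) * I) = 1 := by
        have := mul_left_cancel₀ hlt0 (h.trans (mul_one _).symm)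
        exact this
      rw [Complex.exp_eq_one_iff] at h5
      obtain ⟨n, hn⟩ := h5
      have h6 : ((2 * Real.pi / ((j : ℝ) + 1) : ℝ) : ℂ) * I = ((n : ℝ) * (2 * Real.pi) : ℝ) * I := by
        rw [hn]
        push_cast
        ring
      have h7 : 2 * Real.pi / ((j : ℝ) + 1) = (n : ℝ) * (2 * Real.pi) := by
        have := mul_right_cancel₀ I_ne_zero h6
        exact_mod_cast this
      have hpi := Real.pi_pos
      have h8 : (n : ℝ) * ((j : ℝ) + 1) = 1 := by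
        field_simp at h7
        linarith
      have h9 : n * ((j : ℤ) + 1) = 1 := by exact_mod_cast h8
      have h10 : ((j : ℤ) + 1) ∣ 1 := ⟨n, by rw [mul_comm]; exact h9.symm⟩
      have h11 := Int.le_of_dvd one_pos h10
      omega
    · rw [mul_pow, pow_mul, hl0, hder, one_pow, one_mul, mul_comm q, pow_mul, ← Complex.exp_nat_mul]
      have e : ((j + 1 : ℕ) : ℂ) * (((2 * Real.pi / ((j : ℝ) + 1) : ℝ) : ℂ) * I) =
          2 * Real.pi * I := by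
        push_cast
        have : ((j : ℂ) + 1) ≠ 0 := by exact_mod_cast Nat.succ_ne_zero j
        field_simp
      rw [e, Complex.exp_two_pi_mul_I, one_pow]
  obtain ⟨t₁, ht₁, htw⟩ := hw1
  have htne : t₁ ≠ t₀ := by
    rintro rfl
    exact hw2 htw.symm
  obtain ⟨⟨h1, h2⟩, h3⟩ := hball t₁ ht₁
  obtain ⟨δ₁, hδ₁, hsub⟩ := Metric.isOpen_iff.1 isOpen_ball t₁ h2
  have hlt : deriv ((fc 2 t₁)^[m]) (z t₁) = w := by
    rw [← htw, hl]
  refine ⟨t₁, h3, qw, δ₁, z, hqw, hδ₁, hzd.mono hsub, fun t ht => hzf t (hsub ht), ?_, ?_, ?_, ?_⟩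
  · rw [← hl]
    exact hld.mono hsub
  · rw [hlt]
    exact hw3
  · rw [hlt]
    exact hw4
  · rw [← hl]
    exact h1 htne

end Pool.Agent.Y736.PD
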