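import Pool.Agent.Y736.PD2

set_option autoImplicit false

/-! # The bifurcated cycle near a simple satellite parameter -/

namespace Pool.Agent.Y736.PD

open Complex Metric Set Filter Topology Pool.Agent.H712R2 Pool.Agent.H713R2 N62a1eb23
open Pool.Agent.Y736.HL Pool.Agent.Y736.ML

/-- a zero in a disc from a comparison of the centre with the circle -/
theorem exists_zero {h : ℂ → ℂ} {V₁ : ℂ} {r b : ℝ} (hr : 0 < r) (hb : 0 < b)
    (hd : ∀ V ∈ closedBall V₁ r, DifferentiableAt ℂ h V) (hs : ∀ V ∈ sphere V₁ r, b ≤ ‖h V‖)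
    (hc : ‖h V₁‖ < b) : ∃ V ∈ closedBall V₁ r, h V = 0 := by
  by_contra hcon
  push Not at hcon
  have hinv : DiffContOnCl ℂ (fun x => (h x)⁻¹) (ball V₁ r) := by
    constructor
    · intro x hx
      exact ((hd x (ball_subset_closedBall hx)).inv
        (hcon x (ball_subset_closedBall hx))).differentiableWithinAt
    · rw [closure_ball _ hr.ne']
      intro x hx
      exact ((hd x hx).inv (hcon x hx)).continuousAt.continuousWithinAt
  have h1 := Complex.norm_le_of_forall_mem_frontier_norm_le isBounded_ball hinv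
    (C := b⁻¹) (fun x hx => by
      rw [frontier_ball _ hr.ne'] at hx
      rw [norm_inv]
      exact inv_anti₀ hb (hs x hx)) (subset_closure (mem_ball_self hr))
  rw [norm_inv] at h1
  have h2 : 0 < ‖h V₁‖ := norm_pos_iff.2 (hcon V₁ (mem_closedBall_self hr.le))
  have h3 := (inv_le_inv₀ h2 hb).1 h1
  linarith

/-- the abstract bifurcation lemma -/
theorem attr_abs {a : ℂ → ℂ} {ν : ℕ} (hν : 1 ≤ ν) (ha : AnalyticAt ℂ a 0) (ha0 : a 0 ≠ 0)
    {C₂ Cμ ε r₀ : ℝ} (hC₂ : 0 < C₂) (hCμ : 0 < Cμ) (hε : 0 < ε) (hr₀ : 0 < r₀) :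
    ∃ δ : ℝ, 0 < δ ∧ ∀ (ρ : ℝ) (D : ℂ → ℂ) (μ : ℂ), 0 < ρ → ρ < δ →
      DifferentiableOn ℂ D (ball 0 1) → (∀ V ∈ ball (0 : ℂ) 1, ‖deriv D V‖ ≤ C₂ * ρ) →
      D 0 = 0 → deriv D 0 = μ → ε * ρ ≤ μ.re → ‖μ‖ ≤ Cμ * ρ →
      ∃ V : ℂ, ‖V‖ < r₀ ∧ ‖V‖ < 1 ∧ AnalyticAt ℂ a V ∧ V ^ (ν + 1) * a V + D V = 0 ∧
        ‖1 + ((ν + 1 : ℂ) * (V ^ ν * a V) + V ^ (ν + 1) * deriv a V) + deriv D V‖ < 1 := by
  have hA₀ : 0 < ‖a 0‖ := norm_pos_iff.2 ha0
  obtain ⟨A₀, hA₀'⟩ : ∃ A₀, A₀ = ‖a 0‖ := ⟨_, rfl⟩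
  rw [← hA₀'] at hA₀
  have hνR : (1 : ℝ) ≤ ν := by exact_mod_cast hν
  obtain ⟨κ, hκ⟩ : ∃ κ : ℝ, κ = 1 / (2 * 4 ^ ν) := ⟨_, rfl⟩
  have hκ0 : 0 < κ := by rw [hκ]; positivity
  have hκ1 : κ ≤ 1 / 8 := by
    rw [hκ]
    apply one_div_le_one_div_of_le (by norm_num)
    have : (4 : ℝ) ^ 1 ≤ 4 ^ ν := pow_le_pow_right₀ (by norm_num) hν
    linarith
  obtain ⟨η, hη⟩ : ∃ η : ℝ, η = κ * A₀ / (16 * 2 ^ ν) := ⟨_, rfl⟩
  have hη0 : 0 < η := by rw [hη]; positivity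
  obtain ⟨A', hA'⟩ : ∃ A', A' = ‖deriv a 0‖ + 1 := ⟨_, rfl⟩
  have hA'0 : 0 < A' := by rw [hA']; positivity
  have hev : ∀ᶠ V in 𝓝 (0 : ℂ), AnalyticAt ℂ a V ∧ ‖a V - a 0‖ < η ∧ ‖deriv a V‖ < A' := by
    have h1 := ha.eventually_analyticAt
    have h2 : ∀ᶠ V in 𝓝 (0 : ℂ), ‖a V - a 0‖ < η := by
      have h3 : Tendsto (fun V => ‖a V - a 0‖) (𝓝 0) (𝓝 ‖a 0 - a 0‖) :=
        (ha.continuousAt.tendsto.sub_const (a 0)).norm
      rw [sub_self, norm_zero] at h3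
      exact h3.eventually (gt_mem_nhds hη0)
    have h3 : ∀ᶠ V in 𝓝 (0 : ℂ), ‖deriv a V‖ < A' :=
      ha.deriv.continuousAt.norm.tendsto.eventually (gt_mem_nhds (by rw [hA']; linarith))
    filter_upwards [h1, h2, h3] with V h4 h5 h6 using ⟨h4, h5, h6⟩
  obtain ⟨ra, hra, hball⟩ := Metric.eventually_nhds_iff_ball.1 hev
  obtain ⟨C₃, hC₃⟩ : ∃ C₃ : ℝ, C₃ = (ν + 2) * (4 * C₂) + 2 ^ (ν + 1) * (Cμ / A₀) * A' := ⟨_, rfl⟩
  have hC₃0 : 0 < C₃ := by rw [hC₃]; positivity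
  obtain ⟨Rs, hRs⟩ : ∃ Rs, Rs = min (min (ra / 4) (r₀ / 4))
    (min (1 / 8) (min (ε * κ / (64 * C₂)) (ε / (2 * C₃)))) := ⟨_, rfl⟩
  have hRs0 : 0 < Rs := by rw [hRs]; positivity
  have hRs1 : Rs ≤ ra / 4 := by rw [hRs]; exact (min_le_left _ _).trans (min_le_left _ _)
  have hRs2 : Rs ≤ r₀ / 4 := by rw [hRs]; exact (min_le_left _ _).trans (min_le_right _ _)
  have hRs3 : Rs ≤ 1 / 8 := by rw [hRs]; exact (min_le_right _ _).trans (min_le_left _ _)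
  have hRs4 : Rs ≤ ε * κ / (64 * C₂) := by
    rw [hRs]
    exact (min_le_right _ _).trans ((min_le_right _ _).trans (min_le_left _ _))
  have hRs5 : Rs ≤ ε / (2 * C₃) := by
    rw [hRs]
    exact (min_le_right _ _).trans ((min_le_right _ _).trans (min_le_right _ _))
  obtain ⟨C₄, hC₄⟩ : ∃ C₄ : ℝ, C₄ = ν * Cμ + ε := ⟨_, rfl⟩
  have hC₄0 : 0 < C₄ := by rw [hC₄]; positivity
  refine ⟨min (A₀ * Rs ^ ν / Cμ) (ε / C₄ ^ 2), by positivity, ?_⟩
  intro ρ D μ hρ0 hρδ hDd hDb hD0 hD1 hμ1 hμ2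
  have hρ1 : ρ < A₀ * Rs ^ ν / Cμ := hρδ.trans_le (min_le_left _ _)
  have hρ2 : ρ < ε / C₄ ^ 2 := hρδ.trans_le (min_le_right _ _)
  rw [lt_div_iff₀ hCμ] at hρ1
  rw [lt_div_iff₀ (by positivity)] at hρ2
  have hμε : ε * ρ ≤ ‖μ‖ := hμ1.trans (Complex.re_le_norm μ)
  have hερ : 0 < ε * ρ := by positivity
  have hμ0 : 0 < ‖μ‖ := by linarith
  -- the approximate solution
  obtain ⟨V₁, hV₁⟩ := IsAlgClosed.exists_pow_nat_eq (-μ / a 0) (show 0 < ν by omega)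
  have hV₁n : ‖V₁‖ ^ ν * A₀ = ‖μ‖ := by
    rw [← norm_pow, hV₁, norm_div, norm_neg, ← hA₀']
    field_simp
  obtain ⟨R₁, hR₁⟩ : ∃ R₁, R₁ = ‖V₁‖ := ⟨_, rfl⟩
  rw [← hR₁] at hV₁n
  have hR₁0 : 0 < R₁ := by
    rw [hR₁, norm_pos_iff]
    rintro rfl
    rw [hR₁, norm_zero, zero_pow (by omega), zero_mul] at hV₁n
    linarith
  have hR₁s : R₁ < Rs := by
    by_contra hcon
    push Not at hcon
    have h1 : Rs ^ ν ≤ R₁ ^ ν := pow_le_pow_left₀ hRs0.le hcon ν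
    have h2 : Rs ^ ν * A₀ ≤ R₁ ^ ν * A₀ := mul_le_mul_of_nonneg_right h1 hA₀.le
    linarith
  -- bounds for `D`
  have hDd' : DifferentiableOn ℂ (deriv D) (ball 0 1) := hDd.deriv isOpen_ball
  have hDb' : ∀ V ∈ ball (0 : ℂ) 1, ‖deriv D V - μ‖ ≤ 2 * C₂ * ρ * ‖V‖ := by
    intro V hV
    have hmaps : MapsTo (deriv D) (ball 0 1) (closedBall (deriv D 0) (2 * C₂ * ρ)) := by
      intro x hx
      rw [mem_closedBall_iff_norm]
      have h1 := norm_sub_le (deriv D x) (deriv D 0)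
      have h2 := hDb x hx
      have h3 := hDb 0 (mem_ball_self one_pos)
      linarith
    have h1 := Complex.dist_le_div_mul_dist_of_mapsTo_ball hDd' hmaps hV
    rw [dist_eq_norm, dist_eq_norm, sub_zero, div_one, hD1] at h1
    exact h1
  have hDq : ∀ V ∈ ball (0 : ℂ) 1, ‖D V - μ * V‖ ≤ 2 * C₂ * ρ * ‖V‖ * ‖V‖ := by
    intro V hV
    rw [mem_ball_zero_iff] at hV
    have h1 := Convex.norm_image_sub_le_of_norm_deriv_le (𝕜 := ℂ)
      (f := fun y => D y - μ * y) (C := 2 * C₂ * ρ * ‖V‖)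
      (s := closedBall 0 ‖V‖) (x := 0) (y := V)
      (fun y hy => by
        rw [mem_closedBall_zero_iff] at hy
        have hy1 : y ∈ ball (0 : ℂ) 1 := by rw [mem_ball_zero_iff]; linarith
        exact (hDd.differentiableAt (isOpen_ball.mem_nhds hy1)).sub
          (differentiableAt_id.const_mul μ)) (fun y hy => by
        rw [mem_closedBall_zero_iff] at hy
        have hy1 : y ∈ ball (0 : ℂ) 1 := by rw [mem_ball_zero_iff]; linarith
        have h2 : HasDerivAt (fun y => D y - μ * y) (deriv D y - μ * 1) y :=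
          (hDd.differentiableAt (isOpen_ball.mem_nhds hy1)).hasDerivAt.sub
            ((hasDerivAt_id y).const_mul μ)
        rw [h2.deriv, mul_one]
        refine (hDb' y hy1).trans ?_
        exact mul_le_mul_of_nonneg_left hy (by positivity))
      (convex_closedBall 0 ‖V‖) (mem_closedBall_self (norm_nonneg V))
      (by rw [mem_closedBall_zero_iff])
    simp only [mul_zero, sub_zero, hD0] at h1
    exact h1
  -- the equation
  obtain ⟨h, hh⟩ : ∃ h : ℂ → ℂ, h = fun V => V ^ ν * a V + μ + (D V - μ * V) / V := ⟨_, rfl⟩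
  have hV₁0 : V₁ ≠ 0 := by
    rw [hR₁] at hR₁0
    exact norm_pos_iff.1 hR₁0
  have hdisc : ∀ V ∈ closedBall V₁ (κ * R₁), V ≠ 0 ∧ ‖V‖ ≤ 2 * R₁ ∧ ‖V‖ < 1 ∧ ‖V‖ < ra ∧
      ‖V‖ < r₀ := by
    intro V hV
    rw [mem_closedBall_iff_norm] at hV
    have h1 := norm_add_le (V - V₁) V₁
    rw [sub_add_cancel, ← hR₁] at h1
    have h2 : κ * R₁ ≤ 1 / 8 * R₁ := mul_le_mul_of_nonneg_right hκ1 hR₁0.le
    refine ⟨?_, by linarith, by linarith, by linarith, by linarith⟩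
    rintro rfl
    rw [zero_sub, norm_neg, ← hR₁] at hV
    linarith
  have hquot : ∀ V ∈ closedBall V₁ (κ * R₁), ‖(D V - μ * V) / V‖ ≤ 2 * C₂ * ρ * ‖V‖ := by
    intro V hV
    obtain ⟨h1, h2, h3, _, _⟩ := hdisc V hV
    have hVn : 0 < ‖V‖ := norm_pos_iff.2 h1
    rw [norm_div, div_le_iff₀ hVn]
    exact hDq V (by rw [mem_ball_zero_iff]; exact h3)
  have hpow : ∀ V ∈ closedBall V₁ (κ * R₁), ‖V‖ ^ ν ≤ 2 ^ ν * (‖μ‖ / A₀) := by
    intro V hV
    obtain ⟨_, h2, _, _, _⟩ := hdisc V hV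
    have h3 := pow_le_pow_left₀ (norm_nonneg V) h2 ν
    rw [mul_pow] at h3
    have e : R₁ ^ ν = ‖μ‖ / A₀ := by
      rw [eq_div_iff hA₀.ne']
      exact hV₁n
    rwa [e] at h3
  have hVa : ∀ V ∈ closedBall V₁ (κ * R₁), ‖V ^ ν * (a V - a 0)‖ ≤ ‖μ‖ * κ / 16 := by
    intro V hV
    obtain ⟨_, _, _, h4, _⟩ := hdisc V hV
    have h5 := (hball V (by rw [mem_ball_zero_iff]; exact h4)).2.1
    rw [norm_mul, norm_pow]
    have h6 := mul_le_mul (hpow V hV) h5.le (norm_nonneg _) (by positivity)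
    refine h6.trans (le_of_eq ?_)
    rw [hη]
    field_simp
  have hsmall : 2 * C₂ * ρ * (2 * R₁) ≤ ‖μ‖ * κ / 16 := by
    have h1 : R₁ ≤ ε * κ / (64 * C₂) := hR₁s.le.trans hRs4
    rw [le_div_iff₀ (by positivity)] at h1
    have h2 : 2 * C₂ * ρ * (2 * R₁) = R₁ * (64 * C₂) * ρ / 16 := by ring
    rw [h2]
    have h3 : R₁ * (64 * C₂) * ρ ≤ ε * κ * ρ := mul_le_mul_of_nonneg_right h1 hρ0.le
    have h4 : ε * κ * ρ ≤ ‖μ‖ * κ := by
      have := mul_le_mul_of_nonneg_right hμε hκ0.le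
      linarith
    linarith
  have hV₁mem : V₁ ∈ closedBall V₁ (κ * R₁) := mem_closedBall_self (by positivity)
  have hdec : ∀ V, h V = a 0 * (V ^ ν - V₁ ^ ν) + (V ^ ν * (a V - a 0) + (D V - μ * V) / V) := by
    intro V
    rw [hh, hV₁]
    field_simp
    ring
  obtain ⟨V, hV, hV0⟩ : ∃ V ∈ closedBall V₁ (κ * R₁), h V = 0 := by
    apply exists_zero (b := ‖μ‖ * κ / 4) (by positivity) (by positivity)
    · intro V hV
      obtain ⟨h1, h2, h3, h4, _⟩ := hdisc V hV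
      have h5 := (hball V (by rw [mem_ball_zero_iff]; exact h4)).1.differentiableAt
      have h6 : DifferentiableAt ℂ D V :=
        hDd.differentiableAt (isOpen_ball.mem_nhds (by rw [mem_ball_zero_iff]; exact h3))
      rw [hh]
      have h7 : DifferentiableAt ℂ (fun V : ℂ => V ^ ν * a V + μ) V :=
        ((differentiableAt_id.pow ν).mul h5).add_const μ
      have h8 : DifferentiableAt ℂ (fun V : ℂ => (D V - μ * V) / V) V :=
        (h6.sub (differentiableAt_id.const_mul μ)).div differentiableAt_id h1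
      exact h7.add h8
    · intro V hV
      have hV' : V ∈ closedBall V₁ (κ * R₁) := sphere_subset_closedBall hV
      obtain ⟨_, h2, _, _, _⟩ := hdisc V hV'
      rw [mem_sphere_iff_norm] at hV
      obtain ⟨s, hs⟩ : ∃ s, s = (V - V₁) / V₁ := ⟨_, rfl⟩
      have hsn : ‖s‖ = κ := by
        rw [hs, norm_div, hV, ← hR₁]
        field_simp
      have hVs : V = V₁ * (1 + s) := by
        rw [hs]
        field_simp
        ring
      have h3 : V ^ ν - V₁ ^ ν = V₁ ^ ν * ((1 + s) ^ ν - 1) := by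
        rw [hVs, mul_pow]
        ring
      have h4 : κ / 2 ≤ ‖(1 + s) ^ ν - 1‖ := by
        have h5 := one_add_pow_sub (s := s) (by rw [hsn]; linarith) ν
        have h6 : (ν : ℂ) * s = ((1 + s) ^ ν - 1) - ((1 + s) ^ ν - 1 - ν * s) := by ring
        have h7 : ‖(ν : ℂ) * s‖ ≤ ‖(1 + s) ^ ν - 1‖ + ‖(1 + s) ^ ν - 1 - ν * s‖ := by
          nth_rewrite 1 [h6]
          exact norm_sub_le _ _
        rw [norm_mul, Complex.norm_natCast, hsn] at h7
        rw [hsn] at h5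
        have h8 : (4 : ℝ) ^ ν * κ ^ 2 = κ / 2 := by
          have : κ * (2 * 4 ^ ν) = 1 := by
            rw [hκ]
            field_simp
          nlinarith
        have h9 : κ ≤ ν * κ := by nlinarith
        linarith
      have h5 : ‖a 0 * (V ^ ν - V₁ ^ ν)‖ = ‖μ‖ * ‖(1 + s) ^ ν - 1‖ := by
        rw [h3, norm_mul, norm_mul, norm_pow, ← hR₁, ← hA₀', ← hV₁n]
        ring
      rw [hdec]
      have h6 := norm_sub_norm_le (a 0 * (V ^ ν - V₁ ^ ν))
        (-(V ^ ν * (a V - a 0) + (D V - μ * V) / V))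
      rw [sub_neg_eq_add, norm_neg] at h6
      have h7 := norm_add_le (V ^ ν * (a V - a 0)) ((D V - μ * V) / V)
      have h8 := hVa V hV'
      have h9 := hquot V hV'
      have h10 : 2 * C₂ * ρ * ‖V‖ ≤ 2 * C₂ * ρ * (2 * R₁) :=
        mul_le_mul_of_nonneg_left h2 (by positivity)
      have h11 : ‖μ‖ * (κ / 2) ≤ ‖μ‖ * ‖(1 + s) ^ ν - 1‖ :=
        mul_le_mul_of_nonneg_left h4 hμ0.le
      have h12 : 0 < ‖μ‖ * κ := by positivity
      rw [h5] at h6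
      linarith
    · rw [hdec, sub_self, mul_zero, zero_add]
      have h7 := norm_add_le (V₁ ^ ν * (a V₁ - a 0)) ((D V₁ - μ * V₁) / V₁)
      have h8 := hVa V₁ hV₁mem
      have h9 := hquot V₁ hV₁mem
      have h2 := (hdisc V₁ hV₁mem).2.1
      have h10 : 2 * C₂ * ρ * ‖V₁‖ ≤ 2 * C₂ * ρ * (2 * R₁) :=
        mul_le_mul_of_nonneg_left h2 (by positivity)
      have h12 : 0 < ‖μ‖ * κ := by positivity
      linarith
  obtain ⟨h1, h2, h3, h4, h5⟩ := hdisc V hV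
  have hVn : 0 < ‖V‖ := norm_pos_iff.2 h1
  obtain ⟨h6, h7, h8⟩ := hball V (by rw [mem_ball_zero_iff]; exact h4)
  rw [hh] at hV0
  simp only at hV0
  refine ⟨V, h5, h3, h6, ?_, ?_⟩
  · have e : V ^ (ν + 1) * a V + D V = V * (V ^ ν * a V + μ + (D V - μ * V) / V) := by
      field_simp
      ring
    rw [e, hV0, mul_zero]
  · -- the multiplier
    obtain ⟨e, he⟩ : ∃ e, e = (D V - μ * V) / V := ⟨_, rfl⟩
    have hen : ‖e‖ ≤ 2 * C₂ * ρ * (2 * R₁) := by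
      rw [he]
      exact (hquot V hV).trans (mul_le_mul_of_nonneg_left h2 (by positivity))
    rw [← he] at hV0
    have hVa' : V ^ ν * a V = -μ - e := by linear_combination hV0
    obtain ⟨y, hy⟩ : ∃ y, y = (ν : ℂ) * μ + ((ν + 1 : ℂ) * e - V ^ (ν + 1) * deriv a V -
      (deriv D V - μ)) := ⟨_, rfl⟩
    have hXy : 1 + ((ν + 1 : ℂ) * (V ^ ν * a V) + V ^ (ν + 1) * deriv a V) + deriv D V =
        1 - y := by
      rw [hy, hVa']
      ring
    rw [hXy]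
    have herr : ‖(ν + 1 : ℂ) * e - V ^ (ν + 1) * deriv a V - (deriv D V - μ)‖ ≤ ε / 2 * ρ := by
      have t1 := norm_sub_le ((ν + 1 : ℂ) * e - V ^ (ν + 1) * deriv a V) (deriv D V - μ)
      have t2 := norm_sub_le ((ν + 1 : ℂ) * e) (V ^ (ν + 1) * deriv a V)
      have t3 : ‖(ν + 1 : ℂ) * e‖ ≤ (ν + 1) * (2 * C₂ * ρ * (2 * R₁)) := by
        rw [norm_mul]
        have : ‖(ν + 1 : ℂ)‖ = ν + 1 := by
          have := Complex.norm_natCast (ν + 1)
          push_cast at this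
          exact this
        rw [this]
        exact mul_le_mul_of_nonneg_left hen (by positivity)
      have t4 : ‖V ^ (ν + 1) * deriv a V‖ ≤ 2 ^ (ν + 1) * (Cμ / A₀) * A' * (ρ * R₁) := by
        rw [norm_mul, norm_pow, pow_succ]
        have s1 : ‖V‖ ^ ν * ‖V‖ ≤ 2 ^ ν * (‖μ‖ / A₀) * (2 * R₁) :=
          mul_le_mul (hpow V hV) h2 (norm_nonneg _) (by positivity)
        have s2 : ‖V‖ ^ ν * ‖V‖ * ‖deriv a V‖ ≤ 2 ^ ν * (‖μ‖ / A₀) * (2 * R₁) * A' :=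
          mul_le_mul s1 h8.le (norm_nonneg _) (by positivity)
        have s3 : ‖μ‖ / A₀ ≤ Cμ / A₀ * ρ := by
          rw [div_mul_eq_mul_div]
          exact div_le_div_of_nonneg_right hμ2 hA₀.le
        have s4 : 2 ^ ν * (‖μ‖ / A₀) * (2 * R₁) * A' ≤ 2 ^ ν * (Cμ / A₀ * ρ) * (2 * R₁) * A' := by
          gcongr
        refine (s2.trans s4).trans (le_of_eq ?_)
        rw [pow_succ]
        ring
      have t5 : ‖deriv D V - μ‖ ≤ 2 * C₂ * ρ * (2 * R₁) :=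
        (hDb' V (by rw [mem_ball_zero_iff]; exact h3)).trans
          (mul_le_mul_of_nonneg_left h2 (by positivity))
      have t6 : (ν + 1) * (2 * C₂ * ρ * (2 * R₁)) + 2 ^ (ν + 1) * (Cμ / A₀) * A' * (ρ * R₁) +
          2 * C₂ * ρ * (2 * R₁) = C₃ * R₁ * ρ := by
        rw [hC₃]
        ring
      have t7 : C₃ * R₁ ≤ ε / 2 := by
        have s1 : R₁ ≤ ε / (2 * C₃) := hR₁s.le.trans hRs5
        rw [le_div_iff₀ (by positivity)] at s1
        linarith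
      have t8 : C₃ * R₁ * ρ ≤ ε / 2 * ρ := mul_le_mul_of_nonneg_right t7 hρ0.le
      linarith
    have hyre : ε / 2 * ρ ≤ y.re := by
      obtain ⟨E, hE⟩ : ∃ E, E = (ν + 1 : ℂ) * e - V ^ (ν + 1) * deriv a V - (deriv D V - μ) :=
        ⟨_, rfl⟩
      rw [← hE] at hy herr
      have t1 : |E.re| ≤ ε / 2 * ρ := (Complex.abs_re_le_norm E).trans herr
      rw [abs_le] at t1
      have t2 : ((ν : ℂ) * μ).re = ν * μ.re := by
        have : (ν : ℂ) = ((ν : ℝ) : ℂ) := by push_cast; rfl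
        rw [this, Complex.re_ofReal_mul]
      rw [hy, add_re, t2]
      have t3 : μ.re ≤ ν * μ.re := by
        have : 0 ≤ μ.re := by linarith
        nlinarith
      linarith
    have hyn : ‖y‖ ≤ C₄ * ρ := by
      rw [hy, hC₄]
      have t1 := norm_add_le ((ν : ℂ) * μ)
        ((ν + 1 : ℂ) * e - V ^ (ν + 1) * deriv a V - (deriv D V - μ))
      rw [norm_mul, Complex.norm_natCast] at t1
      have t2 : (ν : ℝ) * ‖μ‖ ≤ ν * (Cμ * ρ) := mul_le_mul_of_nonneg_left hμ2 (by positivity)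
      linarith
    have hsq : ‖1 - y‖ ^ 2 < 1 := by
      rw [← Complex.normSq_eq_norm_sq, Complex.normSq_apply]
      have t1 : ‖y‖ ^ 2 = y.re * y.re + y.im * y.im := by
        rw [← Complex.normSq_eq_norm_sq, Complex.normSq_apply]
      have t2 : ‖y‖ ^ 2 ≤ (C₄ * ρ) ^ 2 := pow_le_pow_left₀ (norm_nonneg _) hyn 2
      have t3 : (C₄ * ρ) ^ 2 < ε * ρ := by
        have : (C₄ * ρ) ^ 2 = ρ * C₄ ^ 2 * ρ := by ring
        rw [this]
        exact mul_lt_mul_of_pos_right hρ2 hρ0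
      simp only [sub_re, sub_im, one_re, one_im]
      nlinarith
    nlinarith [norm_nonneg (1 - y)]

end Pool.Agent.Y736.PD
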