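import Pool.Agent.Y736.PD3

set_option autoImplicit false

/-! # Attracting cycles near a simple satellite parameter -/

namespace Pool.Agent.Y736.PD

open Complex Metric Set Filter Topology Pool.Agent.H712R2 Pool.Agent.H713R2 N62a1eb23
open Pool.Agent.Y736.HL Pool.Agent.Y736.ML

/-- some cycle of `z ^ 2 + t` is attracting -/
def Hyp (t : ℂ) : Prop :=
  ∃ (N : ℕ) (z : ℂ), 1 ≤ N ∧ (fc 2 t)^[N] z = z ∧ ‖deriv ((fc 2 t)^[N]) z‖ < 1

theorem attr_region {t₀ : ℂ} {m q : ℕ} (hm : 1 ≤ m) (hq : 1 ≤ q) {δ₀ : ℝ} (hδ₀ : 0 < δ₀)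
    {z : ℂ → ℂ} (hzd : DifferentiableOn ℂ z (ball t₀ δ₀))
    (hzf : ∀ t ∈ ball t₀ δ₀, (fc 2 t)^[m] (z t) = z t)
    (hld : DifferentiableOn ℂ (fun t => deriv ((fc 2 t)^[m]) (z t)) (ball t₀ δ₀))
    (hl1 : deriv ((fc 2 t₀)^[m]) (z t₀) ^ q = 1)
    (hl' : deriv (fun t => deriv ((fc 2 t)^[m]) (z t)) t₀ ≠ 0) :
    ∃ κ : ℂ, κ ≠ 0 ∧ ∀ ε : ℝ, 0 < ε → ∃ δ : ℝ, 0 < δ ∧ ∀ t : ℂ, 0 < ‖t - t₀‖ → ‖t - t₀‖ < δ →
      ε * ‖t - t₀‖ ≤ |(κ * (t - t₀)).re| → Hyp t := by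
  obtain ⟨l, hl⟩ : ∃ l : ℂ → ℂ, l = fun t => deriv ((fc 2 t)^[m]) (z t) := ⟨_, rfl⟩
  have hlt : ∀ t, deriv ((fc 2 t)^[m]) (z t) = l t := fun t => by rw [hl]
  rw [← hl] at hld hl'
  rw [hlt] at hl1
  have hl0 : l t₀ ≠ 0 := by
    intro h
    rw [h, zero_pow (by omega)] at hl1
    exact zero_ne_one hl1
  have ht₀mem : t₀ ∈ ball t₀ δ₀ := mem_ball_self hδ₀
  obtain ⟨M, hM⟩ : ∃ M, M = m * q := ⟨_, rfl⟩
  have hM1 : 1 ≤ M := by rw [hM]; exact Nat.mul_pos hm hq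
  obtain ⟨z₀, hz₀⟩ : ∃ z₀, z₀ = z t₀ := ⟨_, rfl⟩
  -- the multiplier of the `M`-th iterate
  have hfixM : ∀ t ∈ ball t₀ δ₀, (fc 2 t)^[M] (z t) = z t := by
    intro t ht
    rw [hM, Function.iterate_mul]
    exact (show Function.IsFixedPt ((fc 2 t)^[m]) (z t) from hzf t ht).iterate q
  have hderM : ∀ t ∈ ball t₀ δ₀, deriv ((fc 2 t)^[M]) (z t) = l t ^ q := by
    intro t ht
    have h1 : HasDerivAt ((fc 2 t)^[m]) (l t) (z t) := by
      rw [← hlt]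
      exact (differentiable_iter t m (z t)).hasDerivAt
    have h2 := HasDerivAt.iterate (z t) h1 (hzf t ht) q
    rw [← Function.iterate_mul, ← hM] at h2
    exact h2.deriv
  obtain ⟨μ, hμ⟩ : ∃ μ : ℂ → ℂ, μ = fun t => l t ^ q - 1 := ⟨_, rfl⟩
  obtain ⟨κ, hκ⟩ : ∃ κ : ℂ, κ = (q : ℂ) * l t₀ ^ (q - 1) * deriv l t₀ := ⟨_, rfl⟩
  have hκ0 : κ ≠ 0 := by
    rw [hκ]
    exact mul_ne_zero (mul_ne_zero (Nat.cast_ne_zero.2 (by omega)) (pow_ne_zero _ hl0)) hl'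
  have hμd : HasDerivAt μ κ t₀ := by
    rw [hμ, hκ]
    exact ((hld.differentiableAt (isOpen_ball.mem_nhds ht₀mem)).hasDerivAt.pow q).sub_const 1
  have hμ0 : μ t₀ = 0 := by
    rw [hμ]
    simp only
    rw [hl1, sub_self]
  refine ⟨κ, hκ0, ?_⟩
  intro ε hε
  -- the germ at the parabolic parameter
  have hg : Differentiable ℂ ((fc 2 t₀)^[M]) := differentiable_iter t₀ M
  have hfix0 : (fc 2 t₀)^[M] z₀ = z₀ := by rw [hz₀]; exact hfixM t₀ ht₀mem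
  have hder0 : deriv ((fc 2 t₀)^[M]) z₀ = 1 := by rw [hz₀, hderM t₀ ht₀mem, hl1]
  obtain ⟨ν, a, hν, ha, ha0, hev⟩ := parabolic_germ hg hfix0 hder0 (iter_ne_id t₀ hM1)
  obtain ⟨r₀, hr₀, hgerm⟩ := Metric.eventually_nhds_iff_ball.1 hev
  -- Lipschitz bounds
  have hzd0 : HasDerivAt z (deriv z t₀) t₀ :=
    (hzd.differentiableAt (isOpen_ball.mem_nhds ht₀mem)).hasDerivAt
  obtain ⟨Cz, hCz⟩ : ∃ Cz : ℝ, Cz = ‖deriv z t₀‖ + 1 := ⟨_, rfl⟩
  have hCz0 : 0 < Cz := by rw [hCz]; positivity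
  have hzlip : ∀ᶠ t in 𝓝 t₀, ‖z t - z t₀‖ ≤ Cz * ‖t - t₀‖ := by
    have h1 := (hasDerivAt_iff_isLittleO.1 hzd0).def one_pos
    filter_upwards [h1] with t ht
    have h2 := norm_add_le (z t - z t₀ - (t - t₀) • deriv z t₀) ((t - t₀) • deriv z t₀)
    rw [sub_add_cancel, norm_smul] at h2
    rw [hCz]
    linarith
  have hμlip : ∀ᶠ t in 𝓝 t₀, ‖μ t - κ * (t - t₀)‖ ≤ ε / 4 * ‖t - t₀‖ := by
    have h1 := (hasDerivAt_iff_isLittleO.1 hμd).def (show 0 < ε / 4 by positivity)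
    filter_upwards [h1] with t ht
    rw [hμ0, sub_zero, smul_eq_mul, mul_comm (t - t₀)] at ht
    exact ht
  obtain ⟨B, hB⟩ : ∃ B, B = ‖t₀‖ + ‖z₀‖ + 3 := ⟨_, rfl⟩
  have hB0 : 0 ≤ B := by rw [hB]; positivity
  obtain ⟨D₀, hD₀, hlD⟩ := lipD hB0 M
  obtain ⟨C₂, hC₂⟩ : ∃ C₂, C₂ = D₀ * (1 + Cz) := ⟨_, rfl⟩
  have hC₂0 : 0 < C₂ := by rw [hC₂]; positivity
  obtain ⟨Cμ, hCμ⟩ : ∃ Cμ : ℝ, Cμ = ‖κ‖ + ε := ⟨_, rfl⟩
  have hCμ0 : 0 < Cμ := by rw [hCμ]; positivity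
  obtain ⟨δ₁, hδ₁, hattr⟩ := attr_abs hν ha ha0 hC₂0 hCμ0 (show 0 < 3 / 4 * ε by positivity) hr₀
  obtain ⟨δ₂, hδ₂, hball⟩ := Metric.eventually_nhds_iff_ball.1 (hzlip.and hμlip)
  refine ⟨min (min δ₀ δ₁) (min δ₂ (min (min 1 (1 / Cz)) (ε / Cμ ^ 2))), by positivity, ?_⟩
  intro t ht0 ht hre
  obtain ⟨ρ, hρ⟩ : ∃ ρ, ρ = ‖t - t₀‖ := ⟨_, rfl⟩
  have hta : t ∈ ball t₀ δ₀ := by
    rw [mem_ball_iff_norm]
    exact ht.trans_le ((min_le_left _ _).trans (min_le_left _ _))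
  have htb : ‖t - t₀‖ < δ₁ := ht.trans_le ((min_le_left _ _).trans (min_le_right _ _))
  have htc : t ∈ ball t₀ δ₂ := by
    rw [mem_ball_iff_norm]
    exact ht.trans_le ((min_le_right _ _).trans (min_le_left _ _))
  have htd : ‖t - t₀‖ < 1 := ht.trans_le ((min_le_right _ _).trans ((min_le_right _ _).trans
    ((min_le_left _ _).trans (min_le_left _ _))))
  have hte : ‖t - t₀‖ < 1 / Cz := ht.trans_le ((min_le_right _ _).trans ((min_le_right _ _).trans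
    ((min_le_left _ _).trans (min_le_right _ _))))
  have htf : ‖t - t₀‖ < ε / Cμ ^ 2 := ht.trans_le ((min_le_right _ _).trans
    ((min_le_right _ _).trans (min_le_right _ _)))
  obtain ⟨hz1, hμ1⟩ := hball t htc
  rw [← hρ] at ht0 htb htd hte htf hz1 hμ1 hre
  rw [lt_div_iff₀ hCz0] at hte
  rw [lt_div_iff₀ (by positivity)] at htf
  have hμn : ‖μ t‖ ≤ Cμ * ρ := by
    have h1 := norm_add_le (μ t - κ * (t - t₀)) (κ * (t - t₀))
    rw [sub_add_cancel, norm_mul, ← hρ] at h1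
    rw [hCμ]
    have : 0 < ε * ρ := by positivity
    linarith
  have hμre : |(μ t).re - (κ * (t - t₀)).re| ≤ ε / 4 * ρ := by
    rw [← sub_re]
    exact (Complex.abs_re_le_norm _).trans hμ1
  rw [abs_le] at hμre
  have hderMt : deriv ((fc 2 t)^[M]) (z t) = 1 + μ t := by
    rw [hderM t hta, hμ]
    ring
  rcases le_abs'.1 hre with h | h
  · -- the continued cycle is attracting
    refine ⟨M, z t, hM1, hfixM t hta, ?_⟩
    rw [hderMt]
    have h1 : (μ t).re ≤ -(3 / 4 * ε * ρ) := by linarith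
    have hsq : ‖1 + μ t‖ ^ 2 < 1 := by
      rw [← Complex.normSq_eq_norm_sq, Complex.normSq_apply]
      have t1 : ‖μ t‖ ^ 2 = (μ t).re * (μ t).re + (μ t).im * (μ t).im := by
        rw [← Complex.normSq_eq_norm_sq, Complex.normSq_apply]
      have t2 : ‖μ t‖ ^ 2 ≤ (Cμ * ρ) ^ 2 := pow_le_pow_left₀ (norm_nonneg _) hμn 2
      have t3 : (Cμ * ρ) ^ 2 < ε * ρ := by
        have : (Cμ * ρ) ^ 2 = ρ * Cμ ^ 2 * ρ := by ring
        rw [this]
        exact mul_lt_mul_of_pos_right htf ht0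
      simp only [add_re, add_im, one_re, one_im]
      have : 0 < ε * ρ := by positivity
      nlinarith
    nlinarith [norm_nonneg (1 + μ t)]
  · -- the bifurcated cycle is attracting
    have h1 : 3 / 4 * ε * ρ ≤ (μ t).re := by linarith
    have hztn : ‖z t‖ ≤ ‖z₀‖ + 1 := by
      have := norm_add_le (z t - z t₀) (z t₀)
      rw [sub_add_cancel, ← hz₀] at this
      rw [← hz₀] at hz1
      linarith
    have htn : ‖t‖ ≤ ‖t₀‖ + 1 := by
      have := norm_add_le (t - t₀) t₀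
      rw [sub_add_cancel, ← hρ] at this
      linarith
    obtain ⟨D, hD⟩ : ∃ D : ℂ → ℂ, D = fun V =>
        ((fc 2 t)^[M] (z t + V) - z t) - ((fc 2 t₀)^[M] (z₀ + V) - z₀) := ⟨_, rfl⟩
    have hDder : ∀ V, HasDerivAt D
        (deriv ((fc 2 t)^[M]) (z t + V) - deriv ((fc 2 t₀)^[M]) (z₀ + V)) V := by
      intro V
      rw [hD]
      exact (((differentiable_iter t M (z t + V)).hasDerivAt.comp_const_add (z t) V).sub_const
        (z t)).sub (((differentiable_iter t₀ M (z₀ + V)).hasDerivAt.comp_const_add z₀ V).sub_const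
        z₀)
    have hD0 : D 0 = 0 := by
      rw [hD]
      simp only [add_zero]
      rw [hfixM t hta, hfix0]
      ring
    have hD1 : deriv D 0 = μ t := by
      rw [(hDder 0).deriv, add_zero, add_zero, hderMt, hder0]
      ring
    have hDb : ∀ V ∈ ball (0 : ℂ) 1, ‖deriv D V‖ ≤ C₂ * ρ := by
      intro V hV
      rw [mem_ball_zero_iff] at hV
      rw [(hDder V).deriv]
      have s1 := norm_add_le (z t) V
      have s2 := norm_add_le z₀ V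
      have s3 := (hlD t t₀ (z t + V) (z₀ + V) (by rw [hB]; linarith [norm_nonneg z₀])
        (by rw [hB]; linarith [norm_nonneg z₀]) (by rw [hB]; linarith [norm_nonneg t₀])
        (by rw [hB]; linarith [norm_nonneg t₀])).2
      rw [add_sub_add_right_eq_sub, ← hρ] at s3
      refine s3.trans ?_
      rw [hC₂, mul_assoc]
      apply mul_le_mul_of_nonneg_left _ hD₀.le
      rw [hz₀]
      linarith
    obtain ⟨V, hV1, hV2, hV3, hV4, hV5⟩ := hattr ρ D (μ t) ht0 htb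
      (fun V _ => (hDder V).differentiableAt.differentiableWithinAt) hDb hD0 hD1 h1 hμn
    have hVr : V ∈ ball (0 : ℂ) r₀ := by rw [mem_ball_zero_iff]; exact hV1
    refine ⟨M, z t + V, hM1, ?_, ?_⟩
    · have e1 := hgerm V hVr
      have e2 : D V = ((fc 2 t)^[M] (z t + V) - z t) - ((fc 2 t₀)^[M] (z₀ + V) - z₀) := by rw [hD]
      rw [e1] at e2
      linear_combination hV4 - e2
    · -- the derivative
      have e1 : HasDerivAt (fun u => (fc 2 t₀)^[M] (z₀ + u)) (deriv ((fc 2 t₀)^[M]) (z₀ + V)) V :=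
        (differentiable_iter t₀ M (z₀ + V)).hasDerivAt.comp_const_add z₀ V
      have e2 : HasDerivAt (fun u => z₀ + u + u ^ (ν + 1) * a u)
          (1 + (((ν + 1 : ℕ) : ℂ) * V ^ (ν + 1 - 1) * a V + V ^ (ν + 1) * deriv a V)) V :=
        ((hasDerivAt_id V).const_add z₀).add
          ((hasDerivAt_pow (ν + 1) V).mul hV3.differentiableAt.hasDerivAt)
      have e3 : (fun u => (fc 2 t₀)^[M] (z₀ + u)) =ᶠ[𝓝 V] fun u => z₀ + u + u ^ (ν + 1) * a u := by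
        filter_upwards [isOpen_ball.mem_nhds hVr] with u hu using hgerm u hu
      have e4 := (e2.congr_of_eventuallyEq e3).unique e1
      have e5 : deriv ((fc 2 t)^[M]) (z t + V) = deriv D V + deriv ((fc 2 t₀)^[M]) (z₀ + V) := by
        rw [(hDder V).deriv]
        ring
      rw [e5, ← e4]
      refine lt_of_eq_of_lt ?_ hV5
      congr 1
      push_cast
      ring

end Pool.Agent.Y736.PD
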