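import Pool.Agent.Y736.PD1

set_option autoImplicit false

/-! # Areas of cones, a Baire argument for densities -/

namespace Pool.Agent.Y736.PD

open Complex Metric Set Filter Topology MeasureTheory Pool.Agent.H712R2 Pool.Agent.H713R2
  N62a1eb23
open Pool.Agent.Y736.HL Pool.Agent.Y736.ML

/-- thin strips in the unit disc have small area -/
theorem strip_small {κ : ℂ} (hκ : κ ≠ 0) {η : ℝ} (hη : 0 < η) : ∃ ε : ℝ, 0 < ε ∧
    volume {x : ℂ | ‖x‖ < 1 ∧ |(κ * x).re| < ε} ≤ ENNReal.ofReal η := by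
  obtain ⟨S, hS⟩ : ∃ S : ℕ → Set ℂ, S = fun n : ℕ => {x : ℂ | ‖x‖ < 1 ∧
    |(κ * x).re| < 1 / ((n : ℝ) + 1)} := ⟨_, rfl⟩
  have hmeas : ∀ n, NullMeasurableSet (S n) volume := by
    intro n
    rw [hS]
    apply MeasurableSet.nullMeasurableSet
    apply IsOpen.measurableSet
    exact (isOpen_lt continuous_norm continuous_const).inter
      (isOpen_lt (Complex.continuous_re.comp (continuous_const.mul continuous_id)).abs
        continuous_const)
  have hanti : Antitone S := by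
    intro i j hij x hx
    rw [hS] at hx ⊢
    refine ⟨hx.1, hx.2.trans_le ?_⟩
    apply one_div_le_one_div_of_le (by positivity)
    have : (i : ℝ) ≤ j := by exact_mod_cast hij
    linarith
  have hfin : ∃ n, volume (S n) ≠ ⊤ := by
    refine ⟨0, ?_⟩
    have hf : volume (ball (0 : ℂ) 1) ≠ ⊤ := measure_ball_lt_top.ne
    apply ne_top_of_le_ne_top hf
    apply measure_mono
    rw [hS]
    intro x hx
    rw [mem_ball_zero_iff]
    exact hx.1
  have h1 := tendsto_measure_iInter_atTop hmeas hanti hfin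
  have h2 : volume (⋂ n, S n) = 0 := by
    obtain ⟨L, hL⟩ : ∃ L : Submodule ℝ ℂ, (L : Set ℂ) = {x : ℂ | (κ * x).re = 0} := by
      refine ⟨{ carrier := {x : ℂ | (κ * x).re = 0}
                add_mem' := ?_, zero_mem' := ?_, smul_mem' := ?_ }, rfl⟩
      · intro x y hx hy
        rw [mem_setOf_eq] at hx hy ⊢
        rw [mul_add, add_re, hx, hy, add_zero]
      · rw [mem_setOf_eq, mul_zero, zero_re]
      · intro r x hx
        rw [mem_setOf_eq] at hx ⊢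
        rw [Complex.real_smul, mul_left_comm, Complex.re_ofReal_mul, hx, mul_zero]
    have hLt : L ≠ ⊤ := by
      intro h
      have h3 : (κ⁻¹ : ℂ) ∈ (L : Set ℂ) := by rw [h]; trivial
      rw [hL, mem_setOf_eq, mul_inv_cancel₀ hκ, one_re] at h3
      exact one_ne_zero h3
    apply measure_mono_null _ (Measure.addHaar_submodule volume L hLt)
    intro x hx
    rw [hL, mem_setOf_eq]
    rw [mem_iInter] at hx
    by_contra hne
    obtain ⟨n, hn⟩ := exists_nat_one_div_lt (abs_pos.2 hne)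
    have h3 := hx n
    rw [hS] at h3
    linarith [h3.2]
  rw [h2] at h1
  have h3 := (h1.eventually (gt_mem_nhds (ENNReal.ofReal_pos.2 hη))).exists
  obtain ⟨n, hn⟩ := h3
  refine ⟨1 / ((n : ℝ) + 1), by positivity, ?_⟩
  rw [hS] at hn
  exact hn.le

/-- density of the complement of a thin cone -/
theorem dens_cone {t₀ κ : ℂ} (hκ : κ ≠ 0) {S : Set ℂ}
    (h : ∀ ε : ℝ, 0 < ε → ∃ δ : ℝ, 0 < δ ∧ ∀ t : ℂ, 0 < ‖t - t₀‖ → ‖t - t₀‖ < δ →
      ε * ‖t - t₀‖ ≤ |(κ * (t - t₀)).re| → t ∉ S) {η : ℝ} (hη : 0 < η) :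
    ∃ δ : ℝ, 0 < δ ∧ ∀ ρ : ℝ, 0 < ρ → ρ < δ →
      volume (ball t₀ ρ ∩ S) ≤ ENNReal.ofReal (η * ρ ^ 2) := by
  obtain ⟨ε, hε, hvol⟩ := strip_small hκ hη
  obtain ⟨δ, hδ, hS⟩ := h ε hε
  refine ⟨δ, hδ, fun ρ hρ0 hρδ => ?_⟩
  have hsub : ball t₀ ρ ∩ S ⊆
      (fun x : ℂ => t₀ + x) '' ((fun x : ℂ => ρ • x) '' {x : ℂ | ‖x‖ < 1 ∧ |(κ * x).re| < ε}) := by
    rintro t ⟨ht, htS⟩
    rw [mem_ball_iff_norm] at ht
    refine ⟨t - t₀, ⟨ρ⁻¹ • (t - t₀), ⟨?_, ?_⟩, ?_⟩, by ring⟩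
    · rw [norm_smul, norm_inv, Real.norm_of_nonneg hρ0.le, inv_mul_lt_iff₀ hρ0, mul_one]
      exact ht
    · rcases eq_or_lt_of_le (norm_nonneg (t - t₀)) with h0 | h0
      · have : t - t₀ = 0 := norm_eq_zero.1 h0.symm
        rw [this, smul_zero, mul_zero, zero_re, abs_zero]
        exact hε
      · by_contra hcon
        push Not at hcon
        rw [Complex.real_smul, mul_left_comm, Complex.re_ofReal_mul, abs_mul,
          abs_of_pos (inv_pos.2 hρ0), inv_mul_eq_div, le_div_iff₀ hρ0] at hcon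
        exact hS t h0 (by linarith) (by nlinarith) htS
    · show ρ • (ρ⁻¹ • (t - t₀)) = t - t₀
      rw [smul_smul, mul_inv_cancel₀ hρ0.ne', one_smul]
  refine (measure_mono hsub).trans ?_
  have e1 : volume ((fun x : ℂ => t₀ + x) ''
      ((fun x : ℂ => ρ • x) '' {x : ℂ | ‖x‖ < 1 ∧ |(κ * x).re| < ε})) =
      volume ((fun x : ℂ => ρ • x) '' {x : ℂ | ‖x‖ < 1 ∧ |(κ * x).re| < ε}) := by
    rw [image_add_left, measure_preimage_add]
  rw [e1, image_smul, Measure.addHaar_smul, Complex.finrank_real_complex,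
    abs_of_nonneg (by positivity), mul_comm η, ENNReal.ofReal_mul (by positivity)]
  exact mul_le_mul_right hvol _

/-- Baire argument for upper densities -/
theorem baire_dens {ι : Type*} [Countable ι] {B : Set ℂ} (hB : IsClosed B) {E S : ι → Set ℂ}
    (hEB : ∀ i, E i ⊆ B) (hd : ∀ i, B ⊆ closure (E i))
    (hE : ∀ i, ∀ t ∈ E i, ∀ η : ℝ, 0 < η → ∃ δ : ℝ, 0 < δ ∧ ∀ ρ : ℝ, 0 < ρ → ρ < δ →
      volume (ball t ρ ∩ S i) ≤ ENNReal.ofReal (η * ρ ^ 2)) :
    ∃ G : Set ℂ, IsGδ G ∧ G ⊆ B ∧ B ⊆ closure G ∧ ∀ c ∈ G, ∀ i, ∀ η δ : ℝ, 0 < η → 0 < δ →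
      ∃ ρ : ℝ, 0 < ρ ∧ ρ < δ ∧ volume (ball c ρ ∩ S i) ≤ ENNReal.ofReal (η * ρ ^ 2) := by
  have hex : ∀ (p : ℕ × ι) (t : ℂ), t ∈ E p.2 → ∃ ρ : ℝ, 0 < ρ ∧ ρ < 1 / ((p.1 : ℝ) + 1) ∧
      volume (ball t (2 * ρ) ∩ S p.2) ≤
        ENNReal.ofReal (1 / ((p.1 : ℝ) + 1) / 4 * (2 * ρ) ^ 2) := by
    intro p t ht
    obtain ⟨δ, hδ, h⟩ := hE p.2 t ht (1 / ((p.1 : ℝ) + 1) / 4) (by positivity)
    refine ⟨min (δ / 4) (1 / ((p.1 : ℝ) + 1) / 2), by positivity, ?_, ?_⟩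
    · refine (min_le_right _ _).trans_lt ?_
      have : (0 : ℝ) < 1 / ((p.1 : ℝ) + 1) := by positivity
      linarith
    · apply h _ (by positivity)
      have := min_le_left (δ / 4) (1 / ((p.1 : ℝ) + 1) / 2)
      linarith
  choose! rad hr0 hr1 hr2 using hex
  obtain ⟨U, hU⟩ : ∃ U : ℕ × ι → Set ℂ, U = fun p => ⋃ t ∈ E p.2, ball t (rad p t) := ⟨_, rfl⟩
  have hUo : ∀ p, IsOpen (U p) := by
    intro p
    rw [hU]
    exact isOpen_biUnion fun t _ => isOpen_ball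
  have hEU : ∀ p, E p.2 ⊆ U p := by
    intro p t ht
    rw [hU]
    exact mem_biUnion ht (mem_ball_self (hr0 p t ht))
  refine ⟨B ∩ ⋂ p, U p, hB.isGδ.inter (IsGδ.iInter_of_isOpen hUo), inter_subset_left, ?_, ?_⟩
  · have : CompleteSpace B := hB.completeSpace_coe
    have h1 : Dense (⋂ p, ((↑) : B → ℂ) ⁻¹' U p) := by
      apply dense_iInter_of_isOpen (fun p => (hUo p).preimage continuous_subtype_val)
      intro p x
      rw [Metric.mem_closure_iff]
      intro ε hε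
      obtain ⟨t, ht, htd⟩ := Metric.mem_closure_iff.1 (hd p.2 x.2) ε hε
      exact ⟨⟨t, hEB p.2 ht⟩, hEU p ht, htd⟩
    intro x hx
    rw [Metric.mem_closure_iff]
    intro ε hε
    obtain ⟨y, hy, hyd⟩ := Metric.mem_closure_iff.1 (h1 ⟨x, hx⟩) ε hε
    refine ⟨y, ⟨y.2, ?_⟩, hyd⟩
    rw [mem_iInter] at hy ⊢
    exact fun n => hy n
  · rintro c ⟨hcB, hcU⟩ i η δ hη hδ
    obtain ⟨n, hn⟩ := exists_nat_one_div_lt (show 0 < min δ η from lt_min hδ hη)
    have hn1 : 1 / ((n : ℝ) + 1) < δ := hn.trans_le (min_le_left _ _)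
    have hn2 : 1 / ((n : ℝ) + 1) < η := hn.trans_le (min_le_right _ _)
    have h1 := mem_iInter.1 hcU (n, i)
    rw [hU] at h1
    obtain ⟨t, ht, hct⟩ := mem_iUnion₂.1 h1
    have hρ0 := hr0 (n, i) t ht
    have hρ1 := hr1 (n, i) t ht
    have hρ2 := hr2 (n, i) t ht
    obtain ⟨ρ, hρ⟩ : ∃ ρ, ρ = rad (n, i) t := ⟨_, rfl⟩
    rw [← hρ] at hρ0 hρ1 hρ2 hct
    simp only at hρ1 hρ2
    refine ⟨ρ, hρ0, hρ1.trans hn1, ?_⟩
    have hsub : ball c ρ ∩ S i ⊆ ball t (2 * ρ) ∩ S i := by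
      apply inter_subset_inter_left
      intro x hx
      rw [mem_ball] at hx hct ⊢
      have := dist_triangle x c t
      linarith
    refine (measure_mono hsub).trans (hρ2.trans ?_)
    apply ENNReal.ofReal_le_ofReal
    have h3 : 0 < ρ ^ 2 := by positivity
    have e : 1 / ((n : ℝ) + 1) / 4 * (2 * ρ) ^ 2 = 1 / ((n : ℝ) + 1) * ρ ^ 2 := by ring
    rw [e]
    exact mul_le_mul_of_nonneg_right hn2.le h3.le

/-- satellite parameters are not real numbers at least `1/4` -/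
theorem sat_slit {t z₀ : ℂ} {m q : ℕ} (hm : 1 ≤ m) (hq : 1 ≤ q)
    (hfix : (fc 2 t)^[m] z₀ = z₀) (hne : deriv ((fc 2 t)^[m]) z₀ ≠ 1)
    (hder : deriv ((fc 2 t)^[m]) z₀ ^ q = 1) : 1 - 4 * t ∈ slitPlane := by
  by_contra hcon
  rw [Complex.mem_slitPlane_iff] at hcon
  push Not at hcon
  obtain ⟨h1, h2⟩ := hcon
  obtain ⟨τ, hτ⟩ : ∃ τ : ℝ, τ = t.re := ⟨_, rfl⟩
  have him : t.im = 0 := by
    have : (1 - 4 * t).im = -4 * t.im := by
      simp
    rw [this] at h2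
    linarith
  have hre : 1 / 4 ≤ τ := by
    have : (1 - 4 * t).re = 1 - 4 * t.re := by
      simp
    rw [this] at h1
    linarith
  have htτ : t = (τ : ℂ) := by
    apply Complex.ext
    · rw [Complex.ofReal_re, hτ]
    · rw [Complex.ofReal_im, him]
  obtain ⟨x, hx⟩ : ∃ x : ℕ → ℝ, x = fun k => (fun y : ℝ => y ^ 2 + τ)^[k] 0 := ⟨_, rfl⟩
  have hxs : ∀ k, x (k + 1) = x k ^ 2 + τ := by
    intro k
    rw [hx]
    simp only
    rw [Function.iterate_succ_apply']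
  have hPx : ∀ k, P 2 k t = (x k : ℂ) := by
    intro k
    induction k with
    | zero => rw [hx]; simp [P_zero]
    | succ k ih =>
      rw [P_succ, ih, hxs, htτ]
      push_cast
      rfl
  have hmem := (parabolic_all hm hq hfix hder).1
  have hmono : Monotone x := by
    apply monotone_nat_of_le_succ
    intro k
    rw [hxs]
    nlinarith [sq_nonneg (x k - 1 / 2)]
  have hbdd : BddAbove (range x) := by
    refine ⟨2, ?_⟩
    rintro _ ⟨k, rfl⟩
    have := (mem_multibrot_iff le_rfl t).1 hmem k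
    rw [hPx, Complex.norm_real] at this
    exact (le_abs_self _).trans this
  obtain ⟨L, hL⟩ : ∃ L, Tendsto x atTop (𝓝 L) := ⟨_, tendsto_atTop_ciSup hmono hbdd⟩
  have hLfix : L = L ^ 2 + τ := by
    have h3 : Tendsto (fun k => x (k + 1)) atTop (𝓝 L) := (tendsto_add_atTop_iff_nat 1).2 hL
    have h4 : Tendsto (fun k => x k ^ 2 + τ) atTop (𝓝 (L ^ 2 + τ)) := (hL.pow 2).add_const τ
    have h5 : (fun k => x (k + 1)) = fun k => x k ^ 2 + τ := by
      funext k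
      exact hxs k
    rw [h5] at h3
    exact tendsto_nhds_unique h3 h4
  have hL2 : L = 1 / 2 := by nlinarith [sq_nonneg (L - 1 / 2)]
  -- the cycle is the fixed point `1/2`
  have hM : 1 ≤ m * q := Nat.mul_pos hm hq
  have hfix' : (fc 2 t)^[m * q] z₀ = z₀ := by
    rw [Function.iterate_mul]
    exact (show Function.IsFixedPt ((fc 2 t)^[m]) z₀ from hfix).iterate q
  have hder' : deriv ((fc 2 t)^[m * q]) z₀ = 1 := by
    have h1 : HasDerivAt ((fc 2 t)^[m]) (deriv ((fc 2 t)^[m]) z₀) z₀ :=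
      (differentiable_iter t m z₀).hasDerivAt
    have h2 := HasDerivAt.iterate z₀ h1 hfix q
    rw [hder, ← Function.iterate_mul] at h2
    exact h2.deriv
  obtain ⟨j, hj⟩ := fatou hM hfix' hder'
  have h6 : Tendsto (fun k => P 2 (j + m * q * k) t) atTop (𝓝 ((L : ℝ) : ℂ)) := by
    have h7 : Tendsto (fun k => P 2 k t) atTop (𝓝 ((L : ℝ) : ℂ)) := by
      have : (fun k => P 2 k t) = fun k => ((x k : ℝ) : ℂ) := by
        funext k
        exact hPx k
      rw [this]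
      exact (Complex.continuous_ofReal.tendsto L).comp hL
    apply h7.comp
    apply tendsto_atTop_mono (f := fun k => k) _ tendsto_id
    intro k
    have : k ≤ m * q * k := Nat.le_mul_of_pos_left k hM
    omega
  have h7 := tendsto_nhds_unique hj h6
  have hτ4 : τ = 1 / 4 := by
    rw [hL2] at hLfix
    linarith
  have h8 : HasDerivAt (fc 2 t) 1 z₀ := by
    have h9 := hasDerivAt_fc t z₀
    have e : 2 * z₀ = 1 := by
      rw [h7, hL2]
      push_cast
      ring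
    rwa [e] at h9
  have h9 : fc 2 t z₀ = z₀ := by
    have e : fc 2 t z₀ = z₀ ^ 2 + t := rfl
    rw [e, h7, hL2, htτ, hτ4]
    push_cast
    ring
  have h10 := HasDerivAt.iterate z₀ h8 h9 m
  rw [one_pow] at h10
  exact hne h10.deriv

end Pool.Agent.Y736.PD
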