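import Pool.Agent.Y736.PD4
import Pool.Agent.Y736.PD5
import Pool.Agent.Y298.CE.Por

set_option autoImplicit false

/-! # Upper densities of hyperbolic and of escaping parameters at generic boundary points -/

namespace Pool.Agent.Y736.PD

open Complex Metric Set Filter Topology MeasureTheory Pool.Agent.H712R2 Pool.Agent.H713R2
  N62a1eb23
open Pool.Agent.Y736.HL Pool.Agent.Y736.ML

/-- the area of the Mandelbrot set near a Collet-Eckmann parameter (copied from the hand-in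
`ColletEckmannArea` of helper298) -/
theorem ce_area : ∀ C₁ lam : ℝ, 1 ≤ C₁ → 1 < lam → ∃ K ε : ℝ, 0 < K ∧ 0 < ε ∧ ∀ c₀ : ℂ,
    c₀ ∈ multibrotSet 2 → (∀ n : ℕ, lam ^ n ≤ C₁ * ‖deriv ((fun z : ℂ => z ^ 2 + c₀)^[n]) c₀‖) →
      ∀ r : ℝ, 0 < r → r ≤ 1 →
        volume (multibrotSet 2 ∩ ball c₀ r) ≤ ENNReal.ofReal (K * r ^ (2 + ε)) := by
  intro C₁ lam hC₁ hlam
  have hl4 : 0 < Real.log 4 := Real.log_pos (by norm_num)
  have hll : 0 < Real.log lam := Real.log_pos hlam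
  by_cases h4 : lam ≤ 4
  · set β : ℝ := 1 - Real.log lam / Real.log 4 with hβ
    have hβ0 : 0 ≤ β := by
      have h5 : Real.log lam ≤ Real.log 4 := Real.log_le_log (by linarith) h4
      rw [hβ, sub_nonneg, div_le_one hl4]
      exact h5
    have hβ1 : β < 1 := by
      have : 0 < Real.log lam / Real.log 4 := by positivity
      rw [hβ]
      linarith
    set σ : ℝ := (1 + 2 / (1 + β)) / 2 with hσ
    have hp : 1 < 2 / (1 + β) := by
      rw [lt_div_iff₀ (by linarith)]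
      linarith
    have hσ1 : 1 < σ := by rw [hσ]; linarith
    have hσ2 : σ * (1 + β) < 2 := by
      have h5 : σ < 2 / (1 + β) := by rw [hσ]; linarith
      rwa [lt_div_iff₀ (by linarith)] at h5
    obtain ⟨C, α, hC, hα, H⟩ := Pool.Agent.Y298.SH.CE.green_uniform (C₂ := 2 * C₁) (β := β)
      (σ := σ) C₁ lam (by linarith) hβ0 (by linarith) hσ2
    obtain ⟨K, ε, hK, hε, H2⟩ := Pool.Agent.Y298.SH.CE.area_power hα hC hσ1
    refine ⟨K, ε, hK, hε, fun c₀ h₀ h₁ r hr0 hr1 => H2 c₀ (fun c hc hcc s hs => ?_) r hr0 hr1⟩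
    have h5 := Pool.Agent.Y298.SH.CE.cep_of_mem hC₁ hlam h₀ h₁
    exact H c₀ h5 h5.recB c (Pool.Agent.H637R4.PO.f_NRM 2 le_rfl c hc) hcc s hs
  · refine ⟨1, 1, one_pos, one_pos, fun c₀ h₀ h₁ r hr0 hr1 => ?_⟩
    exact absurd (Pool.Agent.Y298.SH.CE.cep_of_mem hC₁ hlam h₀ h₁).lam_le h4

/-- the Mandelbrot set has density zero at the parameters where the critical orbit lands -/
theorem land_dens {t : ℂ} (ht : 1 - 4 * t ∈ slitPlane) {n : ℕ} (hn : P 2 n t = bt t) :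
    t ∈ frontier (multibrotSet 2) ∧ ∀ η : ℝ, 0 < η → ∃ δ : ℝ, 0 < δ ∧ ∀ ρ : ℝ, 0 < ρ → ρ < δ →
      volume (ball t ρ ∩ multibrotSet 2) ≤ ENNReal.ofReal (η * ρ ^ 2) := by
  obtain ⟨hmem, C₁, lam, hC₁, hlam, hexp⟩ := ce_of_land ht hn
  obtain ⟨K, ε, hK, hε, h⟩ := ce_area C₁ lam hC₁ hlam
  have h1 := h t hmem hexp
  have h2 : ∀ η : ℝ, 0 < η → ∃ δ : ℝ, 0 < δ ∧ ∀ ρ : ℝ, 0 < ρ → ρ < δ →
      volume (ball t ρ ∩ multibrotSet 2) ≤ ENNReal.ofReal (η * ρ ^ 2) := by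
    intro η hη
    have h3 : Tendsto (fun ρ : ℝ => K * ρ ^ ε) (𝓝[>] 0) (𝓝 0) := by
      have h4 : ContinuousAt (fun x : ℝ => x ^ ε) 0 :=
        Real.continuousAt_rpow_const 0 _ (Or.inr hε.le)
      have h5 := h4.tendsto.const_mul K
      rw [Real.zero_rpow hε.ne', mul_zero] at h5
      exact h5.mono_left nhdsWithin_le_nhds
    have h4 := h3.eventually (gt_mem_nhds hη)
    rw [eventually_nhdsWithin_iff, Metric.eventually_nhds_iff] at h4
    obtain ⟨δ, hδ, h5⟩ := h4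
    refine ⟨min δ 1, by positivity, fun ρ hρ0 hρδ => ?_⟩
    have h6 := h5 (y := ρ) (by
      rw [Real.dist_eq, sub_zero, abs_of_pos hρ0]
      exact hρδ.trans_le (min_le_left _ _)) hρ0
    rw [inter_comm]
    refine (h1 ρ hρ0 (hρδ.le.trans (min_le_right _ _))).trans ?_
    apply ENNReal.ofReal_le_ofReal
    rw [Real.rpow_add hρ0, Real.rpow_two]
    have h7 : 0 < ρ ^ 2 := by positivity
    nlinarith
  refine ⟨?_, h2⟩
  rw [frontier_eq_closure_inter_closure]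
  refine ⟨subset_closure hmem, ?_⟩
  rw [Metric.mem_closure_iff]
  intro r hr
  by_contra hcon
  push Not at hcon
  obtain ⟨δ, hδ, h3⟩ := h2 1 one_pos
  obtain ⟨ρ, hρ⟩ : ∃ ρ, ρ = min (δ / 2) r := ⟨_, rfl⟩
  have hρ0 : 0 < ρ := by rw [hρ]; positivity
  have hρδ : ρ < δ := by
    have := min_le_left (δ / 2) r
    rw [hρ]
    linarith
  have h4 := h3 ρ hρ0 hρδ
  have h5 : ball t ρ ∩ multibrotSet 2 = ball t ρ := by
    rw [inter_eq_left]
    intro x hx
    by_contra hxM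
    have h6 := hcon x hxM
    rw [mem_ball, dist_comm] at hx
    have := min_le_right (δ / 2) r
    rw [← hρ] at this
    linarith
  rw [h5, Complex.volume_ball] at h4
  have h6 : ENNReal.ofReal ρ ^ 2 * (NNReal.pi : ENNReal) = ENNReal.ofReal (Real.pi * ρ ^ 2) := by
    rw [mul_comm Real.pi, ENNReal.ofReal_mul (by positivity), ENNReal.ofReal_pow hρ0.le]
    congr 1
    rw [ENNReal.ofReal, ← NNReal.coe_real_pi, Real.toNNReal_coe]
  rw [h6, ENNReal.ofReal_le_ofReal_iff (by positivity)] at h4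
  have h7 : 0 < ρ ^ 2 := by positivity
  have h8 := Real.pi_gt_three
  nlinarith

/-- simple satellite parameters: hyperbolic parameters have density one -/
def Sat : Set ℂ :=
  {t | t ∈ frontier (multibrotSet 2) ∧ ∀ η : ℝ, 0 < η → ∃ δ : ℝ, 0 < δ ∧ ∀ ρ : ℝ, 0 < ρ →
    ρ < δ → volume (ball t ρ ∩ {t | ¬ Hyp t}) ≤ ENNReal.ofReal (η * ρ ^ 2)}

theorem sat_dense' : frontier (multibrotSet 2) ⊆ closure Sat := by
  intro c hc
  rw [Metric.mem_closure_iff]
  intro ε hε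
  obtain ⟨t₀, ⟨_, m, q, z₀, hm, hq, h1, h2, h3⟩, htd⟩ :=
    Metric.mem_closure_iff.1 (sat_dense hc) (ε / 2) (by linarith)
  obtain ⟨t₁, ht₁, q₁, δ, z, hq₁, hδ, hzd, hzf, hld, hne, hder, hl'⟩ :=
    exists_simple hm hq h1 h2 h3 (show 0 < ε / 2 by linarith)
  refine ⟨t₁, ⟨?_, ?_⟩, ?_⟩
  · have hfix := hzf t₁ (mem_ball_self hδ)
    exact neutral_frontier hm (parabolic_all hm hq₁ hfix hder).1 hfix
      (norm_eq_one_of_pow_eq_one hder (by omega))
  · intro η hη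
    obtain ⟨κ, hκ, h⟩ := attr_region hm hq₁ hδ hzd hzf hld hder hl'
    apply dens_cone hκ _ hη
    intro ε' hε'
    obtain ⟨δ', hδ', h'⟩ := h ε' hε'
    exact ⟨δ', hδ', fun t ht0 ht hre hn => hn (h' t ht0 ht hre)⟩
  · rw [mem_ball, dist_comm] at ht₁
    have := dist_triangle c t₀ t₁
    linarith

/-- Misiurewicz parameters with density zero of the Mandelbrot set -/
def Mis : Set ℂ :=
  {t | t ∈ frontier (multibrotSet 2) ∧ ∀ η : ℝ, 0 < η → ∃ δ : ℝ, 0 < δ ∧ ∀ ρ : ℝ, 0 < ρ →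
    ρ < δ → volume (ball t ρ ∩ multibrotSet 2) ≤ ENNReal.ofReal (η * ρ ^ 2)}

theorem mis_dense : frontier (multibrotSet 2) ⊆ closure Mis := by
  intro c hc
  rw [Metric.mem_closure_iff]
  intro ε hε
  obtain ⟨t₀, ⟨hf, m, q, z₀, hm, hq, h1, h2, h3⟩, htd⟩ :=
    Metric.mem_closure_iff.1 (sat_dense hc) (ε / 2) (by linarith)
  obtain ⟨t, ht, hsl, n, hn⟩ := exists_land hf (sat_slit hm hq h1 h2 h3)
    (show 0 < ε / 2 by linarith)
  refine ⟨t, land_dens hsl hn, ?_⟩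
  rw [mem_ball, dist_comm] at ht
  have := dist_triangle c t₀ t
  linarith

/-- at generic boundary points both hyperbolic and escaping parameters have upper density one -/
theorem generic_dens : ∃ G : Set ℂ, IsGδ G ∧ G ⊆ frontier (multibrotSet 2) ∧
    frontier (multibrotSet 2) ⊆ closure G ∧ ∀ c ∈ G, ∀ η δ : ℝ, 0 < η → 0 < δ →
      (∃ ρ : ℝ, 0 < ρ ∧ ρ < δ ∧
        volume (ball c ρ ∩ {t | ¬ Hyp t}) ≤ ENNReal.ofReal (η * ρ ^ 2)) ∧
      ∃ ρ : ℝ, 0 < ρ ∧ ρ < δ ∧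
        volume (ball c ρ ∩ multibrotSet 2) ≤ ENNReal.ofReal (η * ρ ^ 2) := by
  obtain ⟨G, h1, h2, h3, h4⟩ := baire_dens (ι := Bool) (B := frontier (multibrotSet 2))
    isClosed_frontier (E := fun b => if b then Sat else Mis)
    (S := fun b => if b then {t | ¬ Hyp t} else multibrotSet 2)
    (by
      intro b
      cases b
      · exact fun t ht => ht.1
      · exact fun t ht => ht.1)
    (by
      intro b
      cases b
      · exact mis_dense
      · exact sat_dense')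
    (by
      intro b
      cases b
      · exact fun t ht => ht.2
      · exact fun t ht => ht.2)
  refine ⟨G, h1, h2, h3, fun c hc η δ hη hδ => ⟨h4 c hc true η δ hη hδ, h4 c hc false η δ hη hδ⟩⟩

end Pool.Agent.Y736.PD
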